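import Mathlib

/-! Interface for MP_d88725_gt (S09019), explicit parametric solution, see docs 462.
Horizontal plane = ℂ.  Outward normal `exp (I x)`, tangent `I exp (I x)`. -/

set_option autoImplicit false

open Complex Set

namespace Pool.Agent.Csz

abbrev E3 := EuclideanSpace ℝ (Fin 3)

/-- point with horizontal part `w` and height `z` -/
noncomputable def pt (w : ℂ) (z : ℝ) : E3 := !₂[w.re, w.im, z]

/-- outward unit normal with angle x -/
noncomputable def nn (x : ℝ) : ℂ := Complex.exp (x * I)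

/-- real scalar product in the plane -/
noncomputable def dot (m w : ℂ) : ℝ := ((starRingEnd ℂ) m * w).re

/-- smoothed positive part -/
structure Ramp (χ : ℝ → ℝ) (ε : ℝ) : Prop where
  pos : 0 < ε
  smooth : ContDiff ℝ (⊤ : ℕ∞) χ
  zero : ∀ s, s ≤ -ε → χ s = 0
  id : ∀ s, ε ≤ s → χ s = s
  symm : ∀ s, χ s - χ (-s) = s
  dnonneg : ∀ s, 0 ≤ deriv χ s
  dle : ∀ s, deriv χ s ≤ 1
  dmono : Monotone (deriv χ)
  dpos : ∀ s, -ε < s → 0 < deriv χ s

/-- a strictly convex closed curve parametrised by its normal angle -/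
structure Curve (P : ℝ → ℂ) (ρ : ℝ → ℝ) : Prop where
  smooth : ContDiff ℝ (⊤ : ℕ∞) P
  smoothρ : ContDiff ℝ (⊤ : ℕ∞) ρ
  der : ∀ x, HasDerivAt P (ρ x * (I * nn x)) x
  pos : ∀ x, 0 < ρ x
  per : ∀ x, P (x + 2 * Real.pi) = P x
  perρ : ∀ x, ρ (x + 2 * Real.pi) = ρ x

/-- smooth increasing lift of degree one from period 2π to period `b` -/
structure Lift (T : ℝ → ℝ) (b : ℝ) : Prop where
  smooth : ContDiff ℝ (⊤ : ℕ∞) T
  pos : ∀ x, 0 < deriv T x
  per : ∀ x, T (x + 2 * Real.pi) = T x + b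

/-- all the smooth data -/
structure SData where
  δ : ℝ
  κ : ℝ
  cA : ℂ
  cB : ℂ
  A : ℝ → ℂ
  B : ℝ → ℂ
  K : ℝ → ℂ
  ρA : ℝ → ℝ
  ρB : ℝ → ℝ
  ρK : ℝ → ℝ
  TA : ℝ → ℝ
  TB : ℝ → ℝ
  TK : ℝ → ℝ
  α : ℝ → ℝ
  β : ℝ → ℝ
  hδ : 0 < δ
  hδ2 : δ < 1 / 2
  hκ : 0 < κ
  hκδ : κ * δ < 1 / 2
  hA : Curve A ρA
  hB : Curve B ρB
  hK : Curve K ρK
  hTA : Lift TA 1
  hTB : Lift TB 1
  hTK : Lift TK 1
  hα : Lift α (2 * Real.pi)
  hβ : Lift β (2 * Real.pi)
  antiα : ∀ x, |α x - x| < Real.pi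
  antiβ : ∀ x, |β x - x| < Real.pi
  /-- ridge condition at the node K -/
  condK : ∀ x, 0 < dot (nn x)
    ((A (α x) - κ * δ * (A (α x) - cA)) + (B (β x) - κ * δ * (B (β x) - cB)) - 2 * K x)
  /-- ridge condition at the node A' -/
  condA1 : ∀ x, 0 < dot (nn (α x)) (κ * (A (α x) - cA) +
    (K x - (A (α x) - κ * δ * (A (α x) - cA))) / (1 - δ))
  /-- ridge condition at the node B' -/
  condB1 : ∀ x, 0 < dot (nn (β x)) (κ * (B (β x) - cB) +
    (K x - (B (β x) - κ * δ * (B (β x) - cB))) / (1 - δ))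
  /-- immersion at the caps A and B -/
  condA0 : ∀ y, 0 < dot (nn y) (B y - A y + 2 * κ * (A y - cA))
  condB0 : ∀ y, 0 < dot (nn y) (A y - B y + 2 * κ * (B y - cB))

namespace SData

variable (D : SData)

/-- the node curve A' (as a function of the normal angle) -/
noncomputable def Ap (y : ℝ) : ℂ := D.A y - D.κ * D.δ * (D.A y - D.cA)

/-- the node curve B' -/
noncomputable def Bp (y : ℝ) : ℂ := D.B y - D.κ * D.δ * (D.B y - D.cB)

/-- change of slope at A' -/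
noncomputable def wA (x : ℝ) : ℂ := D.κ * (D.A (D.α x) - D.cA) + (D.K x - D.Ap (D.α x)) / (1 - D.δ)

/-- change of slope at K -/
noncomputable def wK (x : ℝ) : ℂ := (D.Ap (D.α x) + D.Bp (D.β x) - 2 * D.K x) / (1 - D.δ)

/-- change of slope at B' -/
noncomputable def wB (x : ℝ) : ℂ := D.κ * (D.B (D.β x) - D.cB) + (D.K x - D.Bp (D.β x)) / (1 - D.δ)

/-- horizontal part of the inner chart, valid for σ ∈ [ε, 2 - ε]; the parameter x is the normal
angle of K -/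
noncomputable def Gin (χ : ℝ → ℝ) (σ x : ℝ) : ℂ :=
  D.Ap (D.α x) - (σ - D.δ) * (D.κ * (D.A (D.α x) - D.cA)) + χ (σ - D.δ) * D.wA x
    + χ (σ - 1) * D.wK x + χ (σ - (2 - D.δ)) * D.wB x

/-- inner chart -/
noncomputable def Fin' (χ : ℝ → ℝ) (p : ℝ × ℝ) : E3 := pt (D.Gin χ p.1 p.2) (p.1 - 1)

/-- second coordinate on the torus, inner chart -/
noncomputable def Kin (χ : ℝ → ℝ) (σ x : ℝ) : ℝ :=
  D.TA (D.α x) + χ (σ - D.δ) * ((D.TK x - D.TA (D.α x)) / (1 - D.δ))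
    + χ (σ - 1) * ((D.TA (D.α x) + D.TB (D.β x) - 2 * D.TK x) / (1 - D.δ))
    + χ (σ - (2 - D.δ)) * ((D.TK x - D.TB (D.β x)) / (1 - D.δ))

/-- horizontal part of the outer chart, valid for σ ∈ [2 - δ + ε, 3 + δ - ε]; the parameter y is
the common normal angle -/
noncomputable def Gout (χ : ℝ → ℝ) (σ y : ℝ) : ℂ :=
  D.B y + (σ - 2) * (D.κ * (D.B y - D.cB)) + χ (σ - 2) * (D.A y - D.B y - D.κ * (D.B y - D.cB))
    + χ (σ - 3) * (-(D.κ * (D.A y - D.cA)) - (D.A y - D.B y))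

/-- height in the outer chart -/
noncomputable def zout (χ : ℝ → ℝ) (σ : ℝ) : ℝ := (σ - 1) - 3 * χ (σ - 2) + 3 * χ (σ - 3)

/-- outer chart -/
noncomputable def Fout (χ : ℝ → ℝ) (p : ℝ × ℝ) : E3 := pt (D.Gout χ p.1 p.2) (zout χ p.1)

/-- second coordinate on the torus, outer chart -/
noncomputable def Kout (χ : ℝ → ℝ) (σ y : ℝ) : ℝ :=
  D.TB y + (χ (σ - 2) - χ (σ - 3)) * (D.TA y - D.TB y)

end SData

/-- a peak of `u` in the set `Ω`: local maximum from which one cannot climb inside `Ω`, and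
everything reachable at the same level is again a local maximum -/
def Peak {X : Type*} [TopologicalSpace X] (u : X → ℝ) (Ω : Set X) (p : X) : Prop :=
  p ∈ Ω ∧ IsLocalMax u p ∧ ∀ C : Set X, C ⊆ Ω → IsPreconnected C → p ∈ C →
    (∀ q ∈ C, u p ≤ u q) → ∀ q ∈ C, u q = u p ∧ IsLocalMax u q

/-- the projection to the torus: (σ, θ) ↦ (σ/3 mod 1, θ mod 1) -/
noncomputable def tor (σ θ : ℝ) : AddCircle (1 : ℝ) × AddCircle (1 : ℝ) :=
  (((σ / 3 : ℝ) : AddCircle (1 : ℝ)), ((θ : ℝ) : AddCircle (1 : ℝ)))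

end Pool.Agent.Csz
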