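import Mathlib
import Pool.Agent.Csz.Defs

/-! Piecewise linear side: vertices, node loops, closeness structure. -/

set_option autoImplicit false

open Complex Set

namespace Pool.Agent.Csz

/-- the seven vertices -/
noncomputable def vert : Fin 7 → E3 :=
  ![pt 0 0, pt 1 (-1), pt (-3 + 9 * I) 1, pt (-2 + I) 1, pt (-2 - I) (-1), pt (-3 - 9 * I) (-1),
    pt 1 1]

/-- the 14 faces -/
def faces : Set (Finset (Fin 7)) :=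
  Set.range (fun i : Fin 7 => ({i, i + 1, i + 3} : Finset (Fin 7))) ∪
    Set.range (fun i : Fin 7 => ({i, i + 2, i + 3} : Finset (Fin 7)))

/-- clamp to [0,1] -/
noncomputable def cl (t : ℝ) : ℝ := max 0 (min 1 t)

/-! inner loops, θ ∈ [0,10]; events: 0: B 6→2, 1: B 2→3, 2: K v0→q13, 3: K q13→q43, 4: A 1→4,
5: B 3→6, 6: K q43→q46, 7: K q46→v0, 8: A 4→5, 9: A 5→1 -/
noncomputable def VA0 (θ : ℝ) : ℂ := 1 + cl (θ - 4) * (-3 - I) + cl (θ - 8) * (-1 - 8 * I)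
  + cl (θ - 9) * (4 + 9 * I)
noncomputable def VB0 (θ : ℝ) : ℂ := 1 + cl θ * (-4 + 9 * I) + cl (θ - 1) * (1 - 8 * I)
  + cl (θ - 5) * (3 - I)
noncomputable def VK0 (θ : ℝ) : ℂ := cl (θ - 2) * ((-1 + I) / 2) + cl (θ - 3) * ((-3 - I) / 2)
  + cl (θ - 6) * ((3 - I) / 2) + cl (θ - 7) * ((1 + I) / 2)
noncomputable def TA0 (θ : ℝ) : ℝ := (cl (θ - 4) + cl (θ - 8) + cl (θ - 9)) / 3
noncomputable def TB0 (θ : ℝ) : ℝ := (cl θ + cl (θ - 1) + cl (θ - 5)) / 3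
noncomputable def TK0 (θ : ℝ) : ℝ := cl (θ - 2) / 3 + cl (θ - 3) / 6 + cl (θ - 6) / 6
  + cl (θ - 7) / 3

/-! outer loops, θ ∈ [0,6]; events: 0: B 6→2, 1: A 1→4, 2: A 4→5, 3: B 2→3, 4: B 3→6, 5: A 5→1 -/
noncomputable def VAo (θ : ℝ) : ℂ := 1 + cl (θ - 1) * (-3 - I) + cl (θ - 2) * (-1 - 8 * I)
  + cl (θ - 5) * (4 + 9 * I)
noncomputable def VBo (θ : ℝ) : ℂ := 1 + cl θ * (-4 + 9 * I) + cl (θ - 3) * (1 - 8 * I)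
  + cl (θ - 4) * (3 - I)
noncomputable def TAo (θ : ℝ) : ℝ := (cl (θ - 1) + cl (θ - 2) + cl (θ - 5)) / 3
noncomputable def TBo (θ : ℝ) : ℝ := (cl θ + cl (θ - 3) + cl (θ - 4)) / 3

/-- the smooth data is e-close to the piecewise linear data -/
structure Close (D : SData) (e : ℝ) : Prop where
  δle : D.δ ≤ e
  coneA : ∀ y, ‖(D.κ * D.δ * (D.A y - D.cA) : ℂ)‖ ≤ e
  coneB : ∀ y, ‖(D.κ * D.δ * (D.B y - D.cB) : ℂ)‖ ≤ e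
  inner : ∀ x : ℝ, ∃ θ ∈ Icc (0 : ℝ) 10, ∃ k : ℤ,
    ‖D.A (D.α x) - VA0 θ‖ ≤ e ∧ ‖D.K x - VK0 θ‖ ≤ e ∧ ‖D.B (D.β x) - VB0 θ‖ ≤ e ∧
    |D.TA (D.α x) - TA0 θ - k| ≤ e ∧ |D.TK x - TK0 θ - k| ≤ e ∧ |D.TB (D.β x) - TB0 θ - k| ≤ e
  outer : ∀ y : ℝ, ∃ θ ∈ Icc (0 : ℝ) 6, ∃ k : ℤ,
    ‖D.A y - VAo θ‖ ≤ e ∧ ‖D.B y - VBo θ‖ ≤ e ∧
    |D.TA y - TAo θ - k| ≤ e ∧ |D.TB y - TBo θ - k| ≤ e

/-- hat coefficients of the PL map -/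
noncomputable def hA (σ : ℝ) : ℝ := max (1 - σ) 0
noncomputable def hB (σ : ℝ) : ℝ := max (σ - 1) 0
noncomputable def hK (σ : ℝ) : ℝ := 1 - |σ - 1|

/-- PL inner chart -/
noncomputable def f0in (σ θ : ℝ) : E3 :=
  pt (hA σ * VA0 θ + hK σ * VK0 θ + hB σ * VB0 θ) (σ - 1)
noncomputable def k0in (σ θ : ℝ) : ℝ := hA σ * TA0 θ + hK σ * TK0 θ + hB σ * TB0 θ
/-- PL outer chart -/
noncomputable def f0out (σ θ : ℝ) : E3 :=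
  pt ((3 - σ) * VBo θ + (σ - 2) * VAo θ) (5 - 2 * σ)
noncomputable def k0out (σ θ : ℝ) : ℝ := (3 - σ) * TBo θ + (σ - 2) * TAo θ

end Pool.Agent.Csz
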