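import Mathlib
import Pool.Agent.Csz.Defs
import Pool.Agent.Csz.PL

/-! Shared definitions for exists_data (helper30 + helper164). -/

set_option autoImplicit false

open Complex Set

namespace Pool.Agent.Csz

/-- smooth steps of half width w -/
structure Step (w r : ℝ) (φ st : ℝ → ℝ) (E : ℝ → ℂ) : Prop where
  wpos : 0 < w
  wlt : w < 1 / 10
  rge : 1 / 2 ≤ r
  rle : r ≤ 1
  φsmooth : ContDiff ℝ (⊤ : ℕ∞) φ
  φnonneg : ∀ x, 0 ≤ φ x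
  φper : ∀ x, φ (x + 2 * Real.pi) = φ x
  φeven : ∀ x, φ (-x) = φ x
  φzero : ∀ x, -2 * Real.pi + w ≤ x → x ≤ -w → φ x = 0
  stsmooth : ContDiff ℝ (⊤ : ℕ∞) st
  stder : ∀ x, HasDerivAt st (φ x) x
  stper : ∀ x, st (x + 2 * Real.pi) = st x + 1
  stzero : ∀ x, -2 * Real.pi + w ≤ x → x ≤ -w → st x = 0
  Esmooth : ContDiff ℝ (⊤ : ℕ∞) E
  Eder : ∀ x, HasDerivAt E (((φ x / r : ℝ) : ℂ) * nn x) x
  Eper : ∀ x, E (x + 2 * Real.pi) = E x + 1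
  Ezero : ∀ x, -2 * Real.pi + w ≤ x → x ≤ -w → E x = 0
  Est : ∀ x, ‖E x - (st x : ℂ)‖ ≤ 2 * w

/-- the three basic angles: 0 < a9 < π/4 < π/2 < a14 < 3π/4 < a45 < π -/
noncomputable def a9 : ℝ := Complex.arg (9 + 4 * I)
noncomputable def a14 : ℝ := Complex.arg (-1 + 3 * I)
noncomputable def a45 : ℝ := Complex.arg (-8 + I)

noncomputable def VA (E : ℝ → ℂ) (x : ℝ) : ℂ :=
  1 + (-3 - I) * E (x - a14) + (-1 - 8 * I) * E (x - a45) + (4 + 9 * I) * E (x - (2 * Real.pi - a9))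
noncomputable def VB (E : ℝ → ℂ) (x : ℝ) : ℂ :=
  1 + (-4 + 9 * I) * E (x - a9) + (1 - 8 * I) * E (x - (2 * Real.pi - a45))
    + (3 - I) * E (x - (2 * Real.pi - a14))
noncomputable def VK (E : ℝ → ℂ) (x : ℝ) : ℂ :=
  ((-1 + I) / 2) * E (x - Real.pi / 4) + ((-3 - I) / 2) * E (x - a14)
    + ((3 - I) / 2) * E (x - (2 * Real.pi - a14)) + ((1 + I) / 2) * E (x - 7 * Real.pi / 4)

noncomputable def curveA (E : ℝ → ℂ) (t : ℝ) (x : ℝ) : ℂ := VA E x + t * nn x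
noncomputable def curveB (E : ℝ → ℂ) (t : ℝ) (x : ℝ) : ℂ := VB E x + t * nn x
/-- d = shrinking factor of the polygon K towards -1 -/
noncomputable def curveK (E : ℝ → ℂ) (t d : ℝ) (x : ℝ) : ℂ := (1 - d) * VK E x - d + t * nn x

noncomputable def rhoA (φ : ℝ → ℝ) (r t : ℝ) (x : ℝ) : ℝ :=
  t + (√10 * φ (x - a14) + √65 * φ (x - a45) + √97 * φ (x - (2 * Real.pi - a9))) / r
noncomputable def rhoB (φ : ℝ → ℝ) (r t : ℝ) (x : ℝ) : ℝ :=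
  t + (√97 * φ (x - a9) + √65 * φ (x - (2 * Real.pi - a45)) + √10 * φ (x - (2 * Real.pi - a14))) / r
noncomputable def rhoK (φ : ℝ → ℝ) (r t d : ℝ) (x : ℝ) : ℝ :=
  t + (1 - d) * ((√2 / 2) * φ (x - Real.pi / 4) + (√10 / 2) * φ (x - a14)
    + (√10 / 2) * φ (x - (2 * Real.pi - a14)) + (√2 / 2) * φ (x - 7 * Real.pi / 4)) / r

noncomputable def liftA (st : ℝ → ℝ) (ι : ℝ) (x : ℝ) : ℝ :=
  ι * x / (2 * Real.pi) + (1 - ι) * ((st (x - a14) + st (x - a45) + st (x - (2 * Real.pi - a9))) / 3)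
noncomputable def liftB (st : ℝ → ℝ) (ι : ℝ) (x : ℝ) : ℝ :=
  ι * x / (2 * Real.pi) + (1 - ι) *
    ((st (x - a9) + st (x - (2 * Real.pi - a45)) + st (x - (2 * Real.pi - a14))) / 3)
noncomputable def liftK (st : ℝ → ℝ) (ι : ℝ) (x : ℝ) : ℝ :=
  ι * x / (2 * Real.pi) + (1 - ι) * (st (x - Real.pi / 4) / 3 + st (x - a14) / 6
    + st (x - (2 * Real.pi - a14)) / 6 + st (x - 7 * Real.pi / 4) / 3)

/-- the schedule: passes a14 at x = a14 + ξ, a45 at x = 7π/4 + ξ, 2π - a9 at x = 2π - π/8 -/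
noncomputable def sched (st : ℝ → ℝ) (i2 ξ : ℝ) (x : ℝ) : ℝ :=
  i2 * x + (3 * Real.pi / 4 + a45) / 2 * st (x - (a14 + ξ))
    + (3 * Real.pi / 2 - (3 * Real.pi / 4 + a45) / 2) * st (x - (7 * Real.pi / 4 + ξ))
    + (Real.pi / 2 - 2 * Real.pi * i2) * st (x - (2 * Real.pi - Real.pi / 8))
/-- the mirror schedule -/
noncomputable def sched' (st : ℝ → ℝ) (i2 ξ : ℝ) (x : ℝ) : ℝ := -sched st i2 ξ (-x)

end Pool.Agent.Csz
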