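import Mathlib
import Pool.Agent.Csz.Defs
import Pool.Agent.Csz.Dat
set_option autoImplicit false
open Complex Set Filter Topology MeasureTheory

namespace Pool.Agent.Csz.Steps

/-- unnormalised even periodic bump -/
noncomputable def phi0 (w x : ℝ) : ℝ := expNegInvGlue (Real.cos x - Real.cos w)

theorem phi0_contDiff (w : ℝ) : ContDiff ℝ (⊤ : ℕ∞) (phi0 w) := by
  unfold phi0
  exact expNegInvGlue.contDiff.comp (Real.contDiff_cos.sub contDiff_const)

theorem phi0_nonneg (w x : ℝ) : 0 ≤ phi0 w x := expNegInvGlue.nonneg _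
theorem phi0_even (w x : ℝ) : phi0 w (-x) = phi0 w x := by unfold phi0; rw [Real.cos_neg]
theorem phi0_per (w x : ℝ) : phi0 w (x + 2 * Real.pi) = phi0 w x := by
  unfold phi0; rw [Real.cos_add_two_pi]

theorem phi0_continuous (w : ℝ) : Continuous (phi0 w) := (phi0_contDiff w).continuous

theorem phi0_zero {w x : ℝ} (hw : 0 < w) (h1 : w ≤ x)
    (h2 : x ≤ 2 * Real.pi - w) : phi0 w x = 0 := by
  unfold phi0
  apply expNegInvGlue.zero_of_nonpos
  rw [sub_nonpos]
  rcases le_total x Real.pi with h | h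
  · exact Real.cos_le_cos_of_nonneg_of_le_pi hw.le h h1
  · have : Real.cos x = Real.cos (2 * Real.pi - x) := by
      rw [Real.cos_two_pi_sub]
    rw [this]
    exact Real.cos_le_cos_of_nonneg_of_le_pi hw.le (by linarith) (by linarith)

theorem phi0_pos {w x : ℝ} (hw' : w < Real.pi) (h : |x| < w) : 0 < phi0 w x := by
  unfold phi0
  apply expNegInvGlue.pos_of_pos
  rw [sub_pos, ← Real.cos_abs x]
  exact Real.cos_lt_cos_of_nonneg_of_le_pi (abs_nonneg x) hw'.le h

/-- normalising constant -/
noncomputable def cw (w : ℝ) : ℝ := ∫ s in (-Real.pi)..Real.pi, phi0 w s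

theorem cw_pos {w : ℝ} (hw : 0 < w) (hw' : w < Real.pi) : 0 < cw w := by
  unfold cw
  have hpi := Real.pi_pos
  apply intervalIntegral.integral_pos (by linarith) (phi0_continuous w).continuousOn
  · intro x _; exact phi0_nonneg w x
  · exact ⟨0, ⟨by linarith, by linarith⟩, phi0_pos hw' (by simpa using hw)⟩

/-- normalised even periodic bump -/
noncomputable def phi (w x : ℝ) : ℝ := phi0 w x / cw w

section
variable {w : ℝ}

theorem phi_contDiff (w : ℝ) : ContDiff ℝ (⊤ : ℕ∞) (phi w) := (phi0_contDiff w).div_const _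
theorem phi_continuous (w : ℝ) : Continuous (phi w) := (phi_contDiff w).continuous
theorem phi_nonneg (hw : 0 < w) (hw' : w < Real.pi) (x : ℝ) : 0 ≤ phi w x :=
  div_nonneg (phi0_nonneg w x) (cw_pos hw hw').le
theorem phi_even (x : ℝ) : phi w (-x) = phi w x := by unfold phi; rw [phi0_even]
theorem phi_per (x : ℝ) : phi w (x + 2 * Real.pi) = phi w x := by unfold phi; rw [phi0_per]
theorem phi_zero (hw : 0 < w) {x : ℝ} (h1 : w ≤ x) (h2 : x ≤ 2 * Real.pi - w) : phi w x = 0 := by
  unfold phi; rw [phi0_zero hw h1 h2, zero_div]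
theorem phi_zero' (hw : 0 < w) {x : ℝ} (h1 : -(2 * Real.pi) + w ≤ x) (h2 : x ≤ -w) :
    phi w x = 0 := by
  rw [← phi_even]; exact phi_zero hw (by linarith) (by linarith)
theorem phi_zero_abs (hw : 0 < w) {x : ℝ} (h1 : w ≤ |x|) (h2 : |x| ≤ Real.pi) (hw' : w < Real.pi) :
    phi w x = 0 := by
  have hpi := Real.pi_pos
  rcases le_total 0 x with h | h
  · rw [abs_of_nonneg h] at h1 h2
    exact phi_zero hw h1 (by linarith)
  · rw [abs_of_nonpos h] at h1 h2
    exact phi_zero' hw (by linarith) (by linarith)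
theorem phi_integral (hw : 0 < w) (hw' : w < Real.pi) :
    ∫ s in (-Real.pi)..Real.pi, phi w s = 1 := by
  unfold phi
  rw [intervalIntegral.integral_div]
  exact div_self (cw_pos hw hw').ne'

/-- smooth lifted step -/
noncomputable def st (w x : ℝ) : ℝ := ∫ s in (-Real.pi)..x, phi w s

theorem st_hasDerivAt (w x : ℝ) : HasDerivAt (st w) (phi w x) x := by
  unfold st
  exact intervalIntegral.integral_hasDerivAt_right ((phi_continuous w).intervalIntegrable _ _)
    ((phi_continuous w).stronglyMeasurableAtFilter _ _) (phi_continuous w).continuousAt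

theorem st_differentiable (w : ℝ) : Differentiable ℝ (st w) :=
  fun x => (st_hasDerivAt w x).differentiableAt

theorem st_deriv (w : ℝ) : deriv (st w) = phi w := by
  funext x; exact (st_hasDerivAt w x).deriv

theorem st_contDiff (w : ℝ) : ContDiff ℝ (⊤ : ℕ∞) (st w) := by
  rw [contDiff_infty_iff_deriv]
  exact ⟨st_differentiable w, by rw [st_deriv]; exact phi_contDiff w⟩

theorem st_mono (hw : 0 < w) (hw' : w < Real.pi) : Monotone (st w) :=
  monotone_of_deriv_nonneg (st_differentiable w)
    (fun x => by rw [st_deriv]; exact phi_nonneg hw hw' x)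

theorem st_per (hw : 0 < w) (hw' : w < Real.pi) (x : ℝ) : st w (x + 2 * Real.pi) = st w x + 1 := by
  have hd : ∀ x : ℝ, HasDerivAt (fun x => st w (x + 2 * Real.pi) - st w x) 0 x := by
    intro x
    have h1 : HasDerivAt (fun x => st w (x + 2 * Real.pi)) (phi w (x + 2 * Real.pi)) x :=
      (st_hasDerivAt w (x + 2 * Real.pi)).comp_add_const x _
    have h2 := h1.sub (st_hasDerivAt w x)
    rwa [phi_per, sub_self] at h2
  have hc := is_const_of_deriv_eq_zero (f := fun x => st w (x + 2 * Real.pi) - st w x)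
    (fun x => (hd x).differentiableAt) (fun x => (hd x).deriv) x (-Real.pi)
  have h0 : st w (-Real.pi) = 0 := by unfold st; simp
  have h1 : st w (-Real.pi + 2 * Real.pi) = 1 := by
    have : -Real.pi + 2 * Real.pi = Real.pi := by ring
    rw [this]; exact phi_integral hw hw'
  simp only [h0, h1] at hc
  linarith

theorem st_zero (hw : 0 < w) {x : ℝ} (h1 : -(2 * Real.pi) + w ≤ x)
    (h2 : x ≤ -w) : st w x = 0 := by
  unfold st
  have hz : ∀ s ∈ uIcc (-Real.pi) x, phi w s = 0 := by
    intro s hs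
    rcases le_total (-Real.pi) x with h | h
    · rw [uIcc_of_le h] at hs
      have hpi := Real.pi_pos
      exact phi_zero' hw (by linarith [hs.1, hs.2]) (by linarith [hs.2])
    · rw [uIcc_of_ge h] at hs
      exact phi_zero' hw (by linarith [hs.1]) (by
        rcases le_total w Real.pi with hh | hh
        · linarith [hs.2]
        · linarith [hs.1, hs.2])
  rw [intervalIntegral.integral_congr (g := fun _ => (0:ℝ)) hz]
  simp

theorem st_one (hw : 0 < w) (hw' : w < Real.pi) {x : ℝ} (h1 : w ≤ x)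
    (h2 : x ≤ 2 * Real.pi - w) : st w x = 1 := by
  have := st_per hw hw' (x - 2 * Real.pi)
  rw [sub_add_cancel] at this
  rw [this, st_zero hw (by linarith) (by linarith), zero_add]

/-- normalisation of the exponential integral -/
noncomputable def rw' (w : ℝ) : ℝ := ∫ s in (-Real.pi)..Real.pi, phi w s * Real.cos s

theorem rw'_le (hw : 0 < w) (hw' : w < Real.pi) : rw' w ≤ 1 := by
  rw [← phi_integral hw hw']
  unfold rw'
  have hpi := Real.pi_pos
  apply intervalIntegral.integral_mono_on (by linarith)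
  · exact ((phi_continuous w).mul Real.continuous_cos).intervalIntegrable _ _
  · exact (phi_continuous w).intervalIntegrable _ _
  · intro s _
    have := phi_nonneg hw hw' s
    nlinarith [Real.cos_le_one s]

theorem le_rw' (hw : 0 < w) (hw' : w < Real.pi) : Real.cos w ≤ rw' w := by
  have hpi := Real.pi_pos
  have : Real.cos w = ∫ s in (-Real.pi)..Real.pi, phi w s * Real.cos w := by
    rw [intervalIntegral.integral_mul_const, phi_integral hw hw', one_mul]
  rw [this]
  unfold rw'
  apply intervalIntegral.integral_mono_on (by linarith)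
  · exact ((phi_continuous w).mul continuous_const).intervalIntegrable _ _
  · exact ((phi_continuous w).mul Real.continuous_cos).intervalIntegrable _ _
  · intro s hs
    rcases le_or_gt w |s| with h | h
    · rw [phi_zero_abs hw h (abs_le.2 ⟨hs.1, hs.2⟩) hw']; simp
    · have h1 := phi_nonneg hw hw' s
      have h2 : Real.cos w ≤ Real.cos s := by
        rw [← Real.cos_abs s]
        exact Real.cos_le_cos_of_nonneg_of_le_pi (abs_nonneg s) hw'.le h.le
      exact mul_le_mul_of_nonneg_left h2 h1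

theorem rw'_pos (hw : 0 < w) (hw' : w < Real.pi / 2) : 0 < rw' w :=
  lt_of_lt_of_le (Real.cos_pos_of_mem_Ioo ⟨by linarith [Real.pi_pos], hw'⟩)
    (le_rw' hw (by linarith [Real.pi_pos]))

/-- density of `E` -/
noncomputable def eps (w x : ℝ) : ℂ := ((phi w x / rw' w : ℝ) : ℂ) * nn x

theorem nn_contDiff : ContDiff ℝ (⊤ : ℕ∞) nn := by
  unfold nn
  have h : ContDiff ℝ (⊤ : ℕ∞) (fun x : ℝ => (x : ℂ) * I) :=
    (Complex.ofRealCLM.contDiff).mul contDiff_const
  exact h.cexp

theorem nn_hasDerivAt (x : ℝ) : HasDerivAt nn (I * nn x) x := by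
  unfold nn
  have h1 : HasDerivAt (fun x : ℝ => (x : ℂ) * I) (1 * I) x :=
    (Complex.ofRealCLM.hasDerivAt (x := x)).mul_const I
  have h2 := h1.cexp
  refine h2.congr_deriv ?_
  ring

theorem nn_per (x : ℝ) : nn (x + 2 * Real.pi) = nn x := by
  unfold nn
  push_cast
  rw [add_mul, Complex.exp_add]
  have : Complex.exp (2 * (Real.pi : ℂ) * I) = 1 := Complex.exp_two_pi_mul_I
  rw [this, mul_one]

theorem eps_contDiff (w : ℝ) : ContDiff ℝ (⊤ : ℕ∞) (eps w) := by
  unfold eps
  exact (Complex.ofRealCLM.contDiff.comp ((phi_contDiff w).div_const _)).mul nn_contDiff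

theorem eps_continuous (w : ℝ) : Continuous (eps w) := (eps_contDiff w).continuous

/-- complex step -/
noncomputable def Ew (w x : ℝ) : ℂ := ∫ s in (-Real.pi)..x, eps w s

theorem Ew_hasDerivAt (w x : ℝ) : HasDerivAt (Ew w) (eps w x) x := by
  unfold Ew
  exact intervalIntegral.integral_hasDerivAt_right ((eps_continuous w).intervalIntegrable _ _)
    ((eps_continuous w).stronglyMeasurableAtFilter _ _) (eps_continuous w).continuousAt

theorem Ew_differentiable (w : ℝ) : Differentiable ℝ (Ew w) :=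
  fun x => (Ew_hasDerivAt w x).differentiableAt

theorem Ew_deriv (w : ℝ) : deriv (Ew w) = eps w := by
  funext x; exact (Ew_hasDerivAt w x).deriv

theorem Ew_contDiff (w : ℝ) : ContDiff ℝ (⊤ : ℕ∞) (Ew w) := by
  rw [contDiff_infty_iff_deriv]
  exact ⟨Ew_differentiable w, by rw [Ew_deriv]; exact eps_contDiff w⟩

theorem eps_per (w x : ℝ) : eps w (x + 2 * Real.pi) = eps w x := by
  unfold eps; rw [phi_per, nn_per]

theorem eps_zero' (hw : 0 < w) {x : ℝ} (h1 : -(2 * Real.pi) + w ≤ x) (h2 : x ≤ -w) :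
    eps w x = 0 := by
  unfold eps; rw [phi_zero' hw h1 h2]; simp

theorem Ew_total (hw : 0 < w) (hw' : w < Real.pi / 2) :
    ∫ s in (-Real.pi)..Real.pi, eps w s = 1 := by
  have hpi := Real.pi_pos
  have hr := rw'_pos hw hw'
  have h1 : ∀ s, eps w s = (((phi w s * Real.cos s) / rw' w : ℝ) : ℂ)
      + (((phi w s * Real.sin s) / rw' w : ℝ) : ℂ) * I := by
    intro s
    unfold eps nn
    rw [Complex.exp_mul_I, ← Complex.ofReal_cos, ← Complex.ofReal_sin]
    push_cast
    ring
  have hc1 : Continuous (fun s => (phi w s * Real.cos s) / rw' w) :=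
    ((phi_continuous w).mul Real.continuous_cos).div_const _
  have hc2 : Continuous (fun s => (phi w s * Real.sin s) / rw' w) :=
    ((phi_continuous w).mul Real.continuous_sin).div_const _
  have h2 : ∫ s in (-Real.pi)..Real.pi, (phi w s * Real.cos s) / rw' w = 1 := by
    rw [intervalIntegral.integral_div]
    exact div_self hr.ne'
  have h3 : ∫ s in (-Real.pi)..Real.pi, (phi w s * Real.sin s) / rw' w = 0 := by
    set f : ℝ → ℝ := fun s => (phi w s * Real.sin s) / rw' w with hf
    have hodd : ∀ s, f (-s) = - f s := by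
      intro s; simp only [hf, phi_even, Real.sin_neg]; ring
    have := intervalIntegral.integral_comp_neg (f := f) (a := -Real.pi) (b := Real.pi)
    rw [neg_neg] at this
    have h4 : ∫ s in (-Real.pi)..Real.pi, f (-s) = - ∫ s in (-Real.pi)..Real.pi, f s := by
      rw [← intervalIntegral.integral_neg]
      congr 1; funext s; exact hodd s
    linarith
  have h5 : (fun s => eps w s) = fun s => (((phi w s * Real.cos s) / rw' w : ℝ) : ℂ)
      + (((phi w s * Real.sin s) / rw' w : ℝ) : ℂ) * I := funext h1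
  rw [h5, intervalIntegral.integral_add, intervalIntegral.integral_mul_const,
    intervalIntegral.integral_ofReal, intervalIntegral.integral_ofReal, h2, h3]
  · simp
  · exact (Complex.continuous_ofReal.comp hc1).intervalIntegrable _ _
  · exact ((Complex.continuous_ofReal.comp hc2).mul continuous_const).intervalIntegrable _ _

theorem Ew_per (hw : 0 < w) (hw' : w < Real.pi / 2) (x : ℝ) :
    Ew w (x + 2 * Real.pi) = Ew w x + 1 := by
  have hd : ∀ x : ℝ, HasDerivAt (fun x => Ew w (x + 2 * Real.pi) - Ew w x) 0 x := by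
    intro x
    have h1 : HasDerivAt (fun x => Ew w (x + 2 * Real.pi)) (eps w (x + 2 * Real.pi)) x :=
      (Ew_hasDerivAt w (x + 2 * Real.pi)).comp_add_const x _
    have h2 := h1.sub (Ew_hasDerivAt w x)
    rwa [eps_per, sub_self] at h2
  have hc := is_const_of_deriv_eq_zero (f := fun x => Ew w (x + 2 * Real.pi) - Ew w x)
    (fun x => (hd x).differentiableAt) (fun x => (hd x).deriv) x (-Real.pi)
  have h0 : Ew w (-Real.pi) = 0 := by unfold Ew; simp
  have h1 : Ew w (-Real.pi + 2 * Real.pi) = 1 := by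
    have : -Real.pi + 2 * Real.pi = Real.pi := by ring
    rw [this]; exact Ew_total hw hw'
  simp only [h0, h1] at hc
  have := congrArg (fun z => z + Ew w x) hc
  simp only [sub_add_cancel, sub_zero] at this
  rw [this]; ring

theorem Ew_zero (hw : 0 < w) {x : ℝ} (h1 : -(2 * Real.pi) + w ≤ x)
    (h2 : x ≤ -w) : Ew w x = 0 := by
  unfold Ew
  have hz : ∀ s ∈ uIcc (-Real.pi) x, eps w s = 0 := by
    intro s hs
    have hpi := Real.pi_pos
    rcases le_total (-Real.pi) x with h | h
    · rw [uIcc_of_le h] at hs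
      exact eps_zero' hw (by linarith [hs.1, hs.2]) (by linarith [hs.2])
    · rw [uIcc_of_ge h] at hs
      exact eps_zero' hw (by linarith [hs.1]) (by
        rcases le_total w Real.pi with hh | hh
        · linarith [hs.2]
        · linarith [hs.1, hs.2])
  rw [intervalIntegral.integral_congr (g := fun _ => (0:ℂ)) hz]
  simp

theorem Ew_one (hw : 0 < w) (hw' : w < Real.pi / 2) {x : ℝ} (h1 : w ≤ x)
    (h2 : x ≤ 2 * Real.pi - w) : Ew w x = 1 := by
  have := Ew_per hw hw' (x - 2 * Real.pi)
  rw [sub_add_cancel] at this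
  rw [this, Ew_zero hw (by linarith) (by linarith), zero_add]


theorem st_le_one' (hw : 0 < w) (hw' : w < Real.pi) {x : ℝ} (h1 : x ≤ Real.pi) : st w x ≤ 1 := by
  have h2 : st w x ≤ st w (2 * Real.pi - w) := st_mono hw hw' (by linarith)
  rwa [st_one hw hw' (by linarith) le_rfl] at h2

theorem point_bound (hw : 0 < w) (hw' : w < 1 / 10) {s : ℝ} (h1 : -Real.pi ≤ s)
    (h2 : s ≤ Real.pi) : ‖eps w s - ((phi w s : ℝ) : ℂ)‖ ≤ 2 * w * phi w s := by
  have hpi := Real.pi_gt_three
  have hwpi : w < Real.pi := by linarith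
  have hp := phi_nonneg hw hwpi s
  rcases le_or_gt w |s| with h | h
  · have hz := phi_zero_abs hw h (abs_le.2 ⟨h1, h2⟩) hwpi
    unfold eps
    rw [hz]; simp
  · have hcos : 1 - w ^ 2 / 2 ≤ Real.cos w := Real.one_sub_sq_div_two_le_cos
    have hr1 : 1 - w ^ 2 / 2 ≤ rw' w := le_trans hcos (le_rw' hw hwpi)
    have hr2 := rw'_le hw hwpi
    have hr0 : 0 < rw' w := by nlinarith
    have e1 : eps w s - ((phi w s : ℝ) : ℂ) =
        ((phi w s / rw' w : ℝ) : ℂ) * ((nn s - 1) + ((1 - rw' w : ℝ) : ℂ)) := by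
      unfold eps
      have : ((rw' w : ℝ) : ℂ) ≠ 0 := by exact_mod_cast hr0.ne'
      push_cast
      field_simp
      ring
    have e2 : ‖nn s - 1‖ ≤ |s| := by
      have h3 := Real.norm_exp_I_mul_ofReal_sub_one_le (x := s)
      unfold nn
      rw [mul_comm (s : ℂ) I]
      simpa using h3
    have e3 : ‖((1 - rw' w : ℝ) : ℂ)‖ ≤ w ^ 2 / 2 := by
      rw [Complex.norm_real, Real.norm_eq_abs, abs_of_nonneg (by linarith)]
      linarith
    rw [e1, norm_mul, Complex.norm_real, Real.norm_eq_abs, abs_of_nonneg (div_nonneg hp hr0.le)]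
    have e4 : ‖(nn s - 1) + ((1 - rw' w : ℝ) : ℂ)‖ ≤ w + w ^ 2 / 2 :=
      (norm_add_le _ _).trans (by linarith)
    have e5 : phi w s / rw' w * ‖(nn s - 1) + ((1 - rw' w : ℝ) : ℂ)‖ ≤
        phi w s / rw' w * (w + w ^ 2 / 2) :=
      mul_le_mul_of_nonneg_left e4 (div_nonneg hp hr0.le)
    refine e5.trans ?_
    rw [div_mul_eq_mul_div, div_le_iff₀ hr0]
    have e6 : w + w ^ 2 / 2 ≤ 2 * w * rw' w := by nlinarith
    nlinarith

theorem E_st_base (hw : 0 < w) (hw' : w < 1 / 10) {x : ℝ} (h1 : -Real.pi ≤ x)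
    (h2 : x ≤ Real.pi) : ‖Ew w x - ((st w x : ℝ) : ℂ)‖ ≤ 2 * w := by
  have hpi := Real.pi_gt_three
  have hwpi : w < Real.pi := by linarith
  have e1 : Ew w x - ((st w x : ℝ) : ℂ) =
      ∫ s in (-Real.pi)..x, (eps w s - ((phi w s : ℝ) : ℂ)) := by
    unfold Ew st
    rw [intervalIntegral.integral_sub, intervalIntegral.integral_ofReal]
    · exact (eps_continuous w).intervalIntegrable _ _
    · exact (Complex.continuous_ofReal.comp (phi_continuous w)).intervalIntegrable _ _
  rw [e1]
  have e2 : ‖∫ s in (-Real.pi)..x, (eps w s - ((phi w s : ℝ) : ℂ))‖ ≤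
      ∫ s in (-Real.pi)..x, 2 * w * phi w s := by
    apply intervalIntegral.norm_integral_le_of_norm_le h1
    · apply Filter.Eventually.of_forall
      intro s hs
      exact point_bound hw hw' (by linarith [hs.1]) (by linarith [hs.2])
    · exact (continuous_const.mul (phi_continuous w)).intervalIntegrable _ _
  refine e2.trans ?_
  rw [intervalIntegral.integral_const_mul]
  have : (∫ s in (-Real.pi)..x, phi w s) ≤ 1 := st_le_one' hw hwpi h2
  nlinarith

theorem E_st (hw : 0 < w) (hw' : w < 1 / 10) (x : ℝ) :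
    ‖Ew w x - ((st w x : ℝ) : ℂ)‖ ≤ 2 * w := by
  have hpi := Real.pi_gt_three
  have hper : Function.Periodic (fun x => Ew w x - ((st w x : ℝ) : ℂ)) (2 * Real.pi) := by
    intro x
    simp only
    rw [Ew_per hw (by linarith), st_per hw (by linarith)]
    push_cast; ring
  obtain ⟨y, hy, hxy⟩ := hper.exists_mem_Ico (by linarith) x (-Real.pi)
  rw [hxy]
  exact E_st_base hw hw' hy.1 (by linarith [hy.2])

end

theorem exists_step (w : ℝ) (hw : 0 < w) (hw' : w < 1 / 10) :
    ∃ (r : ℝ) (φ st : ℝ → ℝ) (E : ℝ → ℂ), Step w r φ st E := by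
  have hpi := Real.pi_gt_three
  have hwpi : w < Real.pi := by linarith
  have hcos : 1 - w ^ 2 / 2 ≤ Real.cos w := Real.one_sub_sq_div_two_le_cos
  have hr1 : 1 - w ^ 2 / 2 ≤ rw' w := le_trans hcos (le_rw' hw hwpi)
  refine ⟨rw' w, phi w, st w, Ew w, ?_⟩
  exact
    { wpos := hw
      wlt := hw'
      rge := by nlinarith
      rle := rw'_le hw hwpi
      φsmooth := phi_contDiff w
      φnonneg := phi_nonneg hw hwpi
      φper := phi_per
      φeven := phi_even
      φzero := fun x h1 h2 => phi_zero' hw (by linarith) h2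
      stsmooth := st_contDiff w
      stder := st_hasDerivAt w
      stper := st_per hw hwpi
      stzero := fun x h1 h2 => st_zero hw (by linarith) h2
      Esmooth := Ew_contDiff w
      Eder := Ew_hasDerivAt w
      Eper := Ew_per hw (by linarith)
      Ezero := fun x h1 h2 => Ew_zero hw (by linarith) h2
      Est := E_st hw hw' }

/-! ### curves -/

theorem nn_add (x y : ℝ) : nn (x + y) = nn x * nn y := by
  unfold nn
  push_cast
  rw [add_mul, Complex.exp_add]

theorem nn_arg (z : ℂ) : z = (‖z‖ : ℂ) * nn (Complex.arg z) := by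
  unfold nn
  exact (Complex.norm_mul_exp_arg_mul_I z).symm

theorem nn_neg' (x : ℝ) : nn (-x) = (starRingEnd ℂ) (nn x) := by
  unfold nn
  rw [← Complex.exp_conj]
  simp

theorem nn_two_pi_sub (x : ℝ) : nn (2 * Real.pi - x) = (starRingEnd ℂ) (nn x) := by
  have : 2 * Real.pi - x = -x + 2 * Real.pi := by ring
  rw [this, nn_per, nn_neg']

theorem norm_14 : ‖(-1 + 3 * I : ℂ)‖ = √10 := by
  rw [Complex.norm_def]; congr 1; simp [Complex.normSq_apply]; norm_num
theorem norm_45 : ‖(-8 + I : ℂ)‖ = √65 := by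
  rw [Complex.norm_def]; congr 1; simp [Complex.normSq_apply]; norm_num
theorem norm_9 : ‖(9 + 4 * I : ℂ)‖ = √97 := by
  rw [Complex.norm_def]; congr 1; simp [Complex.normSq_apply]; norm_num

theorem edge14 : (-3 - I : ℂ) = ((√10 : ℝ) : ℂ) * (I * nn a14) := by
  have h := nn_arg (-1 + 3 * I)
  rw [norm_14] at h
  change (-1 + 3 * I : ℂ) = (√10 : ℝ) * nn a14 at h
  calc (-3 - I : ℂ) = I * (-1 + 3 * I) := by ring_nf; rw [I_sq]; ring
    _ = I * ((√10 : ℝ) * nn a14) := by rw [← h]
    _ = _ := by ring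
theorem edge45 : (-1 - 8 * I : ℂ) = ((√65 : ℝ) : ℂ) * (I * nn a45) := by
  have h := nn_arg (-8 + I)
  rw [norm_45] at h
  change (-8 + I : ℂ) = (√65 : ℝ) * nn a45 at h
  calc (-1 - 8 * I : ℂ) = I * (-8 + I) := by ring_nf; rw [I_sq]; ring
    _ = I * ((√65 : ℝ) * nn a45) := by rw [← h]
    _ = _ := by ring
theorem edge9 : (-4 + 9 * I : ℂ) = ((√97 : ℝ) : ℂ) * (I * nn a9) := by
  have h := nn_arg (9 + 4 * I)
  rw [norm_9] at h
  change (9 + 4 * I : ℂ) = (√97 : ℝ) * nn a9 at h
  calc (-4 + 9 * I : ℂ) = I * (9 + 4 * I) := by ring_nf; rw [I_sq]; ring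
    _ = I * ((√97 : ℝ) * nn a9) := by rw [← h]
    _ = _ := by ring

theorem edge_conj {e : ℂ} {c a : ℝ} (h : e = (c : ℂ) * (I * nn a)) :
    -(starRingEnd ℂ) e = (c : ℂ) * (I * nn (2 * Real.pi - a)) := by
  rw [nn_two_pi_sub, h]
  simp

theorem edge14' : (3 - I : ℂ) = ((√10 : ℝ) : ℂ) * (I * nn (2 * Real.pi - a14)) := by
  rw [← edge_conj edge14]
  apply Complex.ext <;> simp
theorem edge45' : (1 - 8 * I : ℂ) = ((√65 : ℝ) : ℂ) * (I * nn (2 * Real.pi - a45)) := by
  rw [← edge_conj edge45]
  apply Complex.ext <;> simp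
theorem edge9' : (4 + 9 * I : ℂ) = ((√97 : ℝ) : ℂ) * (I * nn (2 * Real.pi - a9)) := by
  rw [← edge_conj edge9]
  apply Complex.ext <;> simp

theorem nn_pi4 : nn (Real.pi / 4) = ((√2 / 2 : ℝ) : ℂ) * (1 + I) := by
  unfold nn
  rw [Complex.exp_mul_I, ← Complex.ofReal_cos, ← Complex.ofReal_sin, Real.cos_pi_div_four,
    Real.sin_pi_div_four]
  ring

theorem edgeK1 : ((-1 + I) / 2 : ℂ) = ((√2 / 2 : ℝ) : ℂ) * (I * nn (Real.pi / 4)) := by
  rw [nn_pi4]
  have h : ((√2 : ℝ) : ℂ) * ((√2 : ℝ) : ℂ) = 2 := by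
    rw [← Complex.ofReal_mul, Real.mul_self_sqrt (by norm_num)]; norm_num
  push_cast
  calc ((-1 + I) / 2 : ℂ) = 2 / 4 * (I * (1 + I)) := by
        ring_nf; rw [I_sq]; ring
    _ = ((√2 : ℝ) : ℂ) * ((√2 : ℝ) : ℂ) / 4 * (I * (1 + I)) := by rw [h]
    _ = _ := by ring

theorem edgeK4 : ((1 + I) / 2 : ℂ) = ((√2 / 2 : ℝ) : ℂ) * (I * nn (7 * Real.pi / 4)) := by
  have h0 : (7 * Real.pi / 4 : ℝ) = 2 * Real.pi - Real.pi / 4 := by ring
  rw [h0, nn_two_pi_sub, nn_pi4, map_mul, Complex.conj_ofReal, map_add, map_one, Complex.conj_I]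
  have h : ((√2 : ℝ) : ℂ) * ((√2 : ℝ) : ℂ) = 2 := by
    rw [← Complex.ofReal_mul, Real.mul_self_sqrt (by norm_num)]; norm_num
  push_cast
  calc ((1 + I) / 2 : ℂ) = 2 / 4 * (I * (1 + -I)) := by
        ring_nf; rw [I_sq]; ring
    _ = ((√2 : ℝ) : ℂ) * ((√2 : ℝ) : ℂ) / 4 * (I * (1 + -I)) := by rw [h]
    _ = _ := by ring

theorem edgeK2 : ((-3 - I) / 2 : ℂ) = ((√10 / 2 : ℝ) : ℂ) * (I * nn a14) := by
  rw [edge14]; push_cast; ring

theorem edgeK3 : ((3 - I) / 2 : ℂ) = ((√10 / 2 : ℝ) : ℂ) * (I * nn (2 * Real.pi - a14)) := by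
  rw [edge14']; push_cast; ring

section
variable {w r : ℝ} {φ st : ℝ → ℝ} {E : ℝ → ℂ} (hS : Step w r φ st E)
include hS

theorem edge_der {e : ℂ} {c a : ℝ} (h : e = (c : ℂ) * (I * nn a)) (x : ℝ) :
    HasDerivAt (fun x => e * E (x - a)) (((c * φ (x - a) / r : ℝ) : ℂ) * (I * nn x)) x := by
  have h1 : HasDerivAt (fun x => E (x - a)) (((φ (x - a) / r : ℝ) : ℂ) * nn (x - a)) x :=
    (hS.Eder (x - a)).comp_sub_const x a
  have h2 := h1.const_mul e
  refine h2.congr_deriv ?_
  have h3 : nn x = nn (x - a) * nn a := by rw [← nn_add]; congr 1; ring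
  rw [h, h3]
  push_cast
  ring

theorem E_shift (a : ℝ) : ContDiff ℝ (⊤ : ℕ∞) (fun x => E (x - a)) :=
  hS.Esmooth.comp (contDiff_id.sub contDiff_const)
theorem st_shift (a : ℝ) : ContDiff ℝ (⊤ : ℕ∞) (fun x => st (x - a)) :=
  hS.stsmooth.comp (contDiff_id.sub contDiff_const)
theorem phi_shift (a : ℝ) : ContDiff ℝ (⊤ : ℕ∞) (fun x => φ (x - a)) :=
  hS.φsmooth.comp (contDiff_id.sub contDiff_const)

theorem E_shift_per (a x : ℝ) : E (x + 2 * Real.pi - a) = E (x - a) + 1 := by
  have : x + 2 * Real.pi - a = (x - a) + 2 * Real.pi := by ring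
  rw [this, hS.Eper]
theorem st_shift_per (a x : ℝ) : st (x + 2 * Real.pi - a) = st (x - a) + 1 := by
  have : x + 2 * Real.pi - a = (x - a) + 2 * Real.pi := by ring
  rw [this, hS.stper]
theorem phi_shift_per (a x : ℝ) : φ (x + 2 * Real.pi - a) = φ (x - a) := by
  have : x + 2 * Real.pi - a = (x - a) + 2 * Real.pi := by ring
  rw [this, hS.φper]

omit hS in
theorem tnn_contDiff (t : ℝ) : ContDiff ℝ (⊤ : ℕ∞) (fun x => (t : ℂ) * nn x) :=
  contDiff_const.mul nn_contDiff

omit hS in
theorem tnn_hasDerivAt (t x : ℝ) : HasDerivAt (fun x => (t : ℂ) * nn x) ((t : ℂ) * (I * nn x)) x :=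
  (nn_hasDerivAt x).const_mul _

theorem VA_smooth : ContDiff ℝ (⊤ : ℕ∞) (VA E) := by
  unfold VA
  exact (((contDiff_const.add (contDiff_const.mul (E_shift hS _))).add
    (contDiff_const.mul (E_shift hS _))).add (contDiff_const.mul (E_shift hS _)))
theorem VB_smooth : ContDiff ℝ (⊤ : ℕ∞) (VB E) := by
  unfold VB
  exact (((contDiff_const.add (contDiff_const.mul (E_shift hS _))).add
    (contDiff_const.mul (E_shift hS _))).add (contDiff_const.mul (E_shift hS _)))
theorem VK_smooth : ContDiff ℝ (⊤ : ℕ∞) (VK E) := by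
  unfold VK
  exact ((((contDiff_const.mul (E_shift hS _))).add
    (contDiff_const.mul (E_shift hS _))).add (contDiff_const.mul (E_shift hS _))).add
    (contDiff_const.mul (E_shift hS _))

theorem VA_der (x : ℝ) : HasDerivAt (VA E)
    ((((√10 * φ (x - a14) + √65 * φ (x - a45) + √97 * φ (x - (2 * Real.pi - a9))) / r : ℝ) : ℂ)
      * (I * nn x)) x := by
  have h1 := edge_der hS edge14 x
  have h2 := edge_der hS edge45 x
  have h3 := edge_der hS edge9' x
  have h := ((((hasDerivAt_const x (1 : ℂ)).add h1).add h2).add h3)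
  unfold VA
  refine h.congr_deriv ?_
  push_cast; ring

theorem VB_der (x : ℝ) : HasDerivAt (VB E)
    ((((√97 * φ (x - a9) + √65 * φ (x - (2 * Real.pi - a45)) +
      √10 * φ (x - (2 * Real.pi - a14))) / r : ℝ) : ℂ) * (I * nn x)) x := by
  have h1 := edge_der hS edge9 x
  have h2 := edge_der hS edge45' x
  have h3 := edge_der hS edge14' x
  have h := ((((hasDerivAt_const x (1 : ℂ)).add h1).add h2).add h3)
  unfold VB
  refine h.congr_deriv ?_
  push_cast; ring

theorem VK_der (x : ℝ) : HasDerivAt (VK E)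
    (((((√2 / 2) * φ (x - Real.pi / 4) + (√10 / 2) * φ (x - a14)
    + (√10 / 2) * φ (x - (2 * Real.pi - a14)) + (√2 / 2) * φ (x - 7 * Real.pi / 4)) / r : ℝ) : ℂ)
      * (I * nn x)) x := by
  have h1 := edge_der hS edgeK1 x
  have h2 := edge_der hS edgeK2 x
  have h3 := edge_der hS edgeK3 x
  have h4 := edge_der hS edgeK4 x
  have h := (((h1.add h2).add h3).add h4)
  unfold VK
  refine h.congr_deriv ?_
  push_cast; ring

theorem curveA_curve (t : ℝ) (ht : 0 < t) : Curve (curveA E t) (rhoA φ r t) := by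
  have hr : 0 < r := by linarith [hS.rge]
  refine ⟨?_, ?_, ?_, ?_, ?_, ?_⟩
  · unfold curveA
    exact (VA_smooth hS).add (tnn_contDiff t)
  · unfold rhoA
    exact contDiff_const.add ((((contDiff_const.mul (phi_shift hS _)).add
      (contDiff_const.mul (phi_shift hS _))).add (contDiff_const.mul (phi_shift hS _))).div_const _)
  · intro x
    have h := (VA_der hS x).add (tnn_hasDerivAt t x)
    unfold curveA rhoA
    refine h.congr_deriv ?_
    push_cast; ring
  · intro x
    unfold rhoA
    have h1 := hS.φnonneg (x - a14)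
    have h2 := hS.φnonneg (x - a45)
    have h3 := hS.φnonneg (x - (2 * Real.pi - a9))
    positivity
  · intro x
    unfold curveA VA
    rw [E_shift_per hS, E_shift_per hS, E_shift_per hS, nn_per]
    ring
  · intro x
    unfold rhoA
    rw [phi_shift_per hS, phi_shift_per hS, phi_shift_per hS]

theorem curveB_curve (t : ℝ) (ht : 0 < t) : Curve (curveB E t) (rhoB φ r t) := by
  have hr : 0 < r := by linarith [hS.rge]
  refine ⟨?_, ?_, ?_, ?_, ?_, ?_⟩
  · unfold curveB
    exact (VB_smooth hS).add (tnn_contDiff t)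
  · unfold rhoB
    exact contDiff_const.add ((((contDiff_const.mul (phi_shift hS _)).add
      (contDiff_const.mul (phi_shift hS _))).add (contDiff_const.mul (phi_shift hS _))).div_const _)
  · intro x
    have h := (VB_der hS x).add (tnn_hasDerivAt t x)
    unfold curveB rhoB
    refine h.congr_deriv ?_
    push_cast; ring
  · intro x
    unfold rhoB
    have h1 := hS.φnonneg (x - a9)
    have h2 := hS.φnonneg (x - (2 * Real.pi - a45))
    have h3 := hS.φnonneg (x - (2 * Real.pi - a14))
    positivity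
  · intro x
    unfold curveB VB
    rw [E_shift_per hS, E_shift_per hS, E_shift_per hS, nn_per]
    ring
  · intro x
    unfold rhoB
    rw [phi_shift_per hS, phi_shift_per hS, phi_shift_per hS]

theorem curveK_curve (t d : ℝ) (ht : 0 < t) (hd : d < 1) : Curve (curveK E t d) (rhoK φ r t d) := by
  have hr : 0 < r := by linarith [hS.rge]
  have hd' : 0 < 1 - d := by linarith
  refine ⟨?_, ?_, ?_, ?_, ?_, ?_⟩
  · unfold curveK
    exact ((contDiff_const.mul (VK_smooth hS)).sub contDiff_const).add (tnn_contDiff t)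
  · unfold rhoK
    exact contDiff_const.add ((contDiff_const.mul ((((contDiff_const.mul (phi_shift hS _)).add
      (contDiff_const.mul (phi_shift hS _))).add (contDiff_const.mul (phi_shift hS _))).add
      (contDiff_const.mul (phi_shift hS _)))).div_const _)
  · intro x
    have h := (((VK_der hS x).const_mul (1 - d : ℂ)).sub (hasDerivAt_const x (d : ℂ))).add
      (tnn_hasDerivAt t x)
    unfold curveK rhoK
    refine h.congr_deriv ?_
    push_cast; ring
  · intro x
    unfold rhoK
    have h1 := hS.φnonneg (x - Real.pi / 4)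
    have h2 := hS.φnonneg (x - a14)
    have h3 := hS.φnonneg (x - (2 * Real.pi - a14))
    have h4 := hS.φnonneg (x - 7 * Real.pi / 4)
    positivity
  · intro x
    unfold curveK VK
    rw [E_shift_per hS, E_shift_per hS, E_shift_per hS, E_shift_per hS, nn_per]
    ring
  · intro x
    unfold rhoK
    rw [phi_shift_per hS, phi_shift_per hS, phi_shift_per hS, phi_shift_per hS]

theorem st_shift_der (a x : ℝ) : HasDerivAt (fun x => st (x - a)) (φ (x - a)) x :=
  (hS.stder (x - a)).comp_sub_const x a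

omit hS in
theorem lin_der (ι x : ℝ) : HasDerivAt (fun x : ℝ => ι * x / (2 * Real.pi)) (ι / (2 * Real.pi)) x := by
  have := ((hasDerivAt_id x).const_mul ι).div_const (2 * Real.pi)
  simpa using this

theorem liftA_lift (ι : ℝ) (h0 : 0 < ι) (h1 : ι < 1) : Lift (liftA st ι) 1 := by
  have hpi := Real.pi_pos
  refine ⟨?_, ?_, ?_⟩
  · unfold liftA
    exact ((contDiff_const.mul contDiff_id).div_const _).add (contDiff_const.mul
      ((((st_shift hS _).add (st_shift hS _)).add (st_shift hS _)).div_const _))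
  · intro x
    have h := (lin_der ι x).add (((((st_shift_der hS a14 x).add (st_shift_der hS a45 x)).add
      (st_shift_der hS (2 * Real.pi - a9) x)).div_const 3).const_mul (1 - ι))
    have h' : HasDerivAt (liftA st ι) _ x := h
    rw [h'.deriv]
    have h1' : 0 < 1 - ι := by linarith
    have p1 := hS.φnonneg (x - a14)
    have p2 := hS.φnonneg (x - a45)
    have p3 := hS.φnonneg (x - (2 * Real.pi - a9))
    positivity
  · intro x
    unfold liftA
    rw [st_shift_per hS, st_shift_per hS, st_shift_per hS]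
    field_simp
    ring

theorem liftB_lift (ι : ℝ) (h0 : 0 < ι) (h1 : ι < 1) : Lift (liftB st ι) 1 := by
  have hpi := Real.pi_pos
  refine ⟨?_, ?_, ?_⟩
  · unfold liftB
    exact ((contDiff_const.mul contDiff_id).div_const _).add (contDiff_const.mul
      ((((st_shift hS _).add (st_shift hS _)).add (st_shift hS _)).div_const _))
  · intro x
    have h := (lin_der ι x).add (((((st_shift_der hS a9 x).add
      (st_shift_der hS (2 * Real.pi - a45) x)).add
      (st_shift_der hS (2 * Real.pi - a14) x)).div_const 3).const_mul (1 - ι))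
    have h' : HasDerivAt (liftB st ι) _ x := h
    rw [h'.deriv]
    have h1' : 0 < 1 - ι := by linarith
    have p1 := hS.φnonneg (x - a9)
    have p2 := hS.φnonneg (x - (2 * Real.pi - a45))
    have p3 := hS.φnonneg (x - (2 * Real.pi - a14))
    positivity
  · intro x
    unfold liftB
    rw [st_shift_per hS, st_shift_per hS, st_shift_per hS]
    field_simp
    ring

theorem liftK_lift (ι : ℝ) (h0 : 0 < ι) (h1 : ι < 1) : Lift (liftK st ι) 1 := by
  have hpi := Real.pi_pos
  refine ⟨?_, ?_, ?_⟩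
  · unfold liftK
    exact ((contDiff_const.mul contDiff_id).div_const _).add (contDiff_const.mul
      (((((st_shift hS _).div_const _).add ((st_shift hS _).div_const _)).add
        ((st_shift hS _).div_const _)).add ((st_shift hS _).div_const _)))
  · intro x
    have h := (lin_der ι x).add ((((((st_shift_der hS (Real.pi / 4) x).div_const 3).add
      ((st_shift_der hS a14 x).div_const 6)).add
      ((st_shift_der hS (2 * Real.pi - a14) x).div_const 6)).add
      ((st_shift_der hS (7 * Real.pi / 4) x).div_const 3)).const_mul (1 - ι))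
    have h' : HasDerivAt (liftK st ι) _ x := h
    rw [h'.deriv]
    have h1' : 0 < 1 - ι := by linarith
    have p1 := hS.φnonneg (x - Real.pi / 4)
    have p2 := hS.φnonneg (x - a14)
    have p3 := hS.φnonneg (x - (2 * Real.pi - a14))
    have p4 := hS.φnonneg (x - 7 * Real.pi / 4)
    positivity
  · intro x
    unfold liftK
    rw [st_shift_per hS, st_shift_per hS, st_shift_per hS, st_shift_per hS]
    field_simp
    ring

end

end Pool.Agent.Csz.Steps
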