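import Mathlib
import Pool.Agent.Csz.Dat
import Pool.Agent.Csz.Steps
set_option autoImplicit false
open Complex Set

namespace Pool.Agent.Csz.Ang

theorem cs9 : Real.cos a9 = 9 / √97 ∧ Real.sin a9 = 4 / √97 := by
  unfold a9
  rw [Complex.cos_arg (by
    intro h
    have := congrArg Complex.re h
    simp at this), Complex.sin_arg, Steps.norm_9]
  constructor <;> simp
theorem cs14 : Real.cos a14 = -1 / √10 ∧ Real.sin a14 = 3 / √10 := by
  unfold a14
  rw [Complex.cos_arg (by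
    intro h
    have := congrArg Complex.im h
    simp at this), Complex.sin_arg, Steps.norm_14]
  constructor <;> simp
theorem cs45 : Real.cos a45 = -8 / √65 ∧ Real.sin a45 = 1 / √65 := by
  unfold a45
  rw [Complex.cos_arg (by
    intro h
    have := congrArg Complex.im h
    simp at this), Complex.sin_arg, Steps.norm_45]
  constructor <;> simp

theorem s97 : 9.8 < √97 ∧ √97 < 9.9 := by
  constructor
  · rw [Real.lt_sqrt (by norm_num)]; norm_num
  · rw [Real.sqrt_lt' (by norm_num)]; norm_num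
theorem s10 : 3.16 < √10 ∧ √10 < 3.17 := by
  constructor
  · rw [Real.lt_sqrt (by norm_num)]; norm_num
  · rw [Real.sqrt_lt' (by norm_num)]; norm_num
theorem s65 : 8.06 < √65 ∧ √65 < 8.07 := by
  constructor
  · rw [Real.lt_sqrt (by norm_num)]; norm_num
  · rw [Real.sqrt_lt' (by norm_num)]; norm_num
theorem s2 : 1.41 < √2 ∧ √2 < 1.42 := by
  constructor
  · rw [Real.lt_sqrt (by norm_num)]; norm_num
  · rw [Real.sqrt_lt' (by norm_num)]; norm_num

/-- `0 ≤ arg z ≤ π` for `0 ≤ im z` -/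
theorem range9 : 0 ≤ a9 ∧ a9 ≤ Real.pi := ⟨Complex.arg_nonneg_iff.2 (by simp), Complex.arg_le_pi _⟩
theorem range14 : 0 ≤ a14 ∧ a14 ≤ Real.pi :=
  ⟨Complex.arg_nonneg_iff.2 (by simp), Complex.arg_le_pi _⟩
theorem range45 : 0 ≤ a45 ∧ a45 ≤ Real.pi :=
  ⟨Complex.arg_nonneg_iff.2 (by simp), Complex.arg_le_pi _⟩

/-- if `sin d ≥ c > 0` and `-π ≤ d ≤ π` then `d ≥ c` -/
theorem le_of_sin {d c : ℝ} (h1 : -Real.pi ≤ d) (hc : 0 < c) (h : c ≤ Real.sin d) : c ≤ d := by
  have hd : 0 < d := by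
    by_contra hcon
    push Not at hcon
    have := Real.sin_nonpos_of_nonpos_of_neg_pi_le hcon h1
    linarith
  exact h.trans (Real.sin_le hd.le)

theorem gaps : 2 / 5 ≤ a9 ∧ a9 + 1 / 3 ≤ Real.pi / 4 ∧ Real.pi / 2 + 3 / 10 ≤ a14 ∧
    a14 + 2 / 5 ≤ 3 * Real.pi / 4 ∧ 3 * Real.pi / 4 + 3 / 5 ≤ a45 ∧ a45 + 12 / 100 ≤ Real.pi := by
  obtain ⟨c9, s9⟩ := cs9
  obtain ⟨c14, s14⟩ := cs14
  obtain ⟨c45, s45⟩ := cs45
  obtain ⟨l97, u97⟩ := s97
  obtain ⟨l10, u10⟩ := s10
  obtain ⟨l65, u65⟩ := s65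
  obtain ⟨l2, u2⟩ := s2
  have hpi := Real.pi_gt_three
  have hs4 : Real.sin (Real.pi / 4) = √2 / 2 := Real.sin_pi_div_four
  have hc4 : Real.cos (Real.pi / 4) = √2 / 2 := Real.cos_pi_div_four
  have hs34 : Real.sin (3 * Real.pi / 4) = √2 / 2 := by
    have : 3 * Real.pi / 4 = Real.pi - Real.pi / 4 := by ring
    rw [this, Real.sin_pi_sub, hs4]
  have hc34 : Real.cos (3 * Real.pi / 4) = -(√2 / 2) := by
    have : 3 * Real.pi / 4 = Real.pi - Real.pi / 4 := by ring
    rw [this, Real.cos_pi_sub, hc4]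
  refine ⟨?_, ?_, ?_, ?_, ?_, ?_⟩
  · apply le_of_sin (by linarith [range9.1]) (by norm_num)
    rw [s9, le_div_iff₀ (by linarith)]; linarith
  · have h : 1 / 3 ≤ Real.pi / 4 - a9 := by
      apply le_of_sin (by linarith [range9.2]) (by norm_num)
      rw [Real.sin_sub, c9, s9, hs4, hc4]
      have e : √2 / 2 * (9 / √97) - √2 / 2 * (4 / √97) = (5 / 2 * √2) / √97 := by ring
      rw [e, le_div_iff₀ (by linarith)]; linarith
    linarith
  · have h : 3 / 10 ≤ a14 - Real.pi / 2 := by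
      apply le_of_sin (by linarith [range14.1]) (by norm_num)
      rw [Real.sin_sub_pi_div_two, c14]
      have e : -(-1 / √10) = 1 / √10 := by ring
      rw [e, le_div_iff₀ (by linarith)]; linarith
    linarith
  · have h : 2 / 5 ≤ 3 * Real.pi / 4 - a14 := by
      apply le_of_sin (by linarith [range14.2]) (by norm_num)
      rw [Real.sin_sub, c14, s14, hs34, hc34]
      have e : √2 / 2 * (-1 / √10) - -(√2 / 2) * (3 / √10) = √2 / √10 := by ring
      rw [e, le_div_iff₀ (by linarith)]; linarith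
    linarith
  · have h : 3 / 5 ≤ a45 - 3 * Real.pi / 4 := by
      apply le_of_sin (by linarith [range45.1]) (by norm_num)
      rw [Real.sin_sub, c45, s45, hs34, hc34]
      have e : 1 / √65 * -(√2 / 2) - -8 / √65 * (√2 / 2) = (7 / 2 * √2) / √65 := by ring
      rw [e, le_div_iff₀ (by linarith)]; linarith
    linarith
  · have h : 12 / 100 ≤ Real.pi - a45 := by
      apply le_of_sin (by linarith [range45.2]) (by norm_num)
      rw [Real.sin_pi_sub, s45, le_div_iff₀ (by linarith)]; linarith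
    linarith

theorem angles : 0 < a9 ∧ a9 < Real.pi / 4 ∧ Real.pi / 2 < a14 ∧ a14 < 3 * Real.pi / 4 ∧
    3 * Real.pi / 4 < a45 ∧ a45 < Real.pi := by
  obtain ⟨h1, h2, h3, h4, h5, h6⟩ := gaps
  refine ⟨?_, ?_, ?_, ?_, ?_, ?_⟩ <;> linarith

end Pool.Agent.Csz.Ang
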