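import Mathlib
import Pool.Agent.Csz.Defs

set_option autoImplicit false

open Complex Set

namespace Pool.Agent.Csz

namespace Inner1

variable {χ : ℝ → ℝ} {ε : ℝ}

theorem ramp_diff (h : Ramp χ ε) : Differentiable ℝ χ := h.smooth.differentiable (by simp)

theorem ramp_mono (h : Ramp χ ε) : Monotone χ :=
  monotone_of_deriv_nonneg (ramp_diff h) h.dnonneg

theorem ramp_convex (h : Ramp χ ε) : ConvexOn ℝ univ χ :=
  h.dmono.convexOn_univ_of_deriv (ramp_diff h)

theorem ramp_nonneg (h : Ramp χ ε) (s : ℝ) : 0 ≤ χ s := by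
  rcases le_total s (-ε) with h1 | h1
  · rw [h.zero s h1]
  · have := ramp_mono h h1
    rwa [h.zero _ le_rfl] at this

theorem ramp_sub_le (h : Ramp χ ε) {s t : ℝ} (hst : s ≤ t) : χ t - χ s ≤ t - s := by
  have := image_sub_le_mul_sub_of_deriv_le (f := χ) (C := 1) (ramp_diff h) h.dle hst
  simpa using this

theorem ramp_close (h : Ramp χ ε) (s : ℝ) : |χ s - max s 0| ≤ ε := by
  have hε := h.pos
  rcases le_total s (-ε) with h1 | h1
  · rw [h.zero s h1, max_eq_right (by linarith)]; simpa using hε.le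
  rcases le_total ε s with h2 | h2
  · rw [h.id s h2, max_eq_left (by linarith)]; simpa using hε.le
  have a1 := ramp_nonneg h s
  have a2 := ramp_mono h h2
  rw [h.id ε le_rfl] at a2
  have a3 : 0 ≤ max s 0 := le_max_right _ _
  have a4 : max s 0 ≤ ε := max_le h2 hε.le
  rw [abs_le]; constructor <;> linarith

/-- second difference is nonnegative -/
theorem ramp_second (h : Ramp χ ε) (t d : ℝ) (hd : 0 ≤ d) :
    0 ≤ χ (t + d) - 2 * χ t + χ (t - d) := by
  have := (ramp_convex h).2 (mem_univ (t + d)) (mem_univ (t - d)) (show (0 : ℝ) ≤ 1 / 2 by norm_num)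
    (show (0 : ℝ) ≤ 1 / 2 by norm_num) (by norm_num)
  simp only [smul_eq_mul] at this
  have e : 1 / 2 * (t + d) + 1 / 2 * (t - d) = t := by ring
  rw [e] at this
  linarith

end Inner1

open Inner1

theorem Kin_smooth (D : SData) (χ : ℝ → ℝ) (ε : ℝ) (h : Ramp χ ε) :
    ContDiff ℝ (⊤ : ℕ∞) (fun p : ℝ × ℝ => D.Kin χ p.1 p.2) ∧
    (∀ σ x, D.Kin χ σ (x + 2 * Real.pi) = D.Kin χ σ x + 1) ∧
    (∀ σ x, 0 < deriv (D.Kin χ σ) x) := by
  have hd : (0 : ℝ) < 1 - D.δ := by linarith [D.hδ2]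
  have sχ := h.smooth
  have sA := D.hTA.smooth.comp D.hα.smooth
  have sB := D.hTB.smooth.comp D.hβ.smooth
  have sK := D.hTK.smooth
  refine ⟨?_, ?_, ?_⟩
  · have cA : ContDiff ℝ (⊤ : ℕ∞) (fun p : ℝ × ℝ => D.TA (D.α p.2)) := sA.comp contDiff_snd
    have cB : ContDiff ℝ (⊤ : ℕ∞) (fun p : ℝ × ℝ => D.TB (D.β p.2)) := sB.comp contDiff_snd
    have cK : ContDiff ℝ (⊤ : ℕ∞) (fun p : ℝ × ℝ => D.TK p.2) := sK.comp contDiff_snd
    have c1 : ContDiff ℝ (⊤ : ℕ∞) (fun p : ℝ × ℝ => χ (p.1 - D.δ)) :=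
      sχ.comp (contDiff_fst.sub contDiff_const)
    have c2 : ContDiff ℝ (⊤ : ℕ∞) (fun p : ℝ × ℝ => χ (p.1 - 1)) :=
      sχ.comp (contDiff_fst.sub contDiff_const)
    have c3 : ContDiff ℝ (⊤ : ℕ∞) (fun p : ℝ × ℝ => χ (p.1 - (2 - D.δ))) :=
      sχ.comp (contDiff_fst.sub contDiff_const)
    unfold SData.Kin
    exact ((cA.add (c1.mul ((cK.sub cA).div_const _))).add
      (c2.mul (((cA.add cB).sub (contDiff_const.mul cK)).div_const _))).add
      (c3.mul ((cK.sub cB).div_const _))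
  · intro σ x
    unfold SData.Kin
    rw [D.hα.per, D.hβ.per, D.hTA.per, D.hTB.per, D.hTK.per]
    field_simp
    ring
  · intro σ x
    have dA : HasDerivAt (fun x => D.TA (D.α x)) (deriv D.TA (D.α x) * deriv D.α x) x :=
      HasDerivAt.comp x (D.hTA.smooth.differentiable (by simp) _).hasDerivAt
        (D.hα.smooth.differentiable (by simp) _).hasDerivAt
    have dB : HasDerivAt (fun x => D.TB (D.β x)) (deriv D.TB (D.β x) * deriv D.β x) x :=
      HasDerivAt.comp x (D.hTB.smooth.differentiable (by simp) _).hasDerivAt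
        (D.hβ.smooth.differentiable (by simp) _).hasDerivAt
    have dK : HasDerivAt D.TK (deriv D.TK x) x :=
      (D.hTK.smooth.differentiable (by simp) _).hasDerivAt
    have pA : 0 < deriv D.TA (D.α x) * deriv D.α x := mul_pos (D.hTA.pos _) (D.hα.pos _)
    have pB : 0 < deriv D.TB (D.β x) * deriv D.β x := mul_pos (D.hTB.pos _) (D.hβ.pos _)
    have pK : 0 < deriv D.TK x := D.hTK.pos _
    have hder : HasDerivAt (D.Kin χ σ) (deriv D.TA (D.α x) * deriv D.α x
        + χ (σ - D.δ) * ((deriv D.TK x - deriv D.TA (D.α x) * deriv D.α x) / (1 - D.δ))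
        + χ (σ - 1) * ((deriv D.TA (D.α x) * deriv D.α x + deriv D.TB (D.β x) * deriv D.β x
            - 2 * deriv D.TK x) / (1 - D.δ))
        + χ (σ - (2 - D.δ)) * ((deriv D.TK x - deriv D.TB (D.β x) * deriv D.β x) / (1 - D.δ)))
        x := by
      unfold SData.Kin
      exact ((dA.add (((dK.sub dA).div_const _).const_mul _)).add
        ((((dA.add dB).sub (dK.const_mul 2)).div_const _).const_mul _)).add
        (((dK.sub dB).div_const _).const_mul _)
    rw [hder.deriv]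
    set a := deriv D.TA (D.α x) * deriv D.α x
    set b := deriv D.TB (D.β x) * deriv D.β x
    set k := deriv D.TK x
    have e : a + χ (σ - D.δ) * ((k - a) / (1 - D.δ)) + χ (σ - 1) * ((a + b - 2 * k) / (1 - D.δ))
        + χ (σ - (2 - D.δ)) * ((k - b) / (1 - D.δ))
        = (((1 - D.δ) - (χ (σ - D.δ) - χ (σ - 1))) * a
          + (χ (σ - D.δ) - 2 * χ (σ - 1) + χ (σ - (2 - D.δ))) * k
          + (χ (σ - 1) - χ (σ - (2 - D.δ))) * b) / (1 - D.δ) := by
      field_simp
      ring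
    rw [e]
    have w1 : 0 ≤ (1 - D.δ) - (χ (σ - D.δ) - χ (σ - 1)) := by
      have := ramp_sub_le h (s := σ - 1) (t := σ - D.δ) (by linarith)
      linarith
    have w2 : 0 ≤ χ (σ - D.δ) - 2 * χ (σ - 1) + χ (σ - (2 - D.δ)) := by
      have := ramp_second h (σ - 1) (1 - D.δ) hd.le
      have e1 : σ - 1 + (1 - D.δ) = σ - D.δ := by ring
      have e2 : σ - 1 - (1 - D.δ) = σ - (2 - D.δ) := by ring
      rwa [e1, e2] at this
    have w3 : 0 ≤ χ (σ - 1) - χ (σ - (2 - D.δ)) := by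
      have := ramp_mono h (show σ - (2 - D.δ) ≤ σ - 1 by linarith)
      linarith
    apply div_pos _ hd
    -- the three weights sum to 1 - δ
    set p := (1 - D.δ) - (χ (σ - D.δ) - χ (σ - 1)) with hp
    set q := χ (σ - D.δ) - 2 * χ (σ - 1) + χ (σ - (2 - D.δ)) with hq
    set r := χ (σ - 1) - χ (σ - (2 - D.δ)) with hr
    have hsum : p + q + r = 1 - D.δ := by rw [hp, hq, hr]; ring
    have hm : 0 < min a (min k b) := lt_min pA (lt_min pK pB)
    have h1 : p * min a (min k b) ≤ p * a := mul_le_mul_of_nonneg_left (min_le_left _ _) w1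
    have h2 : q * min a (min k b) ≤ q * k :=
      mul_le_mul_of_nonneg_left ((min_le_right _ _).trans (min_le_left _ _)) w2
    have h3 : r * min a (min k b) ≤ r * b :=
      mul_le_mul_of_nonneg_left ((min_le_right _ _).trans (min_le_right _ _)) w3
    have h4 : (1 - D.δ) * min a (min k b) = p * min a (min k b) + q * min a (min k b)
        + r * min a (min k b) := by rw [← hsum]; ring
    have h5 : 0 < (1 - D.δ) * min a (min k b) := mul_pos hd hm
    linarith

theorem Inner1.contDiff_pt (G : ℝ × ℝ → ℂ) (z : ℝ × ℝ → ℝ) (hG : ContDiff ℝ (⊤ : ℕ∞) G)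
    (hz : ContDiff ℝ (⊤ : ℕ∞) z) : ContDiff ℝ (⊤ : ℕ∞) (fun p => pt (G p) (z p)) := by
  rw [contDiff_euclidean]
  intro i
  have hre : ContDiff ℝ (⊤ : ℕ∞) (fun p => (G p).re) := Complex.reCLM.contDiff.comp hG
  have him : ContDiff ℝ (⊤ : ℕ∞) (fun p => (G p).im) := Complex.imCLM.contDiff.comp hG
  fin_cases i
  · simpa [pt] using hre
  · simpa [pt] using him
  · simpa [pt] using hz

theorem Inner1.Gin_smooth (D : SData) (χ : ℝ → ℝ) (ε : ℝ) (h : Ramp χ ε) :
    ContDiff ℝ (⊤ : ℕ∞) (fun p : ℝ × ℝ => D.Gin χ p.1 p.2) := by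
  have sχ := h.smooth
  have ofR : ContDiff ℝ (⊤ : ℕ∞) (fun x : ℝ => (x : ℂ)) := Complex.ofRealCLM.contDiff
  have sA : ContDiff ℝ (⊤ : ℕ∞) (fun x => D.A (D.α x)) := D.hA.smooth.comp D.hα.smooth
  have sB : ContDiff ℝ (⊤ : ℕ∞) (fun x => D.B (D.β x)) := D.hB.smooth.comp D.hβ.smooth
  have sK := D.hK.smooth
  have sAp : ContDiff ℝ (⊤ : ℕ∞) (fun x => D.Ap (D.α x)) := by
    unfold SData.Ap
    exact sA.sub (contDiff_const.mul (sA.sub contDiff_const))
  have sBp : ContDiff ℝ (⊤ : ℕ∞) (fun x => D.Bp (D.β x)) := by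
    unfold SData.Bp
    exact sB.sub (contDiff_const.mul (sB.sub contDiff_const))
  have swA : ContDiff ℝ (⊤ : ℕ∞) D.wA := by
    unfold SData.wA
    exact (contDiff_const.mul (sA.sub contDiff_const)).add ((sK.sub sAp).div_const _)
  have swB : ContDiff ℝ (⊤ : ℕ∞) D.wB := by
    unfold SData.wB
    exact (contDiff_const.mul (sB.sub contDiff_const)).add ((sK.sub sBp).div_const _)
  have swK : ContDiff ℝ (⊤ : ℕ∞) D.wK := by
    unfold SData.wK
    exact ((sAp.add sBp).sub (contDiff_const.mul sK)).div_const _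
  have c0 : ContDiff ℝ (⊤ : ℕ∞) (fun p : ℝ × ℝ => ((p.1 : ℂ) - (D.δ : ℂ))) :=
    (ofR.comp contDiff_fst).sub contDiff_const
  have c1 : ContDiff ℝ (⊤ : ℕ∞) (fun p : ℝ × ℝ => ((χ (p.1 - D.δ) : ℝ) : ℂ)) :=
    ofR.comp (sχ.comp (contDiff_fst.sub contDiff_const))
  have c2 : ContDiff ℝ (⊤ : ℕ∞) (fun p : ℝ × ℝ => ((χ (p.1 - 1) : ℝ) : ℂ)) :=
    ofR.comp (sχ.comp (contDiff_fst.sub contDiff_const))
  have c3 : ContDiff ℝ (⊤ : ℕ∞) (fun p : ℝ × ℝ => ((χ (p.1 - (2 - D.δ)) : ℝ) : ℂ)) :=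
    ofR.comp (sχ.comp (contDiff_fst.sub contDiff_const))
  unfold SData.Gin
  exact ((((sAp.comp contDiff_snd).sub (c0.mul (contDiff_const.mul
    ((sA.comp contDiff_snd).sub contDiff_const)))).add
    (c1.mul (swA.comp contDiff_snd))).add (c2.mul (swK.comp contDiff_snd))).add
    (c3.mul (swB.comp contDiff_snd))

theorem Inner1.Gin_per (D : SData) (χ : ℝ → ℝ) (σ x : ℝ) :
    D.Gin χ σ (x + 2 * Real.pi) = D.Gin χ σ x := by
  unfold SData.Gin SData.wA SData.wK SData.wB SData.Ap SData.Bp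
  rw [D.hα.per, D.hβ.per, D.hA.per, D.hB.per, D.hK.per]

theorem Fin'_smooth (D : SData) (χ : ℝ → ℝ) (ε : ℝ) (h : Ramp χ ε) :
    ContDiff ℝ (⊤ : ℕ∞) (D.Fin' χ) ∧
    (∀ σ x, D.Fin' χ (σ, x + 2 * Real.pi) = D.Fin' χ (σ, x)) := by
  constructor
  · unfold SData.Fin'
    exact Inner1.contDiff_pt _ _ (Inner1.Gin_smooth D χ ε h) (contDiff_fst.sub contDiff_const)
  · intro σ x
    unfold SData.Fin'
    simp only
    rw [Inner1.Gin_per]

theorem agree_B (D : SData) (χ : ℝ → ℝ) (ε : ℝ) (hε : 2 * ε < D.δ) (h : Ramp χ ε) (σ x : ℝ)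
    (h1 : 2 - D.δ + ε < σ) (h2 : σ < 2 - ε) :
    D.Fin' χ (σ, x) = D.Fout χ (σ, D.β x) ∧ D.Kin χ σ x = D.Kout χ σ (D.β x) ∧
      D.Kin χ σ x = D.TB (D.β x) := by
  have hδ2 := D.hδ2
  have hδ := D.hδ
  have hp := h.pos
  have hd : (1 - D.δ) ≠ 0 := by linarith
  have hdc : (1 - (D.δ : ℂ)) ≠ 0 := by exact_mod_cast hd
  have e1 : χ (σ - D.δ) = σ - D.δ := h.id _ (by linarith)
  have e2 : χ (σ - 1) = σ - 1 := h.id _ (by linarith)
  have e3 : χ (σ - (2 - D.δ)) = σ - (2 - D.δ) := h.id _ (by linarith)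
  have e4 : χ (σ - 2) = 0 := h.zero _ (by linarith)
  have e5 : χ (σ - 3) = 0 := h.zero _ (by linarith)
  have hK : D.Kin χ σ x = D.TB (D.β x) := by
    unfold SData.Kin
    rw [e1, e2, e3]
    field_simp
    ring
  refine ⟨?_, ?_, hK⟩
  · unfold SData.Fin' SData.Fout
    simp only
    have hz : SData.zout χ σ = σ - 1 := by unfold SData.zout; rw [e4, e5]; ring
    have hG : D.Gin χ σ x = D.Gout χ σ (D.β x) := by
      unfold SData.Gin SData.Gout SData.wA SData.wK SData.wB SData.Bp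
      rw [e1, e2, e3, e4, e5]
      push_cast
      field_simp
      ring
    rw [hz, hG]
  · rw [hK]
    unfold SData.Kout
    rw [e4, e5]; ring

theorem agree_A (D : SData) (χ : ℝ → ℝ) (ε : ℝ) (hε : 2 * ε < D.δ) (h : Ramp χ ε) (σ x : ℝ)
    (h1 : 3 + ε < σ) (h2 : σ < 3 + D.δ - ε) :
    D.Fin' χ (σ - 3, x) = D.Fout χ (σ, D.α x) ∧ D.Kin χ (σ - 3) x = D.Kout χ σ (D.α x) ∧
      D.Kin χ (σ - 3) x = D.TA (D.α x) := by
  have hδ2 := D.hδ2
  have hδ := D.hδ
  have hp := h.pos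
  have e1 : χ (σ - 3 - D.δ) = 0 := h.zero _ (by linarith)
  have e2 : χ (σ - 3 - 1) = 0 := h.zero _ (by linarith)
  have e3 : χ (σ - 3 - (2 - D.δ)) = 0 := h.zero _ (by linarith)
  have e4 : χ (σ - 2) = σ - 2 := h.id _ (by linarith)
  have e5 : χ (σ - 3) = σ - 3 := h.id _ (by linarith)
  have hK : D.Kin χ (σ - 3) x = D.TA (D.α x) := by
    unfold SData.Kin
    rw [e1, e2, e3]
    ring
  refine ⟨?_, ?_, hK⟩
  · unfold SData.Fin' SData.Fout
    simp only
    have hz : SData.zout χ σ = σ - 3 - 1 := by unfold SData.zout; rw [e4, e5]; ring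
    have hG : D.Gin χ (σ - 3) x = D.Gout χ σ (D.α x) := by
      unfold SData.Gin SData.Gout SData.Ap
      rw [e1, e2, e3, e4, e5]
      push_cast
      ring
    rw [hz, hG]
  · rw [hK]
    unfold SData.Kout
    rw [e4, e5]; ring


namespace Inner1

theorem nn_ne (x : ℝ) : nn x ≠ 0 := Complex.exp_ne_zero _

/-- testing against the bisector direction -/
theorem comb_ne (a b : ℝ) (x y : ℝ) (ha : 0 ≤ a) (hb : 0 ≤ b) (hab : 0 < a + b)
    (hxy : |x - y| < Real.pi) : (a : ℂ) * (I * nn x) + b * (I * nn y) ≠ 0 := by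
  intro h0
  have h1 : (a : ℂ) * nn x + b * nn y = 0 := by
    have : I * ((a : ℂ) * nn x + b * nn y) = 0 := by rw [← h0]; ring
    rcases mul_eq_zero.1 this with h | h
    · exact absurd h I_ne_zero
    · exact h
  have hre : a * Real.cos x + b * Real.cos y = 0 := by
    have := congrArg Complex.re h1
    simpa [nn, Complex.exp_ofReal_mul_I_re, Complex.exp_ofReal_mul_I_im] using this
  have him : a * Real.sin x + b * Real.sin y = 0 := by
    have := congrArg Complex.im h1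
    simpa [nn, Complex.exp_ofReal_mul_I_re, Complex.exp_ofReal_mul_I_im] using this
  set m := (x + y) / 2 with hm
  have e1 : Real.cos x * Real.cos m + Real.sin x * Real.sin m = Real.cos ((x - y) / 2) := by
    rw [← Real.cos_sub]; congr 1; rw [hm]; ring
  have e2 : Real.cos y * Real.cos m + Real.sin y * Real.sin m = Real.cos ((x - y) / 2) := by
    rw [← Real.cos_sub, ← Real.cos_neg]; congr 1; rw [hm]; ring
  have hc : 0 < Real.cos ((x - y) / 2) := by
    apply Real.cos_pos_of_mem_Ioo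
    have := abs_lt.1 hxy
    constructor <;> linarith [this.1, this.2]
  have : (a + b) * Real.cos ((x - y) / 2) = 0 := by
    calc (a + b) * Real.cos ((x - y) / 2)
        = a * (Real.cos x * Real.cos m + Real.sin x * Real.sin m)
          + b * (Real.cos y * Real.cos m + Real.sin y * Real.sin m) := by rw [e1, e2]; ring
      _ = (a * Real.cos x + b * Real.cos y) * Real.cos m
          + (a * Real.sin x + b * Real.sin y) * Real.sin m := by ring
      _ = 0 := by rw [hre, him]; ring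
  have := mul_pos hab hc
  linarith

/-- derivative of `Gin` in terms of the derivatives of the node curves; `s1 s2 s3` are the values of
the ramps -/
noncomputable def Lin (D : SData) (a b k : ℂ) (σ s1 s2 s3 : ℝ) : ℂ :=
  (a - D.κ * D.δ * a) - (σ - D.δ) * (D.κ * a)
    + s1 * (D.κ * a + (k - (a - D.κ * D.δ * a)) / (1 - D.δ))
    + s2 * (((a - D.κ * D.δ * a) + (b - D.κ * D.δ * b) - 2 * k) / (1 - D.δ))
    + s3 * (D.κ * b + (k - (b - D.κ * D.δ * b)) / (1 - D.δ))

theorem Gin_hasDerivAt (D : SData) (χ : ℝ → ℝ) (σ x : ℝ) :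
    HasDerivAt (D.Gin χ σ) (Lin D
      (D.ρA (D.α x) * deriv D.α x * (I * nn (D.α x)))
      (D.ρB (D.β x) * deriv D.β x * (I * nn (D.β x)))
      (D.ρK x * (I * nn x)) σ (χ (σ - D.δ)) (χ (σ - 1)) (χ (σ - (2 - D.δ)))) x := by
  have dα : HasDerivAt D.α (deriv D.α x) x := (D.hα.smooth.differentiable (by simp) _).hasDerivAt
  have dβ : HasDerivAt D.β (deriv D.β x) x := (D.hβ.smooth.differentiable (by simp) _).hasDerivAt
  have dA : HasDerivAt (fun x => D.A (D.α x))
      (D.ρA (D.α x) * deriv D.α x * (I * nn (D.α x))) x := by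
    have := (D.hA.der (D.α x)).scomp x dα
    convert! this using 1
    rw [Complex.real_smul]; ring
  have dB : HasDerivAt (fun x => D.B (D.β x))
      (D.ρB (D.β x) * deriv D.β x * (I * nn (D.β x))) x := by
    have := (D.hB.der (D.β x)).scomp x dβ
    convert! this using 1
    rw [Complex.real_smul]; ring
  have dK := D.hK.der x
  have dAp : HasDerivAt (fun x => D.Ap (D.α x)) (D.ρA (D.α x) * deriv D.α x * (I * nn (D.α x))
      - D.κ * D.δ * (D.ρA (D.α x) * deriv D.α x * (I * nn (D.α x)))) x := by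
    unfold SData.Ap
    exact dA.sub ((dA.sub_const _).const_mul _)
  have dBp : HasDerivAt (fun x => D.Bp (D.β x)) (D.ρB (D.β x) * deriv D.β x * (I * nn (D.β x))
      - D.κ * D.δ * (D.ρB (D.β x) * deriv D.β x * (I * nn (D.β x)))) x := by
    unfold SData.Bp
    exact dB.sub ((dB.sub_const _).const_mul _)
  have dwA : HasDerivAt D.wA (D.κ * (D.ρA (D.α x) * deriv D.α x * (I * nn (D.α x)))
      + (D.ρK x * (I * nn x) - (D.ρA (D.α x) * deriv D.α x * (I * nn (D.α x))
      - D.κ * D.δ * (D.ρA (D.α x) * deriv D.α x * (I * nn (D.α x))))) / (1 - D.δ)) x := by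
    unfold SData.wA
    exact ((dA.sub_const _).const_mul _).add ((dK.sub dAp).div_const _)
  have dwB : HasDerivAt D.wB (D.κ * (D.ρB (D.β x) * deriv D.β x * (I * nn (D.β x)))
      + (D.ρK x * (I * nn x) - (D.ρB (D.β x) * deriv D.β x * (I * nn (D.β x))
      - D.κ * D.δ * (D.ρB (D.β x) * deriv D.β x * (I * nn (D.β x))))) / (1 - D.δ)) x := by
    unfold SData.wB
    exact ((dB.sub_const _).const_mul _).add ((dK.sub dBp).div_const _)
  have dwK : HasDerivAt D.wK (((D.ρA (D.α x) * deriv D.α x * (I * nn (D.α x))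
      - D.κ * D.δ * (D.ρA (D.α x) * deriv D.α x * (I * nn (D.α x))))
      + (D.ρB (D.β x) * deriv D.β x * (I * nn (D.β x))
      - D.κ * D.δ * (D.ρB (D.β x) * deriv D.β x * (I * nn (D.β x))))
      - 2 * (D.ρK x * (I * nn x))) / (1 - D.δ)) x := by
    unfold SData.wK
    exact ((dAp.add dBp).sub (dK.const_mul _)).div_const _
  unfold SData.Gin Lin
  exact (((dAp.sub (((dA.sub_const _).const_mul _).const_mul _)).add
    (dwA.const_mul _)).add (dwK.const_mul _)).add (dwB.const_mul _)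

/-- at the PL level the combination is a nonnegative combination of two of the three -/
theorem Lin_PL_ne (D : SData) (A' B' K' : ℝ) (hA : 0 < A') (hB : 0 < B') (hK : 0 < K')
    (x y z : ℝ) (hxy : |y - x| < Real.pi) (hxz : |z - x| < Real.pi) (σ : ℝ) (h0 : 0 ≤ σ)
    (h2 : σ ≤ 2) :
    Lin D (A' * (I * nn y)) (B' * (I * nn z)) (K' * (I * nn x)) σ
      (max (σ - D.δ) 0) (max (σ - 1) 0) (max (σ - (2 - D.δ)) 0) ≠ 0 := by
  have hδ := D.hδ
  have hδ2 := D.hδ2
  have hκ := D.hκ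
  have hκδ := D.hκδ
  have hd : (1 - D.δ) ≠ 0 := by linarith
  have hd' : 0 < 1 - D.δ := by linarith
  have hdc : (1 - (D.δ : ℂ)) ≠ 0 := by exact_mod_cast hd
  rcases le_total σ D.δ with h | h
  · -- first cone band
    have e : Lin D (A' * (I * nn y)) (B' * (I * nn z)) (K' * (I * nn x)) σ
      (max (σ - D.δ) 0) (max (σ - 1) 0) (max (σ - (2 - D.δ)) 0)
      = (((1 - D.κ * σ) * A' : ℝ) : ℂ) * (I * nn y) + ((0 : ℝ) : ℂ) * (I * nn x) := by
      rw [max_eq_right (by linarith), max_eq_right (by linarith), max_eq_right (by linarith)]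
      unfold Lin; push_cast; ring
    rw [e]
    have : 0 < (1 - D.κ * σ) * A' := by
      apply mul_pos _ hA
      nlinarith
    exact comb_ne _ _ _ _ this.le le_rfl (by linarith) hxy
  rcases le_total σ 1 with h' | h'
  · have e : Lin D (A' * (I * nn y)) (B' * (I * nn z)) (K' * (I * nn x)) σ
      (max (σ - D.δ) 0) (max (σ - 1) 0) (max (σ - (2 - D.δ)) 0)
      = (((1 - D.κ * D.δ) * ((1 - σ) / (1 - D.δ)) * A' : ℝ) : ℂ) * (I * nn y)
        + (((σ - D.δ) / (1 - D.δ) * K' : ℝ) : ℂ) * (I * nn x) := by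
      rw [max_eq_left (by linarith), max_eq_right (by linarith), max_eq_right (by linarith)]
      unfold Lin; push_cast; field_simp; ring
    rw [e]
    have p1 : 0 ≤ (1 - D.κ * D.δ) * ((1 - σ) / (1 - D.δ)) * A' := by
      have : 0 ≤ 1 - D.κ * D.δ := by linarith
      have : 0 ≤ 1 - σ := by linarith
      positivity
    have p2 : 0 ≤ (σ - D.δ) / (1 - D.δ) * K' := by
      have : 0 ≤ σ - D.δ := by linarith
      positivity
    refine comb_ne _ _ _ _ p1 p2 ?_ hxy
    rcases eq_or_lt_of_le h' with h'' | h''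
    · have : 0 < (σ - D.δ) / (1 - D.δ) * K' := by
        have : 0 < σ - D.δ := by linarith
        positivity
      linarith
    · have : 0 < (1 - D.κ * D.δ) * ((1 - σ) / (1 - D.δ)) * A' := by
        have : 0 < 1 - D.κ * D.δ := by linarith
        have : 0 < 1 - σ := by linarith
        positivity
      linarith
  rcases le_total σ (2 - D.δ) with h'' | h''
  · have e : Lin D (A' * (I * nn y)) (B' * (I * nn z)) (K' * (I * nn x)) σ
      (max (σ - D.δ) 0) (max (σ - 1) 0) (max (σ - (2 - D.δ)) 0)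
      = (((1 - D.κ * D.δ) * ((σ - 1) / (1 - D.δ)) * B' : ℝ) : ℂ) * (I * nn z)
        + (((2 - D.δ - σ) / (1 - D.δ) * K' : ℝ) : ℂ) * (I * nn x) := by
      rw [max_eq_left (by linarith), max_eq_left (by linarith), max_eq_right (by linarith)]
      unfold Lin; push_cast; field_simp; ring
    rw [e]
    have p1 : 0 ≤ (1 - D.κ * D.δ) * ((σ - 1) / (1 - D.δ)) * B' := by
      have : 0 ≤ 1 - D.κ * D.δ := by linarith
      have : 0 ≤ σ - 1 := by linarith
      positivity
    have p2 : 0 ≤ (2 - D.δ - σ) / (1 - D.δ) * K' := by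
      have : 0 ≤ 2 - D.δ - σ := by linarith
      positivity
    refine comb_ne _ _ _ _ p1 p2 ?_ hxz
    rcases eq_or_lt_of_le h'' with h3 | h3
    · have : 0 < (1 - D.κ * D.δ) * ((σ - 1) / (1 - D.δ)) * B' := by
        have : 0 < 1 - D.κ * D.δ := by linarith
        have : 0 < σ - 1 := by linarith
        positivity
      linarith
    · have : 0 < (2 - D.δ - σ) / (1 - D.δ) * K' := by
        have : 0 < 2 - D.δ - σ := by linarith
        positivity
      linarith
  · have e : Lin D (A' * (I * nn y)) (B' * (I * nn z)) (K' * (I * nn x)) σ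
      (max (σ - D.δ) 0) (max (σ - 1) 0) (max (σ - (2 - D.δ)) 0)
      = (((1 + D.κ * (σ - 2)) * B' : ℝ) : ℂ) * (I * nn z) + ((0 : ℝ) : ℂ) * (I * nn x) := by
      rw [max_eq_left (by linarith), max_eq_left (by linarith), max_eq_left (by linarith)]
      unfold Lin; push_cast; field_simp; ring
    rw [e]
    have : 0 < (1 + D.κ * (σ - 2)) * B' := by
      apply mul_pos _ hB
      nlinarith
    exact comb_ne _ _ _ _ this.le le_rfl (by linarith) hxz

end Inner1

theorem inner_immersion (D : SData) : ∃ ε0 > 0, ∀ (χ : ℝ → ℝ) (ε : ℝ), ε < ε0 → Ramp χ ε →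
    ∀ p : ℝ × ℝ, ε < p.1 → p.1 < 2 - ε → Function.Injective (fderiv ℝ (D.Fin' χ) p) := by
  have ofR : Continuous (fun x : ℝ => (x : ℂ)) := Complex.continuous_ofReal
  have cnn : Continuous nn := by unfold nn; fun_prop
  have cdα : Continuous (deriv D.α) := D.hα.smooth.continuous_deriv (by simp)
  have cdβ : Continuous (deriv D.β) := D.hβ.smooth.continuous_deriv (by simp)
  have cα := D.hα.smooth.continuous
  have cβ := D.hβ.smooth.continuous
  have cρA := D.hA.smoothρ.continuous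
  have cρB := D.hB.smoothρ.continuous
  have cρK := D.hK.smoothρ.continuous
  set a : ℝ → ℂ := fun x => D.ρA (D.α x) * deriv D.α x * (I * nn (D.α x)) with ha
  set b : ℝ → ℂ := fun x => D.ρB (D.β x) * deriv D.β x * (I * nn (D.β x)) with hb
  set k : ℝ → ℂ := fun x => D.ρK x * (I * nn x) with hk
  have ca : Continuous a := by fun_prop
  have cb : Continuous b := by fun_prop
  have ck : Continuous k := by fun_prop
  -- compact set
  set S : Set (ℝ × ℝ) := Icc (0 : ℝ) 2 ×ˢ Icc (0 : ℝ) (2 * Real.pi) with hS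
  have hSc : IsCompact S := isCompact_Icc.prod isCompact_Icc
  have hSn : S.Nonempty := ⟨(0, 0), ⟨⟨le_rfl, by norm_num⟩, ⟨le_rfl, by positivity⟩⟩⟩
  set L0 : ℝ × ℝ → ℂ := fun p => Inner1.Lin D (a p.2) (b p.2) (k p.2) p.1
    (max (p.1 - D.δ) 0) (max (p.1 - 1) 0) (max (p.1 - (2 - D.δ)) 0) with hL0
  have hL0c : Continuous L0 := by
    simp only [hL0, Inner1.Lin]
    fun_prop
  have hL0ne : ∀ p ∈ S, L0 p ≠ 0 := by
    intro p hp
    have := Inner1.Lin_PL_ne D (D.ρA (D.α p.2) * deriv D.α p.2) (D.ρB (D.β p.2) * deriv D.β p.2)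
      (D.ρK p.2) (mul_pos (D.hA.pos _) (D.hα.pos _)) (mul_pos (D.hB.pos _) (D.hβ.pos _))
      (D.hK.pos _) p.2 (D.α p.2) (D.β p.2) (D.antiα _) (D.antiβ _) p.1 hp.1.1 hp.1.2
    simpa [hL0, ha, hb, hk] using this
  obtain ⟨p0, hp0, hmin⟩ := hSc.exists_isMinOn hSn (hL0c.norm.continuousOn)
  set c := ‖L0 p0‖ with hc
  have hcpos : 0 < c := norm_pos_iff.2 (hL0ne p0 hp0)
  have hcle : ∀ p ∈ S, c ≤ ‖L0 p‖ := fun p hp => hmin hp
  -- bound for the coefficients
  set W1 : ℝ → ℂ := fun x => D.κ * a x + (k x - (a x - D.κ * D.δ * a x)) / (1 - D.δ) with hW1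
  set W2 : ℝ → ℂ := fun x => ((a x - D.κ * D.δ * a x) + (b x - D.κ * D.δ * b x) - 2 * k x)
    / (1 - D.δ) with hW2
  set W3 : ℝ → ℂ := fun x => D.κ * b x + (k x - (b x - D.κ * D.δ * b x)) / (1 - D.δ) with hW3
  have cW1 : Continuous W1 := by simp only [hW1]; fun_prop
  have cW2 : Continuous W2 := by simp only [hW2]; fun_prop
  have cW3 : Continuous W3 := by simp only [hW3]; fun_prop
  obtain ⟨C, hC⟩ := (isCompact_Icc (a := (0 : ℝ)) (b := 2 * Real.pi)).exists_bound_of_continuousOn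
    ((cW1.norm.add (cW2.norm.add cW3.norm)).continuousOn)
  have hC' : ∀ x ∈ Icc (0 : ℝ) (2 * Real.pi), ‖W1 x‖ + (‖W2 x‖ + ‖W3 x‖) ≤ C := by
    intro x hx
    have := hC x hx
    rw [Real.norm_eq_abs] at this
    exact (le_abs_self _).trans this
  have hC0 : 0 ≤ C := by
    have := hC' 0 ⟨le_rfl, by positivity⟩
    have h1 := norm_nonneg (W1 0)
    have h2 := norm_nonneg (W2 0)
    have h3 := norm_nonneg (W3 0)
    linarith
  refine ⟨c / (C + 1), by positivity, ?_⟩
  intro χ ε hε h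
  have hεpos := h.pos
  have hεC : ε * C < c := by
    have : ε * (C + 1) < c := (lt_div_iff₀ (by linarith)).1 hε
    nlinarith
  have hsm := (Fin'_smooth D χ ε h).1
  have hper := (Fin'_smooth D χ ε h).2
  -- the case x in [0,2π]
  have main : ∀ σ x : ℝ, ε < σ → σ < 2 - ε → x ∈ Icc (0 : ℝ) (2 * Real.pi) →
      Function.Injective (fderiv ℝ (D.Fin' χ) (σ, x)) := by
    intro σ x hσ1 hσ2 hx
    have hdG := Inner1.Gin_hasDerivAt D χ σ x
    set g' := Inner1.Lin D
      (D.ρA (D.α x) * deriv D.α x * (I * nn (D.α x)))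
      (D.ρB (D.β x) * deriv D.β x * (I * nn (D.β x)))
      (D.ρK x * (I * nn x)) σ (χ (σ - D.δ)) (χ (σ - 1)) (χ (σ - (2 - D.δ))) with hg'
    have hgne : g' ≠ 0 := by
      have hpS : ((σ, x) : ℝ × ℝ) ∈ S := ⟨⟨by simp only; linarith, by simp only; linarith⟩, hx⟩
      have h1 := hcle _ hpS
      have h2 : g' - L0 (σ, x) = ((χ (σ - D.δ) - max (σ - D.δ) 0 : ℝ) : ℂ) * W1 x
          + ((χ (σ - 1) - max (σ - 1) 0 : ℝ) : ℂ) * W2 x
          + ((χ (σ - (2 - D.δ)) - max (σ - (2 - D.δ)) 0 : ℝ) : ℂ) * W3 x := by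
        rw [hg']
        simp only [hL0, hW1, hW2, hW3, Inner1.Lin, ha, hb, hk]
        push_cast
        ring
      have h3 : ‖g' - L0 (σ, x)‖ ≤ ε * C := by
        rw [h2]
        have b1 := Inner1.ramp_close h (σ - D.δ)
        have b2 := Inner1.ramp_close h (σ - 1)
        have b3 := Inner1.ramp_close h (σ - (2 - D.δ))
        refine (norm_add₃_le).trans ?_
        rw [norm_mul, norm_mul, norm_mul, Complex.norm_real, Complex.norm_real, Complex.norm_real,
          Real.norm_eq_abs, Real.norm_eq_abs, Real.norm_eq_abs]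
        have m1 := mul_le_mul_of_nonneg_right b1 (norm_nonneg (W1 x))
        have m2 := mul_le_mul_of_nonneg_right b2 (norm_nonneg (W2 x))
        have m3 := mul_le_mul_of_nonneg_right b3 (norm_nonneg (W3 x))
        have m4 := mul_le_mul_of_nonneg_left (hC' x hx) hεpos.le
        linarith
      intro h0
      rw [h0, zero_sub, norm_neg] at h3
      linarith
    have hF : HasFDerivAt (D.Fin' χ) (fderiv ℝ (D.Fin' χ) (σ, x)) (σ, x) :=
      (hsm.differentiable (by simp)).differentiableAt.hasFDerivAt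
    rw [injective_iff_map_eq_zero]
    intro v hv
    -- third coordinate
    have hz : v.1 = 0 := by
      have h1 : HasFDerivAt (fun q : ℝ × ℝ => (EuclideanSpace.proj (𝕜 := ℝ) (2 : Fin 3)) (D.Fin' χ q))
          ((EuclideanSpace.proj (𝕜 := ℝ) (2 : Fin 3)).comp (fderiv ℝ (D.Fin' χ) (σ, x))) (σ, x) :=
        (EuclideanSpace.proj (𝕜 := ℝ) (2 : Fin 3)).hasFDerivAt.comp _ hF
      have h2 : (fun q : ℝ × ℝ => (EuclideanSpace.proj (𝕜 := ℝ) (2 : Fin 3)) (D.Fin' χ q))
          = fun q : ℝ × ℝ => q.1 - 1 := by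
        ext q; simp [SData.Fin', pt]
      rw [h2] at h1
      have h3 : HasFDerivAt (fun q : ℝ × ℝ => q.1 - 1) (ContinuousLinearMap.fst ℝ ℝ ℝ) (σ, x) :=
        hasFDerivAt_fst.sub_const 1
      have h4 := congrArg (fun T : ℝ × ℝ →L[ℝ] ℝ => T v) (h1.unique h3)
      simpa [hv] using h4.symm
    have hline : HasDerivAt (fun t : ℝ => D.Fin' χ (σ, t)) (fderiv ℝ (D.Fin' χ) (σ, x) (0, 1)) x := by
      have h2 : HasDerivAt (fun y : ℝ => ((σ, y) : ℝ × ℝ)) ((0, 1) : ℝ × ℝ) x :=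
        (hasDerivAt_const _ _).prodMk (hasDerivAt_id _)
      exact hF.comp_hasDerivAt x h2
    have hcomp : ∀ i : Fin 3, HasDerivAt (fun t : ℝ => (D.Fin' χ (σ, t)) i)
        ((fderiv ℝ (D.Fin' χ) (σ, x) (0, 1)) i) x := by
      intro i
      exact (EuclideanSpace.proj (𝕜 := ℝ) i).hasFDerivAt.comp_hasDerivAt x hline
    have hre : (fderiv ℝ (D.Fin' χ) (σ, x) (0, 1)) 0 = g'.re := by
      have h1 := hcomp 0
      have h2 : (fun t : ℝ => (D.Fin' χ (σ, t)) 0) = fun t => (D.Gin χ σ t).re := by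
        ext t; simp [SData.Fin', pt]
      rw [h2] at h1
      exact h1.unique (Complex.reCLM.hasFDerivAt.comp_hasDerivAt x hdG)
    have him : (fderiv ℝ (D.Fin' χ) (σ, x) (0, 1)) 1 = g'.im := by
      have h1 := hcomp 1
      have h2 : (fun t : ℝ => (D.Fin' χ (σ, t)) 1) = fun t => (D.Gin χ σ t).im := by
        ext t; simp [SData.Fin', pt]
      rw [h2] at h1
      exact h1.unique (Complex.imCLM.hasFDerivAt.comp_hasDerivAt x hdG)
    have hv2 : v = v.2 • ((0, 1) : ℝ × ℝ) := by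
      ext <;> simp [hz]
    rw [hv2, map_smul] at hv
    have hv3 : v.2 = 0 := by
      by_contra hne
      have h0 : fderiv ℝ (D.Fin' χ) (σ, x) (0, 1) = 0 := by
        rcases smul_eq_zero.1 hv with h | h
        · exact absurd h hne
        · exact h
      apply hgne
      apply Complex.ext
      · rw [← hre, h0]; simp
      · rw [← him, h0]; simp
    exact Prod.ext hz hv3
  -- periodicity
  intro p hp1 hp2
  have hpp : Function.Periodic (D.Fin' χ) ((0, 2 * Real.pi) : ℝ × ℝ) := by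
    rintro ⟨σ, x⟩
    have := hper σ x
    simpa using this
  have hpd : Function.Periodic (fderiv ℝ (D.Fin' χ)) ((0, 2 * Real.pi) : ℝ × ℝ) := by
    intro q
    rw [← fderiv_comp_add_right]
    congr 1
    ext1 y
    exact hpp y
  have hpi : (0 : ℝ) < 2 * Real.pi := by positivity
  obtain ⟨y, hy, n, hn⟩ : ∃ y ∈ Icc (0 : ℝ) (2 * Real.pi), ∃ n : ℤ,
      p = (p.1, y) + n • ((0, 2 * Real.pi) : ℝ × ℝ) := by
    refine ⟨toIcoMod hpi 0 p.2, ?_, toIcoDiv hpi 0 p.2, ?_⟩
    · have := toIcoMod_mem_Ico hpi 0 p.2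
      rw [zero_add] at this
      exact ⟨this.1, this.2.le⟩
    · ext
      · simp
      · have := toIcoMod_add_toIcoDiv_zsmul hpi 0 p.2
        simpa using this.symm
  have e := hpd.zsmul n (p.1, y)
  rw [← hn] at e
  rw [e]
  exact main p.1 y hp1 hp2 hy

end Pool.Agent.Csz
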