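import Mathlib
set_option autoImplicit false
open Set Filter Topology

namespace Pool.Agent.Csz

/-- M7a: smooth fibrewise inverse of `K (s, x)`, strictly increasing in `x`, with
`K (s, x + a) = K (s, x) + b`. -/
theorem exists_inverse_gen (K : ℝ × ℝ → ℝ) (hK : ContDiff ℝ (⊤ : ℕ∞) K) (a b : ℝ) (ha : 0 < a)
    (hb : 0 < b) (hpos : ∀ s x, 0 < deriv (fun y => K (s, y)) x)
    (hper : ∀ s x, K (s, x + a) = K (s, x) + b) :
    ∃ Θ : ℝ × ℝ → ℝ, ContDiff ℝ (⊤ : ℕ∞) Θ ∧ (∀ s θ, K (s, Θ (s, θ)) = θ) ∧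
      (∀ s x, Θ (s, K (s, x)) = x) ∧ (∀ s θ, Θ (s, θ + b) = Θ (s, θ) + a) ∧
      (∀ s θ θ', θ < θ' → Θ (s, θ) < Θ (s, θ')) ∧
      (∀ s θ, 0 < deriv (fun y => Θ (s, y)) θ) := by
  have hKd : ∀ s x, HasDerivAt (fun y => K (s, y)) (fderiv ℝ K (s, x) (0, 1)) x := by
    intro s x
    have h1 : HasFDerivAt K (fderiv ℝ K (s, x)) (s, x) :=
      (hK.differentiable (by simp)).differentiableAt.hasFDerivAt
    have h2 : HasDerivAt (fun y : ℝ => ((s, y) : ℝ × ℝ)) ((0, 1) : ℝ × ℝ) x :=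
      (hasDerivAt_const _ _).prodMk (hasDerivAt_id _)
    exact h1.comp_hasDerivAt x h2
  have hKd' : ∀ s x, deriv (fun y => K (s, y)) x = fderiv ℝ K (s, x) (0, 1) :=
    fun s x => (hKd s x).deriv
  have hmono : ∀ s, StrictMono (fun y => K (s, y)) := fun s => strictMono_of_deriv_pos (hpos s)
  have hcont : ∀ s, Continuous (fun y => K (s, y)) := by
    intro s
    exact hK.continuous.comp (by fun_prop)
  have hperN : ∀ s x (n : ℕ), K (s, x + n * a) = K (s, x) + n * b := by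
    intro s x n
    induction n with
    | zero => simp
    | succ n ih =>
      have : x + ((n + 1 : ℕ) : ℝ) * a = (x + n * a) + a := by push_cast; ring
      rw [this, hper, ih]; push_cast; ring
  have hperN' : ∀ s x (n : ℕ), K (s, x - n * a) = K (s, x) - n * b := by
    intro s x n
    have := hperN s (x - n * a) n
    rw [sub_add_cancel] at this
    linarith
  have hsurj : ∀ s θ, ∃ x, K (s, x) = θ := by
    intro s θ
    obtain ⟨n, hn⟩ := exists_nat_gt (|θ - K (s, 0)| / b)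
    have hn' : |θ - K (s, 0)| < n * b := by rwa [div_lt_iff₀ hb] at hn
    have hab := abs_lt.1 hn'
    have h1 : K (s, 0 - n * a) ≤ θ := by rw [hperN']; linarith [hab.1]
    have h2 : θ ≤ K (s, 0 + n * a) := by rw [hperN]; linarith [hab.2]
    have hle : (0 : ℝ) - n * a ≤ 0 + n * a := by
      have : 0 ≤ (n : ℝ) * a := by positivity
      linarith
    obtain ⟨x, _, hx⟩ := intermediate_value_Icc hle (hcont s).continuousOn ⟨h1, h2⟩
    exact ⟨x, hx⟩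
  choose Θ' hΘ' using hsurj
  set Θ : ℝ × ℝ → ℝ := fun p => Θ' p.1 p.2 with hΘ
  have hr : ∀ s θ, K (s, Θ (s, θ)) = θ := fun s θ => hΘ' s θ
  have hinj : ∀ s x y, K (s, x) = K (s, y) → x = y := fun s x y h => (hmono s).injective h
  have hl : ∀ s x, Θ (s, K (s, x)) = x := fun s x => hinj s _ _ (hr s _)
  have hp : ∀ s θ, Θ (s, θ + b) = Θ (s, θ) + a := by
    intro s θ
    apply hinj s
    rw [hr, hper, hr]
  have hm : ∀ s θ θ', θ < θ' → Θ (s, θ) < Θ (s, θ') := by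
    intro s θ θ' h
    by_contra hcon
    push Not at hcon
    have h2 : K (s, Θ (s, θ')) ≤ K (s, Θ (s, θ)) := (hmono s).monotone hcon
    rw [hr, hr] at h2
    linarith
  have hs : ContDiff ℝ (⊤ : ℕ∞) Θ := by
    rw [contDiff_iff_contDiffAt]
    rintro ⟨s0, θ0⟩
    set x0 := Θ (s0, θ0) with hx0
    -- F((s,θ),x) = K(s,x) - θ
    set F : (ℝ × ℝ) × ℝ → ℝ := fun v => K (v.1.1, v.2) - v.1.2 with hF
    have hFs : ContDiff ℝ (⊤ : ℕ∞) F := by
      have h1 : ContDiff ℝ (⊤ : ℕ∞) (fun v : (ℝ × ℝ) × ℝ => ((v.1.1, v.2) : ℝ × ℝ)) := by fun_prop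
      exact (hK.comp h1).sub (by fun_prop)
    have hF0 : F ((s0, θ0), x0) = 0 := by simp only [hF, hx0, hr, sub_self]
    have hd : ∀ t : ℝ, (fderiv ℝ F ((s0, θ0), x0) ∘L .inr ℝ (ℝ × ℝ) ℝ) t
        = t * fderiv ℝ K (s0, x0) (0, 1) := by
      intro t
      have h1 : HasFDerivAt F (fderiv ℝ F ((s0, θ0), x0)) ((s0, θ0), x0) :=
        (hFs.differentiable (by simp)).differentiableAt.hasFDerivAt
      have h2 : HasDerivAt (fun t : ℝ => (((s0, θ0), t) : (ℝ × ℝ) × ℝ))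
          ((0, 1) : (ℝ × ℝ) × ℝ) x0 := (hasDerivAt_const _ _).prodMk (hasDerivAt_id _)
      have h3 := h1.comp_hasDerivAt x0 h2
      have h4 : HasDerivAt (fun t : ℝ => K (s0, t) - θ0) (fderiv ℝ K (s0, x0) (0, 1)) x0 :=
        (hKd s0 x0).sub_const θ0
      have h5 := h3.unique h4
      have h6 : (ContinuousLinearMap.inr ℝ (ℝ × ℝ) ℝ) t = t • ((0, 1) : (ℝ × ℝ) × ℝ) := by
        ext <;> simp
      rw [ContinuousLinearMap.comp_apply, h6, map_smul, smul_eq_mul, h5]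
    have hpos' : 0 < fderiv ℝ K (s0, x0) (0, 1) := by rw [← hKd']; exact hpos _ _
    have hinv : (fderiv ℝ F ((s0, θ0), x0) ∘L .inr ℝ (ℝ × ℝ) ℝ).IsInvertible := by
      refine ⟨ContinuousLinearEquiv.unitsEquivAut ℝ (Units.mk0 _ hpos'.ne'), ?_⟩
      ext
      rw [hd]
      simp
    have hcd : ContDiffAt ℝ (⊤ : ℕ∞) F ((s0, θ0), x0) := hFs.contDiffAt
    have hne : ((⊤ : ℕ∞) : WithTop ℕ∞) ≠ 0 := by simp
    have hψs := hcd.contDiffAt_implicitFunction hne hinv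
    have hψe := hcd.eventually_apply_implicitFunction hne hinv
    set ψ := hcd.implicitFunction hne hinv
    have heq : Θ =ᶠ[𝓝 (s0, θ0)] ψ := by
      filter_upwards [hψe] with v h2
      rw [hF0] at h2
      simp only [hF, sub_eq_zero] at h2
      apply hinj v.1
      rw [h2]
      exact hr v.1 v.2
    exact hψs.congr_of_eventuallyEq heq
  refine ⟨Θ, hs, hr, hl, hp, hm, ?_⟩
  intro s θ
  have h1 : HasDerivAt (fun y => Θ (s, y)) (fderiv ℝ Θ (s, θ) (0, 1)) θ := by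
    have h1 : HasFDerivAt Θ (fderiv ℝ Θ (s, θ)) (s, θ) :=
      (hs.differentiable (by simp)).differentiableAt.hasFDerivAt
    have h2 : HasDerivAt (fun y : ℝ => ((s, y) : ℝ × ℝ)) ((0, 1) : ℝ × ℝ) θ :=
      (hasDerivAt_const _ _).prodMk (hasDerivAt_id _)
    exact h1.comp_hasDerivAt θ h2
  have h2 : HasDerivAt (fun y => K (s, y)) (fderiv ℝ K (s, Θ (s, θ)) (0, 1)) (Θ (s, θ)) := hKd _ _
  have h3 := h2.comp θ h1
  have h4 : (fun y => K (s, y)) ∘ (fun y => Θ (s, y)) = id := by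
    ext y; exact hr s y
  rw [h4] at h3
  have h5 := h3.unique (hasDerivAt_id θ)
  have h6 := hpos s (Θ (s, θ))
  rw [hKd'] at h6
  rw [h1.deriv]
  by_contra hcon
  push Not at hcon
  nlinarith


theorem exists_inverse (k : ℝ → ℝ → ℝ) (hk : ContDiff ℝ (⊤ : ℕ∞) (fun p : ℝ × ℝ => k p.1 p.2))
    (hper : ∀ σ x, k σ (x + 2 * Real.pi) = k σ x + 1) (hpos : ∀ σ x, 0 < deriv (k σ) x) :
    ∃ Θ : ℝ → ℝ → ℝ, ContDiff ℝ (⊤ : ℕ∞) (fun p : ℝ × ℝ => Θ p.1 p.2) ∧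
      (∀ σ θ, k σ (Θ σ θ) = θ) ∧ (∀ σ x, Θ σ (k σ x) = x) ∧
      (∀ σ θ, Θ σ (θ + 1) = Θ σ θ + 2 * Real.pi) ∧ ∀ σ θ, 0 < deriv (Θ σ) θ := by
  obtain ⟨Θ, h1, h2, h3, h4, _, h6⟩ := exists_inverse_gen (fun p : ℝ × ℝ => k p.1 p.2) hk
    (2 * Real.pi) 1 (by positivity) one_pos (fun s x => hpos s x) hper
  exact ⟨fun s θ => Θ (s, θ), h1, h2, h3, h4, h6⟩

end Pool.Agent.Csz
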