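import Mathlib
set_option autoImplicit false
open Set Filter Topology

namespace Pool.Agent.Csz

section glue
variable {E : Type*}

/-- gluing of two functions of `(s, θ)` along overlapping `s`-intervals to an `L`-periodic one. -/
noncomputable def glueF (L m1 m2 : ℝ) (F1 F2 : ℝ × ℝ → E) (p : ℝ × ℝ) : E :=
  let s' := p.1 - ⌊(p.1 - m1) / L⌋ * L
  if s' < m2 then F1 (s', p.2) else F2 (s', p.2)

theorem glueF_periodic (L m1 m2 : ℝ) (hL : 0 < L) (F1 F2 : ℝ × ℝ → E) (s θ : ℝ) :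
    glueF L m1 m2 F1 F2 (s + L, θ) = glueF L m1 m2 F1 F2 (s, θ) := by
  have h : ⌊(s + L - m1) / L⌋ = ⌊(s - m1) / L⌋ + 1 := by
    have : (s + L - m1) / L = (s - m1) / L + 1 := by field_simp; ring
    rw [this, Int.floor_add_one]
  simp only [glueF, h]
  have h2 : s + L - ((⌊(s - m1) / L⌋ + 1 : ℤ) : ℝ) * L = s - (⌊(s - m1) / L⌋ : ℝ) * L := by
    push_cast; ring
  rw [h2]

theorem glueF_periodic_int (L m1 m2 : ℝ) (hL : 0 < L) (F1 F2 : ℝ × ℝ → E) (k : ℤ) (s θ : ℝ) :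
    glueF L m1 m2 F1 F2 (s + k * L, θ) = glueF L m1 m2 F1 F2 (s, θ) := by
  have h : ⌊(s + k * L - m1) / L⌋ = ⌊(s - m1) / L⌋ + k := by
    have : (s + k * L - m1) / L = (s - m1) / L + k := by field_simp; ring
    rw [this, Int.floor_add_intCast]
  simp only [glueF, h]
  have h2 : s + k * L - ((⌊(s - m1) / L⌋ + k : ℤ) : ℝ) * L = s - (⌊(s - m1) / L⌋ : ℝ) * L := by
    push_cast; ring
  rw [h2]

/-- value on the base window `[m1, m1 + L)` -/
theorem glueF_base (L m1 m2 : ℝ) (hL : 0 < L) (F1 F2 : ℝ × ℝ → E) (s θ : ℝ)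
    (h1 : m1 ≤ s) (h2 : s < m1 + L) :
    glueF L m1 m2 F1 F2 (s, θ) = if s < m2 then F1 (s, θ) else F2 (s, θ) := by
  have h : ⌊(s - m1) / L⌋ = 0 := by
    rw [Int.floor_eq_zero_iff]
    constructor
    · exact div_nonneg (by linarith) hL.le
    · rw [div_lt_one hL]; linarith
  simp only [glueF, h, Int.cast_zero, zero_mul, sub_zero]

variable {L a1 b1 a2 b2 m1 m2 : ℝ} {F1 F2 : ℝ × ℝ → E}

theorem glueF_eq_left (hL : 0 < L) (hm1 : a1 < m1) (hm1' : m1 < b2 - L) (hm2 : a2 < m2)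
    (hm2' : m2 < b1) (hb1 : b1 ≤ a1 + L) (hb2 : b2 ≤ a2 + L)
    (hagree : ∀ s θ, a2 < s → s < b1 → F1 (s, θ) = F2 (s, θ))
    (hagree' : ∀ s θ, a1 < s → s < b2 - L → F1 (s, θ) = F2 (s + L, θ))
    (s θ : ℝ) (h1 : a1 < s) (h2 : s < b1) :
    glueF L m1 m2 F1 F2 (s, θ) = F1 (s, θ) := by
  rcases lt_or_ge s m1 with h | h
  · rw [← glueF_periodic L m1 m2 hL, glueF_base L m1 m2 hL _ _ _ _ (by linarith) (by linarith),
      if_neg (by linarith)]
    exact (hagree' s θ h1 (by linarith)).symm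
  · rw [glueF_base L m1 m2 hL _ _ _ _ h (by linarith)]
    split_ifs with h3
    · rfl
    · exact (hagree s θ (by linarith) h2).symm

theorem glueF_eq_right (hL : 0 < L) (hm1 : a1 < m1) (hm1' : m1 < b2 - L) (hm2 : a2 < m2)
    (hm2' : m2 < b1) (hb1 : b1 ≤ a1 + L) (hb2 : b2 ≤ a2 + L)
    (hagree : ∀ s θ, a2 < s → s < b1 → F1 (s, θ) = F2 (s, θ))
    (hagree' : ∀ s θ, a1 < s → s < b2 - L → F1 (s, θ) = F2 (s + L, θ))
    (s θ : ℝ) (h1 : a2 < s) (h2 : s < b2) :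
    glueF L m1 m2 F1 F2 (s, θ) = F2 (s, θ) := by
  rcases lt_or_ge s (m1 + L) with h | h
  · rw [glueF_base L m1 m2 hL _ _ _ _ (by linarith) (by linarith)]
    split_ifs with h3
    · exact hagree s θ h1 (by linarith)
    · rfl
  · have e : glueF L m1 m2 F1 F2 (s, θ) = glueF L m1 m2 F1 F2 (s - L, θ) := by
      rw [← glueF_periodic L m1 m2 hL F1 F2 (s - L)]; simp
    rw [e, glueF_base L m1 m2 hL _ _ _ _ (by linarith) (by linarith), if_pos (by linarith),
      hagree' _ _ (by linarith) (by linarith)]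
    simp

/-- every point is, up to an integer multiple of the period, in one of the two windows -/
theorem glue_cover (hL : 0 < L) (hm1 : a1 < m1) (hm1' : m1 < b2 - L) (hm2 : a2 < m2)
    (hm2' : m2 < b1) (s : ℝ) :
    ∃ k : ℤ, (a1 < s - k * L ∧ s - k * L < b1) ∨ (a2 < s - k * L ∧ s - k * L < b2) := by
  refine ⟨⌊(s - m1) / L⌋, ?_⟩
  have h1 : (⌊(s - m1) / L⌋ : ℝ) ≤ (s - m1) / L := Int.floor_le _
  have h2 : (s - m1) / L < ⌊(s - m1) / L⌋ + 1 := Int.lt_floor_add_one _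
  rw [le_div_iff₀ hL] at h1
  rw [div_lt_iff₀ hL] at h2
  rcases lt_or_ge (s - ⌊(s - m1) / L⌋ * L) m2 with h | h
  · left; constructor <;> linarith
  · right; constructor
    · linarith
    · nlinarith

end glue

/-- local smoothness + immersion property of a function at a point -/
def GoodAt {E : Type*} [NormedAddCommGroup E] [NormedSpace ℝ E] (F : ℝ × ℝ → E) (p : ℝ × ℝ) :
    Prop := ContDiffAt ℝ (⊤ : ℕ∞) F p ∧ Function.Injective (fderiv ℝ F p)

section smooth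
variable {E : Type*} [NormedAddCommGroup E] [NormedSpace ℝ E]

theorem GoodAt.congr {F G : ℝ × ℝ → E} {p : ℝ × ℝ} (h : GoodAt F p) (e : G =ᶠ[𝓝 p] F) :
    GoodAt G p := by
  refine ⟨h.1.congr_of_eventuallyEq e, ?_⟩
  rw [e.fderiv_eq]; exact h.2

/-- precomposition with a diffeomorphism-like map: `F ∘ Φ` where `Φ` has invertible derivative -/
theorem GoodAt.comp {F : ℝ × ℝ → E} {Φ : ℝ × ℝ → ℝ × ℝ} {p : ℝ × ℝ} (h : GoodAt F (Φ p))
    (hΦ : ContDiffAt ℝ (⊤ : ℕ∞) Φ p) (hinj : Function.Injective (fderiv ℝ Φ p)) :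
    GoodAt (F ∘ Φ) p := by
  refine ⟨h.1.comp p hΦ, ?_⟩
  rw [fderiv_comp p (h.1.differentiableAt (by simp)) (hΦ.differentiableAt (by simp))]
  exact h.2.comp hinj

theorem GoodAt.translate {F : ℝ × ℝ → E} {p v : ℝ × ℝ} (h : GoodAt F (p + v)) :
    GoodAt (fun q => F (q + v)) p := by
  refine ⟨?_, ?_⟩
  · exact h.1.comp p (contDiffAt_id.add contDiffAt_const)
  · rw [fderiv_comp_add_right]; exact h.2

variable {L a1 b1 a2 b2 : ℝ} {F1 F2 : ℝ × ℝ → E}

/-- GLUING: two smooth immersions on overlapping strips give a periodic smooth immersion. -/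
theorem glue_good (hL : 0 < L) (ha : a1 < b2 - L) (hab : a2 < b1)
    (hb1 : b1 ≤ a1 + L) (hb2 : b2 ≤ a2 + L)
    (hagree : ∀ s θ, a2 < s → s < b1 → F1 (s, θ) = F2 (s, θ))
    (hagree' : ∀ s θ, a1 < s → s < b2 - L → F1 (s, θ) = F2 (s + L, θ))
    (h1 : ∀ s θ, a1 < s → s < b1 → GoodAt F1 (s, θ))
    (h2 : ∀ s θ, a2 < s → s < b2 → GoodAt F2 (s, θ)) :
    ∃ F : ℝ × ℝ → E, (∀ s θ, F (s + L, θ) = F (s, θ)) ∧
      (∀ s θ, a1 < s → s < b1 → F (s, θ) = F1 (s, θ)) ∧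
      (∀ s θ, a2 < s → s < b2 → F (s, θ) = F2 (s, θ)) ∧
      (∀ p, GoodAt F p) ∧
      (∀ t : ℝ, (∀ s θ, F1 (s, θ + t) = F1 (s, θ)) → (∀ s θ, F2 (s, θ + t) = F2 (s, θ)) →
        ∀ s θ, F (s, θ + t) = F (s, θ)) := by
  obtain ⟨m1, hm1, hm1'⟩ := exists_between ha
  obtain ⟨m2, hm2, hm2'⟩ := exists_between hab
  have el := glueF_eq_left hL hm1 hm1' hm2 hm2' hb1 hb2 hagree hagree'
  have er := glueF_eq_right hL hm1 hm1' hm2 hm2' hb1 hb2 hagree hagree'
  refine ⟨glueF L m1 m2 F1 F2, glueF_periodic L m1 m2 hL F1 F2, el, er, ?_, ?_⟩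
  swap
  · intro t ht1 ht2 s θ
    simp only [glueF, ht1, ht2]
  have g1 : ∀ s θ, a1 < s → s < b1 → GoodAt (glueF L m1 m2 F1 F2) (s, θ) := by
    intro s θ hs hs'
    apply (h1 s θ hs hs').congr
    have : ∀ᶠ q : ℝ × ℝ in 𝓝 (s, θ), a1 < q.1 ∧ q.1 < b1 := by
      apply Filter.Eventually.and
      · exact (continuous_fst.continuousAt (x := (s, θ))).eventually_const_lt hs
      · exact (continuous_fst.continuousAt (x := (s, θ))).eventually_lt_const hs'
    filter_upwards [this] with q hq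
    exact el q.1 q.2 hq.1 hq.2
  have g2 : ∀ s θ, a2 < s → s < b2 → GoodAt (glueF L m1 m2 F1 F2) (s, θ) := by
    intro s θ hs hs'
    apply (h2 s θ hs hs').congr
    have : ∀ᶠ q : ℝ × ℝ in 𝓝 (s, θ), a2 < q.1 ∧ q.1 < b2 := by
      apply Filter.Eventually.and
      · exact (continuous_fst.continuousAt (x := (s, θ))).eventually_const_lt hs
      · exact (continuous_fst.continuousAt (x := (s, θ))).eventually_lt_const hs'
    filter_upwards [this] with q hq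
    exact er q.1 q.2 hq.1 hq.2
  rintro ⟨s, θ⟩
  obtain ⟨k, hk⟩ := glue_cover hL hm1 hm1' hm2 hm2' s
  have hgood : GoodAt (glueF L m1 m2 F1 F2) (s - k * L, θ) := by
    rcases hk with ⟨ha, hb⟩ | ⟨ha, hb⟩
    · exact g1 _ _ ha hb
    · exact g2 _ _ ha hb
  have ht : GoodAt (glueF L m1 m2 F1 F2) ((s, θ) + (-(k * L), 0)) := by
    have : ((s, θ) + (-(k * L), 0) : ℝ × ℝ) = (s - k * L, θ) := by
      ext <;> simp; ring
    rw [this]; exact hgood
  have hfun : (fun q : ℝ × ℝ => glueF L m1 m2 F1 F2 (q + (-(k * L), 0))) =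
      glueF L m1 m2 F1 F2 := by
    funext q
    have := glueF_periodic_int L m1 m2 hL F1 F2 (-k) q.1 q.2
    have e : (q + (-(k * L), 0) : ℝ × ℝ) = (q.1 + ((-k : ℤ) : ℝ) * L, q.2) := by
      ext <;> simp
    rw [e, this]
  have := ht.translate
  rwa [hfun] at this

/-- Descent to `AddCircle 1 × AddCircle 1`. -/
theorem descend (F : ℝ × ℝ → E) (L : ℝ) (hL : 0 < L)
    (hper : ∀ s θ, F (s + L, θ) = F (s, θ)) (hper2 : ∀ s θ, F (s, θ + 1) = F (s, θ))
    (hgood : ∀ p, GoodAt F p) :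
    ∃ f : AddCircle (1 : ℝ) × AddCircle (1 : ℝ) → E,
      (∀ s θ : ℝ, f ((s : AddCircle (1 : ℝ)), (θ : AddCircle (1 : ℝ))) = F (L * s, θ)) ∧
      ContDiff ℝ (⊤ : ℕ∞)
        (fun p : ℝ × ℝ => f ((p.1 : AddCircle (1 : ℝ)), (p.2 : AddCircle (1 : ℝ)))) ∧
      (∀ p : ℝ × ℝ, Function.Injective
        (fderiv ℝ (fun q : ℝ × ℝ => f ((q.1 : AddCircle (1 : ℝ)), (q.2 : AddCircle (1 : ℝ)))) p)) := by
  have hper' : ∀ (k : ℤ) (s θ : ℝ), F (s + k * L, θ) = F (s, θ) := by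
    intro k
    induction k using Int.induction_on with
    | zero => intro s θ; simp
    | succ n ih =>
      intro s θ
      have : s + ((n : ℤ) + 1 : ℤ) * L = (s + (n : ℤ) * L) + L := by push_cast; ring
      rw [this, hper, ih]
    | pred n ih =>
      intro s θ
      have : s + (-(n : ℤ) : ℤ) * L = (s + (-(n : ℤ) - 1 : ℤ) * L) + L := by push_cast; ring
      rw [← ih s θ, this, hper]
  have hper2' : ∀ (k : ℤ) (s θ : ℝ), F (s, θ + k) = F (s, θ) := by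
    intro k
    induction k using Int.induction_on with
    | zero => intro s θ; simp
    | succ n ih =>
      intro s θ
      have : θ + (((n : ℤ) + 1 : ℤ) : ℝ) = (θ + (n : ℤ)) + 1 := by push_cast; ring
      rw [this, hper2, ih]
    | pred n ih =>
      intro s θ
      have : θ + ((-(n : ℤ) : ℤ) : ℝ) = (θ + ((-(n : ℤ) - 1 : ℤ) : ℝ)) + 1 := by push_cast; ring
      rw [← ih s θ, this, hper2]
  let r : AddCircle (1 : ℝ) → ℝ := fun a => (AddCircle.equivIco 1 0 a : ℝ)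
  have hr : ∀ s : ℝ, ∃ k : ℤ, r (s : AddCircle (1:ℝ)) = s + k := by
    intro s
    have h1 : ((r (s : AddCircle (1:ℝ)) : ℝ) : AddCircle (1:ℝ)) = (s : AddCircle (1:ℝ)) :=
      (AddCircle.equivIco 1 0).symm_apply_apply (s : AddCircle (1:ℝ))
    have h2 : ((r (s : AddCircle (1:ℝ)) - s : ℝ) : AddCircle (1:ℝ)) = 0 := by
      rw [AddCircle.coe_sub, h1, sub_self]
    rw [AddCircle.coe_eq_zero_iff] at h2
    obtain ⟨k, hk⟩ := h2
    refine ⟨k, ?_⟩
    have : (k : ℤ) • (1:ℝ) = k := by simp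
    rw [this] at hk
    linarith
  refine ⟨fun p => F (L * r p.1, r p.2), ?_, ?_, ?_⟩
  · intro s θ
    obtain ⟨k, hk⟩ := hr s
    obtain ⟨j, hj⟩ := hr θ
    simp only
    rw [hk, hj, hper2']
    have : L * (s + k) = L * s + k * L := by ring
    rw [this, hper']
  all_goals
    have e : (fun p : ℝ × ℝ => (fun p : AddCircle (1:ℝ) × AddCircle (1:ℝ) => F (L * r p.1, r p.2))
        ((p.1 : AddCircle (1 : ℝ)), (p.2 : AddCircle (1 : ℝ)))) = F ∘ fun p => (L * p.1, p.2) := by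
      funext p
      obtain ⟨k, hk⟩ := hr p.1
      obtain ⟨j, hj⟩ := hr p.2
      simp only [Function.comp]
      rw [hk, hj, hper2']
      have : L * (p.1 + k) = L * p.1 + k * L := by ring
      rw [this, hper']
    rw [e]
    have hΦ : ContDiff ℝ (⊤ : ℕ∞) (fun p : ℝ × ℝ => (L * p.1, p.2)) := by fun_prop
    have hinj : ∀ p : ℝ × ℝ, Function.Injective (fderiv ℝ (fun p : ℝ × ℝ => (L * p.1, p.2)) p) := by
      intro p
      have hd : HasFDerivAt (fun p : ℝ × ℝ => (L * p.1, p.2))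
          ((L • ContinuousLinearMap.fst ℝ ℝ ℝ).prod (ContinuousLinearMap.snd ℝ ℝ ℝ)) p := by
        exact (hasFDerivAt_fst.const_mul L).prodMk hasFDerivAt_snd
      rw [hd.fderiv]
      rintro ⟨x1, y1⟩ ⟨x2, y2⟩ h
      simp at h
      rcases h with ⟨h1, h2⟩
      rcases h1 with h1 | h1
      · ext
        · exact h1
        · exact h2
      · exact absurd h1 hL.ne'
  · rw [contDiff_iff_contDiffAt]
    intro p
    exact ((hgood _).comp (Φ := fun p : ℝ × ℝ => (L * p.1, p.2)) hΦ.contDiffAt (hinj p)).1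
  · intro p
    exact ((hgood _).comp (Φ := fun p : ℝ × ℝ => (L * p.1, p.2)) hΦ.contDiffAt (hinj p)).2

end smooth

end Pool.Agent.Csz
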