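import Mathlib
import Pool.Agent.Csz.Defs
import Pool.Agent.Csz.Glue
set_option autoImplicit false
open Complex Set

namespace Pool.Agent.Csz.M7b

theorem glue_smooth (δ ε : ℝ) (hε : 0 < ε) (hεδ : 2 * ε < δ) (hδ : δ < 1 / 2)
    (Fi Fo : ℝ × ℝ → E3) (hFi : ContDiff ℝ (⊤ : ℕ∞) Fi) (hFo : ContDiff ℝ (⊤ : ℕ∞) Fo)
    (pFi : ∀ σ θ, Fi (σ, θ + 1) = Fi (σ, θ)) (pFo : ∀ σ θ, Fo (σ, θ + 1) = Fo (σ, θ))
    (h1 : ∀ σ θ, 2 - δ + ε < σ → σ < 2 - ε → Fi (σ, θ) = Fo (σ, θ))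
    (h2 : ∀ σ θ, 3 + ε < σ → σ < 3 + δ - ε → Fi (σ - 3, θ) = Fo (σ, θ))
    (immi : ∀ p : ℝ × ℝ, ε < p.1 → p.1 < 2 - ε → Function.Injective (fderiv ℝ Fi p))
    (immo : ∀ p : ℝ × ℝ, 2 - δ + ε < p.1 → p.1 < 3 + δ - ε →
      Function.Injective (fderiv ℝ Fo p)) :
    ∃ f : AddCircle (1 : ℝ) × AddCircle (1 : ℝ) → E3,
      ContDiff ℝ (⊤ : ℕ∞)
        (fun p : ℝ × ℝ => f ((p.1 : AddCircle (1 : ℝ)), (p.2 : AddCircle (1 : ℝ)))) ∧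
      (∀ p : ℝ × ℝ, Function.Injective (fderiv ℝ
        (fun q : ℝ × ℝ => f ((q.1 : AddCircle (1 : ℝ)), (q.2 : AddCircle (1 : ℝ)))) p)) ∧
      (∀ σ θ, ε < σ → σ < 2 - ε → f (tor σ θ) = Fi (σ, θ)) ∧
      (∀ σ θ, 2 - δ + ε < σ → σ < 3 + δ - ε → f (tor σ θ) = Fo (σ, θ)) := by
  obtain ⟨F, hper, e1, e2, hgood, hper2⟩ := glue_good (L := 3) (a1 := ε) (b1 := 2 - ε)
    (a2 := 2 - δ + ε) (b2 := 3 + δ - ε) (F1 := Fi) (F2 := Fo) (by norm_num) (by linarith)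
    (by linarith) (by linarith) (by linarith) h1
    (by
      intro s θ hs hs'
      have := h2 (s + 3) θ (by linarith) (by linarith)
      rwa [add_sub_cancel_right] at this)
    (fun s θ hs hs' => ⟨hFi.contDiffAt, immi _ hs hs'⟩)
    (fun s θ hs hs' => ⟨hFo.contDiffAt, immo _ hs hs'⟩)
  obtain ⟨f, hf, hfs, hfi⟩ := descend F 3 (by norm_num) hper (hper2 1 pFi pFo) hgood
  have key : ∀ σ θ : ℝ, f (tor σ θ) = F (σ, θ) := by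
    intro σ θ
    unfold tor
    rw [hf]
    have : (3 : ℝ) * (σ / 3) = σ := by ring
    rw [this]
  refine ⟨f, hfs, hfi, ?_, ?_⟩
  · intro σ θ ha hb; rw [key, e1 σ θ ha hb]
  · intro σ θ ha hb; rw [key, e2 σ θ ha hb]

end Pool.Agent.Csz.M7b
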