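import Mathlib
import Pool.Agent.Csz.Defs

/-! Outer chart (module Outer). -/

set_option autoImplicit false

open Complex Set

namespace Pool.Agent.Csz.Outer

open Pool.Agent.Csz

noncomputable section

/-! ### `pt` as a linear map -/

def ptL : (ℂ × ℝ) →L[ℝ] E3 := LinearMap.toContinuousLinearMap
  { toFun := fun p => pt p.1 p.2
    map_add' := by
      intro p q
      ext i
      fin_cases i <;> simp [pt]
    map_smul' := by
      intro c p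
      ext i
      fin_cases i <;> simp [pt] }

@[simp] lemma ptL_apply (p : ℂ × ℝ) : ptL p = pt p.1 p.2 := rfl

lemma pt_eq_zero {w : ℂ} {z : ℝ} (h : pt w z = 0) : w = 0 ∧ z = 0 := by
  have h0 : (pt w z) 0 = 0 := by rw [h]; rfl
  have h1 : (pt w z) 1 = 0 := by rw [h]; rfl
  have h2 : (pt w z) 2 = 0 := by rw [h]; rfl
  simp [pt] at h0 h1 h2
  exact ⟨Complex.ext h0 h1, h2⟩

lemma pt_contDiff {f : ℝ × ℝ → ℂ} {g : ℝ × ℝ → ℝ} (hf : ContDiff ℝ (⊤ : ℕ∞) f)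
    (hg : ContDiff ℝ (⊤ : ℕ∞) g) : ContDiff ℝ (⊤ : ℕ∞) (fun p => pt (f p) (g p)) :=
  ptL.contDiff.comp (hf.prodMk hg)

/-! ### linear functionals -/

lemma dot_eq (m w : ℂ) : dot m w = m.re * w.re + m.im * w.im := by
  unfold dot
  simp [Complex.mul_re]

lemma dot_add (m w w' : ℂ) : dot m (w + w') = dot m w + dot m w' := by
  simp only [dot_eq, Complex.add_re, Complex.add_im]; ring

lemma dot_sub (m w w' : ℂ) : dot m (w - w') = dot m w - dot m w' := by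
  simp only [dot_eq, Complex.sub_re, Complex.sub_im]; ring

lemma dot_neg (m w : ℂ) : dot m (-w) = -dot m w := by
  simp only [dot_eq, Complex.neg_re, Complex.neg_im]; ring

lemma dot_mulR (m w : ℂ) (t : ℝ) : dot m (t * w) = t * dot m w := by
  simp only [dot_eq, Complex.mul_re, Complex.mul_im, Complex.ofReal_re, Complex.ofReal_im]; ring

lemma functional (ℓ : E3 →L[ℝ] ℝ) (hℓ : ℓ ≠ 0) : ∃ (m : ℂ) (μ : ℝ), (m ≠ 0 ∨ μ ≠ 0) ∧
    ∀ w z, ℓ (pt w z) = dot m w + μ * z := by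
  have hdec : ∀ w z, pt w z = w.re • pt 1 0 + w.im • pt I 0 + z • pt 0 1 := by
    intro w z
    ext i
    fin_cases i <;> simp [pt]
  have hev : ∀ w z, ℓ (pt w z) = w.re * ℓ (pt 1 0) + w.im * ℓ (pt I 0) + z * ℓ (pt 0 1) := by
    intro w z
    rw [hdec w z]
    simp only [map_add, map_smul, smul_eq_mul]
  refine ⟨⟨ℓ (pt 1 0), ℓ (pt I 0)⟩, ℓ (pt 0 1), ?_, ?_⟩
  · by_contra hcon
    push Not at hcon
    obtain ⟨h1, h2⟩ := hcon
    apply hℓ
    ext v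
    have hv : v = pt ⟨v 0, v 1⟩ (v 2) := by
      ext i
      fin_cases i <;> simp [pt]
    have h3 := congrArg Complex.re h1
    have h4 := congrArg Complex.im h1
    simp only [Complex.zero_re, Complex.zero_im] at h3 h4
    rw [hv, hev, h2, h3, h4]
    simp
  · intro w z
    rw [hev, dot_eq]
    ring

/-! ### the normal vector -/

lemma nn_add (y t : ℝ) : nn (y + t) = nn y * (Real.cos t + Real.sin t * I) := by
  unfold nn
  rw [Complex.ofReal_add, add_mul, Complex.exp_add, Complex.exp_mul_I (t : ℂ)]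
  push_cast
  rfl

lemma nn_norm (y : ℝ) : (nn y).re ^ 2 + (nn y).im ^ 2 = 1 := by
  have h := Complex.norm_exp_ofReal_mul_I y
  have h2 := Complex.sq_norm (Complex.exp (y * I))
  rw [h, Complex.normSq_apply] at h2
  unfold nn
  linarith

lemma nn_per (y : ℝ) : nn (y + 2 * Real.pi) = nn y := by
  rw [nn_add]; simp

lemma nn_smooth : ContDiff ℝ (⊤ : ℕ∞) nn := by
  unfold nn
  exact Complex.contDiff_exp.comp ((Complex.ofRealCLM.contDiff).mul contDiff_const)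

/-! ### the ramp -/

section ramp
variable {χ : ℝ → ℝ} {ε : ℝ} (h : Ramp χ ε)
include h

lemma ramp_diff : Differentiable ℝ χ := h.smooth.differentiable (by simp)

lemma ramp_mono : Monotone χ := monotone_of_deriv_nonneg (ramp_diff h) h.dnonneg

lemma ramp_nonneg (s : ℝ) : 0 ≤ χ s := by
  rcases le_or_gt s (-ε) with h1 | h1
  · rw [h.zero s h1]
  · rw [← h.zero (-ε) le_rfl]
    exact ramp_mono h h1.le

lemma ramp_le {s : ℝ} (hs : s ≤ ε) : χ s ≤ ε := by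
  have := ramp_mono h hs
  rwa [h.id ε le_rfl] at this

lemma ramp_hasDeriv (s : ℝ) : HasDerivAt χ (deriv χ s) s := (ramp_diff h s).hasDerivAt

lemma ramp_deriv_zero {s : ℝ} (hs : s ≤ -ε) : deriv χ s = 0 := by
  -- limit of difference quotients from the left
  have h1 : HasDerivWithinAt χ (deriv χ s) (Iic s) s := (ramp_hasDeriv h s).hasDerivWithinAt
  have h2 : HasDerivWithinAt χ 0 (Iic s) s := by
    refine (hasDerivWithinAt_const s (Iic s) (0:ℝ)).congr (fun t ht => h.zero t (le_trans ht hs))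
      (h.zero s hs)
  exact (uniqueDiffWithinAt_Iic s).eq_deriv _ h1 h2

lemma ramp_deriv_one {s : ℝ} (hs : ε ≤ s) : deriv χ s = 1 := by
  have h1 : HasDerivWithinAt χ (deriv χ s) (Ici s) s := (ramp_hasDeriv h s).hasDerivWithinAt
  have h2 : HasDerivWithinAt χ 1 (Ici s) s := by
    refine (hasDerivWithinAt_id s (Ici s)).congr (fun t ht => ?_) ?_
    · simp only [id]; exact h.id t (le_trans hs ht)
    · simp only [id]; exact h.id s hs
  exact (uniqueDiffWithinAt_Ici s).eq_deriv _ h1 h2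

lemma ramp_sub (σ : ℝ) : 0 ≤ χ (σ - 2) - χ (σ - 3) ∧ χ (σ - 2) - χ (σ - 3) ≤ 1 := by
  obtain ⟨c, -, hc⟩ := exists_deriv_eq_slope χ (show σ - 3 < σ - 2 by linarith)
    (ramp_diff h).continuous.continuousOn (ramp_diff h).differentiableOn
  have h1 := h.dnonneg c
  have h2 := h.dle c
  have h3 : σ - 2 - (σ - 3) = 1 := by ring
  rw [h3, div_one] at hc
  rw [← hc]
  exact ⟨h1, h2⟩

end ramp

/-! ### Kout -/

theorem Kout_smooth (D : SData) (χ : ℝ → ℝ) (ε : ℝ) (hε : ε < 1 / 2) (h : Ramp χ ε) :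
    ContDiff ℝ (⊤ : ℕ∞) (fun p : ℝ × ℝ => D.Kout χ p.1 p.2) ∧
    (∀ σ x, D.Kout χ σ (x + 2 * Real.pi) = D.Kout χ σ x + 1) ∧
    (∀ σ x, 0 < deriv (D.Kout χ σ) x) := by
  have hs := h.smooth
  have hTA := D.hTA.smooth
  have hTB := D.hTB.smooth
  refine ⟨?_, ?_, ?_⟩
  · unfold SData.Kout
    have e1 : ContDiff ℝ (⊤ : ℕ∞) (fun p : ℝ × ℝ => χ (p.1 - 2)) :=
      hs.comp (contDiff_fst.sub contDiff_const)
    have e2 : ContDiff ℝ (⊤ : ℕ∞) (fun p : ℝ × ℝ => χ (p.1 - 3)) :=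
      hs.comp (contDiff_fst.sub contDiff_const)
    have e3 : ContDiff ℝ (⊤ : ℕ∞) (fun p : ℝ × ℝ => D.TA p.2) := hTA.comp contDiff_snd
    have e4 : ContDiff ℝ (⊤ : ℕ∞) (fun p : ℝ × ℝ => D.TB p.2) := hTB.comp contDiff_snd
    exact e4.add ((e1.sub e2).mul (e3.sub e4))
  · intro σ x
    unfold SData.Kout
    rw [D.hTA.per, D.hTB.per]
    ring
  · intro σ x
    have hdA : HasDerivAt D.TA (deriv D.TA x) x :=
      (hTA.differentiable (by simp) x).hasDerivAt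
    have hdB : HasDerivAt D.TB (deriv D.TB x) x :=
      (hTB.differentiable (by simp) x).hasDerivAt
    have hd : HasDerivAt (D.Kout χ σ)
        (deriv D.TB x + (χ (σ - 2) - χ (σ - 3)) * (deriv D.TA x - deriv D.TB x)) x :=
      hdB.add ((hdA.sub hdB).const_mul _)
    rw [hd.deriv]
    obtain ⟨h1, h2⟩ := ramp_sub h σ
    have hA := D.hTA.pos x
    have hB := D.hTB.pos x
    set c := χ (σ - 2) - χ (σ - 3) with hc
    have e : deriv D.TB x + c * (deriv D.TA x - deriv D.TB x) =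
        (1 - c) * deriv D.TB x + c * deriv D.TA x := by ring
    rw [e]
    rcases lt_or_ge c 1 with h3 | h3
    · have h4 : 0 < (1 - c) * deriv D.TB x := mul_pos (by linarith) hB
      have h5 : 0 ≤ c * deriv D.TA x := mul_nonneg h1 hA.le
      linarith
    · have h4 : c = 1 := le_antisymm h2 h3
      rw [h4]
      linarith

theorem Fout_smooth (D : SData) (χ : ℝ → ℝ) (ε : ℝ) (h : Ramp χ ε) :
    ContDiff ℝ (⊤ : ℕ∞) (D.Fout χ) ∧
    (∀ σ x, D.Fout χ (σ, x + 2 * Real.pi) = D.Fout χ (σ, x)) := by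
  have hs := h.smooth
  have hA : ContDiff ℝ (⊤ : ℕ∞) (fun p : ℝ × ℝ => D.A p.2) := D.hA.smooth.comp contDiff_snd
  have hB : ContDiff ℝ (⊤ : ℕ∞) (fun p : ℝ × ℝ => D.B p.2) := D.hB.smooth.comp contDiff_snd
  have e1 : ContDiff ℝ (⊤ : ℕ∞) (fun p : ℝ × ℝ => χ (p.1 - 2)) :=
    hs.comp (contDiff_fst.sub contDiff_const)
  have e2 : ContDiff ℝ (⊤ : ℕ∞) (fun p : ℝ × ℝ => χ (p.1 - 3)) :=
    hs.comp (contDiff_fst.sub contDiff_const)
  have hR : ∀ f : ℝ × ℝ → ℝ, ContDiff ℝ (⊤ : ℕ∞) f →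
      ContDiff ℝ (⊤ : ℕ∞) (fun p => ((f p : ℝ) : ℂ)) := fun f hf =>
    Complex.ofRealCLM.contDiff.comp hf
  constructor
  · unfold SData.Fout
    refine pt_contDiff ?_ ?_
    · unfold SData.Gout
      have e3 := hR _ e1
      have e4 := hR _ e2
      have e5 := hR (fun p : ℝ × ℝ => p.1) contDiff_fst
      have e6 : ContDiff ℝ (⊤ : ℕ∞) (fun p : ℝ × ℝ => ((D.κ : ℂ) * (D.B p.2 - D.cB))) :=
        contDiff_const.mul (hB.sub contDiff_const)
      have e7 : ContDiff ℝ (⊤ : ℕ∞) (fun p : ℝ × ℝ => ((D.κ : ℂ) * (D.A p.2 - D.cA))) :=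
        contDiff_const.mul (hA.sub contDiff_const)
      exact ((hB.add ((e5.sub contDiff_const).mul e6)).add
        (e3.mul ((hA.sub hB).sub e6))).add (e4.mul (e7.neg.sub (hA.sub hB)))
    · unfold SData.zout
      exact ((contDiff_fst.sub contDiff_const).sub (contDiff_const.mul e1)).add
        (contDiff_const.mul e2)
  · intro σ x
    simp only [SData.Fout, SData.Gout, D.hA.per, D.hB.per]

/-! ### coefficients -/

def hB (D : SData) (χ : ℝ → ℝ) (σ : ℝ) : ℝ :=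
  1 + D.κ * (σ - 2) - (1 + D.κ) * χ (σ - 2) + χ (σ - 3)

def hA (D : SData) (χ : ℝ → ℝ) (σ : ℝ) : ℝ := χ (σ - 2) - (1 + D.κ) * χ (σ - 3)

lemma Gout_eq (D : SData) (χ : ℝ → ℝ) (σ y : ℝ) : D.Gout χ σ y =
    (hB D χ σ : ℝ) * D.B y + (hA D χ σ : ℝ) * D.A y +
      ((D.κ * (χ (σ - 2) - (σ - 2)) : ℝ) * D.cB + (D.κ * χ (σ - 3) : ℝ) * D.cA) := by
  unfold SData.Gout hB hA
  push_cast
  ring

lemma Gout_dy (D : SData) (χ : ℝ → ℝ) (σ y : ℝ) : HasDerivAt (fun y => D.Gout χ σ y)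
    ((hB D χ σ * D.ρB y + hA D χ σ * D.ρA y : ℝ) * (I * nn y)) y := by
  have h1 : (fun y => D.Gout χ σ y) = fun y => (hB D χ σ : ℝ) * D.B y + (hA D χ σ : ℝ) * D.A y +
      ((D.κ * (χ (σ - 2) - (σ - 2)) : ℝ) * D.cB + (D.κ * χ (σ - 3) : ℝ) * D.cA) :=
    funext fun y => Gout_eq D χ σ y
  rw [h1]
  have h2 := (((D.hB.der y).const_mul ((hB D χ σ : ℝ) : ℂ)).add
    ((D.hA.der y).const_mul ((hA D χ σ : ℝ) : ℂ))).add_const
      (((D.κ * (χ (σ - 2) - (σ - 2)) : ℝ) : ℂ) * D.cB + ((D.κ * χ (σ - 3) : ℝ) : ℂ) * D.cA)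
  have h3 : ((hB D χ σ * D.ρB y + hA D χ σ * D.ρA y : ℝ) : ℂ) * (I * nn y) =
      ((hB D χ σ : ℝ) : ℂ) * (((D.ρB y : ℝ) : ℂ) * (I * nn y)) +
      ((hA D χ σ : ℝ) : ℂ) * (((D.ρA y : ℝ) : ℂ) * (I * nn y)) := by
    rw [Complex.ofReal_add, Complex.ofReal_mul, Complex.ofReal_mul]
    ring
  rw [h3]
  exact h2

section ramp2
variable {χ : ℝ → ℝ} {ε : ℝ} (h : Ramp χ ε)
include h

lemma ramp_comp (c σ : ℝ) : HasDerivAt (fun σ => χ (σ - c)) (deriv χ (σ - c)) σ := by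
  have := (ramp_hasDeriv h (σ - c)).comp σ ((hasDerivAt_id σ).sub_const c)
  rw [mul_one] at this
  exact this

lemma Gout_ds (D : SData) (σ y : ℝ) : HasDerivAt (fun σ => D.Gout χ σ y)
    (D.κ * (D.B y - D.cB) + (deriv χ (σ - 2) : ℝ) * (D.A y - D.B y - D.κ * (D.B y - D.cB)) +
      (deriv χ (σ - 3) : ℝ) * (-(D.κ * (D.A y - D.cA)) - (D.A y - D.B y))) σ := by
  unfold SData.Gout
  have h0 : HasDerivAt (fun σ : ℝ => ((σ : ℂ) - 2)) 1 σ := by
    have := ((hasDerivAt_id σ).ofReal_comp).sub_const (2:ℂ)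
    simpa using this
  have h2 := (ramp_comp h 2 σ).ofReal_comp
  have h3 := (ramp_comp h 3 σ).ofReal_comp
  have h4 := (((h0.mul_const ((D.κ : ℂ) * (D.B y - D.cB))).const_add (D.B y)).add
    (h2.mul_const (D.A y - D.B y - D.κ * (D.B y - D.cB)))).add
    (h3.mul_const (-(D.κ * (D.A y - D.cA)) - (D.A y - D.B y)))
  rw [one_mul] at h4
  exact h4

lemma zout_ds (σ : ℝ) : HasDerivAt (SData.zout χ)
    (1 - 3 * deriv χ (σ - 2) + 3 * deriv χ (σ - 3)) σ := by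
  have h2 := ramp_comp h 2 σ
  have h3 := ramp_comp h 3 σ
  have h4 := (((hasDerivAt_id σ).sub_const 1).sub (h2.const_mul 3)).add (h3.const_mul 3)
  exact h4

lemma coef_pos (D : SData) (he1 : ε < D.δ / 4) (he2 : (1 + 2 * D.κ) * ε ≤ 1 / 4) {σ : ℝ}
    (h1 : 2 - D.δ + ε < σ) (h2 : σ < 3 + D.δ - ε) :
    0 ≤ hB D χ σ ∧ 0 ≤ hA D χ σ ∧ 0 < hB D χ σ + hA D χ σ := by
  have hε := h.pos
  have hκ := D.hκ
  have hδ := D.hδ
  have hδ2 := D.hδ2
  have hκδ := D.hκδ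
  have hκε : 0 < D.κ * ε := mul_pos hκ hε
  unfold hB hA
  rcases le_or_gt σ (2 - ε) with c1 | c1
  · rw [h.zero (σ - 2) (by linarith), h.zero (σ - 3) (by linarith)]
    have : D.κ * (2 - σ) ≤ D.κ * D.δ := mul_le_mul_of_nonneg_left (by linarith) hκ.le
    refine ⟨?_, ?_, ?_⟩ <;> linarith
  rcases le_or_gt σ (2 + ε) with c2 | c2
  · rw [h.zero (σ - 3) (by linarith)]
    have a1 := ramp_nonneg h (σ - 2)
    have a2 := ramp_le h (show σ - 2 ≤ ε by linarith)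
    have a3 : D.κ * χ (σ - 2) ≤ D.κ * ε := mul_le_mul_of_nonneg_left a2 hκ.le
    have a4 : D.κ * (2 - σ) ≤ D.κ * ε := mul_le_mul_of_nonneg_left (by linarith) hκ.le
    refine ⟨?_, ?_, ?_⟩ <;> linarith
  rcases le_or_gt σ (3 - ε) with c3 | c3
  · rw [h.zero (σ - 3) (by linarith), h.id (σ - 2) (by linarith)]
    refine ⟨?_, ?_, ?_⟩ <;> linarith
  rcases le_or_gt σ (3 + ε) with c4 | c4
  · rw [h.id (σ - 2) (by linarith)]
    have a1 := ramp_nonneg h (-(σ - 3))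
    have a0 := h.symm (σ - 3)
    have a2 := ramp_le h (show σ - 3 ≤ ε by linarith)
    have a3 : D.κ * χ (σ - 3) ≤ D.κ * ε := mul_le_mul_of_nonneg_left a2 hκ.le
    have a5 := ramp_nonneg h (σ - 3)
    refine ⟨?_, ?_, ?_⟩ <;> linarith
  · rw [h.id (σ - 2) (by linarith), h.id (σ - 3) (by linarith)]
    have : D.κ * (σ - 3) ≤ D.κ * D.δ := mul_le_mul_of_nonneg_left (by linarith) hκ.le
    refine ⟨?_, ?_, ?_⟩ <;> linarith

lemma R_pos (D : SData) (he1 : ε < D.δ / 4) (he2 : (1 + 2 * D.κ) * ε ≤ 1 / 4) {σ : ℝ}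
    (h1 : 2 - D.δ + ε < σ) (h2 : σ < 3 + D.δ - ε) (y : ℝ) :
    0 < hB D χ σ * D.ρB y + hA D χ σ * D.ρA y := by
  obtain ⟨a, b, c⟩ := coef_pos h D he1 he2 h1 h2
  have hb := D.hB.pos y
  have ha := D.hA.pos y
  rcases a.eq_or_lt with a0 | a0
  · rw [← a0, zero_mul, zero_add]
    exact mul_pos (by linarith) ha
  · have := mul_pos a0 hb
    have := mul_nonneg b ha.le
    linarith

end ramp2

lemma exists_eps (D : SData) : ∃ ε0 > 0, ∀ ε < ε0, 0 < ε →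
    ε < D.δ / 4 ∧ (1 + 2 * D.κ) * ε ≤ 1 / 4 := by
  have hκ := D.hκ
  have hδ := D.hδ
  refine ⟨min (D.δ / 4) (1 / (4 * (1 + 2 * D.κ))), by positivity, fun ε h1 h2 => ⟨?_, ?_⟩⟩
  · exact lt_of_lt_of_le h1 (min_le_left _ _)
  · have h3 := (lt_of_lt_of_le h1 (min_le_right _ _)).le
    rw [le_div_iff₀ (by positivity)] at h3
    linarith

lemma fderiv_pair {F : ℝ × ℝ → E3} {p : ℝ × ℝ} (hF : DifferentiableAt ℝ F p) (a b : ℝ)
    {u v : E3} (hu : HasDerivAt (fun σ => F (σ, p.2)) u p.1)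
    (hv : HasDerivAt (fun y => F (p.1, y)) v p.2) : fderiv ℝ F p (a, b) = a • u + b • v := by
  have hF' : HasFDerivAt F (fderiv ℝ F p) (p.1, p.2) := hF.hasFDerivAt
  have h1 : HasDerivAt (fun σ => F (σ, p.2)) (fderiv ℝ F p (1, 0)) p.1 :=
    HasFDerivAt.comp_hasDerivAt (f := fun σ : ℝ => (σ, p.2)) p.1 hF'
      ((hasDerivAt_id p.1).prodMk (hasDerivAt_const p.1 p.2))
  have h2 : HasDerivAt (fun y => F (p.1, y)) (fderiv ℝ F p (0, 1)) p.2 :=
    HasFDerivAt.comp_hasDerivAt (f := fun y : ℝ => (p.1, y)) p.2 hF'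
      ((hasDerivAt_const p.2 p.1).prodMk (hasDerivAt_id p.2))
  rw [hu.unique h1, hv.unique h2, ← map_smul, ← map_smul, ← map_add]
  congr 1
  ext <;> simp

lemma dot_nn_tau (y : ℝ) : dot (nn y) (I * nn y) = 0 := by
  rw [dot_eq]
  simp only [Complex.mul_re, Complex.mul_im, Complex.I_re, Complex.I_im]
  ring

theorem outer_immersion (D : SData) : ∃ ε0 > 0, ∀ (χ : ℝ → ℝ) (ε : ℝ), ε < ε0 → Ramp χ ε →
    ∀ p : ℝ × ℝ, 2 - D.δ + ε < p.1 → p.1 < 3 + D.δ - ε →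
      Function.Injective (fderiv ℝ (D.Fout χ) p) := by
  obtain ⟨ε0, hε0, hh⟩ := exists_eps D
  refine ⟨ε0, hε0, fun χ ε hε h p hp1 hp2 => ?_⟩
  obtain ⟨he1, he2⟩ := hh ε hε h.pos
  have hR := R_pos h D he1 he2 hp1 hp2 p.2
  set R : ℝ := hB D χ p.1 * D.ρB p.2 + hA D χ p.1 * D.ρA p.2 with hRdef
  have hF : DifferentiableAt ℝ (D.Fout χ) p :=
    (Fout_smooth D χ ε h).1.differentiable (by simp) p
  have hu : HasDerivAt (fun σ => D.Fout χ (σ, p.2)) _ p.1 :=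
    ptL.hasFDerivAt.comp_hasDerivAt p.1 ((Gout_ds h D p.1 p.2).prodMk (zout_ds h p.1))
  have hv : HasDerivAt (fun y => D.Fout χ (p.1, y)) _ p.2 :=
    ptL.hasFDerivAt.comp_hasDerivAt p.2
      ((Gout_dy D χ p.1 p.2).prodMk (hasDerivAt_const p.2 (SData.zout χ p.1)))
  rw [injective_iff_map_eq_zero]
  rintro ⟨a, b⟩ hab
  rw [fderiv_pair hF a b hu hv, ← map_smul, ← map_smul, ← map_add] at hab
  obtain ⟨h1, h2⟩ := pt_eq_zero hab
  simp only [Prod.fst_add, Prod.snd_add, Prod.smul_fst, Prod.smul_snd, smul_eq_mul, mul_zero,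
    add_zero, Complex.real_smul] at h1 h2
  rw [← hRdef] at h1
  -- a = 0
  have ha : a = 0 := by
    by_contra ha
    have hz := (mul_eq_zero.mp h2).resolve_left ha
    have h3 : dot (nn p.2) ((a : ℂ) * (D.κ * (D.B p.2 - D.cB) + (deriv χ (p.1 - 2) : ℝ) *
      (D.A p.2 - D.B p.2 - D.κ * (D.B p.2 - D.cB)) +
      (deriv χ (p.1 - 3) : ℝ) * (-(D.κ * (D.A p.2 - D.cA)) - (D.A p.2 - D.B p.2))) +
        (b : ℂ) * ((R : ℂ) * (I * nn p.2))) = 0 := by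
      rw [h1]; simp [dot_eq]
    rw [dot_add, dot_mulR, dot_mulR, dot_mulR, dot_nn_tau, mul_zero, mul_zero, add_zero] at h3
    have h4 := (mul_eq_zero.mp h3).resolve_left ha
    have hcA := D.condA0 p.2
    have hcB := D.condB0 p.2
    set X : ℝ := dot (nn p.2) (D.κ * (D.B p.2 - D.cB)) with hX
    set Y : ℝ := dot (nn p.2) (D.κ * (D.A p.2 - D.cA)) with hY
    set Z : ℝ := dot (nn p.2) (D.A p.2 - D.B p.2) with hZ
    have e4 : X + deriv χ (p.1 - 2) * (Z - X) + deriv χ (p.1 - 3) * (-Y - Z) = 0 := by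
      rw [← h4, dot_add, dot_add, dot_mulR _ _ (deriv χ (p.1 - 2)),
        dot_mulR _ _ (deriv χ (p.1 - 3)), dot_sub _ (D.A p.2 - D.B p.2),
        dot_sub _ (-(D.κ * (D.A p.2 - D.cA)) : ℂ), dot_neg]
    have eA : 0 < -Z + 2 * Y := by
      have : dot (nn p.2) (D.B p.2 - D.A p.2 + 2 * D.κ * (D.A p.2 - D.cA)) = -Z + 2 * Y := by
        rw [dot_add, hZ, hY]
        have e5 : (2 * D.κ * (D.A p.2 - D.cA) : ℂ) =
            ((2:ℝ) : ℂ) * (D.κ * (D.A p.2 - D.cA)) := by push_cast; ring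
        have e6 : D.B p.2 - D.A p.2 = -(D.A p.2 - D.B p.2) := by ring
        rw [e5, dot_mulR, e6, dot_neg]
      rw [this] at hcA
      exact hcA
    have eB : 0 < Z + 2 * X := by
      have : dot (nn p.2) (D.A p.2 - D.B p.2 + 2 * D.κ * (D.B p.2 - D.cB)) = Z + 2 * X := by
        rw [dot_add, hZ, hX]
        have e5 : (2 * D.κ * (D.B p.2 - D.cB) : ℂ) =
            ((2:ℝ) : ℂ) * (D.κ * (D.B p.2 - D.cB)) := by push_cast; ring
        rw [e5, dot_mulR]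
      rw [this] at hcB
      exact hcB
    have hε4 : ε < 1 / 8 := by
      have := D.hδ2
      linarith
    rcases le_or_gt p.1 (3 - ε) with c | c
    · rw [ramp_deriv_zero h (show p.1 - 3 ≤ -ε by linarith)] at e4 hz
      have e5 : deriv χ (p.1 - 2) = 1 / 3 := by linarith
      rw [e5] at e4
      linarith
    · rw [ramp_deriv_one h (show ε ≤ p.1 - 2 by linarith)] at e4 hz
      have e5 : deriv χ (p.1 - 3) = 2 / 3 := by linarith
      rw [e5] at e4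
      linarith
  rw [ha] at h1
  simp only [Complex.ofReal_zero, zero_mul, zero_add] at h1
  have hnn : nn p.2 ≠ 0 := by
    intro h0
    have := nn_norm p.2
    rw [h0] at this
    simp at this
  have hb : (b : ℂ) = 0 := by
    rcases mul_eq_zero.mp h1 with h3 | h3
    · exact h3
    · exfalso
      rcases mul_eq_zero.mp h3 with h4 | h4
      · exact hR.ne' (by exact_mod_cast h4)
      · rcases mul_eq_zero.mp h4 with h5 | h5
        · exact Complex.I_ne_zero h5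
        · exact hnn h5
  have hb' : b = 0 := by exact_mod_cast hb
  rw [ha, hb']
  rfl

/-! ### peaks -/

def S1 (D : SData) (m : ℂ) (μ : ℝ) (y : ℝ) : ℝ := dot m (D.κ * (D.B y - D.cB)) + μ

def S2 (D : SData) (m : ℂ) (μ : ℝ) (y : ℝ) : ℝ := dot m (D.A y - D.B y) - 2 * μ

def S3 (D : SData) (m : ℂ) (μ : ℝ) (y : ℝ) : ℝ := dot m (-(D.κ * (D.A y - D.cA))) + μ

def uu (D : SData) (χ : ℝ → ℝ) (m : ℂ) (μ : ℝ) (p : ℝ × ℝ) : ℝ :=
  dot m (D.Gout χ p.1 p.2) + μ * SData.zout χ p.1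

lemma dot_hasDeriv (m : ℂ) {g : ℝ → ℂ} {g' : ℂ} {t : ℝ} (h : HasDerivAt g g' t) :
    HasDerivAt (fun t => dot m (g t)) (dot m g') t := by
  have h1 := (m.re • Complex.reCLM + m.im • Complex.imCLM).hasFDerivAt.comp_hasDerivAt t h
  have h2 : ∀ w : ℂ, (m.re • Complex.reCLM + m.im • Complex.imCLM) w = dot m w := by
    intro w
    rw [dot_eq]
    simp
  rw [h2] at h1
  have h3 : (fun t => dot m (g t)) = (m.re • Complex.reCLM + m.im • Complex.imCLM) ∘ g := by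
    funext t
    rw [Function.comp, h2]
  rw [h3]
  exact h1

lemma uu_ds {χ : ℝ → ℝ} {ε : ℝ} (h : Ramp χ ε) (D : SData) (m : ℂ) (μ σ y : ℝ) :
    HasDerivAt (fun σ => uu D χ m μ (σ, y))
      (S1 D m μ y + deriv χ (σ - 2) * (S2 D m μ y - S1 D m μ y) +
        deriv χ (σ - 3) * (S3 D m μ y - S2 D m μ y)) σ := by
  have h1 := (dot_hasDeriv m (Gout_ds h D σ y)).add ((zout_ds h σ).const_mul μ)
  have h2 : dot m (D.κ * (D.B y - D.cB) +
      (deriv χ (σ - 2) : ℝ) * (D.A y - D.B y - D.κ * (D.B y - D.cB)) +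
      (deriv χ (σ - 3) : ℝ) * (-(D.κ * (D.A y - D.cA)) - (D.A y - D.B y))) +
      μ * (1 - 3 * deriv χ (σ - 2) + 3 * deriv χ (σ - 3)) =
      (S1 D m μ y + deriv χ (σ - 2) * (S2 D m μ y - S1 D m μ y) +
        deriv χ (σ - 3) * (S3 D m μ y - S2 D m μ y)) := by
    rw [dot_add, dot_add, dot_mulR _ _ (deriv χ (σ - 2)),
        dot_mulR _ _ (deriv χ (σ - 3)), dot_sub _ (D.A y - D.B y),
        dot_sub _ (-(D.κ * (D.A y - D.cA)) : ℂ)]
    unfold S1 S2 S3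
    ring
  rw [← h2]
  exact h1

lemma uu_dy (D : SData) (χ : ℝ → ℝ) (m : ℂ) (μ σ y : ℝ) :
    HasDerivAt (fun y => uu D χ m μ (σ, y))
      ((hB D χ σ * D.ρB y + hA D χ σ * D.ρA y) * dot m (I * nn y)) y := by
  have h1 := (dot_hasDeriv m (Gout_dy D χ σ y)).add_const (μ * SData.zout χ σ)
  rw [dot_mulR] at h1
  exact h1

lemma dot_tau (m : ℂ) (y t : ℝ) : dot m (I * nn (y + t)) =
    Real.cos t * dot m (I * nn y) - Real.sin t * dot m (nn y) := by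
  rw [nn_add]
  simp only [dot_eq, Complex.mul_re, Complex.mul_im, Complex.I_re, Complex.I_im, Complex.add_re,
    Complex.add_im, Complex.ofReal_re, Complex.ofReal_im]
  ring

lemma dot_nrm (m : ℂ) (y t : ℝ) : dot m (nn (y + t)) =
    Real.cos t * dot m (nn y) + Real.sin t * dot m (I * nn y) := by
  rw [nn_add]
  simp only [dot_eq, Complex.mul_re, Complex.mul_im, Complex.I_re, Complex.I_im, Complex.add_re,
    Complex.add_im, Complex.ofReal_re, Complex.ofReal_im]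
  ring

lemma dot_pyth (m : ℂ) (y : ℝ) : dot m (nn y) ^ 2 + dot m (I * nn y) ^ 2 =
    m.re ^ 2 + m.im ^ 2 := by
  have h := nn_norm y
  simp only [dot_eq, Complex.mul_re, Complex.mul_im, Complex.I_re, Complex.I_im]
  linear_combination (m.re ^ 2 + m.im ^ 2) * h

lemma peak_y {χ : ℝ → ℝ} {ε : ℝ} (h : Ramp χ ε) (D : SData) (he1 : ε < D.δ / 4)
    (he2 : (1 + 2 * D.κ) * ε ≤ 1 / 4) (m : ℂ) (μ : ℝ) (p : ℝ × ℝ)
    (h1 : 2 - D.δ + ε < p.1) (h2 : p.1 < 3 + D.δ - ε) (hmax : IsLocalMax (uu D χ m μ) p) :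
    dot m (I * nn p.2) = 0 ∧ 0 ≤ dot m (nn p.2) := by
  have hmax' : IsLocalMax (fun y => uu D χ m μ (p.1, y)) p.2 := by
    have hc : ContinuousAt (fun y : ℝ => (p.1, y)) p.2 := by fun_prop
    exact IsLocalMax.comp_continuous (g := fun y : ℝ => (p.1, y)) hmax hc
  have hz := hmax'.hasDerivAt_eq_zero (uu_dy D χ m μ p.1 p.2)
  have hR := R_pos h D he1 he2 h1 h2
  have hz' := (mul_eq_zero.mp hz).resolve_left (hR p.2).ne'
  refine ⟨hz', ?_⟩
  by_contra hcon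
  push Not at hcon
  have hmono : StrictMonoOn (fun y => uu D χ m μ (p.1, y)) (Icc p.2 (p.2 + 1)) := by
    apply strictMonoOn_of_deriv_pos (convex_Icc _ _)
    · exact fun y _ => (uu_dy D χ m μ p.1 y).continuousAt.continuousWithinAt
    · intro y hy
      rw [interior_Icc] at hy
      rw [(uu_dy D χ m μ p.1 y).deriv]
      refine mul_pos (hR y) ?_
      have e : y = p.2 + (y - p.2) := by ring
      rw [e, dot_tau, hz', mul_zero, zero_sub]
      have hs : 0 < Real.sin (y - p.2) :=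
        Real.sin_pos_of_pos_of_lt_pi (by linarith [hy.1]) (by linarith [hy.2, Real.pi_gt_three])
      have := mul_neg_of_pos_of_neg hs hcon
      linarith
  have h3 : ∀ᶠ y in nhdsWithin p.2 (Ioi p.2), uu D χ m μ (p.1, y) ≤ uu D χ m μ (p.1, p.2) :=
    hmax'.filter_mono nhdsWithin_le_nhds
  have h4 : ∀ᶠ y in nhdsWithin p.2 (Ioi p.2), y ∈ Ioo p.2 (p.2 + 1) :=
    Ioo_mem_nhdsGT (by linarith)
  obtain ⟨y, hy1, hy2⟩ := (h3.and h4).exists
  have := hmono ⟨le_rfl, by linarith⟩ ⟨hy2.1.le, hy2.2.le⟩ hy2.1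
  simp only at this
  linarith

lemma peak_s {χ : ℝ → ℝ} {ε : ℝ} (h : Ramp χ ε) (D : SData) (m : ℂ) (μ : ℝ) (p : ℝ × ℝ)
    (hmax : IsLocalMax (uu D χ m μ) p) :
    S1 D m μ p.2 + deriv χ (p.1 - 2) * (S2 D m μ p.2 - S1 D m μ p.2) +
        deriv χ (p.1 - 3) * (S3 D m μ p.2 - S2 D m μ p.2) = 0 := by
  have hmax' : IsLocalMax (fun σ => uu D χ m μ (σ, p.2)) p.1 := by
    have hc : ContinuousAt (fun σ : ℝ => (σ, p.2)) p.1 := by fun_prop
    exact IsLocalMax.comp_continuous (g := fun σ : ℝ => (σ, p.2)) hmax hc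
  exact hmax'.hasDerivAt_eq_zero (uu_ds h D m μ p.1 p.2)

lemma slideL {χ : ℝ → ℝ} {ε : ℝ} (h : Ramp χ ε) (D : SData) (he1 : ε < D.δ / 4)
    (m : ℂ) (μ : ℝ) (p : ℝ × ℝ) (hp1 : 2 - D.δ / 2 ≤ p.1) (hp2 : p.1 ≤ 3 - ε)
    (hz : S1 D m μ p.2 + deriv χ (p.1 - 2) * (S2 D m μ p.2 - S1 D m μ p.2) +
        deriv χ (p.1 - 3) * (S3 D m μ p.2 - S2 D m μ p.2) = 0)
    (hs : ∀ C : Set (ℝ × ℝ), C ⊆ {q : ℝ × ℝ | 2 - D.δ + ε < q.1 ∧ q.1 < 3 + D.δ - ε} →
      IsPreconnected C → p ∈ C → (∀ r ∈ C, uu D χ m μ p ≤ uu D χ m μ r) →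
        ∀ r ∈ C, r.1 ≠ 2 - D.δ / 2 ∧ r.1 ≠ 3 + D.δ / 2) :
    S2 D m μ p.2 ≤ S1 D m μ p.2 := by
  by_contra hcon
  push Not at hcon
  have hδ := D.hδ
  have hε := h.pos
  rw [ramp_deriv_zero h (show p.1 - 3 ≤ -ε by linarith)] at hz
  have hanti : AntitoneOn (fun σ => uu D χ m μ (σ, p.2)) (Icc (2 - D.δ / 2) p.1) := by
    apply antitoneOn_of_deriv_nonpos (convex_Icc _ _)
    · exact fun σ _ => (uu_ds h D m μ σ p.2).continuousAt.continuousWithinAt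
    · exact fun σ _ => (uu_ds h D m μ σ p.2).differentiableAt.differentiableWithinAt
    · intro σ hσ
      rw [interior_Icc] at hσ
      rw [(uu_ds h D m μ σ p.2).deriv, ramp_deriv_zero h (show σ - 3 ≤ -ε by linarith [hσ.2])]
      have h1 : deriv χ (σ - 2) ≤ deriv χ (p.1 - 2) := h.dmono (by linarith [hσ.2])
      have h2 := mul_le_mul_of_nonneg_right h1 (show 0 ≤ S2 D m μ p.2 - S1 D m μ p.2 by linarith)
      linarith
  have h5 := hs ((Icc (2 - D.δ / 2) p.1) ×ˢ {p.2}) ?_ ?_ ?_ ?_ (2 - D.δ / 2, p.2) ?_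
  · exact h5.1 rfl
  · rintro ⟨a, b⟩ ⟨h6, -⟩
    simp only [mem_Icc] at h6
    exact ⟨by simp only; linarith, by simp only; linarith⟩
  · exact isPreconnected_Icc.prod isPreconnected_singleton
  · exact ⟨⟨hp1, le_rfl⟩, rfl⟩
  · rintro ⟨a, b⟩ ⟨h6, h7⟩
    simp only [mem_singleton_iff] at h7
    subst h7
    exact hanti h6 ⟨hp1, le_rfl⟩ h6.2
  · exact ⟨⟨le_rfl, hp1⟩, rfl⟩

lemma slideR {χ : ℝ → ℝ} {ε : ℝ} (h : Ramp χ ε) (D : SData) (he1 : ε < D.δ / 4)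
    (m : ℂ) (μ : ℝ) (p : ℝ × ℝ) (hp1 : p.1 ≤ 3 + D.δ / 2) (hp2 : 2 + ε ≤ p.1)
    (hz : S1 D m μ p.2 + deriv χ (p.1 - 2) * (S2 D m μ p.2 - S1 D m μ p.2) +
        deriv χ (p.1 - 3) * (S3 D m μ p.2 - S2 D m μ p.2) = 0)
    (hs : ∀ C : Set (ℝ × ℝ), C ⊆ {q : ℝ × ℝ | 2 - D.δ + ε < q.1 ∧ q.1 < 3 + D.δ - ε} →
      IsPreconnected C → p ∈ C → (∀ r ∈ C, uu D χ m μ p ≤ uu D χ m μ r) →
        ∀ r ∈ C, r.1 ≠ 2 - D.δ / 2 ∧ r.1 ≠ 3 + D.δ / 2) :
    S3 D m μ p.2 ≤ S2 D m μ p.2 := by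
  by_contra hcon
  push Not at hcon
  have hδ := D.hδ
  have hε := h.pos
  rw [ramp_deriv_one h (show ε ≤ p.1 - 2 by linarith)] at hz
  have hmono : MonotoneOn (fun σ => uu D χ m μ (σ, p.2)) (Icc p.1 (3 + D.δ / 2)) := by
    apply monotoneOn_of_deriv_nonneg (convex_Icc _ _)
    · exact fun σ _ => (uu_ds h D m μ σ p.2).continuousAt.continuousWithinAt
    · exact fun σ _ => (uu_ds h D m μ σ p.2).differentiableAt.differentiableWithinAt
    · intro σ hσ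
      rw [interior_Icc] at hσ
      rw [(uu_ds h D m μ σ p.2).deriv, ramp_deriv_one h (show ε ≤ σ - 2 by linarith [hσ.1])]
      have h1 : deriv χ (p.1 - 3) ≤ deriv χ (σ - 3) := h.dmono (by linarith [hσ.1])
      have h2 := mul_le_mul_of_nonneg_right h1 (show 0 ≤ S3 D m μ p.2 - S2 D m μ p.2 by linarith)
      linarith
  have h5 := hs ((Icc p.1 (3 + D.δ / 2)) ×ˢ {p.2}) ?_ ?_ ?_ ?_ (3 + D.δ / 2, p.2) ?_
  · exact h5.2 rfl
  · rintro ⟨a, b⟩ ⟨h6, -⟩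
    simp only [mem_Icc] at h6
    exact ⟨by simp only; linarith, by simp only; linarith⟩
  · exact isPreconnected_Icc.prod isPreconnected_singleton
  · exact ⟨⟨le_rfl, hp1⟩, rfl⟩
  · rintro ⟨a, b⟩ ⟨h6, h7⟩
    simp only [mem_singleton_iff] at h7
    subst h7
    exact hmono ⟨le_rfl, hp1⟩ h6 h6.1
  · exact ⟨⟨hp1, le_rfl⟩, rfl⟩

/-- the core comparison along a segment -/
lemma core {χ : ℝ → ℝ} {ε : ℝ} (h : Ramp χ ε) (D : SData) (he1 : ε < D.δ / 4)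
    (m : ℂ) (μ y σ₁ σ₂ : ℝ) (h12 : σ₁ ≤ σ₂)
    (hz : S1 D m μ y + deriv χ (σ₁ - 2) * (S2 D m μ y - S1 D m μ y) +
        deriv χ (σ₁ - 3) * (S3 D m μ y - S2 D m μ y) = 0)
    (hL1 : σ₁ ≤ 3 - ε → S2 D m μ y ≤ S1 D m μ y) (hR1 : 2 + ε ≤ σ₁ → S3 D m μ y ≤ S2 D m μ y)
    (hL2 : σ₂ ≤ 3 - ε → S2 D m μ y ≤ S1 D m μ y) (hR2 : 2 + ε ≤ σ₂ → S3 D m μ y ≤ S2 D m μ y) :
    ∀ σ, σ₁ ≤ σ → σ ≤ σ₂ → uu D χ m μ (σ₂, y) ≤ uu D χ m μ (σ, y) := by
  have hδ := D.hδ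
  have hδ2 := D.hδ2
  have hε := h.pos
  have hanti : AntitoneOn (fun σ => uu D χ m μ (σ, y)) (Icc σ₁ σ₂) := by
    apply antitoneOn_of_deriv_nonpos (convex_Icc _ _)
    · exact fun σ _ => (uu_ds h D m μ σ y).continuousAt.continuousWithinAt
    · exact fun σ _ => (uu_ds h D m μ σ y).differentiableAt.differentiableWithinAt
    · intro σ hσ
      rw [interior_Icc] at hσ
      rw [(uu_ds h D m μ σ y).deriv]
      have a1 : deriv χ (σ₁ - 2) ≤ deriv χ (σ - 2) := h.dmono (by linarith [hσ.1])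
      have a2 : deriv χ (σ₁ - 3) ≤ deriv χ (σ - 3) := h.dmono (by linarith [hσ.1])
      -- first term
      have b1 : deriv χ (σ - 2) * (S2 D m μ y - S1 D m μ y) ≤
          deriv χ (σ₁ - 2) * (S2 D m μ y - S1 D m μ y) := by
        rcases le_or_gt (2 + ε) σ₁ with c | c
        · rw [ramp_deriv_one h (show ε ≤ σ - 2 by linarith [hσ.1]),
            ramp_deriv_one h (show ε ≤ σ₁ - 2 by linarith)]
        · have := hL1 (by linarith)
          exact mul_le_mul_of_nonpos_right a1 (by linarith)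
      have b2 : deriv χ (σ - 3) * (S3 D m μ y - S2 D m μ y) ≤
          deriv χ (σ₁ - 3) * (S3 D m μ y - S2 D m μ y) := by
        rcases le_or_gt σ₂ (3 - ε) with c | c
        · rw [ramp_deriv_zero h (show σ - 3 ≤ -ε by linarith [hσ.2]),
            ramp_deriv_zero h (show σ₁ - 3 ≤ -ε by linarith)]
        · have := hR2 (by linarith)
          exact mul_le_mul_of_nonpos_right a2 (by linarith)
      linarith
  intro σ h1 h2
  exact hanti ⟨h1, h2⟩ ⟨h12, le_rfl⟩ h2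

lemma core_sym {χ : ℝ → ℝ} {ε : ℝ} (h : Ramp χ ε) (D : SData) (he1 : ε < D.δ / 4)
    (m : ℂ) (μ y σ₁ σ₂ : ℝ)
    (hz1 : S1 D m μ y + deriv χ (σ₁ - 2) * (S2 D m μ y - S1 D m μ y) +
        deriv χ (σ₁ - 3) * (S3 D m μ y - S2 D m μ y) = 0)
    (hz2 : S1 D m μ y + deriv χ (σ₂ - 2) * (S2 D m μ y - S1 D m μ y) +
        deriv χ (σ₂ - 3) * (S3 D m μ y - S2 D m μ y) = 0)
    (hL1 : σ₁ ≤ 3 - ε → S2 D m μ y ≤ S1 D m μ y) (hR1 : 2 + ε ≤ σ₁ → S3 D m μ y ≤ S2 D m μ y)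
    (hL2 : σ₂ ≤ 3 - ε → S2 D m μ y ≤ S1 D m μ y) (hR2 : 2 + ε ≤ σ₂ → S3 D m μ y ≤ S2 D m μ y) :
    ∀ σ ∈ uIcc σ₁ σ₂, min (uu D χ m μ (σ₁, y)) (uu D χ m μ (σ₂, y)) ≤ uu D χ m μ (σ, y) := by
  intro σ hσ
  rcases le_total σ₁ σ₂ with c | c
  · rw [uIcc_of_le c] at hσ
    exact le_trans (min_le_right _ _) (core h D he1 m μ y σ₁ σ₂ c hz1 hL1 hR1 hL2 hR2 σ hσ.1 hσ.2)
  · rw [uIcc_of_ge c] at hσ
    exact le_trans (min_le_left _ _) (core h D he1 m μ y σ₂ σ₁ c hz2 hL2 hR2 hL1 hR1 σ hσ.1 hσ.2)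

lemma uIcc_sub {a b c d x : ℝ} (h1 : a < b) (h2 : a < c) (h3 : b < d) (h4 : c < d)
    (hx : x ∈ uIcc b c) : a < x ∧ x < d := by
  rw [mem_uIcc] at hx
  rcases hx with ⟨h5, h6⟩ | ⟨h5, h6⟩
  · exact ⟨by linarith, by linarith⟩
  · exact ⟨by linarith, by linarith⟩

/-- two peaks of the outer chart, from which one cannot slide to the middle of the cone bands,
can be joined at height ≥ min -/
theorem outer_peaks (D : SData) : ∃ ε0 > 0, ∀ (χ : ℝ → ℝ) (ε : ℝ), ε < ε0 → Ramp χ ε →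
    ∀ ℓ : E3 →L[ℝ] ℝ, ℓ ≠ 0 → ∀ (Ω : Set (ℝ × ℝ)) (u : ℝ × ℝ → ℝ),
      Ω = {q : ℝ × ℝ | 2 - D.δ + ε < q.1 ∧ q.1 < 3 + D.δ - ε} →
      u = (fun q => ℓ (D.Fout χ q)) →
      ∀ p q : ℝ × ℝ,
      2 - D.δ / 2 ≤ p.1 → p.1 ≤ 3 + D.δ / 2 → 2 - D.δ / 2 ≤ q.1 → q.1 ≤ 3 + D.δ / 2 →
      Peak u Ω p → Peak u Ω q →
      (∀ C : Set (ℝ × ℝ), C ⊆ Ω → IsPreconnected C → p ∈ C → (∀ r ∈ C, u p ≤ u r) →
        ∀ r ∈ C, r.1 ≠ 2 - D.δ / 2 ∧ r.1 ≠ 3 + D.δ / 2) →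
      (∀ C : Set (ℝ × ℝ), C ⊆ Ω → IsPreconnected C → q ∈ C → (∀ r ∈ C, u q ≤ u r) →
        ∀ r ∈ C, r.1 ≠ 2 - D.δ / 2 ∧ r.1 ≠ 3 + D.δ / 2) →
      ∃ (k : ℤ) (C : Set (ℝ × ℝ)), IsPreconnected C ∧ C ⊆ Ω ∧ p ∈ C ∧
        (q.1, q.2 + k * (2 * Real.pi)) ∈ C ∧ ∀ r ∈ C, min (u p) (u q) ≤ u r := by
  obtain ⟨ε0, hε0, hh⟩ := exists_eps D
  refine ⟨ε0, hε0, fun χ ε hε h ℓ hℓ Ω u hΩ hu p q hp1 hp2 hq1 hq2 hp hq hsp hsq => ?_⟩
  obtain ⟨he1, he2⟩ := hh ε hε h.pos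
  have hδ := D.hδ
  have hεp := h.pos
  obtain ⟨m, μ, -, hf⟩ := functional ℓ hℓ
  have hu' : u = uu D χ m μ := by
    rw [hu]
    funext r
    exact hf _ _
  subst hΩ
  subst hu'
  have hpΩ := hp.1
  have hqΩ := hq.1
  have zp := peak_s h D m μ p hp.2.1
  have zq := peak_s h D m μ q hq.2.1
  have hLp := fun c => slideL h D he1 m μ p hp1 c zp hsp
  have hRp := fun c => slideR h D he1 m μ p hp2 c zp hsp
  have hLq := fun c => slideL h D he1 m μ q hq1 c zq hsq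
  have hRq := fun c => slideR h D he1 m μ q hq2 c zq hsq
  obtain ⟨yp1, yp2⟩ := peak_y h D he1 he2 m μ p hpΩ.1 hpΩ.2 hp.2.1
  obtain ⟨yq1, yq2⟩ := peak_y h D he1 he2 m μ q hqΩ.1 hqΩ.2 hq.2.1
  by_cases hm : m = 0
  · -- u does not depend on y
    subst hm
    have hd : ∀ w, dot 0 w = 0 := by intro w; simp [dot_eq]
    have hy : ∀ σ y y', uu D χ 0 μ (σ, y) = uu D χ 0 μ (σ, y') := by
      intro σ y y'
      simp only [uu, hd]
    have e1 : ∀ y y', S1 D 0 μ y = S1 D 0 μ y' := by intro y y'; simp only [S1, hd]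
    have e2 : ∀ y y', S2 D 0 μ y = S2 D 0 μ y' := by intro y y'; simp only [S2, hd]
    have e3 : ∀ y y', S3 D 0 μ y = S3 D 0 μ y' := by intro y y'; simp only [S3, hd]
    rw [e1 p.2 q.2, e2 p.2 q.2, e3 p.2 q.2] at zp
    rw [e1 p.2 q.2, e2 p.2 q.2] at hLp
    rw [e2 p.2 q.2, e3 p.2 q.2] at hRp
    have key := core_sym h D he1 0 μ q.2 p.1 q.1 zp zq hLp hRp hLq hRq
    refine ⟨0, ({p.1} ×ˢ uIcc p.2 q.2) ∪ (uIcc p.1 q.1 ×ˢ {q.2}), ?_, ?_, ?_, ?_, ?_⟩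
    · refine IsPreconnected.union (p.1, q.2) ⟨rfl, right_mem_uIcc⟩ ⟨left_mem_uIcc, rfl⟩ ?_ ?_
      · exact isPreconnected_singleton.prod isPreconnected_uIcc
      · exact isPreconnected_uIcc.prod isPreconnected_singleton
    · rintro ⟨a, b⟩ (⟨h6, -⟩ | ⟨h6, -⟩)
      · simp only [mem_singleton_iff] at h6
        subst h6
        exact hpΩ
      · exact uIcc_sub hpΩ.1 hqΩ.1 hpΩ.2 hqΩ.2 h6
    · left
      exact ⟨rfl, left_mem_uIcc⟩
    · right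
      refine ⟨right_mem_uIcc, ?_⟩
      simp
    · rintro ⟨a, b⟩ (⟨h6, -⟩ | ⟨h6, h7⟩)
      · simp only [mem_singleton_iff] at h6
        subst h6
        rw [hy p.1 b p.2]
        exact min_le_left _ _
      · simp only [mem_singleton_iff] at h7
        subst h7
        have h8 := key a h6
        rw [hy p.1 q.2 p.2] at h8
        exact h8
  · have hmpos : 0 < m.re ^ 2 + m.im ^ 2 := by
      rcases eq_or_ne m.re 0 with c | c
      · have : m.im ≠ 0 := fun c' => hm (Complex.ext c c')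
        positivity
      · positivity
    have hcq : 0 < dot m (nn q.2) := by
      have := dot_pyth m q.2
      rw [yq1] at this
      rcases yq2.eq_or_lt with c | c
      · rw [← c] at this
        linarith
      · exact c
    have e : p.2 = q.2 + (p.2 - q.2) := by ring
    have hsin : Real.sin (p.2 - q.2) = 0 := by
      rw [e, dot_tau, yq1, mul_zero, zero_sub, neg_eq_zero] at yp1
      exact (mul_eq_zero.mp yp1).resolve_right hcq.ne'
    have hcos : Real.cos (p.2 - q.2) = 1 := by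
      rw [e, dot_nrm, yq1, mul_zero, add_zero] at yp2
      have h3 : 0 ≤ Real.cos (p.2 - q.2) := by
        by_contra hc
        push Not at hc
        have := mul_neg_of_neg_of_pos hc hcq
        linarith
      have h4 := Real.sin_sq_add_cos_sq (p.2 - q.2)
      rw [hsin] at h4
      nlinarith
    obtain ⟨n, hn⟩ := (Real.cos_eq_one_iff _).mp hcos
    have hpq : p.2 = q.2 + n * (2 * Real.pi) := by linarith
    have pA : D.A (q.2 + n * (2 * Real.pi)) = D.A q.2 :=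
      (show Function.Periodic D.A (2 * Real.pi) from D.hA.per).int_mul n q.2
    have pB : D.B (q.2 + n * (2 * Real.pi)) = D.B q.2 :=
      (show Function.Periodic D.B (2 * Real.pi) from D.hB.per).int_mul n q.2
    have e1 : S1 D m μ q.2 = S1 D m μ p.2 := by rw [hpq]; simp only [S1, pB]
    have e2 : S2 D m μ q.2 = S2 D m μ p.2 := by rw [hpq]; simp only [S2, pA, pB]
    have e3 : S3 D m μ q.2 = S3 D m μ p.2 := by rw [hpq]; simp only [S3, pA]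
    rw [e1, e2, e3] at zq
    rw [e1, e2] at hLq
    rw [e2, e3] at hRq
    have key := core_sym h D he1 m μ p.2 p.1 q.1 zp zq hLp hRp hLq hRq
    have hval : uu D χ m μ (q.1, p.2) = uu D χ m μ q := by
      rw [hpq]
      simp only [uu, SData.Gout, pA, pB]
    refine ⟨n, uIcc p.1 q.1 ×ˢ {p.2}, ?_, ?_, ?_, ?_, ?_⟩
    · exact isPreconnected_uIcc.prod isPreconnected_singleton
    · rintro ⟨a, b⟩ ⟨h6, -⟩
      exact uIcc_sub hpΩ.1 hqΩ.1 hpΩ.2 hqΩ.2 h6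
    · exact ⟨left_mem_uIcc, rfl⟩
    · exact ⟨right_mem_uIcc, hpq.symm⟩
    · rintro ⟨a, b⟩ ⟨h6, h7⟩
      simp only [mem_singleton_iff] at h7
      subst h7
      have h8 := key a h6
      rw [hval] at h8
      exact h8

end

end Pool.Agent.Csz.Outer
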