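import Mathlib
import Pool.Agent.Csz.Defs

set_option autoImplicit false

open Complex Set Filter Topology

namespace Pool.Agent.Csz.NodeLemma

theorem not_isLocalMax_of_second_pos {F F1 : ℝ → ℝ} {x F2 : ℝ}
    (h1 : ∀ y, HasDerivAt F (F1 y) y) (h2 : HasDerivAt F1 F2 x) (h0 : 0 < F2) :
    ¬ IsLocalMax F x := by
  intro hmax
  have hz : F1 x = 0 := hmax.hasDerivAt_eq_zero (h1 x)
  have hd : deriv F = F1 := funext fun y => (h1 y).deriv
  have hmin : IsLocalMin F x := by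
    apply isLocalMin_of_deriv_deriv_pos
    · rw [hd, h2.deriv]; exact h0
    · rw [hd]; exact hz
    · exact (h1 x).continuousAt
  have hconst : ∀ᶠ y in 𝓝 x, F y = F x := by
    filter_upwards [hmax, hmin] with y hy1 hy2
    exact le_antisymm hy1 hy2
  have hF1 : ∀ᶠ y in 𝓝 x, F1 y = 0 := by
    filter_upwards [hconst.eventually_nhds] with y hy
    have : HasDerivAt F 0 y :=
      (hasDerivAt_const y (F x)).congr_of_eventuallyEq (by filter_upwards [hy] with z hz using hz)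
    exact (h1 y).unique this
  have : HasDerivAt F1 0 x :=
    (hasDerivAt_const x (0:ℝ)).congr_of_eventuallyEq (by filter_upwards [hF1] with z hz using hz)
  have := h2.unique this
  linarith

/-- The numerical heart of the node lemma. -/
theorem node_numbers {μ N T ρ ρ' ψ' A1 B1 A2 B2 a b sn st ε C R1 r0 p0 c0 k : ℝ}
    (hμ : 0 < μ) (hNT : N ^ 2 + T ^ 2 = μ ^ 2) (hρ : r0 ≤ ρ) (hr0 : 0 < r0) (hρ' : |ρ'| ≤ R1)
    (hψ' : p0 ≤ ψ') (hp0 : 0 < p0) (ha0 : 0 ≤ a) (ha : a ≤ ε) (hb0 : 0 ≤ b) (hb : b ≤ ε)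
    (hA1 : |A1| ≤ C * μ) (hB1 : |B1| ≤ C * μ) (hA2 : |A2| ≤ C * μ) (hB2 : |B2| ≤ C * μ)
    (hsn : c0 ≤ sn) (hc0 : 0 < c0) (hst : |st| ≤ 2 * C)
    (hk0 : 0 ≤ k) (hkdef : 2 * ε * C ≤ k * r0) (hk1 : k < 1)
    (hE1 : 2 * C * k < (1 - k) * c0) (hE2 : R1 * k + 2 * ε * C < r0 * p0 * (1 - k))
    (h1 : ρ * T + a * A1 + b * B1 = 0) (hD : N * sn + T * st ≤ 0) :
    0 < ρ' * T - ρ * ψ' * N + a * A2 + b * B2 := by
  have hC : 0 ≤ C := by
    by_contra hc
    push Not at hc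
    have := abs_nonneg st
    linarith
  have hε : 0 ≤ ε := ha0.trans ha
  -- bound on T
  have hT : |T| ≤ k * μ := by
    have e1 : |ρ * T| ≤ 2 * ε * (C * μ) := by
      have : ρ * T = -(a * A1 + b * B1) := by linarith
      rw [this, abs_neg]
      calc |a * A1 + b * B1| ≤ |a * A1| + |b * B1| := abs_add_le _ _
        _ = a * |A1| + b * |B1| := by rw [abs_mul, abs_mul, abs_of_nonneg ha0, abs_of_nonneg hb0]
        _ ≤ ε * (C * μ) + ε * (C * μ) :=
            add_le_add (mul_le_mul ha hA1 (abs_nonneg _) hε) (mul_le_mul hb hB1 (abs_nonneg _) hε)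
        _ = 2 * ε * (C * μ) := by ring
    have e2 : r0 * |T| ≤ |ρ * T| := by
      rw [abs_mul, abs_of_pos (lt_of_lt_of_le hr0 hρ)]
      exact mul_le_mul_of_nonneg_right hρ (abs_nonneg _)
    have e3 : r0 * |T| ≤ r0 * (k * μ) := by
      calc r0 * |T| ≤ 2 * ε * (C * μ) := e2.trans e1
        _ = (2 * ε * C) * μ := by ring
        _ ≤ (k * r0) * μ := mul_le_mul_of_nonneg_right hkdef hμ.le
        _ = r0 * (k * μ) := by ring
    exact le_of_mul_le_mul_left e3 hr0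
  have hT2 : T ^ 2 ≤ k ^ 2 * μ ^ 2 := by
    have := pow_le_pow_left₀ (abs_nonneg T) hT 2
    rw [sq_abs] at this
    nlinarith
  have hN2 : ((1 - k) * μ) ^ 2 ≤ N ^ 2 := by
    have h5 : 0 ≤ k * (1 - k) * μ ^ 2 :=
      mul_nonneg (mul_nonneg hk0 (sub_nonneg.2 hk1.le)) (sq_nonneg μ)
    nlinarith
  have hNabs : (1 - k) * μ ≤ |N| := by
    have h0 : 0 ≤ (1 - k) * μ := mul_nonneg (by linarith) hμ.le
    rw [← sq_abs N] at hN2
    exact (sq_le_sq₀ h0 (abs_nonneg N)).1 hN2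
  have hTst : |T * st| ≤ k * μ * (2 * C) := by
    rw [abs_mul]; exact mul_le_mul hT hst (abs_nonneg _) (mul_nonneg hk0 hμ.le)
  have hNneg : N ≤ -((1 - k) * μ) := by
    rcases le_or_gt 0 N with hN | hN
    · exfalso
      rw [abs_of_nonneg hN] at hNabs
      have e1 : (1 - k) * μ * c0 ≤ N * sn := mul_le_mul hNabs hsn hc0.le hN
      have e2 := (abs_le.1 hTst).1
      have e3 : 2 * C * k * μ < (1 - k) * c0 * μ := mul_lt_mul_of_pos_right hE1 hμ
      nlinarith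
    · rw [abs_of_neg hN] at hNabs
      linarith
  have e1 : -(R1 * (k * μ)) ≤ ρ' * T := by
    have : |ρ' * T| ≤ R1 * (k * μ) := by
      rw [abs_mul]
      exact mul_le_mul hρ' hT (abs_nonneg _) ((abs_nonneg _).trans hρ')
    exact (abs_le.1 this).1
  have e2 : r0 * p0 * ((1 - k) * μ) ≤ -(ρ * ψ' * N) := by
    have h3 : r0 * p0 ≤ ρ * ψ' := mul_le_mul hρ hψ' hp0.le (hr0.le.trans hρ)
    have h4 : (1 - k) * μ ≤ -N := by linarith
    have h5 : 0 ≤ (1 - k) * μ := mul_nonneg (by linarith) hμ.le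
    calc r0 * p0 * ((1 - k) * μ) ≤ ρ * ψ' * (-N) :=
          mul_le_mul h3 h4 h5 ((mul_nonneg hr0.le hp0.le).trans h3)
      _ = -(ρ * ψ' * N) := by ring
  have e3 : -(ε * (C * μ)) ≤ a * A2 := by
    have : |a * A2| ≤ ε * (C * μ) := by
      rw [abs_mul, abs_of_nonneg ha0]
      exact mul_le_mul ha hA2 (abs_nonneg _) hε
    exact (abs_le.1 this).1
  have e4 : -(ε * (C * μ)) ≤ b * B2 := by
    have : |b * B2| ≤ ε * (C * μ) := by
      rw [abs_mul, abs_of_nonneg hb0]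
      exact mul_le_mul hb hB2 (abs_nonneg _) hε
    exact (abs_le.1 this).1
  have e5 : (R1 * k + 2 * ε * C) * μ < r0 * p0 * (1 - k) * μ := mul_lt_mul_of_pos_right hE2 hμ
  nlinarith

/-- small `ε` makes the node conditions true. -/
theorem exists_eps (C R1 r0 p0 c0 : ℝ) (hC : 0 ≤ C) (hr0 : 0 < r0) (hp0 : 0 < p0)
    (hc0 : 0 < c0) : ∃ ε0 : ℝ, 0 < ε0 ∧ ∀ ε : ℝ, 0 < ε → ε ≤ ε0 → ∃ k : ℝ, 0 ≤ k ∧
      2 * ε * C ≤ k * r0 ∧ k < 1 ∧ 2 * C * k < (1 - k) * c0 ∧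
      R1 * k + 2 * ε * C < r0 * p0 * (1 - k) := by
  -- everything is continuous at `ε = 0`
  have hcont : Continuous fun ε : ℝ => 2 * ε * C / r0 := by fun_prop
  have h1 : ∀ᶠ ε in 𝓝 (0 : ℝ), 2 * ε * C / r0 < 1 := by
    apply (hcont.tendsto 0).eventually_lt_const
    simp
  have h2 : ∀ᶠ ε in 𝓝 (0 : ℝ), 2 * C * (2 * ε * C / r0) - (1 - 2 * ε * C / r0) * c0 < 0 := by
    have hc : Continuous fun ε : ℝ => 2 * C * (2 * ε * C / r0) - (1 - 2 * ε * C / r0) * c0 := by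
      fun_prop
    apply (hc.tendsto 0).eventually_lt_const
    simp [hc0]
  have h3 : ∀ᶠ ε in 𝓝 (0 : ℝ), R1 * (2 * ε * C / r0) + 2 * ε * C -
      r0 * p0 * (1 - 2 * ε * C / r0) < 0 := by
    have hc : Continuous fun ε : ℝ => R1 * (2 * ε * C / r0) + 2 * ε * C -
        r0 * p0 * (1 - 2 * ε * C / r0) := by
      fun_prop
    apply (hc.tendsto 0).eventually_lt_const
    simp [hr0, hp0]
  obtain ⟨d, hd, hall⟩ := Metric.eventually_nhds_iff.1 (h1.and (h2.and h3))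
  refine ⟨d / 2, by positivity, ?_⟩
  intro ε hε hεd
  have := hall (y := ε) (by rw [Real.dist_eq, sub_zero, abs_of_pos hε]; linarith)
  refine ⟨2 * ε * C / r0, by positivity, ?_, this.1, by linarith [this.2.1], by linarith [this.2.2]⟩
  rw [div_mul_cancel₀ _ hr0.ne']


theorem nn_re (x : ℝ) : (nn x).re = Real.cos x := by
  simp [nn, Complex.exp_ofReal_mul_I_re]

theorem nn_im (x : ℝ) : (nn x).im = Real.sin x := by
  simp [nn, Complex.exp_ofReal_mul_I_im]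

theorem dot_eq (m w : ℂ) : dot m w = m.re * w.re + m.im * w.im := by
  simp [dot]

theorem dot_add (m v w : ℂ) : dot m (v + w) = dot m v + dot m w := by
  simp only [dot_eq, Complex.add_re, Complex.add_im]; ring

theorem dot_sub (m v w : ℂ) : dot m (v - w) = dot m v - dot m w := by
  simp only [dot_eq, Complex.sub_re, Complex.sub_im]; ring

theorem dot_mul (m v : ℂ) (r : ℝ) : dot m (r * v) = r * dot m v := by
  simp only [dot_eq, Complex.mul_re, Complex.mul_im, Complex.ofReal_re, Complex.ofReal_im]; ring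

theorem abs_dot_le (m v : ℂ) : |dot m v| ≤ ‖m‖ * ‖v‖ := by
  rw [dot]
  refine (Complex.abs_re_le_norm _).trans ?_
  rw [norm_mul, Complex.norm_conj]

theorem norm_nn (x : ℝ) : ‖nn x‖ = 1 := Complex.norm_exp_ofReal_mul_I x

theorem norm_I_nn (x : ℝ) : ‖I * nn x‖ = 1 := by
  rw [norm_mul, norm_nn, Complex.norm_I, one_mul]

theorem I_nn_re (x : ℝ) : (I * nn x).re = -Real.sin x := by
  simp [Complex.mul_re, nn_im]

theorem I_nn_im (x : ℝ) : (I * nn x).im = Real.cos x := by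
  simp [Complex.mul_im, nn_re]

theorem dot_sq (m : ℂ) (x : ℝ) : dot m (nn x) ^ 2 + dot m (I * nn x) ^ 2 = ‖m‖ ^ 2 := by
  rw [Complex.sq_norm, Complex.normSq_apply, dot_eq, dot_eq, nn_re, nn_im, I_nn_re, I_nn_im]
  have := Real.sin_sq_add_cos_sq x
  nlinarith

theorem dot_expand (m v : ℂ) (x : ℝ) :
    dot m v = dot m (nn x) * dot (nn x) v + dot m (I * nn x) * dot (I * nn x) v := by
  simp only [dot_eq, nn_re, nn_im, I_nn_re, I_nn_im]
  have := Real.sin_sq_add_cos_sq x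
  have h2 : Real.cos x ^ 2 = 1 - Real.sin x ^ 2 := by linarith
  ring_nf
  rw [h2]
  ring

theorem hasDerivAt_dot {m : ℂ} {P : ℝ → ℂ} {P' : ℂ} {x : ℝ} (h : HasDerivAt P P' x) :
    HasDerivAt (fun y => dot m (P y)) (dot m P') x := by
  have h1 : HasDerivAt (fun y => (P y).re) P'.re x :=
    (Complex.reCLM.hasFDerivAt.comp_hasDerivAt x h)
  have h2 : HasDerivAt (fun y => (P y).im) P'.im x :=
    (Complex.imCLM.hasFDerivAt.comp_hasDerivAt x h)
  simp only [dot_eq]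
  exact (h1.const_mul m.re).add (h2.const_mul m.im)

theorem hasDerivAt_dot_tt {m : ℂ} {ψ : ℝ → ℝ} {ψ' x : ℝ} (h : HasDerivAt ψ ψ' x) :
    HasDerivAt (fun y => dot m (I * nn (ψ y))) (-(ψ' * dot m (nn (ψ x)))) x := by
  simp only [dot_eq, nn_re, nn_im, I_nn_re, I_nn_im]
  have h1 := (h.sin.neg).const_mul m.re
  have h2 := (h.cos).const_mul m.im
  refine (h1.add h2).congr_deriv ?_
  ring

/-- Node lemma, explicit constants. -/
theorem node_core {m : ℂ} (hm : m ≠ 0) {P A B A' B' A'' B'' : ℝ → ℂ} {ρ ρ' ψ ψ' : ℝ → ℝ}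
    {ε C R1 r0 p0 c0 k : ℝ}
    (hP : ∀ y, HasDerivAt P (ρ y * (I * nn (ψ y))) y) (hρd : ∀ y, HasDerivAt ρ (ρ' y) y)
    (hψd : ∀ y, HasDerivAt ψ (ψ' y) y)
    (hA : ∀ y, HasDerivAt A (A' y) y) (hA' : ∀ y, HasDerivAt A' (A'' y) y)
    (hB : ∀ y, HasDerivAt B (B' y) y) (hB' : ∀ y, HasDerivAt B' (B'' y) y)
    {x : ℝ} {a b : ℝ}
    (hρ : r0 ≤ ρ x) (hr0 : 0 < r0) (hρ' : |ρ' x| ≤ R1)
    (hψ' : p0 ≤ ψ' x) (hp0 : 0 < p0) (ha0 : 0 ≤ a) (ha : a ≤ ε) (hb0 : 0 ≤ b) (hb : b ≤ ε)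
    (hA0 : ‖A x‖ ≤ C) (hB0 : ‖B x‖ ≤ C)
    (hA1 : ‖A' x‖ ≤ C) (hB1 : ‖B' x‖ ≤ C) (hA2 : ‖A'' x‖ ≤ C) (hB2 : ‖B'' x‖ ≤ C)
    (hsn : c0 ≤ dot (nn (ψ x)) (A x + B x)) (hc0 : 0 < c0)
    (hk0 : 0 ≤ k) (hkdef : 2 * ε * C ≤ k * r0) (hk1 : k < 1)
    (hE1 : 2 * C * k < (1 - k) * c0) (hE2 : R1 * k + 2 * ε * C < r0 * p0 * (1 - k))
    (hD : dot m (A x) + dot m (B x) ≤ 0) :
    ¬ IsLocalMax (fun y => dot m (P y) + a * dot m (A y) + b * dot m (B y)) x := by
  intro hmax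
  have hμ : 0 < ‖m‖ := norm_pos_iff.2 hm
  have hd1 : ∀ y, HasDerivAt (fun y => dot m (P y) + a * dot m (A y) + b * dot m (B y))
      (ρ y * dot m (I * nn (ψ y)) + a * dot m (A' y) + b * dot m (B' y)) y := by
    intro y
    have h1 := hasDerivAt_dot (m := m) (hP y)
    rw [dot_mul] at h1
    exact (h1.add ((hasDerivAt_dot (hA y)).const_mul a)).add ((hasDerivAt_dot (hB y)).const_mul b)
  have hd2 : HasDerivAt (fun y => ρ y * dot m (I * nn (ψ y)) + a * dot m (A' y) + b * dot m (B' y))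
      (ρ' x * dot m (I * nn (ψ x)) - ρ x * ψ' x * dot m (nn (ψ x)) + a * dot m (A'' x) +
        b * dot m (B'' x)) x := by
    have h1 := (hρd x).mul (hasDerivAt_dot_tt (m := m) (hψd x))
    refine ((h1.add ((hasDerivAt_dot (hA' x)).const_mul a)).add
      ((hasDerivAt_dot (hB' x)).const_mul b)).congr_deriv ?_
    ring
  have hz : ρ x * dot m (I * nn (ψ x)) + a * dot m (A' x) + b * dot m (B' x) = 0 :=
    hmax.hasDerivAt_eq_zero (hd1 x)
  refine not_isLocalMax_of_second_pos hd1 hd2 ?_ hmax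
  have bd : ∀ v : ℂ, ‖v‖ ≤ C → |dot m v| ≤ C * ‖m‖ := fun v hv => by
    rw [mul_comm]
    exact (abs_dot_le m v).trans (mul_le_mul_of_nonneg_left hv hμ.le)
  have hst : |dot (I * nn (ψ x)) (A x + B x)| ≤ 2 * C := by
    refine (abs_dot_le _ _).trans ?_
    rw [norm_I_nn, one_mul]
    refine (norm_add_le _ _).trans ?_
    linarith
  exact node_numbers hμ (dot_sq m (ψ x)) hρ hr0 hρ' hψ' hp0 ha0 ha hb0 hb
    (bd _ hA1) (bd _ hB1) (bd _ hA2) (bd _ hB2) hsn hc0 hst hk0 hkdef hk1 hE1 hE2 hz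
    (by rw [← dot_expand m (A x + B x) (ψ x), dot_add]; exact hD)

/-! periodic functions -/

theorem exists_mem_Icc_periodic {c : ℝ} (hc : 0 < c) (x : ℝ) :
    ∃ (n : ℤ), x + n * c ∈ Icc (0 : ℝ) c := by
  refine ⟨-⌊x / c⌋, ?_⟩
  push_cast
  have h1 := Int.floor_le (x / c)
  have h2 := Int.lt_floor_add_one (x / c)
  rw [le_div_iff₀ hc] at h1
  rw [div_lt_iff₀ hc] at h2
  constructor <;> nlinarith

theorem periodic_bound {F : ℝ → ℂ} (hF : Continuous F) (hp : ∀ x, F (x + 2 * Real.pi) = F x) :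
    ∃ C : ℝ, 0 ≤ C ∧ ∀ x, ‖F x‖ ≤ C := by
  obtain ⟨C, hC⟩ := (isCompact_Icc (a := (0 : ℝ)) (b := 2 * Real.pi)).exists_bound_of_continuousOn
    hF.continuousOn
  refine ⟨max C 0, le_max_right _ _, fun x => ?_⟩
  obtain ⟨n, hn⟩ := exists_mem_Icc_periodic Real.two_pi_pos x
  have hper : Function.Periodic F (2 * Real.pi) := hp
  have := hper.int_mul n x
  rw [← this]
  exact (hC _ hn).trans (le_max_left _ _)

theorem periodic_bound_real {F : ℝ → ℝ} (hF : Continuous F)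
    (hp : ∀ x, F (x + 2 * Real.pi) = F x) : ∃ C : ℝ, 0 ≤ C ∧ ∀ x, |F x| ≤ C := by
  obtain ⟨C, hC⟩ := (isCompact_Icc (a := (0 : ℝ)) (b := 2 * Real.pi)).exists_bound_of_continuousOn
    hF.continuousOn
  refine ⟨max C 0, le_max_right _ _, fun x => ?_⟩
  obtain ⟨n, hn⟩ := exists_mem_Icc_periodic Real.two_pi_pos x
  have hper : Function.Periodic F (2 * Real.pi) := hp
  have := hper.int_mul n x
  rw [← this, ← Real.norm_eq_abs]
  exact (hC _ hn).trans (le_max_left _ _)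

theorem periodic_pos {F : ℝ → ℝ} (hF : Continuous F)
    (hp : ∀ x, F (x + 2 * Real.pi) = F x) (hpos : ∀ x, 0 < F x) :
    ∃ c : ℝ, 0 < c ∧ ∀ x, c ≤ F x := by
  obtain ⟨y, -, hy⟩ := (isCompact_Icc (a := (0 : ℝ)) (b := 2 * Real.pi)).exists_isMinOn
    ⟨0, left_mem_Icc.2 Real.two_pi_pos.le⟩ hF.continuousOn
  refine ⟨F y, hpos y, fun x => ?_⟩
  obtain ⟨n, hn⟩ := exists_mem_Icc_periodic Real.two_pi_pos x
  have hper : Function.Periodic F (2 * Real.pi) := hp
  have := hper.int_mul n x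
  rw [← this]
  exact hy hn

theorem deriv_periodic {E : Type*} [NormedAddCommGroup E] [NormedSpace ℝ E] {F : ℝ → E} {c : ℝ}
    {e : E} (hp : ∀ x, F (x + c) = F x + e) (x : ℝ) : deriv F (x + c) = deriv F x := by
  have h : (fun y => F (y + c)) = fun y => F y + e := funext hp
  have h1 := congrFun (congrArg deriv h) x
  rw [deriv_comp_add_const, deriv_add_const] at h1
  exact h1

/-- M5 node lemma. -/
theorem node_lemma (P wl wr : ℝ → ℂ) (ρ ψ : ℝ → ℝ)
    (hP : ContDiff ℝ (⊤ : ℕ∞) P) (hwl : ContDiff ℝ (⊤ : ℕ∞) wl) (hwr : ContDiff ℝ (⊤ : ℕ∞) wr)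
    (hρ : ContDiff ℝ (⊤ : ℕ∞) ρ) (hψ : ContDiff ℝ (⊤ : ℕ∞) ψ)
    (hder : ∀ x, HasDerivAt P (ρ x * (I * nn (ψ x))) x)
    (hρpos : ∀ x, 0 < ρ x) (hψpos : ∀ x, 0 < deriv ψ x)
    (pP : ∀ x, P (x + 2 * Real.pi) = P x) (pl : ∀ x, wl (x + 2 * Real.pi) = wl x)
    (pr : ∀ x, wr (x + 2 * Real.pi) = wr x) (pρ : ∀ x, ρ (x + 2 * Real.pi) = ρ x)
    (pψ : ∀ x, ψ (x + 2 * Real.pi) = ψ x + 2 * Real.pi)
    (hw : ∀ x, 0 < dot (nn (ψ x)) (wr x - wl x)) :
    ∃ ε0 > 0, ∀ (χ : ℝ → ℝ) (ε : ℝ), ε < ε0 → Ramp χ ε → ∀ s x : ℝ, |s| ≤ ε →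
      deriv (fun x' => P x' + s * wl x' + χ s * (wr x' - wl x')) x ≠ 0 ∧
      ∀ (m : ℂ) (μ : ℝ), (m ≠ 0 ∨ μ ≠ 0) → 0 ≤ dot m (wl x) + μ → dot m (wr x) + μ ≤ 0 →
        ¬ IsLocalMax (fun x' => dot m (P x' + s * wl x' + χ s * (wr x' - wl x'))) x := by
  -- smoothness
  have hwl' : ContDiff ℝ (⊤ : ℕ∞) (deriv wl) := by
    simpa using (contDiff_infty_iff_deriv.1 hwl).2
  have hwr' : ContDiff ℝ (⊤ : ℕ∞) (deriv wr) := by
    simpa using (contDiff_infty_iff_deriv.1 hwr).2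
  have hρ'' : ContDiff ℝ (⊤ : ℕ∞) (deriv ρ) := by
    simpa using (contDiff_infty_iff_deriv.1 hρ).2
  have hψ'' : ContDiff ℝ (⊤ : ℕ∞) (deriv ψ) := by
    simpa using (contDiff_infty_iff_deriv.1 hψ).2
  have hwl2 : ContDiff ℝ (⊤ : ℕ∞) (deriv (deriv wl)) := by
    simpa using (contDiff_infty_iff_deriv.1 hwl').2
  have hwr2 : ContDiff ℝ (⊤ : ℕ∞) (deriv (deriv wr)) := by
    simpa using (contDiff_infty_iff_deriv.1 hwr').2
  have dl : Differentiable ℝ wl := hwl.differentiable (by simp)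
  have dr : Differentiable ℝ wr := hwr.differentiable (by simp)
  have dl' : Differentiable ℝ (deriv wl) := hwl'.differentiable (by simp)
  have dr' : Differentiable ℝ (deriv wr) := hwr'.differentiable (by simp)
  have dρ : Differentiable ℝ ρ := hρ.differentiable (by simp)
  have dψ : Differentiable ℝ ψ := hψ.differentiable (by simp)
  have pl' : ∀ x, deriv wl (x + 2 * Real.pi) = deriv wl x :=
    deriv_periodic (e := 0) (by simpa using pl)
  have pr' : ∀ x, deriv wr (x + 2 * Real.pi) = deriv wr x :=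
    deriv_periodic (e := 0) (by simpa using pr)
  have pl2 : ∀ x, deriv (deriv wl) (x + 2 * Real.pi) = deriv (deriv wl) x :=
    deriv_periodic (e := 0) (by simpa using pl')
  have pr2 : ∀ x, deriv (deriv wr) (x + 2 * Real.pi) = deriv (deriv wr) x :=
    deriv_periodic (e := 0) (by simpa using pr')
  have pρ' : ∀ x, deriv ρ (x + 2 * Real.pi) = deriv ρ x :=
    deriv_periodic (e := 0) (by simpa using pρ)
  have pψ' : ∀ x, deriv ψ (x + 2 * Real.pi) = deriv ψ x := deriv_periodic pψ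
  have pnn : ∀ x, nn (ψ (x + 2 * Real.pi)) = nn (ψ x) := by
    intro x
    rw [pψ, nn, nn]
    push_cast
    rw [add_mul, Complex.exp_add, Complex.exp_two_pi_mul_I, mul_one]
  -- constants
  obtain ⟨C1, hC1, bC1⟩ := periodic_bound hwl.continuous pl
  obtain ⟨C2, hC2, bC2⟩ := periodic_bound hwr.continuous pr
  obtain ⟨C3, hC3, bC3⟩ := periodic_bound hwl'.continuous pl'
  obtain ⟨C4, hC4, bC4⟩ := periodic_bound hwr'.continuous pr'
  obtain ⟨C5, hC5, bC5⟩ := periodic_bound hwl2.continuous pl2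
  obtain ⟨C6, hC6, bC6⟩ := periodic_bound hwr2.continuous pr2
  obtain ⟨R1, hR1, bR1⟩ := periodic_bound_real hρ''.continuous pρ'
  obtain ⟨r0, hr0, br0⟩ := periodic_pos hρ.continuous pρ hρpos
  obtain ⟨p0, hp0, bp0⟩ := periodic_pos hψ''.continuous pψ' hψpos
  have hcnn : Continuous fun x => nn (ψ x) := by
    have : Continuous nn := by unfold nn; fun_prop
    exact this.comp hψ.continuous
  have hcw : Continuous fun x => dot (nn (ψ x)) (wr x - wl x) := by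
    unfold dot
    have h1 := hwr.continuous
    have h2 := hwl.continuous
    exact Complex.continuous_re.comp
      ((Complex.continuous_conj.comp hcnn).mul (h1.sub h2))
  obtain ⟨c0, hc0, bc0⟩ := periodic_pos hcw (fun x => by rw [pnn, pl, pr]) hw
  set C := C1 + C2 + C3 + C4 + C5 + C6 with hC
  have hCnn : 0 ≤ C := by positivity
  obtain ⟨ε0, hε0, H⟩ := exists_eps C R1 r0 p0 c0 hCnn hr0 hp0 hc0
  refine ⟨ε0, hε0, ?_⟩
  intro χ ε hε hχ s x hs
  obtain ⟨k, hk0, hkd, hk1, hE1, hE2⟩ := H ε hχ.pos hε.le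
  have hsym := hχ.symm s
  have hmono : Monotone χ := monotone_of_deriv_nonneg (hχ.smooth.differentiable (by simp)) hχ.dnonneg
  have hb0 : 0 ≤ χ s := by
    have h1 := hmono ((neg_le_of_abs_le hs))
    rw [hχ.zero (-ε) le_rfl] at h1
    exact h1
  have hb : χ s ≤ ε := by
    have h1 := hmono (le_of_abs_le hs)
    rw [hχ.id ε le_rfl] at h1
    exact h1
  have ha0 : 0 ≤ χ (-s) := by
    have h1 := hmono (neg_le_of_abs_le (abs_neg s ▸ hs))
    rw [hχ.zero (-ε) le_rfl] at h1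
    exact h1
  have ha : χ (-s) ≤ ε := by
    have h1 := hmono (le_of_abs_le (abs_neg s ▸ hs))
    rw [hχ.id ε le_rfl] at h1
    exact h1
  have hs2 : (s : ℂ) = (χ s : ℂ) - (χ (-s) : ℂ) := by rw [← Complex.ofReal_sub, hsym]
  have key : ∀ y, P y + s * wl y + χ s * (wr y - wl y) =
      P y + χ (-s) * (-wl y) + χ s * wr y := by
    intro y
    linear_combination (wl y) * hs2
  constructor
  · intro h0
    have hd : HasDerivAt (fun x' => P x' + s * wl x' + χ s * (wr x' - wl x'))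
        (ρ x * (I * nn (ψ x)) + s * deriv wl x + χ s * (deriv wr x - deriv wl x)) x :=
      ((hder x).add ((dl x).hasDerivAt.const_mul (s : ℂ))).add
        (((dr x).hasDerivAt.sub (dl x).hasDerivAt).const_mul (χ s : ℂ))
    rw [hd.deriv] at h0
    have e1 : (ρ x : ℂ) * (I * nn (ψ x)) = χ (-s) * deriv wl x - χ s * deriv wr x := by
      linear_combination h0 - (deriv wl x) * hs2
    have e2 : ‖(ρ x : ℂ) * (I * nn (ψ x))‖ = ρ x := by
      rw [norm_mul, norm_I_nn, mul_one, Complex.norm_real, Real.norm_eq_abs,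
        abs_of_pos (hρpos x)]
    have e3 : ‖(χ (-s) : ℂ) * deriv wl x - χ s * deriv wr x‖ ≤ ε * C + ε * C := by
      refine (norm_sub_le _ _).trans (add_le_add ?_ ?_)
      · rw [norm_mul, Complex.norm_real, Real.norm_eq_abs, abs_of_nonneg ha0]
        exact mul_le_mul ha ((bC3 x).trans (by rw [hC]; linarith)) (norm_nonneg _) hχ.pos.le
      · rw [norm_mul, Complex.norm_real, Real.norm_eq_abs, abs_of_nonneg hb0]
        exact mul_le_mul hb ((bC4 x).trans (by rw [hC]; linarith)) (norm_nonneg _) hχ.pos.le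
    rw [← e1, e2] at e3
    have e4 := br0 x
    nlinarith
  · intro m μ hmμ h1 h2
    have hm : m ≠ 0 := by
      rintro rfl
      simp only [dot_eq, Complex.zero_re, Complex.zero_im, zero_mul, add_zero, zero_add] at h1 h2
      rcases hmμ with h | h
      · exact h rfl
      · exact h (le_antisymm h2 h1)
    have hfun : (fun x' => dot m (P x' + s * wl x' + χ s * (wr x' - wl x'))) =
        fun y => dot m (P y) + χ (-s) * dot m (-wl y) + χ s * dot m (wr y) := by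
      funext y
      rw [key, dot_add, dot_add, dot_mul, dot_mul]
    rw [hfun]
    have hneg : ∀ v : ℂ, dot m (-v) = - dot m v := by
      intro v; simp only [dot_eq, Complex.neg_re, Complex.neg_im]; ring
    refine node_core (A := fun y => -wl y) (B := wr) (A' := fun y => -deriv wl y) (B' := deriv wr)
      (A'' := fun y => -deriv (deriv wl) y) (B'' := deriv (deriv wr)) (ρ' := deriv ρ)
      (ψ' := deriv ψ) (C := C) (R1 := R1) (r0 := r0) (p0 := p0) (c0 := c0) (k := k) (ε := ε)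
      hm hder (fun y => (dρ y).hasDerivAt) (fun y => (dψ y).hasDerivAt)
      (fun y => (dl y).hasDerivAt.neg) (fun y => (dl' y).hasDerivAt.neg)
      (fun y => (dr y).hasDerivAt) (fun y => (dr' y).hasDerivAt)
      (br0 x) hr0 (bR1 x) (bp0 x) hp0 ha0 ha hb0 hb ?_ ?_ ?_ ?_ ?_ ?_ ?_ hc0 hk0 hkd hk1 hE1 hE2 ?_
    · rw [norm_neg]; exact (bC1 x).trans (by rw [hC]; linarith)
    · exact (bC2 x).trans (by rw [hC]; linarith)
    · rw [norm_neg]; exact (bC3 x).trans (by rw [hC]; linarith)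
    · exact (bC4 x).trans (by rw [hC]; linarith)
    · rw [norm_neg]; exact (bC5 x).trans (by rw [hC]; linarith)
    · exact (bC6 x).trans (by rw [hC]; linarith)
    · have : -wl x + wr x = wr x - wl x := by ring
      rw [this]; exact bc0 x
    · rw [hneg]; linarith

end Pool.Agent.Csz.NodeLemma
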