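import Pool.Agent.Csz.Defs
import Pool.Agent.Csz.NodeLemma
set_option autoImplicit false
open Complex Set Filter Topology

namespace Pool.Agent.Csz.Inner2
open Pool.Agent.Csz

theorem dot_eq (m w : ℂ) : dot m w = m.re * w.re + m.im * w.im := by
  simp [dot]

theorem dot_add (m w v : ℂ) : dot m (w + v) = dot m w + dot m v := by
  simp only [dot_eq, Complex.add_re, Complex.add_im]; ring

theorem dot_sub (m w v : ℂ) : dot m (w - v) = dot m w - dot m v := by
  simp only [dot_eq, Complex.sub_re, Complex.sub_im]; ring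

theorem dot_real_mul (m : ℂ) (r : ℝ) (w : ℂ) : dot m (r * w) = r * dot m w := by
  simp only [dot_eq, Complex.mul_re, Complex.mul_im, Complex.ofReal_re, Complex.ofReal_im]; ring

theorem l_pt (ℓ : E3 →L[ℝ] ℝ) : ∃ (m : ℂ) (μ : ℝ), (ℓ ≠ 0 → (m ≠ 0 ∨ μ ≠ 0)) ∧
    ∀ (w : ℂ) (z : ℝ), ℓ (pt w z) = dot m w + μ * z := by
  have key : ∀ (w : ℂ) (z : ℝ), pt w z = w.re • EuclideanSpace.single (0 : Fin 3) (1 : ℝ)
      + w.im • EuclideanSpace.single (1 : Fin 3) (1 : ℝ)
      + z • EuclideanSpace.single (2 : Fin 3) (1 : ℝ) := by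
    intro w z
    ext i
    fin_cases i <;> simp [pt]
  refine ⟨⟨ℓ (EuclideanSpace.single (0 : Fin 3) (1 : ℝ)), ℓ (EuclideanSpace.single (1 : Fin 3) (1 : ℝ))⟩,
    ℓ (EuclideanSpace.single (2 : Fin 3) (1 : ℝ)), ?_, ?_⟩
  · intro hl
    by_contra hcon
    push Not at hcon
    obtain ⟨h1, h2⟩ := hcon
    apply hl
    have h3 : ℓ (EuclideanSpace.single (0 : Fin 3) (1 : ℝ)) = 0 := by
      have := congrArg Complex.re h1; simpa using this
    have h4 : ℓ (EuclideanSpace.single (1 : Fin 3) (1 : ℝ)) = 0 := by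
      have := congrArg Complex.im h1; simpa using this
    ext v
    have hv : v = pt (⟨v 0, v 1⟩) (v 2) := by
      ext i
      fin_cases i <;> simp [pt]
    rw [hv, key]
    simp only [map_add, map_smul, h3, h4, h2]
    simp
  · intro w z
    rw [key, map_add, map_add, map_smul, map_smul, map_smul, dot_eq]
    simp only [smul_eq_mul]
    ring

theorem ramp_pos {χ : ℝ → ℝ} {ε : ℝ} (h : Ramp χ ε) (s : ℝ) (hs : -ε < s) : 0 < χ s := by
  have hd : Differentiable ℝ χ := h.smooth.differentiable (by simp)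
  have hmono : StrictMonoOn χ (Ici (-ε)) := by
    apply strictMonoOn_of_deriv_pos (convex_Ici _) hd.continuous.continuousOn
    intro x hx
    rw [interior_Ici] at hx
    exact h.dpos x hx
  have := hmono (mem_Ici.2 le_rfl) (mem_Ici.2 hs.le) hs
  rwa [h.zero _ le_rfl] at this

theorem ramp_deriv_symm {χ : ℝ → ℝ} {ε : ℝ} (h : Ramp χ ε) (s : ℝ) :
    deriv χ s + deriv χ (-s) = 1 := by
  have hd : Differentiable ℝ χ := h.smooth.differentiable (by simp)
  have h1 : HasDerivAt (fun t => χ t - χ (-t)) (deriv χ s - deriv χ (-s) * (-1)) s := by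
    have ha := (hd s).hasDerivAt
    have hb : HasDerivAt (fun t : ℝ => -t) (-1) s := hasDerivAt_neg s
    have hc := ((hd (-s)).hasDerivAt).comp s hb
    exact ha.sub hc
  have h2 : HasDerivAt (fun t : ℝ => χ t - χ (-t)) 1 s := by
    have : (fun t : ℝ => χ t - χ (-t)) = fun t => t := by
      funext t; exact h.symm t
    rw [this]; exact hasDerivAt_id s
  have := h1.unique h2
  linarith

theorem ramp_convex {χ : ℝ → ℝ} {ε : ℝ} (h : Ramp χ ε) (s t : ℝ) :
    0 ≤ χ t - χ s - deriv χ s * (t - s) := by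
  have hd : Differentiable ℝ χ := h.smooth.differentiable (by simp)
  have hcx : ConvexOn ℝ univ χ := by
    apply MonotoneOn.convexOn_of_deriv convex_univ hd.continuous.continuousOn
      hd.differentiableOn
    intro x _ y _ hxy
    exact h.dmono hxy
  rcases lt_trichotomy s t with hst | hst | hst
  · have := hcx.le_slope_of_hasDerivAt (mem_univ s) (mem_univ t) hst ((hd s).hasDerivAt)
    rw [slope_def_field, le_div_iff₀ (by linarith)] at this
    linarith
  · subst hst; simp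
  · have := hcx.slope_le_of_hasDerivAt (mem_univ t) (mem_univ s) hst ((hd s).hasDerivAt)
    rw [slope_def_field, div_le_iff₀ (by linarith)] at this
    linarith

theorem node_domain {χ : ℝ → ℝ} {ε : ℝ} (h : Ramp χ ε) (u : ℝ × ℝ → ℝ) (Ω : Set (ℝ × ℝ))
    (σn x rl rr U0 a b s0 : ℝ) (hrl : ε < rl) (hrr : ε < rr)
    (hu : ∀ s ∈ Icc (-rl) rr, u (σn + s, x) = U0 + s * a + χ s * (b - a))
    (hΩ : ∀ s ∈ Icc (-rl) rr, (σn + s, x) ∈ Ω) (hs0 : s0 ∈ Ioo (-rl) rr)
    (hp : Peak u Ω (σn + s0, x)) :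
    0 ≤ a ∧ b ≤ 0 ∧ ∃ s1 : ℝ, |s1| ≤ ε ∧ IsLocalMax u (σn + s1, x) := by
  have hd : Differentiable ℝ χ := h.smooth.differentiable (by simp)
  have hε := h.pos
  obtain ⟨hpΩ, hmax, hslide⟩ := hp
  have hcont : Continuous (fun s : ℝ => (σn + s, x)) := by fun_prop
  have hmem0 : s0 ∈ Icc (-rl) rr := ⟨hs0.1.le, hs0.2.le⟩
  -- local max in s
  have hev : ∀ᶠ s in 𝓝 s0, (fun s' => U0 + s' * a + χ s' * (b - a)) s ≤
      (fun s' => U0 + s' * a + χ s' * (b - a)) s0 := by
    have h1 : ∀ᶠ s in 𝓝 s0, u (σn + s, x) ≤ u (σn + s0, x) := hcont.continuousAt.eventually hmax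
    have h2 : ∀ᶠ s in 𝓝 s0, s ∈ Ioo (-rl) rr := Ioo_mem_nhds hs0.1 hs0.2
    filter_upwards [h1, h2] with s h1 h2
    rw [hu s ⟨h2.1.le, h2.2.le⟩, hu s0 hmem0] at h1
    exact h1
  have hder : ∀ t, HasDerivAt (fun s' => U0 + s' * a + χ s' * (b - a)) (a + deriv χ t * (b - a)) t := by
    intro t
    have h1 : HasDerivAt (fun s' : ℝ => U0 + s' * a) a t := by
      simpa using ((hasDerivAt_id t).mul_const a).const_add U0
    exact h1.add (((hd t).hasDerivAt).mul_const (b - a))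
  have h0 : a + deriv χ s0 * (b - a) = 0 := IsLocalMax.hasDerivAt_eq_zero hev (hder s0)
  have hf : ∀ t, (U0 + t * a + χ t * (b - a)) - (U0 + s0 * a + χ s0 * (b - a)) =
      (χ t - χ s0 - deriv χ s0 * (t - s0)) * (b - a) := by
    intro t
    have : a = - deriv χ s0 * (b - a) := by linarith
    linear_combination (t - s0) * this
  have hn := h.dnonneg s0
  have hl := h.dle s0
  have hpre : ∀ s1 s2 : ℝ, IsPreconnected ((fun s : ℝ => (σn + s, x)) '' Icc s1 s2) := by
    intro s1 s2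
    exact (isPreconnected_Icc).image _ hcont.continuousOn
  have hab : b ≤ a := by
    by_contra hcon
    push Not at hcon
    have hC := hslide ((fun s : ℝ => (σn + s, x)) '' Icc (-rl) rr)
      (by rintro _ ⟨s, hs, rfl⟩; exact hΩ s hs) (hpre _ _) ⟨s0, hmem0, rfl⟩
      (by
        rintro _ ⟨s, hs, rfl⟩
        show u (σn + s0, x) ≤ u (σn + s, x)
        rw [hu s hs, hu s0 hmem0]
        have := hf s
        have h3 := ramp_convex h s0 s
        nlinarith)
    have e1 := (hC _ ⟨-rl, ⟨le_rfl, by linarith⟩, rfl⟩).1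
    have e2 := (hC _ ⟨-ε, ⟨by linarith, by linarith⟩, rfl⟩).1
    have e3 := (hC _ ⟨rr, ⟨by linarith, le_rfl⟩, rfl⟩).1
    have e4 := (hC _ ⟨ε, ⟨by linarith, by linarith⟩, rfl⟩).1
    simp only at e1 e2 e3 e4
    rw [← e2, hu _ ⟨le_rfl, by linarith⟩, hu _ ⟨by linarith, by linarith⟩, h.zero _ (by linarith),
      h.zero _ le_rfl] at e1
    rw [← e4, hu _ ⟨by linarith, le_rfl⟩, hu _ ⟨by linarith, by linarith⟩, h.id _ (by linarith),
      h.id _ le_rfl] at e3
    have ha : a = 0 := by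
      have : (rl - ε) * a = 0 := by linarith
      rcases mul_eq_zero.1 this with h5 | h5
      · linarith
      · exact h5
    have hb : b = 0 := by
      have : (rr - ε) * b = 0 := by linarith
      rcases mul_eq_zero.1 this with h5 | h5
      · linarith
      · exact h5
    linarith
  have ha0 : 0 ≤ a := by nlinarith
  have hb0 : b ≤ 0 := by nlinarith
  refine ⟨ha0, hb0, ?_⟩
  by_cases hcase : |s0| ≤ ε
  · exact ⟨s0, hcase, hmax⟩
  · push Not at hcase
    rcases lt_or_ge 0 s0 with hpos | hneg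
    · have hs0' : ε < s0 := by rwa [abs_of_pos hpos] at hcase
      have hd1 : deriv χ s0 = 1 := by
        have : χ =ᶠ[𝓝 s0] fun s => s := by
          filter_upwards [Ioi_mem_nhds hs0'] with s hs
          exact h.id s (le_of_lt hs)
        rw [this.deriv_eq]; simp
      have hb : b = 0 := by rw [hd1] at h0; linarith
      have hC := hslide ((fun s : ℝ => (σn + s, x)) '' Icc ε s0)
        (by rintro _ ⟨s, hs, rfl⟩; exact hΩ s ⟨by linarith [hs.1], by linarith [hs.2, hs0.2]⟩)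
        (hpre _ _) ⟨s0, ⟨hs0'.le, le_rfl⟩, rfl⟩
        (by
          rintro _ ⟨s, hs, rfl⟩
          show u (σn + s0, x) ≤ u (σn + s, x)
          rw [hu s ⟨by linarith [hs.1], by linarith [hs.2, hs0.2]⟩, hu s0 hmem0,
            h.id s hs.1, h.id s0 hs0'.le, hb]
          apply le_of_eq; ring)
      refine ⟨ε, by rw [abs_of_pos hε], (hC _ ⟨ε, ⟨le_rfl, hs0'.le⟩, rfl⟩).2⟩
    · have hs0' : s0 < -ε := by
        rw [abs_of_nonpos hneg] at hcase; linarith
      have hd1 : deriv χ s0 = 0 := by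
        have : χ =ᶠ[𝓝 s0] fun _ => 0 := by
          filter_upwards [Iio_mem_nhds hs0'] with s hs
          exact h.zero s (le_of_lt hs)
        rw [this.deriv_eq]; simp
      have ha : a = 0 := by rw [hd1] at h0; linarith
      have hC := hslide ((fun s : ℝ => (σn + s, x)) '' Icc s0 (-ε))
        (by rintro _ ⟨s, hs, rfl⟩; exact hΩ s ⟨by linarith [hs.1, hs0.1], by linarith [hs.2]⟩)
        (hpre _ _) ⟨s0, ⟨le_rfl, hs0'.le⟩, rfl⟩
        (by
          rintro _ ⟨s, hs, rfl⟩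
          show u (σn + s0, x) ≤ u (σn + s, x)
          rw [hu s ⟨by linarith [hs.1, hs0.1], by linarith [hs.2]⟩, hu s0 hmem0,
            h.zero s hs.2, h.zero s0 hs0'.le, ha]
          apply le_of_eq; ring)
      refine ⟨-ε, by rw [abs_neg, abs_of_pos hε], (hC _ ⟨-ε, ⟨hs0'.le, le_rfl⟩, rfl⟩).2⟩

/-- the full step at one node -/
theorem node_step {χ : ℝ → ℝ} {ε : ℝ} (h : Ramp χ ε) (D : SData) (ℓ : E3 →L[ℝ] ℝ)
    (m : ℂ) (μ : ℝ) (hℓ : ∀ (w : ℂ) (z : ℝ), ℓ (pt w z) = dot m w + μ * z)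
    (Ω : Set (ℝ × ℝ)) (σn rl rr : ℝ) (hrl : ε < rl) (hrr : ε < rr)
    (P wl wr : ℝ → ℂ)
    (hG : ∀ s ∈ Icc (-rl) rr, ∀ x, D.Gin χ (σn + s) x = P x + s * wl x + χ s * (wr x - wl x))
    (hΩ : ∀ s ∈ Icc (-rl) rr, ∀ x, (σn + s, x) ∈ Ω)
    (hN : ∀ s x : ℝ, |s| ≤ ε → 0 ≤ dot m (wl x) + μ → dot m (wr x) + μ ≤ 0 →
        ¬ IsLocalMax (fun x' => dot m (P x' + s * wl x' + χ s * (wr x' - wl x'))) x)
    (p : ℝ × ℝ) (h1 : -rl < p.1 - σn) (h2 : p.1 - σn < rr) :
    ¬ Peak (fun q => ℓ (D.Fin' χ q)) Ω p := by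
  intro hp
  obtain ⟨σ, x⟩ := p
  simp only at h1 h2
  have hval : ∀ s ∈ Icc (-rl) rr, ∀ x', ℓ (D.Fin' χ (σn + s, x')) =
      dot m (P x' + s * wl x' + χ s * (wr x' - wl x')) + μ * (σn + s - 1) := by
    intro s hs x'
    unfold SData.Fin'
    simp only
    rw [hℓ, hG s hs x']
  have hu : ∀ s ∈ Icc (-rl) rr, (fun q => ℓ (D.Fin' χ q)) (σn + s, x) =
      (dot m (P x) + μ * (σn - 1)) + s * (dot m (wl x) + μ)
        + χ s * ((dot m (wr x) + μ) - (dot m (wl x) + μ)) := by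
    intro s hs
    simp only
    rw [hval s hs x]
    simp only [dot_add, dot_sub, dot_real_mul]
    ring
  have hσ : σ = σn + (σ - σn) := by ring
  rw [hσ] at hp
  obtain ⟨ha, hb, s1, hs1, hmax⟩ := node_domain h (fun q => ℓ (D.Fin' χ q)) Ω σn x rl rr _ _ _
    (σ - σn) hrl hrr hu (fun s hs => hΩ s hs x) ⟨h1, h2⟩ hp
  apply hN s1 x hs1 ha hb
  have hs1m : s1 ∈ Icc (-rl) rr := by
    have := abs_le.1 hs1
    exact ⟨by linarith, by linarith⟩
  have hc : Continuous (fun x' : ℝ => (σn + s1, x')) := by fun_prop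
  have h3 : ∀ᶠ x' in 𝓝 x, ℓ (D.Fin' χ (σn + s1, x')) ≤ ℓ (D.Fin' χ (σn + s1, x)) :=
    hc.continuousAt.eventually hmax
  show ∀ᶠ x' in 𝓝 x, _
  filter_upwards [h3] with x' hx'
  rw [hval s1 hs1m x', hval s1 hs1m x] at hx'
  linarith


theorem nodeA (D : SData) : ∃ ε0 > 0, ∀ (χ : ℝ → ℝ) (ε : ℝ), ε < ε0 → Ramp χ ε → ∀ s x : ℝ, |s| ≤ ε →
      ∀ (m : ℂ) (μ : ℝ), (m ≠ 0 ∨ μ ≠ 0) →
        0 ≤ dot m (-(D.κ * (D.A (D.α x) - D.cA))) + μ →
        dot m ((D.K x - D.Ap (D.α x)) / (1 - D.δ)) + μ ≤ 0 →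
        ¬ IsLocalMax (fun x' => dot m (D.Ap (D.α x') + s * (-(D.κ * (D.A (D.α x') - D.cA)))
          + χ s * ((D.K x' - D.Ap (D.α x')) / (1 - D.δ) - (-(D.κ * (D.A (D.α x') - D.cA)))))) x := by
  have hA := D.hA.smooth
  have hα := D.hα.smooth
  have hK := D.hK.smooth
  have hAα : ContDiff ℝ (⊤ : ℕ∞) (fun x => D.A (D.α x)) := hA.comp hα
  have hAp : ContDiff ℝ (⊤ : ℕ∞) (fun x => D.Ap (D.α x)) := by
    unfold SData.Ap
    exact hAα.sub (contDiff_const.mul (hAα.sub contDiff_const))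
  have hαd : Differentiable ℝ D.α := hα.differentiable (by simp)
  obtain ⟨ε0, he, H⟩ := NodeLemma.node_lemma (fun x => D.Ap (D.α x))
    (fun x => -(D.κ * (D.A (D.α x) - D.cA))) (fun x => (D.K x - D.Ap (D.α x)) / (1 - D.δ))
    (fun x => (1 - D.κ * D.δ) * D.ρA (D.α x) * deriv D.α x) D.α hAp
    ((contDiff_const.mul (hAα.sub contDiff_const)).neg)
    ((hK.sub hAp).div_const _)
    ((contDiff_const.mul (D.hA.smoothρ.comp hα)).mul
      ((contDiff_infty_iff_deriv.1 hα).2)) hα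
    (by
      intro x
      have h1 : HasDerivAt (fun x => D.A (D.α x)) ((deriv D.α x : ℝ) • (D.ρA (D.α x) * (I * nn (D.α x)))) x :=
        HasDerivAt.scomp x (D.hA.der (D.α x)) (hαd x).hasDerivAt
      have h2 := h1.sub ((h1.sub_const D.cA).const_mul ((D.κ : ℂ) * D.δ))
      have h3 : (fun x => D.Ap (D.α x)) = fun x => D.A (D.α x) - (D.κ : ℂ) * D.δ * (D.A (D.α x) - D.cA) := by
        funext x; rfl
      rw [h3]
      have h4 : ((((1 - D.κ * D.δ) * D.ρA (D.α x) * deriv D.α x : ℝ) : ℂ) * (I * nn (D.α x))) =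
          (deriv D.α x : ℝ) • ((D.ρA (D.α x) : ℂ) * (I * nn (D.α x))) - ((D.κ : ℂ) * D.δ) * ((deriv D.α x : ℝ) • ((D.ρA (D.α x) : ℂ) * (I * nn (D.α x)))) := by
        rw [Complex.real_smul]
        push_cast
        ring
      rw [h4]
      exact h2)
    (by
      intro x
      have h1 := D.hA.pos (D.α x)
      have h2 := D.hα.pos x
      have h3 := D.hκδ
      have : 0 < 1 - D.κ * D.δ := by linarith
      positivity)
    D.hα.pos
    (by
      intro x
      unfold SData.Ap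
      simp only [D.hα.per, D.hA.per])
    (by
      intro x
      simp only [D.hα.per, D.hA.per])
    (by
      intro x
      unfold SData.Ap
      simp only [D.hα.per, D.hA.per, D.hK.per])
    (by
      intro x
      have hd : deriv D.α (x + 2 * Real.pi) = deriv D.α x := by
        have h1 : (fun x => D.α (x + 2 * Real.pi)) = fun x => D.α x + 2 * Real.pi := by
          funext y; exact D.hα.per y
        have h2 := congrArg (fun f => deriv f x) h1
        rw [deriv_comp_add_const, deriv_add_const] at h2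
        exact h2
      simp only [D.hα.per, D.hA.perρ, hd])
    D.hα.per
    (by
      intro x
      have h1 := D.condA1 x
      have h2 : (D.K x - D.Ap (D.α x)) / (1 - D.δ) - (-(D.κ * (D.A (D.α x) - D.cA))) =
          (D.κ : ℂ) * (D.A (D.α x) - D.cA) +
    (D.K x - (D.A (D.α x) - D.κ * D.δ * (D.A (D.α x) - D.cA))) / (1 - D.δ) := by
        unfold SData.Ap
        ring
      rw [h2]; exact h1)
  refine ⟨ε0, he, ?_⟩
  intro χ ε hε hr s x hs m μ hm h1 h2
  exact (H χ ε hε hr s x hs).2 m μ hm h1 h2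

theorem nodeB (D : SData) : ∃ ε0 > 0, ∀ (χ : ℝ → ℝ) (ε : ℝ), ε < ε0 → Ramp χ ε → ∀ s x : ℝ, |s| ≤ ε →
      ∀ (m : ℂ) (μ : ℝ), (m ≠ 0 ∨ μ ≠ 0) →
        0 ≤ dot m ((D.Bp (D.β x) - D.K x) / (1 - D.δ)) + μ →
        dot m (D.κ * (D.B (D.β x) - D.cB)) + μ ≤ 0 →
        ¬ IsLocalMax (fun x' => dot m (D.Bp (D.β x') + s * ((D.Bp (D.β x') - D.K x') / (1 - D.δ))
          + χ s * (D.κ * (D.B (D.β x') - D.cB) - (D.Bp (D.β x') - D.K x') / (1 - D.δ)))) x := by
  have hB := D.hB.smooth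
  have hβ := D.hβ.smooth
  have hK := D.hK.smooth
  have hBβ : ContDiff ℝ (⊤ : ℕ∞) (fun x => D.B (D.β x)) := hB.comp hβ
  have hBp : ContDiff ℝ (⊤ : ℕ∞) (fun x => D.Bp (D.β x)) := by
    unfold SData.Bp
    exact hBβ.sub (contDiff_const.mul (hBβ.sub contDiff_const))
  have hβd : Differentiable ℝ D.β := hβ.differentiable (by simp)
  obtain ⟨ε0, he, H⟩ := NodeLemma.node_lemma (fun x => D.Bp (D.β x))
    (fun x => (D.Bp (D.β x) - D.K x) / (1 - D.δ)) (fun x => D.κ * (D.B (D.β x) - D.cB))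
    (fun x => (1 - D.κ * D.δ) * D.ρB (D.β x) * deriv D.β x) D.β hBp
    ((hBp.sub hK).div_const _)
    (contDiff_const.mul (hBβ.sub contDiff_const))
    ((contDiff_const.mul (D.hB.smoothρ.comp hβ)).mul
      ((contDiff_infty_iff_deriv.1 hβ).2)) hβ
    (by
      intro x
      have h1 : HasDerivAt (fun x => D.B (D.β x)) ((deriv D.β x : ℝ) • (D.ρB (D.β x) * (I * nn (D.β x)))) x :=
        HasDerivAt.scomp x (D.hB.der (D.β x)) (hβd x).hasDerivAt
      have h2 := h1.sub ((h1.sub_const D.cB).const_mul ((D.κ : ℂ) * D.δ))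
      have h3 : (fun x => D.Bp (D.β x)) = fun x => D.B (D.β x) - (D.κ : ℂ) * D.δ * (D.B (D.β x) - D.cB) := by
        funext x; rfl
      rw [h3]
      have h4 : ((((1 - D.κ * D.δ) * D.ρB (D.β x) * deriv D.β x : ℝ) : ℂ) * (I * nn (D.β x))) =
          (deriv D.β x : ℝ) • ((D.ρB (D.β x) : ℂ) * (I * nn (D.β x))) - ((D.κ : ℂ) * D.δ) * ((deriv D.β x : ℝ) • ((D.ρB (D.β x) : ℂ) * (I * nn (D.β x)))) := by
        rw [Complex.real_smul]
        push_cast
        ring
      rw [h4]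
      exact h2)
    (by
      intro x
      have h1 := D.hB.pos (D.β x)
      have h2 := D.hβ.pos x
      have h3 := D.hκδ
      have : 0 < 1 - D.κ * D.δ := by linarith
      positivity)
    D.hβ.pos
    (by
      intro x
      unfold SData.Bp
      simp only [D.hβ.per, D.hB.per])
    (by
      intro x
      unfold SData.Bp
      simp only [D.hβ.per, D.hB.per, D.hK.per])
    (by
      intro x
      simp only [D.hβ.per, D.hB.per])
    (by
      intro x
      have hd : deriv D.β (x + 2 * Real.pi) = deriv D.β x := by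
        have h1 : (fun x => D.β (x + 2 * Real.pi)) = fun x => D.β x + 2 * Real.pi := by
          funext y; exact D.hβ.per y
        have h2 := congrArg (fun f => deriv f x) h1
        rw [deriv_comp_add_const, deriv_add_const] at h2
        exact h2
      simp only [D.hβ.per, D.hB.perρ, hd])
    D.hβ.per
    (by
      intro x
      have h1 := D.condB1 x
      have h2 : (D.κ * (D.B (D.β x) - D.cB) - (D.Bp (D.β x) - D.K x) / (1 - D.δ) : ℂ) =
          (D.κ : ℂ) * (D.B (D.β x) - D.cB) +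
    (D.K x - (D.B (D.β x) - D.κ * D.δ * (D.B (D.β x) - D.cB))) / (1 - D.δ) := by
        unfold SData.Bp
        ring
      rw [h2]; exact h1)
  refine ⟨ε0, he, ?_⟩
  intro χ ε hε hr s x hs m μ hm h1 h2
  exact (H χ ε hε hr s x hs).2 m μ hm h1 h2

theorem nodeK (D : SData) : ∃ ε0 > 0, ∀ (χ : ℝ → ℝ) (ε : ℝ), ε < ε0 → Ramp χ ε → ∀ s x : ℝ, |s| ≤ ε →
      ∀ (m : ℂ) (μ : ℝ), (m ≠ 0 ∨ μ ≠ 0) →
        0 ≤ dot m ((D.K x - D.Ap (D.α x)) / (1 - D.δ)) + μ →
        dot m ((D.Bp (D.β x) - D.K x) / (1 - D.δ)) + μ ≤ 0 →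
        ¬ IsLocalMax (fun x' => dot m (D.K x' + s * ((D.K x' - D.Ap (D.α x')) / (1 - D.δ))
          + χ s * ((D.Bp (D.β x') - D.K x') / (1 - D.δ) - (D.K x' - D.Ap (D.α x')) / (1 - D.δ)))) x := by
  have hA := D.hA.smooth
  have hα := D.hα.smooth
  have hK := D.hK.smooth
  have hAα : ContDiff ℝ (⊤ : ℕ∞) (fun x => D.A (D.α x)) := hA.comp hα
  have hAp : ContDiff ℝ (⊤ : ℕ∞) (fun x => D.Ap (D.α x)) := by
    unfold SData.Ap
    exact hAα.sub (contDiff_const.mul (hAα.sub contDiff_const))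
  have hB := D.hB.smooth
  have hβ := D.hβ.smooth
  have hBβ : ContDiff ℝ (⊤ : ℕ∞) (fun x => D.B (D.β x)) := hB.comp hβ
  have hBp : ContDiff ℝ (⊤ : ℕ∞) (fun x => D.Bp (D.β x)) := by
    unfold SData.Bp
    exact hBβ.sub (contDiff_const.mul (hBβ.sub contDiff_const))
  have hδ2 := D.hδ2
  obtain ⟨ε0, he, H⟩ := NodeLemma.node_lemma D.K
    (fun x => (D.K x - D.Ap (D.α x)) / (1 - D.δ))
    (fun x => (D.Bp (D.β x) - D.K x) / (1 - D.δ))
    D.ρK (fun x => x) hK
    ((hK.sub hAp).div_const _) ((hBp.sub hK).div_const _) D.hK.smoothρ contDiff_id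
    D.hK.der D.hK.pos (by intro x; simp) D.hK.per
    (by
      intro x
      unfold SData.Ap
      simp only [D.hα.per, D.hA.per, D.hK.per])
    (by
      intro x
      unfold SData.Bp
      simp only [D.hβ.per, D.hB.per, D.hK.per])
    D.hK.perρ (fun x => rfl)
    (by
      intro x
      have h1 := D.condK x
      have h2 : ((D.Bp (D.β x) - D.K x) / (1 - D.δ) - (D.K x - D.Ap (D.α x)) / (1 - D.δ) : ℂ) =
          ((1 / (1 - D.δ) : ℝ) : ℂ) * ((D.A (D.α x) - D.κ * D.δ * (D.A (D.α x) - D.cA)) + (D.B (D.β x) - D.κ * D.δ * (D.B (D.β x) - D.cB)) - 2 * D.K x) := by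
        unfold SData.Bp SData.Ap
        push_cast
        ring
      rw [h2, dot_real_mul]
      have : 0 < 1 / (1 - D.δ) := by apply one_div_pos.2; linarith
      positivity)
  refine ⟨ε0, he, ?_⟩
  intro χ ε hε hr s x hs m μ hm h1 h2
  exact (H χ ε hε hr s x hs).2 m μ hm h1 h2

theorem inner_no_peak (D : SData) : ∃ ε0 > 0, ∀ (χ : ℝ → ℝ) (ε : ℝ), ε < ε0 → Ramp χ ε →
    ∀ ℓ : E3 →L[ℝ] ℝ, ℓ ≠ 0 → ∀ p : ℝ × ℝ, D.δ / 2 ≤ p.1 → p.1 ≤ 2 - D.δ / 2 →
      ¬ Peak (fun q => ℓ (D.Fin' χ q)) {q : ℝ × ℝ | ε < q.1 ∧ q.1 < 2 - ε} p := by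
  obtain ⟨εA, hεA, HA⟩ := nodeA D
  obtain ⟨εB, hεB, HB⟩ := nodeB D
  obtain ⟨εK, hεK, HK⟩ := nodeK D
  have hδ := D.hδ
  have hδ2 := D.hδ2
  refine ⟨min (min εA εB) (min εK (D.δ / 4)), by positivity, ?_⟩
  intro χ ε hε hr ℓ hℓ p hp1 hp2
  have h1 : ε < εA := lt_of_lt_of_le hε ((min_le_left _ _).trans (min_le_left _ _))
  have h2 : ε < εB := lt_of_lt_of_le hε ((min_le_left _ _).trans (min_le_right _ _))
  have h3 : ε < εK := lt_of_lt_of_le hε ((min_le_right _ _).trans (min_le_left _ _))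
  have h4 : ε < D.δ / 4 := lt_of_lt_of_le hε ((min_le_right _ _).trans (min_le_right _ _))
  have hε0 := hr.pos
  obtain ⟨m, μ, hm, hlin⟩ := l_pt ℓ
  have hm' := hm hℓ
  have h1δ : (1 : ℂ) - D.δ ≠ 0 := by
    have : (1 : ℝ) - D.δ ≠ 0 := by linarith
    exact_mod_cast this
  rcases lt_or_ge p.1 (3 / 4) with hc | hc
  · -- node A'
    refine node_step hr D ℓ m μ hlin _ D.δ (D.δ - D.δ / 3) (1 - ε - D.δ) (by linarith) (by linarith)
      (fun x => D.Ap (D.α x)) (fun x => -(D.κ * (D.A (D.α x) - D.cA)))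
      (fun x => (D.K x - D.Ap (D.α x)) / (1 - D.δ)) ?_ ?_ ?_ p (by linarith) (by linarith)
    · intro s hs x
      obtain ⟨hs1, hs2⟩ := hs
      unfold SData.Gin SData.wA
      rw [hr.zero (D.δ + s - 1) (by linarith), hr.zero (D.δ + s - (2 - D.δ)) (by linarith)]
      rw [show D.δ + s - D.δ = s by ring]
      push_cast
      ring
    · intro s hs x
      obtain ⟨hs1, hs2⟩ := hs
      exact ⟨by simp only; linarith, by simp only; linarith⟩
    · intro s x hs ha hb
      exact HA χ ε h1 hr s x hs m μ hm' ha hb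
  · rcases lt_or_ge p.1 (5 / 4) with hc2 | hc2
    · -- node K
      refine node_step hr D ℓ m μ hlin _ 1 (1 - D.δ - ε) (1 - D.δ - ε) (by linarith) (by linarith)
        D.K (fun x => (D.K x - D.Ap (D.α x)) / (1 - D.δ))
        (fun x => (D.Bp (D.β x) - D.K x) / (1 - D.δ)) ?_ ?_ ?_ p (by linarith) (by linarith)
      · intro s hs x
        obtain ⟨hs1, hs2⟩ := hs
        unfold SData.Gin SData.wA SData.wK
        rw [hr.id (1 + s - D.δ) (by linarith), hr.zero (1 + s - (2 - D.δ)) (by linarith)]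
        rw [show 1 + s - 1 = s by ring]
        push_cast
        field_simp
        ring
      · intro s hs x
        obtain ⟨hs1, hs2⟩ := hs
        exact ⟨by simp only; linarith, by simp only; linarith⟩
      · intro s x hs ha hb
        exact HK χ ε h3 hr s x hs m μ hm' ha hb
    · -- node B'
      refine node_step hr D ℓ m μ hlin _ (2 - D.δ) (1 - D.δ - ε) (D.δ - D.δ / 3) (by linarith) (by linarith)
        (fun x => D.Bp (D.β x)) (fun x => (D.Bp (D.β x) - D.K x) / (1 - D.δ))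
        (fun x => D.κ * (D.B (D.β x) - D.cB)) ?_ ?_ ?_ p (by linarith) (by linarith)
      · intro s hs x
        obtain ⟨hs1, hs2⟩ := hs
        unfold SData.Gin SData.wA SData.wK SData.wB
        rw [hr.id (2 - D.δ + s - D.δ) (by linarith), hr.id (2 - D.δ + s - 1) (by linarith)]
        rw [show 2 - D.δ + s - (2 - D.δ) = s by ring]
        push_cast
        field_simp
        ring
      · intro s hs x
        obtain ⟨hs1, hs2⟩ := hs
        exact ⟨by simp only; linarith, by simp only; linarith⟩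
      · intro s x hs ha hb
        exact HB χ ε h2 hr s x hs m μ hm' ha hb

end Pool.Agent.Csz.Inner2
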