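import Mathlib
import Pool.Agent.Csz.Defs
-- TODO final: replace Skel by the modules proving Kin_smooth, Kout_smooth, Fout_smooth,
-- agree_A, agree_B, inner_no_peak, outer_peaks
import Pool.Agent.Csz.Inner1
import Pool.Agent.Csz.Inner2
import Pool.Agent.Csz.Outer

set_option autoImplicit false

open Complex Set Filter Topology

namespace Pool.Agent.Csz.Tpp

/-- the set of maximum points of a clopen piece `V` of `{c < u}` -/
structure Piece {X : Type*} [TopologicalSpace X] (u : X → ℝ) (c : ℝ) (V V' : Set X) (M : ℝ) :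
    Prop where
  open_left : IsOpen V
  open_right : IsOpen V'
  disj : Disjoint V V'
  union : {x | c < u x} = V ∪ V'
  le : ∀ q ∈ V, u q ≤ M
  lt : c < M

section piece

variable {X : Type*} [TopologicalSpace X] {u : X → ℝ} {c : ℝ} {V V' : Set X} {M : ℝ}

theorem Piece.of_preconnected (h : Piece u c V V' M) {S : Set X} (hS : IsPreconnected S) {p : X}
    (hpS : p ∈ S) (hp : p ∈ V) (hu : ∀ q ∈ S, c < u q) : S ⊆ V := by
  intro q hq
  by_contra hqV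
  have hsub : S ⊆ V ∪ V' := fun x hx => by rw [← h.union]; exact hu x hx
  have hqV' : q ∈ V' := by
    rcases hsub hq with h' | h'
    · exact absurd h' hqV
    · exact h'
  obtain ⟨z, -, hz1, hz2⟩ := hS V V' h.open_left h.open_right hsub ⟨p, hpS, hp⟩ ⟨q, hq, hqV'⟩
  exact Set.disjoint_left.1 h.disj hz1 hz2

/-- maximum points -/
def top (u : X → ℝ) (V : Set X) (M : ℝ) : Set X := {p | p ∈ V ∧ u p = M}

theorem Piece.move (h : Piece u c V V' M) {S : Set X} (hS : IsPreconnected S) {p : X}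
    (hpS : p ∈ S) (hp : p ∈ top u V M) (hu : ∀ q ∈ S, M ≤ u q) : S ⊆ top u V M := by
  have h1 : S ⊆ V := h.of_preconnected hS hpS hp.1 fun q hq => lt_of_lt_of_le h.lt (hu q hq)
  exact fun q hq => ⟨h1 hq, le_antisymm (h.le q (h1 hq)) (hu q hq)⟩

theorem Piece.localMax (h : Piece u c V V' M) {p : X} (hp : p ∈ top u V M) : IsLocalMax u p := by
  filter_upwards [h.open_left.mem_nhds hp.1] with q hq
  rw [hp.2]; exact h.le q hq

theorem exists_piece [CompactSpace X] (hu : Continuous u) (hV : IsOpen V) (hV' : IsOpen V')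
    (hdis : Disjoint V V') (hun : {x | c < u x} = V ∪ V') (hne : V.Nonempty) :
    ∃ M, Piece u c V V' M ∧ (top u V M).Nonempty := by
  obtain ⟨v, hv⟩ := hne
  have hcomp : IsCompact (closure V) := isClosed_closure.isCompact
  obtain ⟨x, hx, hmax⟩ := hcomp.exists_isMaxOn ⟨v, subset_closure hv⟩ hu.continuousOn
  have hvx : u v ≤ u x := hmax (subset_closure hv)
  have hcv : c < u v := by
    have : v ∈ {x | c < u x} := by rw [hun]; exact Or.inl hv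
    exact this
  have hxU : x ∈ V ∪ V' := by
    rw [← hun]; exact lt_of_lt_of_le hcv hvx
  have hxV : x ∈ V := by
    rcases hxU with h | h
    · exact h
    · exfalso
      obtain ⟨y, hy1, hy2⟩ := mem_closure_iff.1 hx V' hV' h
      exact Set.disjoint_left.1 hdis hy2 hy1
  exact ⟨u x, ⟨hV, hV', hdis, hun, fun q hq => hmax (subset_closure hq),
    lt_of_lt_of_le hcv hvx⟩, x, hxV, rfl⟩

/-- pulling a top point back to a chart gives a `Peak`. -/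
theorem Piece.pull (h : Piece u c V V' M) {Ψ : ℝ × ℝ → X} (hΨ : Continuous Ψ)
    {Ω : Set (ℝ × ℝ)} (hΩ : IsOpen Ω) {w : ℝ × ℝ → ℝ} (hw : ∀ q ∈ Ω, u (Ψ q) = w q)
    {p : ℝ × ℝ} (hpΩ : p ∈ Ω) (hp : Ψ p ∈ top u V M) : Peak w Ω p := by
  have hloc : ∀ q ∈ Ω, Ψ q ∈ top u V M → IsLocalMax w q := by
    intro q hq hqt
    have h1 := h.localMax hqt
    have h2 : ∀ᶠ r in 𝓝 q, u (Ψ r) ≤ u (Ψ q) := hΨ.continuousAt.eventually h1
    filter_upwards [h2, hΩ.mem_nhds hq] with r hr hrΩ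
    rw [← hw r hrΩ, ← hw q hq]; exact hr
  refine ⟨hpΩ, hloc p hpΩ hp, ?_⟩
  intro C hC hCp hpC hle q hq
  have hmv := h.move (hCp.image Ψ hΨ.continuousOn) ⟨p, hpC, rfl⟩ hp (by
    rintro _ ⟨r, hr, rfl⟩
    rw [hw r (hC hr), ← hp.2, hw p hpΩ]
    exact hle r hr)
  have hqt := hmv ⟨q, hq, rfl⟩
  refine ⟨?_, hloc q (hC hq) hqt⟩
  rw [← hw q (hC hq), ← hw p hpΩ, hqt.2, hp.2]

end piece

/-! ### the torus -/

theorem tor_add_int (σ θ : ℝ) (k : ℤ) : tor σ (θ + k) = tor σ θ := by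
  have h : ((k : ℝ) : AddCircle (1 : ℝ)) = 0 := by
    rw [AddCircle.coe_eq_zero_iff]
    exact ⟨k, by simp⟩
  simp only [tor]
  rw [show ((θ + (k : ℝ) : ℝ) : AddCircle (1 : ℝ)) = (θ : AddCircle (1 : ℝ)) by
    rw [AddCircle.coe_add, h, add_zero]]

theorem tor_add_three (σ θ : ℝ) (k : ℤ) : tor (σ + 3 * k) θ = tor σ θ := by
  have h : ((k : ℝ) : AddCircle (1 : ℝ)) = 0 := by
    rw [AddCircle.coe_eq_zero_iff]
    exact ⟨k, by simp⟩
  simp only [tor]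
  rw [show (σ + 3 * (k : ℝ)) / 3 = σ / 3 + k by ring]
  rw [show ((σ / 3 + (k : ℝ) : ℝ) : AddCircle (1 : ℝ)) = ((σ / 3 : ℝ) : AddCircle (1 : ℝ)) by
    rw [AddCircle.coe_add, h, add_zero]]

theorem continuous_tor : Continuous fun p : ℝ × ℝ => tor p.1 p.2 := by
  unfold tor
  refine Continuous.prodMk ?_ ?_
  · exact (AddCircle.continuous_mk' (1 : ℝ)).comp (continuous_fst.div_const 3)
  · exact (AddCircle.continuous_mk' (1 : ℝ)).comp continuous_snd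

theorem tor_surj (a : ℝ) (P : AddCircle (1 : ℝ) × AddCircle (1 : ℝ)) :
    ∃ σ θ : ℝ, a ≤ σ ∧ σ < a + 3 ∧ tor σ θ = P := by
  obtain ⟨P1, P2⟩ := P
  obtain ⟨s, rfl⟩ := QuotientAddGroup.mk_surjective P1
  obtain ⟨t, rfl⟩ := QuotientAddGroup.mk_surjective P2
  set n : ℤ := ⌊(3 * s - a) / 3⌋ with hn
  have h1 := Int.floor_le ((3 * s - a) / 3)
  have h2 := Int.lt_floor_add_one ((3 * s - a) / 3)
  rw [← hn] at h1 h2
  refine ⟨3 * s - 3 * n, t, by linarith, by linarith, ?_⟩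
  have h3 : (3 * s - 3 * (n : ℝ)) = 3 * s + 3 * ((-n : ℤ) : ℝ) := by push_cast; ring
  rw [h3, tor_add_three]
  simp only [tor]
  rw [show 3 * s / 3 = s by ring]

/-- surjectivity of a continuous increasing lift. -/
theorem surj_of_lift {k : ℝ → ℝ} (hk : Continuous k) {b : ℝ} (hb : 0 < b)
    (hper : ∀ x, k (x + 2 * Real.pi) = k x + b) : Function.Surjective k := by
  have hn : ∀ (n : ℕ) (x : ℝ), k (x + n * (2 * Real.pi)) = k x + n * b := by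
    intro n
    induction n with
    | zero => intro x; simp
    | succ n ih =>
      intro x
      have : x + ((n + 1 : ℕ) : ℝ) * (2 * Real.pi) = (x + n * (2 * Real.pi)) + 2 * Real.pi := by
        push_cast; ring
      rw [this, hper, ih]; push_cast; ring
  have hm : ∀ (n : ℕ) (x : ℝ), k (x - n * (2 * Real.pi)) = k x - n * b := by
    intro n x
    have := hn n (x - n * (2 * Real.pi))
    rw [sub_add_cancel] at this
    linarith
  intro θ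
  obtain ⟨n, hn'⟩ := exists_nat_gt (|θ - k 0| / b)
  rw [div_lt_iff₀ hb] at hn'
  have h1 : k (0 - n * (2 * Real.pi)) ≤ θ := by
    rw [hm]; have := neg_abs_le (θ - k 0); linarith
  have h2 : θ ≤ k (0 + n * (2 * Real.pi)) := by
    rw [hn]; have := le_abs_self (θ - k 0); linarith
  have hle : (0 - n * (2 * Real.pi) : ℝ) ≤ 0 + n * (2 * Real.pi) := by
    have : 0 ≤ (n : ℝ) * (2 * Real.pi) := by positivity
    linarith
  obtain ⟨x, -, hx⟩ := intermediate_value_Icc hle hk.continuousOn ⟨h1, h2⟩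
  exact ⟨x, hx⟩

theorem lift_add_int {k : ℝ → ℝ} (hper : ∀ x, k (x + 2 * Real.pi) = k x + 1) (x : ℝ) (n : ℤ) :
    k (x + n * (2 * Real.pi)) = k x + n := by
  have hn : ∀ (n : ℕ) (x : ℝ), k (x + n * (2 * Real.pi)) = k x + n := by
    intro n
    induction n with
    | zero => intro x; simp
    | succ n ih =>
      intro x
      have : x + ((n + 1 : ℕ) : ℝ) * (2 * Real.pi) = (x + n * (2 * Real.pi)) + 2 * Real.pi := by
        push_cast; ring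
      rw [this, hper, ih]; push_cast; ring
  rcases Int.eq_nat_or_neg n with ⟨m, rfl | rfl⟩
  · exact_mod_cast hn m x
  · have := hn m (x + ((-(m : ℤ) : ℤ) : ℝ) * (2 * Real.pi))
    push_cast at this ⊢
    rw [show x + -(m : ℝ) * (2 * Real.pi) + m * (2 * Real.pi) = x by ring] at this
    linarith

/-- TPP assembly with the chart facts as hypotheses. -/
theorem tpp_core (D : SData) (χ : ℝ → ℝ) (ε : ℝ) (hε0 : 0 < ε) (hεδ : 4 * ε < D.δ)
    (hKin : Continuous (fun p : ℝ × ℝ => D.Kin χ p.1 p.2))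
    (pKin : ∀ σ x, D.Kin χ σ (x + 2 * Real.pi) = D.Kin χ σ x + 1)
    (hKout : Continuous (fun p : ℝ × ℝ => D.Kout χ p.1 p.2))
    (pKout : ∀ σ x, D.Kout χ σ (x + 2 * Real.pi) = D.Kout χ σ x + 1)
    (hagB : ∀ σ x, 2 - D.δ + ε < σ → σ < 2 - ε → D.Kin χ σ x = D.Kout χ σ (D.β x))
    (hagA : ∀ σ x, 3 + ε < σ → σ < 3 + D.δ - ε → D.Kin χ (σ - 3) x = D.Kout χ σ (D.α x))
    (hin : ∀ ℓ : E3 →L[ℝ] ℝ, ℓ ≠ 0 → ∀ p : ℝ × ℝ, D.δ / 2 ≤ p.1 → p.1 ≤ 2 - D.δ / 2 →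
      ¬ Peak (fun q => ℓ (D.Fin' χ q)) {q : ℝ × ℝ | ε < q.1 ∧ q.1 < 2 - ε} p)
    (hout : ∀ ℓ : E3 →L[ℝ] ℝ, ℓ ≠ 0 → ∀ (Ω : Set (ℝ × ℝ)) (u : ℝ × ℝ → ℝ),
      Ω = {q : ℝ × ℝ | 2 - D.δ + ε < q.1 ∧ q.1 < 3 + D.δ - ε} →
      u = (fun q => ℓ (D.Fout χ q)) →
      ∀ p q : ℝ × ℝ,
      2 - D.δ / 2 ≤ p.1 → p.1 ≤ 3 + D.δ / 2 → 2 - D.δ / 2 ≤ q.1 → q.1 ≤ 3 + D.δ / 2 →
      Peak u Ω p → Peak u Ω q →
      (∀ C : Set (ℝ × ℝ), C ⊆ Ω → IsPreconnected C → p ∈ C → (∀ r ∈ C, u p ≤ u r) →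
        ∀ r ∈ C, r.1 ≠ 2 - D.δ / 2 ∧ r.1 ≠ 3 + D.δ / 2) →
      (∀ C : Set (ℝ × ℝ), C ⊆ Ω → IsPreconnected C → q ∈ C → (∀ r ∈ C, u q ≤ u r) →
        ∀ r ∈ C, r.1 ≠ 2 - D.δ / 2 ∧ r.1 ≠ 3 + D.δ / 2) →
      ∃ (k : ℤ) (C : Set (ℝ × ℝ)), IsPreconnected C ∧ C ⊆ Ω ∧ p ∈ C ∧
        (q.1, q.2 + k * (2 * Real.pi)) ∈ C ∧ ∀ r ∈ C, min (u p) (u q) ≤ u r)
    (f : AddCircle (1 : ℝ) × AddCircle (1 : ℝ) → E3) (hf : Continuous f)
    (hfin : ∀ σ x : ℝ, ε < σ → σ < 2 - ε → f (tor σ (D.Kin χ σ x)) = D.Fin' χ (σ, x))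
    (hfout : ∀ σ y : ℝ, 2 - D.δ + ε < σ → σ < 3 + D.δ - ε →
        f (tor σ (D.Kout χ σ y)) = D.Fout χ (σ, y))
    (ℓ : E3 →L[ℝ] ℝ) (hℓ : ℓ ≠ 0) (c : ℝ) : IsPreconnected {x | c < ℓ (f x)} := by
  have hδ := D.hδ
  have hδ2 := D.hδ2
  set u : AddCircle (1 : ℝ) × AddCircle (1 : ℝ) → ℝ := fun x => ℓ (f x) with hu
  have huc : Continuous u := ℓ.continuous.comp hf
  set Ψi : ℝ × ℝ → AddCircle (1 : ℝ) × AddCircle (1 : ℝ) := fun p => tor p.1 (D.Kin χ p.1 p.2)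
    with hΨi
  set Ψo : ℝ × ℝ → AddCircle (1 : ℝ) × AddCircle (1 : ℝ) := fun p => tor p.1 (D.Kout χ p.1 p.2)
    with hΨo
  have cΨi : Continuous Ψi := continuous_tor.comp (continuous_fst.prodMk hKin)
  have cΨo : Continuous Ψo := continuous_tor.comp (continuous_fst.prodMk hKout)
  set Ωi : Set (ℝ × ℝ) := {q : ℝ × ℝ | ε < q.1 ∧ q.1 < 2 - ε} with hΩi
  set Ωo : Set (ℝ × ℝ) := {q : ℝ × ℝ | 2 - D.δ + ε < q.1 ∧ q.1 < 3 + D.δ - ε} with hΩo
  have oΩi : IsOpen Ωi :=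
    (isOpen_lt continuous_const continuous_fst).inter (isOpen_lt continuous_fst continuous_const)
  have oΩo : IsOpen Ωo :=
    (isOpen_lt continuous_const continuous_fst).inter (isOpen_lt continuous_fst continuous_const)
  have wi : ∀ q ∈ Ωi, u (Ψi q) = (fun q => ℓ (D.Fin' χ q)) q := fun q hq => by
    show ℓ (f (tor q.1 (D.Kin χ q.1 q.2))) = _
    rw [hfin q.1 q.2 hq.1 hq.2]
  have wo : ∀ q ∈ Ωo, u (Ψo q) = (fun q => ℓ (D.Fout χ q)) q := fun q hq => by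
    show ℓ (f (tor q.1 (D.Kout χ q.1 q.2))) = _
    rw [hfout q.1 q.2 hq.1 hq.2]
  -- no top point in the inner part
  have noin : ∀ {V V' : Set (AddCircle (1 : ℝ) × AddCircle (1 : ℝ))} {M : ℝ},
      Piece u c V V' M → ∀ p : ℝ × ℝ, D.δ / 2 ≤ p.1 → p.1 ≤ 2 - D.δ / 2 → Ψi p ∉ top u V M := by
    intro V V' M hP p h1 h2 hp
    exact hin ℓ hℓ p h1 h2 (hP.pull cΨi oΩi wi ⟨by linarith, by linarith⟩ hp)
  -- the boundary lines of the outer part belong to the inner part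
  have bdB : ∀ y : ℝ, ∃ x : ℝ, Ψo (2 - D.δ / 2, y) = Ψi (2 - D.δ / 2, x) := by
    intro y
    obtain ⟨x, hx⟩ := surj_of_lift D.hβ.smooth.continuous Real.two_pi_pos D.hβ.per y
    refine ⟨x, ?_⟩
    simp only [hΨo, hΨi]
    rw [hagB (2 - D.δ / 2) x (by linarith) (by linarith), hx]
  have bdA : ∀ y : ℝ, ∃ x : ℝ, Ψo (3 + D.δ / 2, y) = Ψi (D.δ / 2, x) := by
    intro y
    obtain ⟨x, hx⟩ := surj_of_lift D.hα.smooth.continuous Real.two_pi_pos D.hα.per y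
    refine ⟨x, ?_⟩
    simp only [hΨo, hΨi]
    have h1 := hagA (3 + D.δ / 2) x (by linarith) (by linarith)
    rw [hx, show 3 + D.δ / 2 - 3 = D.δ / 2 by ring] at h1
    rw [← h1]
    have h2 := tor_add_three (D.δ / 2) (D.Kin χ (D.δ / 2) x) 1
    rw [← h2]
    congr 1
    push_cast; ring
  -- every top set has a point in the outer part
  have exout : ∀ {V V' : Set (AddCircle (1 : ℝ) × AddCircle (1 : ℝ))} {M : ℝ},
      Piece u c V V' M → (top u V M).Nonempty →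
      ∃ p : ℝ × ℝ, 2 - D.δ / 2 ≤ p.1 ∧ p.1 ≤ 3 + D.δ / 2 ∧ Ψo p ∈ top u V M := by
    intro V V' M hP hne
    obtain ⟨P, hPt⟩ := hne
    obtain ⟨σ, θ, h1, h2, rfl⟩ := tor_surj (D.δ / 2) P
    rcases le_or_gt σ (2 - D.δ / 2) with h3 | h3
    · exfalso
      obtain ⟨x, hx⟩ := surj_of_lift (k := fun x => D.Kin χ σ x)
        (hKin.comp (continuous_const.prodMk continuous_id)) one_pos (pKin σ) θ
      refine noin hP (σ, x) h1 h3 ?_
      show tor σ (D.Kin χ σ x) ∈ _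
      rw [show D.Kin χ σ x = θ from hx]
      exact hPt
    · obtain ⟨y, hy⟩ := surj_of_lift (k := fun x => D.Kout χ σ x)
        (hKout.comp (continuous_const.prodMk continuous_id)) one_pos (pKout σ) θ
      refine ⟨(σ, y), h3.le, by show σ ≤ _; linarith, ?_⟩
      show tor σ (D.Kout χ σ y) ∈ _
      rw [show D.Kout χ σ y = θ from hy]
      exact hPt
  have nobd : ∀ {V V' : Set (AddCircle (1 : ℝ) × AddCircle (1 : ℝ))} {M : ℝ},
      Piece u c V V' M → ∀ p : ℝ × ℝ, p ∈ Ωo → Ψo p ∈ top u V M →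
      ∀ C : Set (ℝ × ℝ), C ⊆ Ωo → IsPreconnected C → p ∈ C →
        (∀ r ∈ C, (fun q => ℓ (D.Fout χ q)) p ≤ (fun q => ℓ (D.Fout χ q)) r) →
        ∀ r ∈ C, r.1 ≠ 2 - D.δ / 2 ∧ r.1 ≠ 3 + D.δ / 2 := by
    intro V V' M hP p hpΩ hpt C hC hCc hpC hle r hr
    have hmv := hP.move (hCc.image Ψo cΨo.continuousOn) ⟨p, hpC, rfl⟩ hpt (by
      rintro _ ⟨s, hs, rfl⟩
      rw [wo s (hC hs), ← hpt.2, wo p hpΩ]
      exact hle s hs)
    have hrt : Ψo r ∈ top u V M := hmv ⟨r, hr, rfl⟩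
    constructor
    · intro h
      obtain ⟨x, hx⟩ := bdB r.2
      have h4 : Ψo r = Ψi (2 - D.δ / 2, x) := by
        rw [← hx, ← h]
      rw [h4] at hrt
      exact noin hP (2 - D.δ / 2, x) (by show D.δ / 2 ≤ 2 - D.δ / 2; linarith)
        (by show 2 - D.δ / 2 ≤ 2 - D.δ / 2; linarith) hrt
    · intro h
      obtain ⟨x, hx⟩ := bdA r.2
      have h4 : Ψo r = Ψi (D.δ / 2, x) := by
        rw [← hx, ← h]
      rw [h4] at hrt
      exact noin hP (D.δ / 2, x) (by show D.δ / 2 ≤ D.δ / 2; linarith)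
        (by show D.δ / 2 ≤ 2 - D.δ / 2; linarith) hrt
  -- main argument
  have hopen : IsOpen {x | c < u x} := isOpen_lt continuous_const huc
  intro v v' hv hv' hsub hne hne'
  by_contra hcon
  set V := {x | c < u x} ∩ v with hV
  set V' := {x | c < u x} ∩ v' with hV'
  have hdis : Disjoint V V' := by
    rw [Set.disjoint_left]
    rintro x ⟨hx1, hx2⟩ ⟨_, hx3⟩
    exact hcon ⟨x, hx1, hx2, hx3⟩
  have hun : {x | c < u x} = V ∪ V' := by
    ext x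
    constructor
    · intro hx
      rcases hsub hx with h | h
      · exact Or.inl ⟨hx, h⟩
      · exact Or.inr ⟨hx, h⟩
    · rintro (⟨h, _⟩ | ⟨h, _⟩) <;> exact h
  obtain ⟨M, hP, hPne⟩ := exists_piece huc (hopen.inter hv) (hopen.inter hv') hdis hun hne
  obtain ⟨M', hP', hPne'⟩ := exists_piece huc (hopen.inter hv') (hopen.inter hv) hdis.symm
    (by rw [Set.union_comm]; exact hun) hne'
  obtain ⟨p, hp1, hp2, hpt⟩ := exout hP hPne
  obtain ⟨q, hq1, hq2, hqt⟩ := exout hP' hPne'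
  have hpΩ : p ∈ Ωo := ⟨by linarith, by linarith⟩
  have hqΩ : q ∈ Ωo := ⟨by linarith, by linarith⟩
  obtain ⟨k, C, hCc, hCΩ, hpC, hqC, hCmin⟩ := hout ℓ hℓ Ωo (fun q => ℓ (D.Fout χ q)) rfl rfl p q
    hp1 hp2 hq1 hq2 (hP.pull cΨo oΩo wo hpΩ hpt) (hP'.pull cΨo oΩo wo hqΩ hqt)
    (nobd hP p hpΩ hpt) (nobd hP' q hqΩ hqt)
  have hsubV := hP.of_preconnected (hCc.image Ψo cΨo.continuousOn) ⟨p, hpC, rfl⟩ hpt.1 (by
    rintro _ ⟨r, hr, rfl⟩
    have h5 := hCmin r hr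
    have e1 : ℓ (D.Fout χ p) = M := by rw [← hpt.2]; exact (wo p hpΩ).symm
    have e2 : ℓ (D.Fout χ q) = M' := by rw [← hqt.2]; exact (wo q hqΩ).symm
    simp only [e1, e2] at h5
    rw [wo r (hCΩ hr)]
    exact lt_of_lt_of_le (lt_min hP.lt hP'.lt) h5)
  have h6 : Ψo (q.1, q.2 + k * (2 * Real.pi)) ∈ V := hsubV ⟨_, hqC, rfl⟩
  have h7 : Ψo (q.1, q.2 + k * (2 * Real.pi)) = Ψo q := by
    simp only [hΨo]
    rw [lift_add_int (pKout q.1) q.2 k, tor_add_int]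
  rw [h7] at h6
  exact Set.disjoint_left.1 hdis h6 hqt.1

theorem tpp_assembly (D : SData) : ∃ ε0 > 0, ∀ (χ : ℝ → ℝ) (ε : ℝ), ε < ε0 → Ramp χ ε →
    ∀ f : AddCircle (1 : ℝ) × AddCircle (1 : ℝ) → E3, Continuous f →
      (∀ σ x : ℝ, ε < σ → σ < 2 - ε → f (tor σ (D.Kin χ σ x)) = D.Fin' χ (σ, x)) →
      (∀ σ y : ℝ, 2 - D.δ + ε < σ → σ < 3 + D.δ - ε →
        f (tor σ (D.Kout χ σ y)) = D.Fout χ (σ, y)) →
      ∀ ℓ : E3 →L[ℝ] ℝ, ℓ ≠ 0 → ∀ c : ℝ, IsPreconnected {x | c < ℓ (f x)} := by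
  obtain ⟨ε1, h1, hin⟩ := Inner2.inner_no_peak D
  obtain ⟨ε2, h2, hout⟩ := Outer.outer_peaks D
  have hδ := D.hδ
  have hδ2 := D.hδ2
  refine ⟨min (min ε1 ε2) (D.δ / 4), by positivity, ?_⟩
  intro χ ε hε hR f hf hfin hfout ℓ hℓ c
  have e1 : ε < ε1 := lt_of_lt_of_le hε ((min_le_left _ _).trans (min_le_left _ _))
  have e2 : ε < ε2 := lt_of_lt_of_le hε ((min_le_left _ _).trans (min_le_right _ _))
  have e3 : ε < D.δ / 4 := lt_of_lt_of_le hε (min_le_right _ _)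
  have hpos := hR.pos
  obtain ⟨cKin, pKin, -⟩ := Kin_smooth D χ ε hR
  obtain ⟨cKout, pKout, -⟩ := Outer.Kout_smooth D χ ε (by linarith) hR
  exact tpp_core D χ ε hpos (by linarith) cKin.continuous pKin cKout.continuous pKout
    (fun σ x a b => (agree_B D χ ε (by linarith) hR σ x a b).2.1)
    (fun σ x a b => (agree_A D χ ε (by linarith) hR σ x a b).2.1)
    (fun ℓ hℓ p a b => hin χ ε e1 hR ℓ hℓ p a b)
    (fun ℓ hℓ Ω u hΩ hu => hout χ ε e2 hR ℓ hℓ Ω u hΩ hu)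
    f hf hfin hfout ℓ hℓ c

end Pool.Agent.Csz.Tpp
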