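import Mathlib
import Pool.Agent.Csz.Defs
import Pool.Agent.Csz.PL
import Pool.Agent.Csz.Inner1
import Pool.Agent.Csz.Outer
import Pool.Agent.Csz.M7a
import Pool.Agent.Csz.M7b
import Pool.Agent.Csz.Tpp

set_option autoImplicit false

open Complex Set Filter Topology

namespace Pool.Agent.Csz.Assemble

open Pool.Agent.Csz

abbrev T2 := AddCircle (1 : ℝ) × AddCircle (1 : ℝ)

/-- the quotient map to the torus -/
noncomputable def qm (p : ℝ × ℝ) : T2 := ((p.1 : AddCircle (1 : ℝ)), (p.2 : AddCircle (1 : ℝ)))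

theorem qm_quot : IsQuotientMap qm := by
  have h : IsOpenQuotientMap (fun x : ℝ => (x : AddCircle (1 : ℝ))) :=
    QuotientAddGroup.isOpenQuotientMap_mk
  exact (h.prodMap h).isQuotientMap

theorem continuous_of_lift {Y : Type*} [TopologicalSpace Y] (f : T2 → Y)
    (hf : Continuous (fun p : ℝ × ℝ => f ((p.1 : AddCircle (1 : ℝ)), (p.2 : AddCircle (1 : ℝ))))) :
    Continuous f := qm_quot.continuous_iff.2 hf

/-- injectivity of the derivative of a right inverse -/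
theorem inj_of_left_inv (Φ Ψ : ℝ × ℝ → ℝ × ℝ) (hΦ : ContDiff ℝ (⊤ : ℕ∞) Φ)
    (hΨ : ContDiff ℝ (⊤ : ℕ∞) Ψ) (h : ∀ p, Ψ (Φ p) = p) (p : ℝ × ℝ) :
    Function.Injective (fderiv ℝ Φ p) := by
  have h1 : HasFDerivAt Φ (fderiv ℝ Φ p) p :=
    (hΦ.differentiable (by simp)).differentiableAt.hasFDerivAt
  have h2 : HasFDerivAt Ψ (fderiv ℝ Ψ (Φ p)) (Φ p) :=
    (hΨ.differentiable (by simp)).differentiableAt.hasFDerivAt
  have h3 : HasFDerivAt (Ψ ∘ Φ) ((fderiv ℝ Ψ (Φ p)).comp (fderiv ℝ Φ p)) p := h2.comp p h1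
  have h4 : Ψ ∘ Φ = id := by funext q; exact h q
  rw [h4] at h3
  have h5 := h3.unique (hasFDerivAt_id p)
  intro v w hvw
  have h6 : (fderiv ℝ Ψ (Φ p)).comp (fderiv ℝ Φ p) v = (fderiv ℝ Ψ (Φ p)).comp (fderiv ℝ Φ p) w := by
    simp [hvw]
  rw [h5] at h6
  simpa using h6

theorem smooth_torus (D : SData) : ∃ ε0 > 0, ∀ (χ : ℝ → ℝ) (ε : ℝ), ε < ε0 → Ramp χ ε →
    ∃ f : AddCircle (1 : ℝ) × AddCircle (1 : ℝ) → E3,
      ContDiff ℝ (⊤ : ℕ∞)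
        (fun p : ℝ × ℝ => f ((p.1 : AddCircle (1 : ℝ)), (p.2 : AddCircle (1 : ℝ)))) ∧
      (∀ p : ℝ × ℝ, Function.Injective (fderiv ℝ
        (fun q : ℝ × ℝ => f ((q.1 : AddCircle (1 : ℝ)), (q.2 : AddCircle (1 : ℝ)))) p)) ∧
      (∀ ℓ : E3 →L[ℝ] ℝ, ℓ ≠ 0 → ∀ c : ℝ, IsPreconnected {x | c < ℓ (f x)}) ∧
      (∀ σ x : ℝ, ε < σ → σ < 2 - ε → f (tor σ (D.Kin χ σ x)) = D.Fin' χ (σ, x)) ∧
      (∀ σ y : ℝ, 2 - D.δ + ε < σ → σ < 3 + D.δ - ε →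
        f (tor σ (D.Kout χ σ y)) = D.Fout χ (σ, y)) := by
  obtain ⟨e1, he1, H1⟩ := inner_immersion D
  obtain ⟨e2, he2, H2⟩ := Outer.outer_immersion D
  obtain ⟨e3, he3, H3⟩ := Tpp.tpp_assembly D
  have hδ := D.hδ
  have hδ2 := D.hδ2
  refine ⟨min (min e1 e2) (min e3 (D.δ / 2)), by positivity, ?_⟩
  intro χ ε hε h
  have hε1 : ε < e1 := lt_of_lt_of_le hε ((min_le_left _ _).trans (min_le_left _ _))
  have hε2 : ε < e2 := lt_of_lt_of_le hε ((min_le_left _ _).trans (min_le_right _ _))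
  have hε3 : ε < e3 := lt_of_lt_of_le hε ((min_le_right _ _).trans (min_le_left _ _))
  have hε4 : ε < D.δ / 2 := lt_of_lt_of_le hε ((min_le_right _ _).trans (min_le_right _ _))
  have hε0 := h.pos
  obtain ⟨ki1, ki2, ki3⟩ := Kin_smooth D χ ε h
  obtain ⟨ko1, ko2, ko3⟩ := Outer.Kout_smooth D χ ε (by linarith) h
  obtain ⟨fi1, fi2⟩ := Fin'_smooth D χ ε h
  obtain ⟨fo1, fo2⟩ := Outer.Fout_smooth D χ ε h
  obtain ⟨Θi, ti1, ti2, ti3, ti4, ti5⟩ := exists_inverse (D.Kin χ) ki1 ki2 ki3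
  obtain ⟨Θo, to1, to2, to3, to4, to5⟩ := exists_inverse (D.Kout χ) ko1 ko2 ko3
  set Φi : ℝ × ℝ → ℝ × ℝ := fun p => (p.1, Θi p.1 p.2) with hΦi
  set Φo : ℝ × ℝ → ℝ × ℝ := fun p => (p.1, Θo p.1 p.2) with hΦo
  set Ψi : ℝ × ℝ → ℝ × ℝ := fun p => (p.1, D.Kin χ p.1 p.2) with hΨi
  set Ψo : ℝ × ℝ → ℝ × ℝ := fun p => (p.1, D.Kout χ p.1 p.2) with hΨo
  have sΦi : ContDiff ℝ (⊤ : ℕ∞) Φi := contDiff_fst.prodMk ti1
  have sΦo : ContDiff ℝ (⊤ : ℕ∞) Φo := contDiff_fst.prodMk to1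
  have sΨi : ContDiff ℝ (⊤ : ℕ∞) Ψi := contDiff_fst.prodMk ki1
  have sΨo : ContDiff ℝ (⊤ : ℕ∞) Ψo := contDiff_fst.prodMk ko1
  have iΦi := inj_of_left_inv Φi Ψi sΦi sΨi (fun p => by simp [hΦi, hΨi, ti2])
  have iΦo := inj_of_left_inv Φo Ψo sΦo sΨo (fun p => by simp [hΦo, hΨo, to2])
  obtain ⟨f, g1, g2, g3, g4⟩ := M7b.glue_smooth D.δ ε hε0 (by linarith) hδ2
    (fun p => D.Fin' χ (Φi p)) (fun p => D.Fout χ (Φo p)) (fi1.comp sΦi) (fo1.comp sΦo)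
    (fun σ θ => by simp only [hΦi, ti4, fi2]) (fun σ θ => by simp only [hΦo, to4, fo2])
    (fun σ θ s1 s2 => by
      obtain ⟨a1, a2, a3⟩ := agree_B D χ ε (by linarith) h σ (Θi σ θ) s1 s2
      rw [ti2] at a2
      have e : Θo σ θ = D.β (Θi σ θ) := by
        conv_lhs => rw [a2]
        exact to3 _ _
      simp only [hΦi, hΦo]
      rw [a1, e])
    (fun σ θ s1 s2 => by
      obtain ⟨a1, a2, a3⟩ := agree_A D χ ε (by linarith) h σ (Θi (σ - 3) θ) s1 s2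
      rw [ti2] at a2
      have e : Θo σ θ = D.α (Θi (σ - 3) θ) := by
        conv_lhs => rw [a2]
        exact to3 _ _
      simp only [hΦi, hΦo]
      rw [a1, e])
    (fun p s1 s2 => by
      have d1 : HasFDerivAt (D.Fin' χ) (fderiv ℝ (D.Fin' χ) (Φi p)) (Φi p) :=
        (fi1.differentiable (by simp)).differentiableAt.hasFDerivAt
      have d2 : HasFDerivAt Φi (fderiv ℝ Φi p) p :=
        (sΦi.differentiable (by simp)).differentiableAt.hasFDerivAt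
      have d3 := (d1.comp p d2).fderiv
      have : (fun p => D.Fin' χ (Φi p)) = D.Fin' χ ∘ Φi := rfl
      rw [this, d3, ContinuousLinearMap.coe_comp]
      exact (H1 χ ε hε1 h (Φi p) s1 s2).comp (iΦi p))
    (fun p s1 s2 => by
      have d1 : HasFDerivAt (D.Fout χ) (fderiv ℝ (D.Fout χ) (Φo p)) (Φo p) :=
        (fo1.differentiable (by simp)).differentiableAt.hasFDerivAt
      have d2 : HasFDerivAt Φo (fderiv ℝ Φo p) p :=
        (sΦo.differentiable (by simp)).differentiableAt.hasFDerivAt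
      have d3 := (d1.comp p d2).fderiv
      have : (fun p => D.Fout χ (Φo p)) = D.Fout χ ∘ Φo := rfl
      rw [this, d3, ContinuousLinearMap.coe_comp]
      exact (H2 χ ε hε2 h (Φo p) s1 s2).comp (iΦo p))
  have c1 : ∀ σ x : ℝ, ε < σ → σ < 2 - ε → f (tor σ (D.Kin χ σ x)) = D.Fin' χ (σ, x) := by
    intro σ x s1 s2
    rw [g3 σ _ s1 s2]
    simp only [hΦi, ti3]
  have c2 : ∀ σ y : ℝ, 2 - D.δ + ε < σ → σ < 3 + D.δ - ε →
        f (tor σ (D.Kout χ σ y)) = D.Fout χ (σ, y) := by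
    intro σ y s1 s2
    rw [g4 σ _ s1 s2]
    simp only [hΦo, to3]
  have hfc : Continuous f := continuous_of_lift f g1.continuous
  exact ⟨f, g1, g2, H3 χ ε hε3 h f hfc c1 c2, c1, c2⟩

end Pool.Agent.Csz.Assemble
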