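import Mathlib
import Pool.Agent.Csz.Dat

set_option autoImplicit false

open Complex Set

namespace Pool.Agent.Csz

theorem nn_neg (x : ℝ) : nn (-x) = (starRingEnd ℂ) (nn x) := by
  unfold nn
  rw [← Complex.exp_conj]
  simp

section
variable {w r : ℝ} {φ st : ℝ → ℝ} {E : ℝ → ℂ} (hS : Step w r φ st E)
include hS

theorem st_mono : Monotone st := by
  apply monotone_of_deriv_nonneg (hS.stsmooth.differentiable (by simp))
  intro x
  rw [(hS.stder x).deriv]
  exact hS.φnonneg x

theorem st_one {x : ℝ} (h1 : w ≤ x) (h2 : x ≤ 2 * Real.pi - w) : st x = 1 := by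
  have h := hS.stper (x - 2 * Real.pi)
  rw [sub_add_cancel, hS.stzero (x - 2 * Real.pi) (by linarith) (by linarith)] at h
  rw [h]; ring

theorem E_one {x : ℝ} (h1 : w ≤ x) (h2 : x ≤ 2 * Real.pi - w) : E x = 1 := by
  have h := hS.Eper (x - 2 * Real.pi)
  rw [sub_add_cancel, hS.Ezero (x - 2 * Real.pi) (by linarith) (by linarith)] at h
  rw [h]; ring

theorem st_nonneg {x : ℝ} (h1 : -2 * Real.pi + w ≤ x) : 0 ≤ st x := by
  have hp := Real.pi_gt_three
  have hw := hS.wlt
  have h := st_mono hS h1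
  rwa [hS.stzero _ le_rfl (by linarith)] at h

theorem st_le_one {x : ℝ} (h1 : x ≤ 2 * Real.pi - w) : st x ≤ 1 := by
  have hp := Real.pi_gt_three
  have hw := hS.wlt
  have h := st_mono hS h1
  rwa [st_one hS (by linarith) le_rfl] at h

theorem st_neg (x : ℝ) : st (-x) = 1 - st x := by
  have hd : ∀ y, HasDerivAt (fun y => st (-y) + st y) 0 y := by
    intro y
    have h1 : HasDerivAt (fun y : ℝ => st (-y)) (φ (-y) * (-1)) y :=
      (hS.stder (-y)).comp y (hasDerivAt_neg y)
    have h2 := h1.add (hS.stder y)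
    have e : φ (-y) * (-1) + φ y = 0 := by rw [hS.φeven]; ring
    rw [e] at h2
    exact h2
  have hc := is_const_of_deriv_eq_zero (fun y => (hd y).differentiableAt) (fun y => (hd y).deriv)
    x Real.pi
  have hp := Real.pi_gt_three
  have hw := hS.wlt
  have h1 : st (-Real.pi) = 0 := hS.stzero _ (by linarith) (by linarith)
  have h2 : st Real.pi = 1 := st_one hS (by linarith) (by linarith)
  simp only [h1, h2] at hc
  linarith

theorem E_neg (x : ℝ) : E (-x) = 1 - (starRingEnd ℂ) (E x) := by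
  have hd : ∀ y, HasDerivAt (fun y => E (-y) + (starRingEnd ℂ) (E y)) 0 y := by
    intro y
    have h1 : HasDerivAt (fun y : ℝ => E (-y)) ((-1 : ℝ) • (((φ (-y) / r : ℝ) : ℂ) * nn (-y))) y :=
      (hS.Eder (-y)).scomp y (hasDerivAt_neg y)
    have h3 : HasDerivAt (fun y : ℝ => (starRingEnd ℂ) (E y))
        ((starRingEnd ℂ) (((φ y / r : ℝ) : ℂ) * nn y)) y := by
      have := (Complex.conjCLE.toContinuousLinearMap.hasFDerivAt (x := E y)).comp_hasDerivAt y
        (hS.Eder y)
      exact this
    have h2 := h1.add h3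
    have e : (-1 : ℝ) • (((φ (-y) / r : ℝ) : ℂ) * nn (-y)) +
        (starRingEnd ℂ) (((φ y / r : ℝ) : ℂ) * nn y) = 0 := by
      rw [hS.φeven, nn_neg, map_mul, Complex.conj_ofReal]
      simp
    rw [e] at h2
    exact h2
  have hc := is_const_of_deriv_eq_zero (fun y => (hd y).differentiableAt) (fun y => (hd y).deriv)
    x Real.pi
  have hp := Real.pi_gt_three
  have hw := hS.wlt
  have h1 : E (-Real.pi) = 0 := hS.Ezero _ (by linarith) (by linarith)
  have h2 : E Real.pi = 1 := E_one hS (by linarith) (by linarith)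
  simp only [h1, h2, map_one] at hc
  linear_combination hc

end

end Pool.Agent.Csz
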