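import Mathlib
import Pool.Agent.Csz.Dat
import Pool.Agent.Csz.Steps
import Pool.Agent.Csz.Sched
import Pool.Agent.Csz.Angles
set_option autoImplicit false
open Complex Set

namespace Pool.Agent.Csz.Bd

theorem norm_nn (x : ℝ) : ‖nn x‖ = 1 := by
  unfold nn; exact Complex.norm_exp_ofReal_mul_I x

theorem dot_nn (x : ℝ) (z : ℂ) : dot (nn x) z = Real.cos x * z.re + Real.sin x * z.im := by
  unfold dot nn
  rw [Complex.mul_re, Complex.conj_re, Complex.conj_im, Complex.exp_ofReal_mul_I_re,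
    Complex.exp_ofReal_mul_I_im]
  ring

theorem dot_nn_I (x y : ℝ) : dot (nn x) (I * nn y) = - Real.sin (y - x) := by
  rw [dot_nn]
  have h1 : (I * nn y).re = - Real.sin y := by
    unfold nn
    simp [Complex.exp_ofReal_mul_I_im]
  have h2 : (I * nn y).im = Real.cos y := by
    unfold nn
    simp [Complex.exp_ofReal_mul_I_re]
  rw [h1, h2, Real.sin_sub]; ring

theorem dot_add (m a b : ℂ) : dot m (a + b) = dot m a + dot m b := by
  unfold dot; rw [mul_add, Complex.add_re]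
theorem dot_sub (m a b : ℂ) : dot m (a - b) = dot m a - dot m b := by
  unfold dot; rw [mul_sub, Complex.sub_re]
theorem dot_smul (m : ℂ) (t : ℝ) (a : ℂ) : dot m ((t : ℂ) * a) = t * dot m a := by
  unfold dot
  have : (starRingEnd ℂ) m * ((t : ℂ) * a) = (t : ℂ) * ((starRingEnd ℂ) m * a) := by ring
  rw [this, Complex.re_ofReal_mul]

theorem dot_nn_nn (x : ℝ) : dot (nn x) (nn x) = 1 := by
  rw [dot_nn]
  unfold nn
  rw [Complex.exp_ofReal_mul_I_re, Complex.exp_ofReal_mul_I_im]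
  nlinarith [Real.sin_sq_add_cos_sq x]

/-- support property of a closed convex curve -/
theorem support {P : ℝ → ℂ} {ρ : ℝ → ℝ} (hd : ∀ x, HasDerivAt P ((ρ x : ℂ) * (I * nn x)) x)
    (hρ : ∀ x, 0 ≤ ρ x) (hp : ∀ x, P (x + 2 * Real.pi) = P x) (x y : ℝ) :
    dot (nn x) (P y) ≤ dot (nn x) (P x) := by
  have hpi := Real.pi_pos
  obtain ⟨z, hz, hyz⟩ := Function.Periodic.exists_mem_Ico (f := P) hp (by linarith) y (x - Real.pi)
  rw [hyz]
  have hh : ∀ s, HasDerivAt (fun s => dot (nn x) (P s)) (ρ s * (- Real.sin (s - x))) s := by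
    intro s
    have h1 : HasDerivAt (fun s => (starRingEnd ℂ) (nn x) * P s)
        ((starRingEnd ℂ) (nn x) * ((ρ s : ℂ) * (I * nn s))) s := (hd s).const_mul _
    have h2 := Complex.reCLM.hasFDerivAt.comp_hasDerivAt s h1
    have e : Complex.reCLM ((starRingEnd ℂ) (nn x) * ((ρ s : ℂ) * (I * nn s))) =
        ρ s * (- Real.sin (s - x)) := by
      rw [← dot_nn_I, ← dot_smul]; rfl
    rw [e] at h2
    exact h2
  have hc : Continuous (fun s => dot (nn x) (P s)) :=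
    continuous_iff_continuousAt.2 fun s => (hh s).continuousAt
  rcases le_total z x with h | h
  · have hm : MonotoneOn (fun s => dot (nn x) (P s)) (Icc (x - Real.pi) x) := by
      apply monotoneOn_of_deriv_nonneg (convex_Icc _ _) hc.continuousOn
      · intro s _; exact (hh s).differentiableAt.differentiableWithinAt
      · intro s hs
        rw [interior_Icc] at hs
        rw [(hh s).deriv]
        have : Real.sin (s - x) ≤ 0 :=
          Real.sin_nonpos_of_nonpos_of_neg_pi_le (by linarith [hs.2]) (by linarith [hs.1])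
        exact mul_nonneg (hρ s) (by linarith)
    exact hm ⟨hz.1, h⟩ ⟨by linarith, le_rfl⟩ h
  · have hm : AntitoneOn (fun s => dot (nn x) (P s)) (Icc x (x + Real.pi)) := by
      apply antitoneOn_of_deriv_nonpos (convex_Icc _ _) hc.continuousOn
      · intro s _; exact (hh s).differentiableAt.differentiableWithinAt
      · intro s hs
        rw [interior_Icc] at hs
        rw [(hh s).deriv]
        have : 0 ≤ Real.sin (s - x) :=
          Real.sin_nonneg_of_nonneg_of_le_pi (by linarith [hs.1]) (by linarith [hs.2])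
        have := mul_nonneg (hρ s) this
        linarith
    exact hm ⟨le_rfl, by linarith⟩ ⟨h, by linarith [hz.2]⟩ h

section
variable {w r : ℝ} {φ st : ℝ → ℝ} {E : ℝ → ℂ} (hS : Step w r φ st E)
include hS

theorem VA_per (x : ℝ) : VA E (x + 2 * Real.pi) = VA E x := by
  unfold VA
  rw [Steps.E_shift_per hS, Steps.E_shift_per hS, Steps.E_shift_per hS]
  ring
theorem VB_per (x : ℝ) : VB E (x + 2 * Real.pi) = VB E x := by
  unfold VB
  rw [Steps.E_shift_per hS, Steps.E_shift_per hS, Steps.E_shift_per hS]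
  ring
theorem VK_per (x : ℝ) : VK E (x + 2 * Real.pi) = VK E x := by
  unfold VK
  rw [Steps.E_shift_per hS, Steps.E_shift_per hS, Steps.E_shift_per hS, Steps.E_shift_per hS]
  ring

theorem VA_support (x y : ℝ) : dot (nn x) (VA E y) ≤ dot (nn x) (VA E x) := by
  refine support (fun x => Steps.VA_der hS x) ?_ (VA_per hS) x y
  intro x
  have hr : 0 < r := by linarith [hS.rge]
  have h1 := hS.φnonneg (x - a14)
  have h2 := hS.φnonneg (x - a45)
  have h3 := hS.φnonneg (x - (2 * Real.pi - a9))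
  positivity
theorem VB_support (x y : ℝ) : dot (nn x) (VB E y) ≤ dot (nn x) (VB E x) := by
  refine support (fun x => Steps.VB_der hS x) ?_ (VB_per hS) x y
  intro x
  have hr : 0 < r := by linarith [hS.rge]
  have h1 := hS.φnonneg (x - a9)
  have h2 := hS.φnonneg (x - (2 * Real.pi - a45))
  have h3 := hS.φnonneg (x - (2 * Real.pi - a14))
  positivity
theorem VK_support (x y : ℝ) : dot (nn x) (VK E y) ≤ dot (nn x) (VK E x) := by
  refine support (fun x => Steps.VK_der hS x) ?_ (VK_per hS) x y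
  intro x
  have hr : 0 < r := by linarith [hS.rge]
  have h1 := hS.φnonneg (x - Real.pi / 4)
  have h2 := hS.φnonneg (x - a14)
  have h3 := hS.φnonneg (x - (2 * Real.pi - a14))
  have h4 := hS.φnonneg (x - 7 * Real.pi / 4)
  positivity

/-! values of the vertex functions at plateau angles -/
theorem VA_v1 : VA E 0 = 1 := by
  obtain ⟨g1, g2, g3, g4, g5, g6⟩ := Ang.gaps
  have hw := hS.wlt
  have hpi := Real.pi_gt_three
  unfold VA
  rw [hS.Ezero (0 - a14) (by linarith) (by linarith), hS.Ezero (0 - a45) (by linarith) (by linarith),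
    hS.Ezero (0 - (2 * Real.pi - a9)) (by linarith) (by linarith)]
  ring
theorem VA_v4 : VA E (3 * Real.pi / 4) = -2 - I := by
  obtain ⟨g1, g2, g3, g4, g5, g6⟩ := Ang.gaps
  have hw := hS.wlt
  have hpi := Real.pi_gt_three
  unfold VA
  rw [E_one hS (x := 3 * Real.pi / 4 - a14) (by linarith) (by linarith),
    hS.Ezero (3 * Real.pi / 4 - a45) (by linarith) (by linarith),
    hS.Ezero (3 * Real.pi / 4 - (2 * Real.pi - a9)) (by linarith) (by linarith)]
  ring
theorem VA_v5 : VA E (3 * Real.pi / 2) = -3 - 9 * I := by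
  obtain ⟨g1, g2, g3, g4, g5, g6⟩ := Ang.gaps
  have hw := hS.wlt
  have hpi := Real.pi_gt_three
  unfold VA
  rw [E_one hS (x := 3 * Real.pi / 2 - a14) (by linarith) (by linarith),
    E_one hS (x := 3 * Real.pi / 2 - a45) (by linarith) (by linarith),
    hS.Ezero (3 * Real.pi / 2 - (2 * Real.pi - a9)) (by linarith) (by linarith)]
  ring
theorem VB_v6 : VB E 0 = 1 := by
  obtain ⟨g1, g2, g3, g4, g5, g6⟩ := Ang.gaps
  have hw := hS.wlt
  have hpi := Real.pi_gt_three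
  unfold VB
  rw [hS.Ezero (0 - a9) (by linarith) (by linarith),
    hS.Ezero (0 - (2 * Real.pi - a45)) (by linarith) (by linarith),
    hS.Ezero (0 - (2 * Real.pi - a14)) (by linarith) (by linarith)]
  ring
theorem VB_v2 : VB E (Real.pi / 2) = -3 + 9 * I := by
  obtain ⟨g1, g2, g3, g4, g5, g6⟩ := Ang.gaps
  have hw := hS.wlt
  have hpi := Real.pi_gt_three
  unfold VB
  rw [E_one hS (x := Real.pi / 2 - a9) (by linarith) (by linarith),
    hS.Ezero (Real.pi / 2 - (2 * Real.pi - a45)) (by linarith) (by linarith),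
    hS.Ezero (Real.pi / 2 - (2 * Real.pi - a14)) (by linarith) (by linarith)]
  ring
theorem VB_v3 : VB E (5 * Real.pi / 4) = -2 + I := by
  obtain ⟨g1, g2, g3, g4, g5, g6⟩ := Ang.gaps
  have hw := hS.wlt
  have hpi := Real.pi_gt_three
  unfold VB
  rw [E_one hS (x := 5 * Real.pi / 4 - a9) (by linarith) (by linarith),
    E_one hS (x := 5 * Real.pi / 4 - (2 * Real.pi - a45)) (by linarith) (by linarith),
    hS.Ezero (5 * Real.pi / 4 - (2 * Real.pi - a14)) (by linarith) (by linarith)]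
  ring

theorem radialA (t : ℝ) (ht : 0 < t) (x : ℝ) :
    1 / 10 ≤ dot (nn x) (curveA E t x - (-(4 / 3) - 10 / 3 * I)) := by
  have h1 := VA_support hS x 0
  have h4 := VA_support hS x (3 * Real.pi / 4)
  have h5 := VA_support hS x (3 * Real.pi / 2)
  rw [VA_v1 hS, dot_nn x 1] at h1
  rw [VA_v4 hS, dot_nn x (-2 - I)] at h4
  rw [VA_v5 hS, dot_nn x (-3 - 9 * I)] at h5
  have e : dot (nn x) (curveA E t x - (-(4 / 3) - 10 / 3 * I)) =
      dot (nn x) (VA E x) + t + (4 / 3 * Real.cos x + 10 / 3 * Real.sin x) := by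
    unfold curveA
    rw [dot_sub, dot_add, dot_smul, dot_nn_nn, dot_nn x (-(4 / 3) - 10 / 3 * I)]
    simp
    ring
  rw [e]
  simp at h1 h4 h5
  have hcs := Real.sin_sq_add_cos_sq x
  set c := Real.cos x
  set s := Real.sin x
  set D := dot (nn x) (VA E x)
  by_contra hcon
  push Not at hcon
  -- q1 = 7/3 c + 10/3 s, q4 = -2/3 c + 7/3 s, q5 = -5/3 c - 17/3 s, sum zero, all < 1/10
  have q1 : 7 / 3 * c + 10 / 3 * s < 1 / 10 := by linarith
  have q4 : -2 / 3 * c + 7 / 3 * s < 1 / 10 := by linarith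
  have q5 : -5 / 3 * c - 17 / 3 * s < 1 / 10 := by linarith
  have bc1 : c < 1 / 2 := by linarith
  have bc2 : -(1 / 2) < c := by linarith
  have bs1 : s < 1 / 2 := by linarith
  have bs2 : -(1 / 2) < s := by linarith
  nlinarith

theorem radialB (t : ℝ) (ht : 0 < t) (x : ℝ) :
    1 / 10 ≤ dot (nn x) (curveB E t x - (-(4 / 3) + 10 / 3 * I)) := by
  have h1 := VB_support hS x 0
  have h4 := VB_support hS x (Real.pi / 2)
  have h5 := VB_support hS x (5 * Real.pi / 4)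
  rw [VB_v6 hS, dot_nn x 1] at h1
  rw [VB_v2 hS, dot_nn x (-3 + 9 * I)] at h4
  rw [VB_v3 hS, dot_nn x (-2 + I)] at h5
  have e : dot (nn x) (curveB E t x - (-(4 / 3) + 10 / 3 * I)) =
      dot (nn x) (VB E x) + t + (4 / 3 * Real.cos x - 10 / 3 * Real.sin x) := by
    unfold curveB
    rw [dot_sub, dot_add, dot_smul, dot_nn_nn, dot_nn x (-(4 / 3) + 10 / 3 * I)]
    simp
    ring
  rw [e]
  simp at h1 h4 h5
  have hcs := Real.sin_sq_add_cos_sq x
  set c := Real.cos x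
  set s := Real.sin x
  set D := dot (nn x) (VB E x)
  by_contra hcon
  push Not at hcon
  have q1 : 7 / 3 * c - 10 / 3 * s < 1 / 10 := by linarith
  have q4 : -5 / 3 * c + 17 / 3 * s < 1 / 10 := by linarith
  have q5 : -2 / 3 * c - 7 / 3 * s < 1 / 10 := by linarith
  have bc1 : c < 1 / 2 := by linarith
  have bc2 : -(1 / 2) < c := by linarith
  have bs1 : s < 1 / 2 := by linarith
  have bs2 : -(1 / 2) < s := by linarith
  nlinarith

/-- error of replacing `E` by `st` in one term -/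
theorem term_err (e : ℂ) (y : ℝ) : ‖e * E y - e * (st y : ℂ)‖ ≤ ‖e‖ * (2 * w) := by
  rw [← mul_sub, norm_mul]
  exact mul_le_mul_of_nonneg_left (hS.Est y) (norm_nonneg e)

/-- value range -/
theorem st_unit {y : ℝ} (h1 : -2 * Real.pi + w ≤ y) (h2 : y ≤ 2 * Real.pi - w) :
    0 ≤ st y ∧ st y ≤ 1 := ⟨st_nonneg hS h1, st_le_one hS h2⟩

omit hS in
theorem conv_norm4 {a b c d : ℝ} {z1 z2 z3 z4 : ℂ} {R : ℝ} (ha : 0 ≤ a) (hb : 0 ≤ b) (hc : 0 ≤ c)
    (hd : 0 ≤ d) (h : a + b + c + d = 1) (h1 : ‖z1‖ ≤ R) (h2 : ‖z2‖ ≤ R) (h3 : ‖z3‖ ≤ R)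
    (h4 : ‖z4‖ ≤ R) : ‖(a : ℂ) * z1 + b * z2 + c * z3 + d * z4‖ ≤ R := by
  have e : ∀ (t : ℝ) (z : ℂ), 0 ≤ t → ‖z‖ ≤ R → ‖(t : ℂ) * z‖ ≤ t * R := by
    intro t z ht hz
    rw [norm_mul, Complex.norm_real, Real.norm_eq_abs, abs_of_nonneg ht]
    exact mul_le_mul_of_nonneg_left hz ht
  calc ‖(a : ℂ) * z1 + b * z2 + c * z3 + d * z4‖
      ≤ ‖(a : ℂ) * z1‖ + ‖(b : ℂ) * z2‖ + ‖(c : ℂ) * z3‖ + ‖(d : ℂ) * z4‖ := norm_add₄_le
    _ ≤ a * R + b * R + c * R + d * R := by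
        gcongr
        · exact e a z1 ha h1
        · exact e b z2 hb h2
        · exact e c z3 hc h3
        · exact e d z4 hd h4
    _ = R := by rw [← add_mul, ← add_mul, ← add_mul, h, one_mul]

omit hS in
theorem norm_le_of_sq {z : ℂ} {R : ℝ} (hR : 0 ≤ R) (h : z.re ^ 2 + z.im ^ 2 ≤ R ^ 2) : ‖z‖ ≤ R := by
  rw [Complex.norm_def]
  apply Real.sqrt_le_iff.2 ⟨hR, ?_⟩
  rw [Complex.normSq_apply]; nlinarith

theorem VA_bound (x : ℝ) : ‖VA E x‖ ≤ 9.5 + 22 * (2 * w) := by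
  obtain ⟨g1, g2, g3, g4, g5, g6⟩ := Ang.gaps
  have hw := hS.wlt
  have hw0 := hS.wpos
  have hpi := Real.pi_gt_three
  obtain ⟨y, hy, hxy⟩ := Function.Periodic.exists_mem_Ico (f := VA E) (VA_per hS) (by linarith) x 0
  rw [hxy]
  have u1 := st_unit hS (y := y - a14) (by linarith [hy.1]) (by linarith [hy.2])
  have u2 := st_unit hS (y := y - a45) (by linarith [hy.1]) (by linarith [hy.2])
  have u3 := st_unit hS (y := y - (2 * Real.pi - a9)) (by linarith [hy.1]) (by linarith [hy.2])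
  have m1 : st (y - a45) ≤ st (y - a14) := st_mono hS (by linarith)
  have m2 : st (y - (2 * Real.pi - a9)) ≤ st (y - a45) := st_mono hS (by linarith)
  have e1 := term_err hS (-3 - I) (y - a14)
  have e2 := term_err hS (-1 - 8 * I) (y - a45)
  have e3 := term_err hS (4 + 9 * I) (y - (2 * Real.pi - a9))
  have n1 : ‖(-3 - I : ℂ)‖ ≤ 3.17 := norm_le_of_sq (by norm_num) (by simp; norm_num)
  have n2 : ‖(-1 - 8 * I : ℂ)‖ ≤ 8.07 := norm_le_of_sq (by norm_num) (by simp; norm_num)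
  have n3 : ‖(4 + 9 * I : ℂ)‖ ≤ 9.9 := norm_le_of_sq (by norm_num) (by simp; norm_num)
  set s1 := st (y - a14)
  set s2 := st (y - a45)
  set s3 := st (y - (2 * Real.pi - a9))
  have hconv := conv_norm4 (a := 1 - s1) (b := s1 - s2) (c := s2 - s3) (d := s3) (R := 9.5)
    (z1 := 1) (z2 := -2 - I) (z3 := -3 - 9 * I) (z4 := 1)
    (by linarith) (by linarith) (by linarith) u3.1 (by ring)
    (by simp; norm_num) (norm_le_of_sq (by norm_num) (by simp; norm_num))
    (norm_le_of_sq (by norm_num) (by simp; norm_num)) (by simp; norm_num)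
  have hsplit : VA E y = (((1 - s1 : ℝ) : ℂ) * 1 + ((s1 - s2 : ℝ) : ℂ) * (-2 - I) +
      ((s2 - s3 : ℝ) : ℂ) * (-3 - 9 * I) + (s3 : ℂ) * 1) +
      ((-3 - I) * E (y - a14) - (-3 - I) * (s1 : ℂ)) +
      ((-1 - 8 * I) * E (y - a45) - (-1 - 8 * I) * (s2 : ℂ)) +
      ((4 + 9 * I) * E (y - (2 * Real.pi - a9)) - (4 + 9 * I) * (s3 : ℂ)) := by
    unfold VA
    push_cast
    ring
  rw [hsplit]
  refine (norm_add₄_le).trans ?_
  have hw2 : 0 < 2 * w := by linarith
  have f1 : ‖(-3 - I : ℂ)‖ * (2 * w) ≤ 3.17 * (2 * w) := by gcongr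
  have f2 : ‖(-1 - 8 * I : ℂ)‖ * (2 * w) ≤ 8.07 * (2 * w) := by gcongr
  have f3 : ‖(4 + 9 * I : ℂ)‖ * (2 * w) ≤ 9.9 * (2 * w) := by gcongr
  linarith

theorem VB_bound (x : ℝ) : ‖VB E x‖ ≤ 9.5 + 22 * (2 * w) := by
  obtain ⟨g1, g2, g3, g4, g5, g6⟩ := Ang.gaps
  have hw := hS.wlt
  have hw0 := hS.wpos
  have hpi := Real.pi_gt_three
  obtain ⟨y, hy, hxy⟩ := Function.Periodic.exists_mem_Ico (f := VB E) (VB_per hS) (by linarith) x 0
  rw [hxy]
  have u1 := st_unit hS (y := y - a9) (by linarith [hy.1]) (by linarith [hy.2])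
  have u2 := st_unit hS (y := y - (2 * Real.pi - a45)) (by linarith [hy.1]) (by linarith [hy.2])
  have u3 := st_unit hS (y := y - (2 * Real.pi - a14)) (by linarith [hy.1]) (by linarith [hy.2])
  have m1 : st (y - (2 * Real.pi - a45)) ≤ st (y - a9) := st_mono hS (by linarith)
  have m2 : st (y - (2 * Real.pi - a14)) ≤ st (y - (2 * Real.pi - a45)) := st_mono hS (by linarith)
  have e1 := term_err hS (-4 + 9 * I) (y - a9)
  have e2 := term_err hS (1 - 8 * I) (y - (2 * Real.pi - a45))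
  have e3 := term_err hS (3 - I) (y - (2 * Real.pi - a14))
  have n1 : ‖(3 - I : ℂ)‖ ≤ 3.17 := norm_le_of_sq (by norm_num) (by simp; norm_num)
  have n2 : ‖(1 - 8 * I : ℂ)‖ ≤ 8.07 := norm_le_of_sq (by norm_num) (by simp; norm_num)
  have n3 : ‖(-4 + 9 * I : ℂ)‖ ≤ 9.9 := norm_le_of_sq (by norm_num) (by simp; norm_num)
  set s1 := st (y - a9)
  set s2 := st (y - (2 * Real.pi - a45))
  set s3 := st (y - (2 * Real.pi - a14))
  have hconv := conv_norm4 (a := 1 - s1) (b := s1 - s2) (c := s2 - s3) (d := s3) (R := 9.5)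
    (z1 := 1) (z2 := -3 + 9 * I) (z3 := -2 + I) (z4 := 1)
    (by linarith) (by linarith) (by linarith) u3.1 (by ring)
    (by simp; norm_num) (norm_le_of_sq (by norm_num) (by simp; norm_num))
    (norm_le_of_sq (by norm_num) (by simp; norm_num)) (by simp; norm_num)
  have hsplit : VB E y = (((1 - s1 : ℝ) : ℂ) * 1 + ((s1 - s2 : ℝ) : ℂ) * (-3 + 9 * I) +
      ((s2 - s3 : ℝ) : ℂ) * (-2 + I) + (s3 : ℂ) * 1) +
      ((-4 + 9 * I) * E (y - a9) - (-4 + 9 * I) * (s1 : ℂ)) +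
      ((1 - 8 * I) * E (y - (2 * Real.pi - a45)) - (1 - 8 * I) * (s2 : ℂ)) +
      ((3 - I) * E (y - (2 * Real.pi - a14)) - (3 - I) * (s3 : ℂ)) := by
    unfold VB
    push_cast
    ring
  rw [hsplit]
  refine (norm_add₄_le).trans ?_
  have hw2 : 0 < 2 * w := by linarith
  have f1 : ‖(3 - I : ℂ)‖ * (2 * w) ≤ 3.17 * (2 * w) := by gcongr
  have f2 : ‖(1 - 8 * I : ℂ)‖ * (2 * w) ≤ 8.07 * (2 * w) := by gcongr
  have f3 : ‖(-4 + 9 * I : ℂ)‖ * (2 * w) ≤ 9.9 * (2 * w) := by gcongr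
  linarith

theorem VK_bound (x : ℝ) : ‖VK E x‖ ≤ 6 := by
  obtain ⟨g1, g2, g3, g4, g5, g6⟩ := Ang.gaps
  have hw := hS.wlt
  have hw0 := hS.wpos
  have hpi := Real.pi_gt_three
  obtain ⟨y, hy, hxy⟩ := Function.Periodic.exists_mem_Ico (f := VK E) (VK_per hS) (by linarith) x 0
  rw [hxy]
  have hE : ∀ z, -2 * Real.pi + w ≤ z → z ≤ 2 * Real.pi - w → ‖E z‖ ≤ 1.2 := by
    intro z h1 h2
    have u := st_unit hS h1 h2
    have e := hS.Est z
    have : ‖(st z : ℂ)‖ ≤ 1 := by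
      rw [Complex.norm_real, Real.norm_eq_abs, abs_of_nonneg u.1]; exact u.2
    calc ‖E z‖ = ‖(E z - (st z : ℂ)) + (st z : ℂ)‖ := by rw [sub_add_cancel]
      _ ≤ ‖E z - (st z : ℂ)‖ + ‖(st z : ℂ)‖ := norm_add_le _ _
      _ ≤ 1.2 := by linarith
  have h1 := hE (y - Real.pi / 4) (by linarith [hy.1]) (by linarith [hy.2])
  have h2 := hE (y - a14) (by linarith [hy.1]) (by linarith [hy.2])
  have h3 := hE (y - (2 * Real.pi - a14)) (by linarith [hy.1]) (by linarith [hy.2])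
  have h4 := hE (y - 7 * Real.pi / 4) (by linarith [hy.1]) (by linarith [hy.2])
  have n1 : ‖((-1 + I) / 2 : ℂ)‖ ≤ 0.71 := norm_le_of_sq (by norm_num) (by simp; norm_num)
  have n2 : ‖((-3 - I) / 2 : ℂ)‖ ≤ 1.59 := norm_le_of_sq (by norm_num) (by simp; norm_num)
  have n3 : ‖((3 - I) / 2 : ℂ)‖ ≤ 1.59 := norm_le_of_sq (by norm_num) (by simp; norm_num)
  have n4 : ‖((1 + I) / 2 : ℂ)‖ ≤ 0.71 := norm_le_of_sq (by norm_num) (by simp; norm_num)
  have f : ∀ e z : ℂ, ∀ c : ℝ, 0 ≤ c → ‖e‖ ≤ c → ‖z‖ ≤ 1.2 → ‖e * z‖ ≤ c * 1.2 := by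
    intro e z c hc h1 h2
    rw [norm_mul]; exact mul_le_mul h1 h2 (norm_nonneg _) hc
  have f1 := f _ _ _ (by norm_num) n1 h1
  have f2 := f _ _ _ (by norm_num) n2 h2
  have f3 := f _ _ _ (by norm_num) n3 h3
  have f4 := f _ _ _ (by norm_num) n4 h4
  unfold VK
  refine (norm_add₄_le).trans ?_
  linarith

omit hS in
theorem tnn_norm {t : ℝ} (ht : 0 < t) (x : ℝ) : ‖(t : ℂ) * nn x‖ = t := by
  rw [norm_mul, norm_nn, mul_one, Complex.norm_real, Real.norm_eq_abs, abs_of_pos ht]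

theorem boundA (t : ℝ) (ht : 0 < t) (ht1 : t < 1) (x : ℝ) : ‖curveA E t x‖ ≤ 15 := by
  have h := VA_bound hS x
  have hw := hS.wlt
  unfold curveA
  refine (norm_add_le _ _).trans ?_
  rw [tnn_norm ht]
  linarith
theorem boundB (t : ℝ) (ht : 0 < t) (ht1 : t < 1) (x : ℝ) : ‖curveB E t x‖ ≤ 15 := by
  have h := VB_bound hS x
  have hw := hS.wlt
  unfold curveB
  refine (norm_add_le _ _).trans ?_
  rw [tnn_norm ht]
  linarith
theorem boundK (t d : ℝ) (ht : 0 < t) (ht1 : t < 1) (hd : 0 < d) (hd1 : d < 1) (x : ℝ) :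
    ‖curveK E t d x‖ ≤ 15 := by
  have h := VK_bound hS x
  unfold curveK
  have h1 : ‖((1 - d : ℂ)) * VK E x‖ ≤ 6 := by
    have e : (1 - d : ℂ) = ((1 - d : ℝ) : ℂ) := by push_cast; ring
    rw [e, norm_mul, Complex.norm_real, Real.norm_eq_abs, abs_of_pos (by linarith)]
    nlinarith [norm_nonneg (VK E x)]
  have h2 : ‖(d : ℂ)‖ ≤ 1 := by
    rw [Complex.norm_real, Real.norm_eq_abs, abs_of_pos hd]; linarith
  refine (norm_add_le _ _).trans ?_
  rw [tnn_norm ht]
  have := norm_sub_le ((1 - d : ℂ) * VK E x) (d : ℂ)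
  linarith

end

end Pool.Agent.Csz.Bd
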