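import Mathlib
import Pool.Agent.Csz.Dat
import Pool.Agent.Csz.Angles
import Pool.Agent.Csz.Sched

set_option autoImplicit false

open Complex Set

namespace Pool.Agent.Csz

open Pool.Agent.Csz.Ang (angles)

theorem a45_gt : 7 * Real.pi / 8 < a45 := by
  obtain ⟨_, _, _, _, h5, h6⟩ := angles
  have hp := Real.pi_gt_three
  by_contra hcon
  push Not at hcon
  have hs : Real.sin a45 = 1 / √65 := by
    unfold a45
    rw [Complex.sin_arg]
    have h1 : (-8 + I : ℂ).im = 1 := by simp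
    have h2 : ‖(-8 + I : ℂ)‖ = √65 := by
      rw [Complex.norm_def, Complex.normSq_apply]
      simp
      norm_num
    rw [h1, h2]
  have h1 : Real.sin (7 * Real.pi / 8) ≤ Real.sin a45 := by
    have e1 : Real.sin (7 * Real.pi / 8) = Real.sin (Real.pi - 7 * Real.pi / 8) := by
      rw [Real.sin_pi_sub]
    have e2 : Real.sin a45 = Real.sin (Real.pi - a45) := by rw [Real.sin_pi_sub]
    rw [e1, e2]
    apply Real.sin_le_sin_of_le_of_le_pi_div_two <;> linarith
  have h2 : 1 / 4 ≤ Real.sin (7 * Real.pi / 8) := by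
    have e1 : Real.sin (7 * Real.pi / 8) = Real.sin (Real.pi / 8) := by
      rw [← Real.sin_pi_sub]; congr 1; ring
    rw [e1]
    have := Real.mul_le_sin (x := Real.pi / 8) (by positivity) (by linarith)
    have e2 : 2 / Real.pi * (Real.pi / 8) = 1 / 4 := by field_simp; norm_num
    linarith
  have h3 : (1 : ℝ) / √65 < 1 / 4 := by
    have : (4 : ℝ) < √65 := by
      rw [Real.lt_sqrt (by norm_num)]; norm_num
    apply one_div_lt_one_div_of_lt (by norm_num) this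
  linarith

theorem a4_bounds : 13 * Real.pi / 16 < (3 * Real.pi / 4 + a45) / 2 ∧
    (3 * Real.pi / 4 + a45) / 2 < 7 * Real.pi / 8 := by
  obtain ⟨_, _, _, _, h5, h6⟩ := angles
  have := a45_gt
  constructor <;> linarith

section
variable {w r : ℝ} {φ st : ℝ → ℝ} {E : ℝ → ℂ} (hS : Step w r φ st E)
include hS

theorem sched_deriv (i2 ξ x : ℝ) : HasDerivAt (sched st i2 ξ)
    (i2 + (3 * Real.pi / 4 + a45) / 2 * φ (x - (a14 + ξ))
    + (3 * Real.pi / 2 - (3 * Real.pi / 4 + a45) / 2) * φ (x - (7 * Real.pi / 4 + ξ))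
    + (Real.pi / 2 - 2 * Real.pi * i2) * φ (x - (2 * Real.pi - Real.pi / 8))) x := by
  have hc : ∀ c : ℝ, HasDerivAt (fun y => st (y - c)) (φ (x - c)) x := by
    intro c
    have := (hS.stder (x - c)).comp x ((hasDerivAt_id x).sub_const c)
    rw [mul_one] at this
    exact this
  have h0 : HasDerivAt (fun y : ℝ => i2 * y) i2 x := by
    simpa using (hasDerivAt_id x).const_mul i2
  exact ((h0.add ((hc _).const_mul _)).add ((hc _).const_mul _)).add ((hc _).const_mul _)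

theorem sched_per (i2 ξ x : ℝ) :
    sched st i2 ξ (x + 2 * Real.pi) = sched st i2 ξ x + 2 * Real.pi := by
  unfold sched
  have h : ∀ c : ℝ, st (x + 2 * Real.pi - c) = st (x - c) + 1 := by
    intro c
    rw [← hS.stper]; congr 1; ring
  rw [h, h, h]; ring

theorem sched_smooth (i2 ξ : ℝ) : ContDiff ℝ (⊤ : ℕ∞) (sched st i2 ξ) := by
  have hc : ∀ c : ℝ, ContDiff ℝ (⊤ : ℕ∞) (fun y => st (y - c)) := by
    intro c
    exact hS.stsmooth.comp (contDiff_id.sub contDiff_const)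
  unfold sched
  exact (((contDiff_const.mul contDiff_id).add (contDiff_const.mul (hc _))).add
    (contDiff_const.mul (hc _))).add (contDiff_const.mul (hc _))

theorem schedLift (i2 ξ : ℝ) (h0 : 0 < i2) (h1 : i2 < 1 / 100) :
    Lift (sched st i2 ξ) (2 * Real.pi) := by
  refine ⟨sched_smooth hS i2 ξ, ?_, sched_per hS i2 ξ⟩
  intro x
  rw [(sched_deriv hS i2 ξ x).deriv]
  obtain ⟨h4, h5⟩ := a4_bounds
  have hp := Real.pi_gt_three
  have e1 := hS.φnonneg (x - (a14 + ξ))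
  have e2 := hS.φnonneg (x - (7 * Real.pi / 4 + ξ))
  have e3 := hS.φnonneg (x - (2 * Real.pi - Real.pi / 8))
  have f1 : 0 ≤ (3 * Real.pi / 4 + a45) / 2 * φ (x - (a14 + ξ)) := mul_nonneg (by linarith) e1
  have f2 : 0 ≤ (3 * Real.pi / 2 - (3 * Real.pi / 4 + a45) / 2) *
      φ (x - (7 * Real.pi / 4 + ξ)) := mul_nonneg (by linarith) e2
  have f3 : 0 ≤ (Real.pi / 2 - 2 * Real.pi * i2) * φ (x - (2 * Real.pi - Real.pi / 8)) :=
    mul_nonneg (by nlinarith) e3
  linarith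

theorem schedLift' (i2 ξ : ℝ) (h0 : 0 < i2) (h1 : i2 < 1 / 100) :
    Lift (sched' st i2 ξ) (2 * Real.pi) := by
  have hl := schedLift hS i2 ξ h0 h1
  refine ⟨?_, ?_, ?_⟩
  · unfold sched'
    exact (hl.smooth.comp contDiff_neg).neg
  · intro x
    have hd : HasDerivAt (sched st i2 ξ) (deriv (sched st i2 ξ) (-x)) (-x) :=
      (hl.smooth.differentiable (by simp) (-x)).hasDerivAt
    have h2 := (hd.comp x (hasDerivAt_neg x)).neg
    have h3 : HasDerivAt (sched' st i2 ξ) (-(deriv (sched st i2 ξ) (-x) * (-1))) x := h2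
    rw [h3.deriv]
    have := hl.pos (-x)
    linarith
  · intro x
    unfold sched'
    have h := hl.per (-(x + 2 * Real.pi))
    have e : -(x + 2 * Real.pi) + 2 * Real.pi = -x := by ring
    rw [e] at h
    rw [h]; ring

/-- basic facts of the three steps of the schedule on [0, 2π] -/
theorem sched_steps (ξ : ℝ) (hξ : 4 * w ≤ ξ) (hξ1 : ξ ≤ 1 / 100) (x : ℝ) (hx0 : 0 ≤ x)
    (hx1 : x ≤ 2 * Real.pi) :
    (0 ≤ st (x - (a14 + ξ)) ∧ st (x - (a14 + ξ)) ≤ 1) ∧
    (0 ≤ st (x - (7 * Real.pi / 4 + ξ)) ∧ st (x - (7 * Real.pi / 4 + ξ)) ≤ 1) ∧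
    (0 ≤ st (x - (2 * Real.pi - Real.pi / 8)) ∧ st (x - (2 * Real.pi - Real.pi / 8)) ≤ 1) ∧
    (x ≤ a14 + ξ - w → st (x - (a14 + ξ)) = 0) ∧
    (a14 + ξ + w ≤ x → st (x - (a14 + ξ)) = 1) ∧
    (x ≤ 7 * Real.pi / 4 + ξ - w → st (x - (7 * Real.pi / 4 + ξ)) = 0) ∧
    (7 * Real.pi / 4 + ξ + w ≤ x → st (x - (7 * Real.pi / 4 + ξ)) = 1) ∧
    (x ≤ 2 * Real.pi - Real.pi / 8 - w → st (x - (2 * Real.pi - Real.pi / 8)) = 0) ∧
    (2 * Real.pi - Real.pi / 8 + w ≤ x → st (x - (2 * Real.pi - Real.pi / 8)) = 1) := by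
  obtain ⟨k1, k2, k3, k4, k5, k6⟩ := angles
  have hp := Real.pi_gt_three
  have hw := hS.wpos
  refine ⟨⟨st_nonneg hS (by linarith), st_le_one hS (by linarith)⟩,
    ⟨st_nonneg hS (by linarith), st_le_one hS (by linarith)⟩,
    ⟨st_nonneg hS (by linarith), st_le_one hS (by linarith)⟩,
    fun h => hS.stzero _ (by linarith) (by linarith),
    fun h => st_one hS (by linarith) (by linarith),
    fun h => hS.stzero _ (by linarith) (by linarith),
    fun h => st_one hS (by linarith) (by linarith),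
    fun h => hS.stzero _ (by linarith) (by linarith),
    fun h => st_one hS (by linarith) (by linarith)⟩

theorem sched_anti0 (i2 ξ : ℝ) (h0 : 0 < i2) (h1 : i2 ≤ 1 / 1000) (hξ : 4 * w ≤ ξ)
    (hξ1 : ξ ≤ 1 / 100) (x : ℝ) (hx0 : 0 ≤ x) (hx1 : x ≤ 2 * Real.pi) :
    |sched st i2 ξ x - x| < Real.pi := by
  obtain ⟨⟨a1, a2⟩, ⟨b1, b2⟩, ⟨c1, c2⟩, A0, A1, B0, B1, C0, C1⟩ :=
    sched_steps hS ξ hξ hξ1 x hx0 hx1
  obtain ⟨k1, k2, k3, k4, k5, k6⟩ := angles
  obtain ⟨h4, h5⟩ := a4_bounds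
  have hp := Real.pi_gt_three
  have hp4 := Real.pi_lt_four
  have hw := hS.wpos
  have hix : 0 ≤ i2 * x := mul_nonneg h0.le hx0
  have hix1 : i2 * x ≤ 1 / 100 := by nlinarith
  have hip : 2 * Real.pi * i2 ≤ 1 / 100 := by nlinarith
  have hip0 : 0 < 2 * Real.pi * i2 := by positivity
  unfold sched
  set sa := st (x - (a14 + ξ)) with hsa
  set sb := st (x - (7 * Real.pi / 4 + ξ)) with hsb
  set sc := st (x - (2 * Real.pi - Real.pi / 8)) with hsc
  set q := (3 * Real.pi / 4 + a45) / 2 with hq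
  have p1 : 0 ≤ q * sa := mul_nonneg (by linarith) a1
  have p1' : q * sa ≤ q := by nlinarith
  have p2 : 0 ≤ (3 * Real.pi / 2 - q) * sb := mul_nonneg (by linarith) b1
  have p2' : (3 * Real.pi / 2 - q) * sb ≤ (3 * Real.pi / 2 - q) := by nlinarith
  have p3 : 0 ≤ (Real.pi / 2 - 2 * Real.pi * i2) * sc := mul_nonneg (by linarith) c1
  have p3' : (Real.pi / 2 - 2 * Real.pi * i2) * sc ≤ (Real.pi / 2 - 2 * Real.pi * i2) := by
    nlinarith
  rw [abs_lt]
  constructor
  · -- x - α < π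
    by_cases hx : a14 + ξ + w ≤ x
    · rw [A1 hx] at p1 p1' ⊢
      by_cases hx' : 7 * Real.pi / 4 + ξ + w ≤ x
      · rw [B1 hx'] at p2 p2' ⊢
        linarith
      · push Not at hx'
        linarith
    · push Not at hx
      linarith
  · by_cases hx : x ≤ 2 * Real.pi - Real.pi / 8 - w
    · rw [C0 hx] at p3 p3' ⊢
      by_cases hx' : x ≤ 7 * Real.pi / 4 + ξ - w
      · rw [B0 hx'] at p2 p2' ⊢
        by_cases hx'' : x ≤ a14 + ξ - w
        · rw [A0 hx''] at p1 p1' ⊢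
          linarith
        · push Not at hx''
          linarith
      · push Not at hx'
        linarith
    · push Not at hx
      linarith

omit hS in
theorem per_int {f : ℝ → ℝ} {b : ℝ} (hf : ∀ x, f (x + 2 * Real.pi) = f x + b) (n : ℤ) (x : ℝ) :
    f (x + n * (2 * Real.pi)) = f x + n * b := by
  induction n with
  | zero => simp
  | succ n ih =>
    have e : x + ((n : ℤ) + 1 : ℤ) * (2 * Real.pi) = x + (n : ℤ) * (2 * Real.pi) + 2 * Real.pi := by
      push_cast; ring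
    rw [e, hf, ih]; push_cast; ring
  | pred n ih =>
    have e : x + (-(n : ℤ) : ℤ) * (2 * Real.pi) =
        x + (-(n : ℤ) - 1 : ℤ) * (2 * Real.pi) + 2 * Real.pi := by
      push_cast; ring
    rw [e, hf] at ih
    push_cast at ih ⊢
    linarith

theorem sched_anti (i2 ξ : ℝ) (h0 : 0 < i2) (h1 : i2 ≤ 1 / 1000) (hξ : 4 * w ≤ ξ)
    (hξ1 : ξ ≤ 1 / 100) (x : ℝ) : |sched st i2 ξ x - x| < Real.pi := by
  have hp := Real.two_pi_pos
  set n := ⌊x / (2 * Real.pi)⌋ with hn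
  have hx : x = (x - n * (2 * Real.pi)) + n * (2 * Real.pi) := by ring
  have h1' : 0 ≤ x - n * (2 * Real.pi) := by
    have := Int.floor_le (x / (2 * Real.pi))
    rw [le_div_iff₀ hp] at this
    linarith
  have h2' : x - n * (2 * Real.pi) ≤ 2 * Real.pi := by
    have := (Int.lt_floor_add_one (x / (2 * Real.pi))).le
    rw [div_le_iff₀ hp] at this
    linarith
  have h := sched_anti0 hS i2 ξ h0 h1 hξ hξ1 _ h1' h2'
  rw [hx, per_int (sched_per hS i2 ξ) n]
  convert h using 2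
  ring

theorem sched'_anti (i2 ξ : ℝ) (h0 : 0 < i2) (h1 : i2 ≤ 1 / 1000) (hξ : 4 * w ≤ ξ)
    (hξ1 : ξ ≤ 1 / 100) (x : ℝ) : |sched' st i2 ξ x - x| < Real.pi := by
  have h := sched_anti hS i2 ξ h0 h1 hξ hξ1 (-x)
  unfold sched'
  rw [← abs_neg]
  convert h using 2
  ring

end

end Pool.Agent.Csz
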