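import Mathlib
import Pool.Agent.Csz.Dat
import Pool.Agent.Csz.Angles
import Pool.Agent.Csz.Sched
import Pool.Agent.Csz.Sched2

set_option autoImplicit false

open Complex Set

namespace Pool.Agent.Csz

open Pool.Agent.Csz.Ang (angles)

theorem a9_gt : 1 / 4 < a9 := by
  obtain ⟨h1, h2, _, _, _, _⟩ := angles
  have hs : Real.sin a9 = 4 / √97 := by
    unfold a9
    rw [Complex.sin_arg]
    have h1 : (9 + 4 * I : ℂ).im = 4 := by simp
    have h2 : ‖(9 + 4 * I : ℂ)‖ = √97 := by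
      rw [Complex.norm_def, Complex.normSq_apply]
      simp
      norm_num
    rw [h1, h2]
  have h3 := Real.sin_lt h1
  have h4 : (1 : ℝ) / 4 < 4 / √97 := by
    have : √97 < 10 := by
      rw [Real.sqrt_lt' (by norm_num)]; norm_num
    rw [div_lt_div_iff₀ (by norm_num) (by positivity)]
    linarith
  linarith

/-- event data: the step s at parameter x with event time e -/
def Ev (w s x e : ℝ) : Prop := 0 ≤ s ∧ s ≤ 1 ∧ (x ≤ e - w → s = 0) ∧ (e + w ≤ x → s = 1)

theorem Ev.chain {w s s' x e e' : ℝ} (h : Ev w s x e) (h' : Ev w s' x e') (hh : e + w ≤ e' - w) :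
    s' = 0 ∨ s = 1 := by
  by_cases hx : x ≤ e' - w
  · exact Or.inl (h'.2.2.1 hx)
  · push Not at hx
    exact Or.inr (h.2.2.2 (by linarith))

theorem cl_sum (s : ℕ → ℝ) (n : ℕ) (h01 : ∀ i, i < n → 0 ≤ s i ∧ s i ≤ 1)
    (hch : ∀ i, i + 1 < n → s (i + 1) = 0 ∨ s i = 1) (j : ℕ) (hj : j < n) :
    cl (∑ i ∈ Finset.range n, s i - j) = s j := by
  have down : ∀ j, j < n → s j ≠ 0 → ∀ i, i < j → s i = 1 := by
    intro j
    induction j with
    | zero => intro _ _ i hi; omega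
    | succ j ih =>
      intro hj hs i hi
      have h1 : s j = 1 := by
        rcases hch j hj with h | h
        · exact absurd h hs
        · exact h
      rcases Nat.lt_succ_iff_lt_or_eq.mp hi with h | h
      · exact ih (by omega) (by rw [h1]; norm_num) i h
      · rw [h]; exact h1
  have up : ∀ i, i < n → ∀ j, j < i → s j ≠ 1 → s i = 0 := by
    intro i hi j hji hs
    by_contra h0
    exact hs (down i hi h0 j hji)
  have hsplit : ∑ i ∈ Finset.range n, s i =
      ∑ i ∈ Finset.range j, s i + s j + ∑ i ∈ Finset.Ico (j + 1) n, s i := by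
    rw [← Finset.sum_range_add_sum_Ico s (by omega : j + 1 ≤ n), Finset.sum_range_succ]
  have hle : ∑ i ∈ Finset.range j, s i ≤ j := by
    calc ∑ i ∈ Finset.range j, s i ≤ ∑ i ∈ Finset.range j, (1 : ℝ) :=
          Finset.sum_le_sum (fun i hi => (h01 i (by have := Finset.mem_range.mp hi; omega)).2)
      _ = j := by simp
  have heq : s j ≠ 0 → ∑ i ∈ Finset.range j, s i = j := by
    intro h
    rw [Finset.sum_congr rfl (fun i hi => down j hj h i (Finset.mem_range.mp hi))]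
    simp
  have hge : 0 ≤ ∑ i ∈ Finset.Ico (j + 1) n, s i :=
    Finset.sum_nonneg (fun i hi => (h01 i (Finset.mem_Ico.mp hi).2).1)
  have hz : s j ≠ 1 → ∑ i ∈ Finset.Ico (j + 1) n, s i = 0 := by
    intro h
    apply Finset.sum_eq_zero
    intro i hi
    have := Finset.mem_Ico.mp hi
    exact up i this.2 j (by omega) h
  rw [hsplit]
  unfold cl
  by_cases h0 : s j = 0
  · have h2 := hz (by rw [h0]; norm_num)
    rw [h2, h0]
    rw [max_eq_left]
    apply le_trans (min_le_right _ _)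
    linarith
  · have h1 := heq h0
    rw [h1]
    by_cases h3 : s j = 1
    · rw [h3]
      rw [min_eq_left (by linarith)]
      norm_num
    · rw [hz h3]
      have := h01 j hj
      rw [min_eq_right (by linarith), max_eq_right (by linarith)]
      ring

section
variable {w r : ℝ} {φ st : ℝ → ℝ} {E : ℝ → ℂ} (hS : Step w r φ st E)
include hS

theorem ev_plain (c x : ℝ) (hc0 : w ≤ c) (hc1 : c ≤ 2 * Real.pi - w) (hx0 : 0 ≤ x)
    (hx1 : x ≤ 2 * Real.pi) : Ev w (st (x - c)) x c := by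
  refine ⟨st_nonneg hS (by linarith), st_le_one hS (by linarith), ?_, ?_⟩
  · intro h; exact hS.stzero _ (by linarith) (by linarith)
  · intro h; exact st_one hS (by linarith) (by linarith)

/-- the schedule on [0,2π] and its three events -/
theorem sched_events (i2 ξ : ℝ) (h0 : 0 < i2) (h1 : i2 ≤ 1 / 1000) (hξ : 4 * w ≤ ξ)
    (hξ1 : ξ ≤ 1 / 100) (x : ℝ) (hx0 : 0 ≤ x) (hx1 : x ≤ 2 * Real.pi) :
    (0 ≤ sched st i2 ξ x ∧ sched st i2 ξ x ≤ 2 * Real.pi) ∧
    Ev w (st (sched st i2 ξ x - a14)) x (a14 + ξ) ∧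
    Ev w (st (sched st i2 ξ x - a45)) x (7 * Real.pi / 4 + ξ) ∧
    Ev w (st (sched st i2 ξ x - (2 * Real.pi - a9))) x (2 * Real.pi - Real.pi / 8) := by
  obtain ⟨⟨a1, a2⟩, ⟨b1, b2⟩, ⟨c1, c2⟩, A0, A1, B0, B1, C0, C1⟩ :=
    sched_steps hS ξ hξ hξ1 x hx0 hx1
  obtain ⟨k1, k2, k3, k4, k5, k6⟩ := angles
  have k7 := a9_gt
  have k8 := a45_gt
  obtain ⟨h4, h5⟩ := a4_bounds
  have hp := Real.pi_gt_three
  have hp4 := Real.pi_lt_four
  have hw := hS.wpos
  have hix : 0 ≤ i2 * x := mul_nonneg h0.le hx0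
  have hix1 : i2 * x ≤ 2 * Real.pi * i2 := by nlinarith
  have hip : 2 * Real.pi * i2 ≤ 1 / 100 := by nlinarith
  have hip0 : 0 < 2 * Real.pi * i2 := by positivity
  set sa := st (x - (a14 + ξ)) with hsa
  set sb := st (x - (7 * Real.pi / 4 + ξ)) with hsb
  set sc := st (x - (2 * Real.pi - Real.pi / 8)) with hsc
  set q := (3 * Real.pi / 4 + a45) / 2 with hq
  have hα : sched st i2 ξ x = i2 * x + q * sa + (3 * Real.pi / 2 - q) * sb +
    (Real.pi / 2 - 2 * Real.pi * i2) * sc := rfl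
  have p1 : 0 ≤ q * sa := mul_nonneg (by linarith) a1
  have p1' : q * sa ≤ q := by nlinarith
  have p2 : 0 ≤ (3 * Real.pi / 2 - q) * sb := mul_nonneg (by linarith) b1
  have p2' : (3 * Real.pi / 2 - q) * sb ≤ (3 * Real.pi / 2 - q) := by nlinarith
  have p3 : 0 ≤ (Real.pi / 2 - 2 * Real.pi * i2) * sc := mul_nonneg (by linarith) c1
  have p3' : (Real.pi / 2 - 2 * Real.pi * i2) * sc ≤ (Real.pi / 2 - 2 * Real.pi * i2) := by
    nlinarith
  have hα0 : 0 ≤ sched st i2 ξ x := by rw [hα]; linarith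
  have hα1 : sched st i2 ξ x ≤ 2 * Real.pi := by rw [hα]; linarith
  refine ⟨⟨hα0, hα1⟩, ?_, ?_, ?_⟩
  · refine ⟨st_nonneg hS (by linarith), st_le_one hS (by linarith), ?_, ?_⟩
    · intro h
      rw [A0 h, B0 (by linarith), C0 (by linarith)] at hα
      exact hS.stzero _ (by linarith) (by rw [hα]; linarith)
    · intro h
      rw [A1 h] at hα
      exact st_one hS (by rw [hα]; linarith) (by linarith)
  · refine ⟨st_nonneg hS (by linarith), st_le_one hS (by linarith), ?_, ?_⟩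
    · intro h
      rw [B0 h, C0 (by linarith)] at hα
      exact hS.stzero _ (by linarith) (by rw [hα]; linarith)
    · intro h
      rw [A1 (by linarith), B1 h] at hα
      exact st_one hS (by rw [hα]; linarith) (by linarith)
  · refine ⟨st_nonneg hS (by linarith), st_le_one hS (by linarith), ?_, ?_⟩
    · intro h
      rw [C0 h] at hα
      exact hS.stzero _ (by linarith) (by rw [hα]; linarith)
    · intro h
      rw [A1 (by linarith), B1 (by linarith), C1 h] at hα
      exact st_one hS (by rw [hα]; linarith) (by linarith)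

theorem sched'_eq (i2 ξ x : ℝ) :
    sched' st i2 ξ x = 2 * Real.pi - sched st i2 ξ (2 * Real.pi - x) := by
  unfold sched'
  have h := sched_per hS i2 ξ (-x)
  have e : -x + 2 * Real.pi = 2 * Real.pi - x := by ring
  rw [e] at h
  rw [h]; ring

omit hS in
theorem Ev.mirror {s x e : ℝ} (h : Ev w s (2 * Real.pi - x) e) :
    Ev w (1 - s) x (2 * Real.pi - e) := by
  obtain ⟨h1, h2, h3, h4⟩ := h
  refine ⟨by linarith, by linarith, ?_, ?_⟩
  · intro hx; rw [h4 (by linarith)]; ring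
  · intro hx; rw [h3 (by linarith)]; ring

theorem sched'_events (i2 ξ : ℝ) (h0 : 0 < i2) (h1 : i2 ≤ 1 / 1000) (hξ : 4 * w ≤ ξ)
    (hξ1 : ξ ≤ 1 / 100) (x : ℝ) (hx0 : 0 ≤ x) (hx1 : x ≤ 2 * Real.pi) :
    (0 ≤ sched' st i2 ξ x ∧ sched' st i2 ξ x ≤ 2 * Real.pi) ∧
    Ev w (st (sched' st i2 ξ x - a9)) x (Real.pi / 8) ∧
    Ev w (st (sched' st i2 ξ x - (2 * Real.pi - a45))) x (Real.pi / 4 - ξ) ∧
    Ev w (st (sched' st i2 ξ x - (2 * Real.pi - a14))) x (2 * Real.pi - a14 - ξ) := by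
  obtain ⟨⟨q0, q1⟩, E4, E8, E9⟩ := sched_events hS i2 ξ h0 h1 hξ hξ1 (2 * Real.pi - x)
    (by linarith) (by linarith)
  have hb := sched'_eq hS i2 ξ x
  refine ⟨⟨by rw [hb]; linarith, by rw [hb]; linarith⟩, ?_, ?_, ?_⟩
  · have h := E9.mirror
    have e1 : sched' st i2 ξ x - a9 =
        -(sched st i2 ξ (2 * Real.pi - x) - (2 * Real.pi - a9)) := by rw [hb]; ring
    rw [e1, st_neg hS]
    have e2 : Real.pi / 8 = 2 * Real.pi - (2 * Real.pi - Real.pi / 8) := by ring
    rw [e2]; exact h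
  · have h := E8.mirror
    have e1 : sched' st i2 ξ x - (2 * Real.pi - a45) =
        -(sched st i2 ξ (2 * Real.pi - x) - a45) := by rw [hb]; ring
    rw [e1, st_neg hS]
    have e2 : Real.pi / 4 - ξ = 2 * Real.pi - (7 * Real.pi / 4 + ξ) := by ring
    rw [e2]; exact h
  · have h := E4.mirror
    have e1 : sched' st i2 ξ x - (2 * Real.pi - a14) =
        -(sched st i2 ξ (2 * Real.pi - x) - a14) := by rw [hb]; ring
    rw [e1, st_neg hS]
    have e2 : 2 * Real.pi - a14 - ξ = 2 * Real.pi - (a14 + ξ) := by ring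
    rw [e2]; exact h

end

end Pool.Agent.Csz
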