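import Mathlib
import Pool.Agent.Csz.Dat
import Pool.Agent.Csz.Angles
import Pool.Agent.Csz.Sched
import Pool.Agent.Csz.Sched2
import Pool.Agent.Csz.CloseIn

set_option autoImplicit false

open Complex Set

namespace Pool.Agent.Csz

open Pool.Agent.Csz.Ang (angles)

theorem nn_norm (x : ℝ) : ‖nn x‖ = 1 := by
  unfold nn
  exact Complex.norm_exp_ofReal_mul_I x

theorem nn_period (x : ℝ) : nn (x + 2 * Real.pi) = nn x := by
  unfold nn
  have : ((x + 2 * Real.pi : ℝ) : ℂ) * I = (x : ℂ) * I + 2 * Real.pi * I := by push_cast; ring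
  rw [this, Complex.exp_add, Complex.exp_two_pi_mul_I, mul_one]

theorem per_intC {f : ℝ → ℂ} (hf : ∀ x, f (x + 2 * Real.pi) = f x) (n : ℤ) (x : ℝ) :
    f (x + n * (2 * Real.pi)) = f x := by
  have h : Function.Periodic f (2 * Real.pi) := hf
  exact h.int_mul n x

section
variable {w r : ℝ} {φ st : ℝ → ℝ} {E : ℝ → ℂ} (hS : Step w r φ st E)
include hS

theorem E_per' (c x : ℝ) : E (x + 2 * Real.pi - c) = E (x - c) + 1 := by
  rw [← hS.Eper]; congr 1; ring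

theorem st_per' (c x : ℝ) : st (x + 2 * Real.pi - c) = st (x - c) + 1 := by
  rw [← hS.stper]; congr 1; ring

theorem curveA_per (t x : ℝ) : curveA E t (x + 2 * Real.pi) = curveA E t x := by
  unfold curveA VA
  rw [E_per' hS, E_per' hS, E_per' hS, nn_period]; ring

theorem curveB_per (t x : ℝ) : curveB E t (x + 2 * Real.pi) = curveB E t x := by
  unfold curveB VB
  rw [E_per' hS, E_per' hS, E_per' hS, nn_period]; ring

theorem curveK_per (t d x : ℝ) : curveK E t d (x + 2 * Real.pi) = curveK E t d x := by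
  unfold curveK VK
  rw [E_per' hS, E_per' hS, E_per' hS, E_per' hS, nn_period]; ring

theorem liftA_per (ι x : ℝ) : liftA st ι (x + 2 * Real.pi) = liftA st ι x + 1 := by
  have hp := Real.pi_pos
  unfold liftA
  rw [st_per' hS, st_per' hS, st_per' hS]; field_simp; ring

theorem liftB_per (ι x : ℝ) : liftB st ι (x + 2 * Real.pi) = liftB st ι x + 1 := by
  have hp := Real.pi_pos
  unfold liftB
  rw [st_per' hS, st_per' hS, st_per' hS]; field_simp; ring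

theorem liftK_per (ι x : ℝ) : liftK st ι (x + 2 * Real.pi) = liftK st ι x + 1 := by
  have hp := Real.pi_pos
  unfold liftK
  rw [st_per' hS, st_per' hS, st_per' hS, st_per' hS]; field_simp; ring

theorem smul_E_bound (e : ℂ) (b : ℝ) (he : ‖e‖ ≤ b) (x : ℝ) :
    ‖e * (E x - (st x : ℂ))‖ ≤ b * (2 * w) := by
  rw [norm_mul]
  have := hS.Est x
  have hw := hS.wpos
  exact mul_le_mul he this (norm_nonneg _) (le_trans (norm_nonneg _) he)

omit hS in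
theorem norm_le_of_sq (a b c : ℝ) (hc : 0 ≤ c) (h : a ^ 2 + b ^ 2 ≤ c ^ 2) :
    ‖(a + b * I : ℂ)‖ ≤ c := by
  rw [Complex.norm_def, Complex.normSq_apply]
  apply Real.sqrt_le_iff.mpr
  refine ⟨hc, ?_⟩
  simp
  nlinarith

omit hS in
theorem tnn_norm2 {t : ℝ} (ht : 0 < t) (x : ℝ) : ‖(t : ℂ) * nn x‖ = t := by
  rw [norm_mul, nn_norm, Complex.norm_real, Real.norm_of_nonneg ht.le, mul_one]

theorem three_sum {e1 e2 e3 : ℂ} {c1 c2 c3 : ℝ} {t : ℝ} (ht : 0 < t) (y1 y2 y3 x : ℝ)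
    (h1 : ‖e1‖ ≤ c1) (h2 : ‖e2‖ ≤ c2) (h3 : ‖e3‖ ≤ c3) (hc : c1 + c2 + c3 ≤ 23) :
    ‖(1 + e1 * E y1 + e2 * E y2 + e3 * E y3 + t * nn x) -
      (1 + (st y1 : ℂ) * e1 + (st y2 : ℂ) * e2 + (st y3 : ℂ) * e3)‖ ≤ t + 60 * w := by
  have hw := hS.wpos
  have n1 := smul_E_bound hS e1 c1 h1 y1
  have n2 := smul_E_bound hS e2 c2 h2 y2
  have n3 := smul_E_bound hS e3 c3 h3 y3
  have key : (1 + e1 * E y1 + e2 * E y2 + e3 * E y3 + t * nn x) -
      (1 + (st y1 : ℂ) * e1 + (st y2 : ℂ) * e2 + (st y3 : ℂ) * e3) =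
      e1 * (E y1 - (st y1 : ℂ)) + e2 * (E y2 - (st y2 : ℂ)) + e3 * (E y3 - (st y3 : ℂ)) +
        t * nn x := by ring
  rw [key]
  have n4 := tnn_norm2 ht x
  refine (norm_add₄_le).trans ?_
  rw [n4]
  nlinarith

omit hS in
theorem ne14 : ‖(-3 - I : ℂ)‖ ≤ 4 := by
  have := norm_le_of_sq (-3) (-1) 4 (by norm_num) (by norm_num)
  push_cast at this; convert this using 2; ring
omit hS in
theorem ne45 : ‖(-1 - 8 * I : ℂ)‖ ≤ 9 := by
  have := norm_le_of_sq (-1) (-8) 9 (by norm_num) (by norm_num)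
  push_cast at this; convert this using 2; ring
omit hS in
theorem ne51 : ‖(4 + 9 * I : ℂ)‖ ≤ 10 := by
  have := norm_le_of_sq 4 9 10 (by norm_num) (by norm_num)
  push_cast at this; exact this
omit hS in
theorem ne62 : ‖(-4 + 9 * I : ℂ)‖ ≤ 10 := by
  have := norm_le_of_sq (-4) 9 10 (by norm_num) (by norm_num)
  push_cast at this; exact this
omit hS in
theorem ne23 : ‖(1 - 8 * I : ℂ)‖ ≤ 9 := by
  have := norm_le_of_sq 1 (-8) 9 (by norm_num) (by norm_num)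
  push_cast at this; convert this using 2; ring
omit hS in
theorem ne36 : ‖(3 - I : ℂ)‖ ≤ 4 := by
  have := norm_le_of_sq 3 (-1) 4 (by norm_num) (by norm_num)
  push_cast at this; convert this using 2; ring

/-- a complex number times a real in [0,1] -/
theorem real_unit (e : ℂ) (b s : ℝ) (he : ‖e‖ ≤ b) (hs0 : 0 ≤ s) (hs1 : s ≤ 1) :
    ‖(s : ℂ) * e‖ ≤ b := by
  have _ := hS.wpos
  rw [norm_mul, Complex.norm_real, Real.norm_of_nonneg hs0]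
  have := norm_nonneg e
  nlinarith

theorem curveK_bound {t d : ℝ} (ht : 0 < t) (hd0 : 0 < d) (hd1 : d < 1) (x : ℝ)
    (p2 : 0 ≤ st (x - Real.pi / 4)) (q2 : st (x - Real.pi / 4) ≤ 1)
    (p3 : 0 ≤ st (x - a14)) (q3 : st (x - a14) ≤ 1)
    (p6 : 0 ≤ st (x - (2 * Real.pi - a14))) (q6 : st (x - (2 * Real.pi - a14)) ≤ 1)
    (p7 : 0 ≤ st (x - 7 * Real.pi / 4)) (q7 : st (x - 7 * Real.pi / 4) ≤ 1) :
    ‖curveK E t d x - ((st (x - Real.pi / 4) : ℂ) * ((-1 + I) / 2) +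
      (st (x - a14) : ℂ) * ((-3 - I) / 2) + (st (x - (2 * Real.pi - a14)) : ℂ) * ((3 - I) / 2) +
      (st (x - 7 * Real.pi / 4) : ℂ) * ((1 + I) / 2))‖ ≤ t + 60 * w + 6 * d := by
  have hw := hS.wpos
  have m1 : ‖((-1 + I) / 2 : ℂ)‖ ≤ 3 / 4 := by
    have := norm_le_of_sq (-1/2) (1/2) (3 / 4) (by norm_num) (by norm_num)
    push_cast at this; convert this using 2; ring
  have m2 : ‖((-3 - I) / 2 : ℂ)‖ ≤ 8 / 5 := by
    have := norm_le_of_sq (-3/2) (-1/2) (8 / 5) (by norm_num) (by norm_num)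
    push_cast at this; convert this using 2; ring
  have m3 : ‖((3 - I) / 2 : ℂ)‖ ≤ 8 / 5 := by
    have := norm_le_of_sq (3/2) (-1/2) (8 / 5) (by norm_num) (by norm_num)
    push_cast at this; convert this using 2; ring
  have m4 : ‖((1 + I) / 2 : ℂ)‖ ≤ 3 / 4 := by
    have := norm_le_of_sq (1/2) (1/2) (3 / 4) (by norm_num) (by norm_num)
    push_cast at this; convert this using 2; ring
  have n1 := smul_E_bound hS ((-1 + I) / 2) (3 / 4) m1 (x - Real.pi / 4)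
  have n2 := smul_E_bound hS ((-3 - I) / 2) (8 / 5) m2 (x - a14)
  have n3 := smul_E_bound hS ((3 - I) / 2) (8 / 5) m3 (x - (2 * Real.pi - a14))
  have n4 := smul_E_bound hS ((1 + I) / 2) (3 / 4) m4 (x - 7 * Real.pi / 4)
  have n5 := tnn_norm2 ht x
  have l1 := real_unit hS _ _ (st (x - Real.pi / 4)) m1 p2 q2
  have l2 := real_unit hS _ _ (st (x - a14)) m2 p3 q3
  have l3 := real_unit hS _ _ (st (x - (2 * Real.pi - a14))) m3 p6 q6
  have l4 := real_unit hS _ _ (st (x - 7 * Real.pi / 4)) m4 p7 q7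
  have key : curveK E t d x - ((st (x - Real.pi / 4) : ℂ) * ((-1 + I) / 2) +
      (st (x - a14) : ℂ) * ((-3 - I) / 2) + (st (x - (2 * Real.pi - a14)) : ℂ) * ((3 - I) / 2) +
      (st (x - 7 * Real.pi / 4) : ℂ) * ((1 + I) / 2)) =
      ((1 - d : ℝ) : ℂ) * (((-1 + I) / 2) * (E (x - Real.pi / 4) - (st (x - Real.pi / 4) : ℂ)) +
      ((-3 - I) / 2) * (E (x - a14) - (st (x - a14) : ℂ)) +
      ((3 - I) / 2) * (E (x - (2 * Real.pi - a14)) - (st (x - (2 * Real.pi - a14)) : ℂ)) +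
      ((1 + I) / 2) * (E (x - 7 * Real.pi / 4) - (st (x - 7 * Real.pi / 4) : ℂ))) +
      (-(d : ℂ)) * (1 + ((st (x - Real.pi / 4) : ℂ) * ((-1 + I) / 2) +
      (st (x - a14) : ℂ) * ((-3 - I) / 2) + (st (x - (2 * Real.pi - a14)) : ℂ) * ((3 - I) / 2) +
      (st (x - 7 * Real.pi / 4) : ℂ) * ((1 + I) / 2))) + t * nn x := by
    unfold curveK VK
    push_cast
    ring
  rw [key]
  set T1 := ((-1 + I) / 2) * (E (x - Real.pi / 4) - (st (x - Real.pi / 4) : ℂ))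
  set T2 := ((-3 - I) / 2) * (E (x - a14) - (st (x - a14) : ℂ))
  set T3 := ((3 - I) / 2) * (E (x - (2 * Real.pi - a14)) - (st (x - (2 * Real.pi - a14)) : ℂ))
  set T4 := ((1 + I) / 2) * (E (x - 7 * Real.pi / 4) - (st (x - 7 * Real.pi / 4) : ℂ))
  set U1 := (st (x - Real.pi / 4) : ℂ) * ((-1 + I) / 2)
  set U2 := (st (x - a14) : ℂ) * ((-3 - I) / 2)
  set U3 := (st (x - (2 * Real.pi - a14)) : ℂ) * ((3 - I) / 2)
  set U4 := (st (x - 7 * Real.pi / 4) : ℂ) * ((1 + I) / 2)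
  have b1 : ‖T1 + T2 + T3 + T4‖ ≤ 12 * w := (norm_add₄_le).trans (by linarith)
  have b2 : ‖((1 - d : ℝ) : ℂ) * (T1 + T2 + T3 + T4)‖ ≤ 12 * w :=
    real_unit hS _ _ _ b1 (by linarith) (by linarith)
  have b3 : ‖1 + (U1 + U2 + U3 + U4)‖ ≤ 6 := by
    have g1 := norm_add_le (1 : ℂ) (U1 + U2 + U3 + U4)
    have g2 := norm_add₄_le (a := U1) (b := U2) (c := U3) (d := U4)
    rw [norm_one] at g1
    linarith
  have b4 : ‖(-(d : ℂ)) * (1 + (U1 + U2 + U3 + U4))‖ ≤ 6 * d := by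
    rw [norm_mul, norm_neg, Complex.norm_real, Real.norm_of_nonneg hd0.le]
    nlinarith
  refine (norm_add₃_le).trans ?_
  rw [n5]
  linarith

omit hS in
/-- ten ordered clamps -/
theorem ten_clamp (s0 s1 s2 s3 s4 s5 s6 s7 s8 s9 : ℝ)
    (p : (0 ≤ s0 ∧ s0 ≤ 1) ∧ (0 ≤ s1 ∧ s1 ≤ 1) ∧ (0 ≤ s2 ∧ s2 ≤ 1) ∧ (0 ≤ s3 ∧ s3 ≤ 1) ∧
      (0 ≤ s4 ∧ s4 ≤ 1) ∧ (0 ≤ s5 ∧ s5 ≤ 1) ∧ (0 ≤ s6 ∧ s6 ≤ 1) ∧ (0 ≤ s7 ∧ s7 ≤ 1) ∧
      (0 ≤ s8 ∧ s8 ≤ 1) ∧ (0 ≤ s9 ∧ s9 ≤ 1))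
    (c : (s1 = 0 ∨ s0 = 1) ∧ (s2 = 0 ∨ s1 = 1) ∧ (s3 = 0 ∨ s2 = 1) ∧ (s4 = 0 ∨ s3 = 1) ∧
      (s5 = 0 ∨ s4 = 1) ∧ (s6 = 0 ∨ s5 = 1) ∧ (s7 = 0 ∨ s6 = 1) ∧ (s8 = 0 ∨ s7 = 1) ∧
      (s9 = 0 ∨ s8 = 1)) :
    ∃ θ ∈ Icc (0 : ℝ) 10, cl θ = s0 ∧ cl (θ - 1) = s1 ∧ cl (θ - 2) = s2 ∧ cl (θ - 3) = s3 ∧
      cl (θ - 4) = s4 ∧ cl (θ - 5) = s5 ∧ cl (θ - 6) = s6 ∧ cl (θ - 7) = s7 ∧
      cl (θ - 8) = s8 ∧ cl (θ - 9) = s9 := by
  obtain ⟨p0, p1, p2, p3, p4, p5, p6, p7, p8, p9⟩ := p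
  obtain ⟨c0, c1, c2, c3, c4, c5, c6, c7, c8⟩ := c
  let s : ℕ → ℝ := fun i => match i with
    | 0 => s0 | 1 => s1 | 2 => s2 | 3 => s3 | 4 => s4 | 5 => s5 | 6 => s6 | 7 => s7 | 8 => s8
    | _ => s9
  have h01 : ∀ i, i < 10 → 0 ≤ s i ∧ s i ≤ 1 := by
    intro i hi
    interval_cases i
    exacts [p0, p1, p2, p3, p4, p5, p6, p7, p8, p9]
  have hch : ∀ i, i + 1 < 10 → s (i + 1) = 0 ∨ s i = 1 := by
    intro i hi
    have hi' : i < 9 := by omega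
    interval_cases i
    exacts [c0, c1, c2, c3, c4, c5, c6, c7, c8]
  have hcl := cl_sum s 10 h01 hch
  have hnn : 0 ≤ ∑ i ∈ Finset.range 10, s i :=
    Finset.sum_nonneg fun i hi => (h01 i (Finset.mem_range.mp hi)).1
  have hle : ∑ i ∈ Finset.range 10, s i ≤ 10 := by
    calc ∑ i ∈ Finset.range 10, s i ≤ ∑ i ∈ Finset.range 10, (1 : ℝ) :=
          Finset.sum_le_sum fun i hi => (h01 i (Finset.mem_range.mp hi)).2
      _ = 10 := by simp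
  refine ⟨∑ i ∈ Finset.range 10, s i, ⟨hnn, hle⟩, ?_, ?_, ?_, ?_, ?_, ?_, ?_, ?_, ?_, ?_⟩
  · have := hcl 0 (by norm_num); rwa [Nat.cast_zero, sub_zero] at this
  · have := hcl 1 (by norm_num); rwa [Nat.cast_one] at this
  · exact_mod_cast hcl 2 (by norm_num)
  · exact_mod_cast hcl 3 (by norm_num)
  · exact_mod_cast hcl 4 (by norm_num)
  · exact_mod_cast hcl 5 (by norm_num)
  · exact_mod_cast hcl 6 (by norm_num)
  · exact_mod_cast hcl 7 (by norm_num)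
  · exact_mod_cast hcl 8 (by norm_num)
  · exact_mod_cast hcl 9 (by norm_num)

omit hS in
theorem lift_bound {ι y S : ℝ} (hι0 : 0 < ι) (hy0 : 0 ≤ y) (hy1 : y ≤ 2 * Real.pi)
    (hS0 : 0 ≤ S) (hS1 : S ≤ 1) : |ι * y / (2 * Real.pi) + (1 - ι) * S - S| ≤ 2 * ι := by
  have hp := Real.pi_pos
  have e : ι * y / (2 * Real.pi) + (1 - ι) * S - S = ι * (y / (2 * Real.pi) - S) := by ring
  have h1 : 0 ≤ y / (2 * Real.pi) := by positivity
  have h2 : y / (2 * Real.pi) ≤ 1 := by rw [div_le_one (by positivity)]; exact hy1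
  rw [e, abs_mul, abs_of_pos hι0]
  have : |y / (2 * Real.pi) - S| ≤ 2 := by rw [abs_le]; constructor <;> linarith
  nlinarith

theorem close_inner0 (t d ι i2 ξ : ℝ) (ht : 0 < t) (hd0 : 0 < d) (hd1 : d < 1) (hι0 : 0 < ι)
    (_hι1 : ι < 1) (h0 : 0 < i2) (h1 : i2 ≤ 1 / 1000) (hξ : 4 * w ≤ ξ) (hξ1 : ξ ≤ 1 / 100)
    (x : ℝ) (hx0 : 0 ≤ x) (hx1 : x ≤ 2 * Real.pi) :
    ∃ θ ∈ Icc (0 : ℝ) 10,
    ‖curveA E t (sched st i2 ξ x) - VA0 θ‖ ≤ t + 60 * w + 6 * d ∧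
    ‖curveK E t d x - VK0 θ‖ ≤ t + 60 * w + 6 * d ∧
    ‖curveB E t (sched' st i2 ξ x) - VB0 θ‖ ≤ t + 60 * w + 6 * d ∧
    |liftA st ι (sched st i2 ξ x) - TA0 θ| ≤ 2 * ι ∧ |liftK st ι x - TK0 θ| ≤ 2 * ι ∧
    |liftB st ι (sched' st i2 ξ x) - TB0 θ| ≤ 2 * ι := by
  obtain ⟨k1, k2, k3, k4, k5, k6⟩ := angles
  have k7 := a9_gt
  have k8 := a45_gt
  have hp := Real.pi_gt_three
  have hp4 := Real.pi_lt_four
  have hw := hS.wpos
  have hw1 := hS.wlt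
  obtain ⟨⟨α0, α1⟩, v4, v8, v9⟩ := sched_events hS i2 ξ h0 h1 hξ hξ1 x hx0 hx1
  obtain ⟨⟨β0, β1⟩, v0, v1, v5⟩ := sched'_events hS i2 ξ h0 h1 hξ hξ1 x hx0 hx1
  have v2 := ev_plain hS (Real.pi / 4) x (by linarith) (by linarith) hx0 hx1
  have v3 := ev_plain hS a14 x (by linarith) (by linarith) hx0 hx1
  have v6 := ev_plain hS (2 * Real.pi - a14) x (by linarith) (by linarith) hx0 hx1
  have v7 := ev_plain hS (7 * Real.pi / 4) x (by linarith) (by linarith) hx0 hx1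
  have c01 := v0.chain v1 (by linarith)
  have c12 := v1.chain v2 (by linarith)
  have c23 := v2.chain v3 (by linarith)
  have c34 := v3.chain v4 (by linarith)
  have c45 := v4.chain v5 (by linarith)
  have c56 := v5.chain v6 (by linarith)
  have c67 := v6.chain v7 (by linarith)
  have c78 := v7.chain v8 (by linarith)
  have c89 := v8.chain v9 (by linarith)
  have b0 := And.intro v0.1 v0.2.1
  have b1 := And.intro v1.1 v1.2.1
  have b2 := And.intro v2.1 v2.2.1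
  have b3 := And.intro v3.1 v3.2.1
  have b4 := And.intro v4.1 v4.2.1
  have b5 := And.intro v5.1 v5.2.1
  have b6 := And.intro v6.1 v6.2.1
  have b7 := And.intro v7.1 v7.2.1
  have b8 := And.intro v8.1 v8.2.1
  have b9 := And.intro v9.1 v9.2.1
  clear v0 v1 v2 v3 v4 v5 v6 v7 v8 v9
  obtain ⟨θ, hθ, g0, g1, g2, g3, g4, g5, g6, g7, g8, g9⟩ := ten_clamp _ _ _ _ _ _ _ _ _ _
    ⟨b0, b1, b2, b3, b4, b5, b6, b7, b8, b9⟩ ⟨c01, c12, c23, c34, c45, c56, c67, c78, c89⟩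
  refine ⟨θ, hθ, ?_, ?_, ?_, ?_, ?_, ?_⟩
  · have h := three_sum hS ht (sched st i2 ξ x - a14) (sched st i2 ξ x - a45)
      (sched st i2 ξ x - (2 * Real.pi - a9)) (sched st i2 ξ x) ne14 ne45 ne51 (by norm_num)
    unfold curveA VA VA0
    rw [g4, g8, g9]
    linarith
  · have h := curveK_bound hS ht hd0 hd1 x b2.1 b2.2 b3.1 b3.2 b6.1 b6.2 b7.1 b7.2
    unfold VK0
    rw [g2, g3, g6, g7]
    exact h
  · have h := three_sum hS ht (sched' st i2 ξ x - a9) (sched' st i2 ξ x - (2 * Real.pi - a45))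
      (sched' st i2 ξ x - (2 * Real.pi - a14)) (sched' st i2 ξ x) ne62 ne23 ne36 (by norm_num)
    unfold curveB VB VB0
    rw [g0, g1, g5]
    linarith
  · unfold liftA TA0
    rw [g4, g8, g9]
    exact lift_bound hι0 α0 α1 (by linarith [b4.1, b8.1, b9.1]) (by linarith [b4.2, b8.2, b9.2])
  · unfold liftK TK0
    rw [g2, g3, g6, g7]
    exact lift_bound hι0 hx0 hx1 (by linarith [b2.1, b3.1, b6.1, b7.1])
      (by linarith [b2.2, b3.2, b6.2, b7.2])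
  · unfold liftB TB0
    rw [g0, g1, g5]
    exact lift_bound hι0 β0 β1 (by linarith [b0.1, b1.1, b5.1]) (by linarith [b0.2, b1.2, b5.2])

end

end Pool.Agent.Csz
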