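import Mathlib
import Pool.Agent.Csz.Dat
import Pool.Agent.Csz.Steps
import Pool.Agent.Csz.Sched
import Pool.Agent.Csz.CloseIn
import Pool.Agent.Csz.Angles
import Pool.Agent.Csz.Bounds
set_option autoImplicit false
open Complex Set

namespace Pool.Agent.Csz.CO

section
variable {w r : ℝ} {φ st : ℝ → ℝ} {E : ℝ → ℂ} (hS : Step w r φ st E)
include hS

theorem VA_int_per (k : ℤ) (x : ℝ) : VA E (x + k * (2 * Real.pi)) = VA E x :=
  Function.Periodic.int_mul (f := VA E) (Bd.VA_per hS) k x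
theorem VB_int_per (k : ℤ) (x : ℝ) : VB E (x + k * (2 * Real.pi)) = VB E x :=
  Function.Periodic.int_mul (f := VB E) (Bd.VB_per hS) k x

theorem st_int_per (k : ℤ) (x : ℝ) : st (x + k * (2 * Real.pi)) = st x + k := by
  have h : Function.Periodic (fun x => st x - x / (2 * Real.pi)) (2 * Real.pi) := by
    intro x
    simp only
    rw [hS.stper]
    have := Real.pi_pos
    field_simp
    ring
  have h2 : st (x + k * (2 * Real.pi)) - (x + k * (2 * Real.pi)) / (2 * Real.pi) =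
      st x - x / (2 * Real.pi) := h.int_mul k x
  have := Real.pi_pos
  have e : (x + k * (2 * Real.pi)) / (2 * Real.pi) = x / (2 * Real.pi) + k := by
    field_simp
  rw [e] at h2
  linarith

theorem liftA_int_per (ι : ℝ) (k : ℤ) (x : ℝ) :
    liftA st ι (x + k * (2 * Real.pi)) = liftA st ι x + k := by
  unfold liftA
  have e : ∀ a : ℝ, st (x + k * (2 * Real.pi) - a) = st (x - a) + k := by
    intro a
    have : x + k * (2 * Real.pi) - a = (x - a) + k * (2 * Real.pi) := by ring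
    rw [this, st_int_per hS]
  rw [e, e, e]
  have := Real.pi_pos
  field_simp
  ring
theorem liftB_int_per (ι : ℝ) (k : ℤ) (x : ℝ) :
    liftB st ι (x + k * (2 * Real.pi)) = liftB st ι x + k := by
  unfold liftB
  have e : ∀ a : ℝ, st (x + k * (2 * Real.pi) - a) = st (x - a) + k := by
    intro a
    have : x + k * (2 * Real.pi) - a = (x - a) + k * (2 * Real.pi) := by ring
    rw [this, st_int_per hS]
  rw [e, e, e]
  have := Real.pi_pos
  field_simp
  ring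

theorem three_err {e1 e2 e3 : ℂ} {y1 y2 y3 t x : ℝ} (ht : 0 < t)
    (n1 : ‖e1‖ ≤ 10) (n2 : ‖e2‖ ≤ 10) (n3 : ‖e3‖ ≤ 10) :
    ‖(1 + e1 * E y1 + e2 * E y2 + e3 * E y3 + t * nn x) -
      (1 + (st y1 : ℂ) * e1 + (st y2 : ℂ) * e2 + (st y3 : ℂ) * e3)‖ ≤ t + 100 * w := by
  have hw0 := hS.wpos
  have f1 := Bd.term_err hS e1 y1
  have f2 := Bd.term_err hS e2 y2
  have f3 := Bd.term_err hS e3 y3
  have e : (1 + e1 * E y1 + e2 * E y2 + e3 * E y3 + t * nn x) -
      (1 + (st y1 : ℂ) * e1 + (st y2 : ℂ) * e2 + (st y3 : ℂ) * e3) =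
      (e1 * E y1 - e1 * (st y1 : ℂ)) + (e2 * E y2 - e2 * (st y2 : ℂ)) +
      (e3 * E y3 - e3 * (st y3 : ℂ)) + t * nn x := by ring
  rw [e]
  refine (norm_add₄_le).trans ?_
  rw [Bd.tnn_norm ht]
  have g1 : ‖e1‖ * (2 * w) ≤ 10 * (2 * w) := by gcongr
  have g2 : ‖e2‖ * (2 * w) ≤ 10 * (2 * w) := by gcongr
  have g3 : ‖e3‖ * (2 * w) ≤ 10 * (2 * w) := by gcongr
  linarith

/-- outer closeness -/
theorem close_outer (t ι : ℝ) (ht : 0 < t) (h0 : 0 < ι) (_h1 : ι < 1) (y : ℝ) :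
    ∃ θ ∈ Icc (0 : ℝ) 6, ∃ k : ℤ,
    ‖curveA E t y - VAo θ‖ ≤ t + 100 * w ∧ ‖curveB E t y - VBo θ‖ ≤ t + 100 * w ∧
    |liftA st ι y - TAo θ - k| ≤ 2 * ι ∧ |liftB st ι y - TBo θ - k| ≤ 2 * ι := by
  obtain ⟨g1, g2, g3, g4, g5, g6⟩ := Ang.gaps
  have hw := hS.wlt
  have hw0 := hS.wpos
  have hpi := Real.pi_gt_three
  -- reduce to [0, 2π)
  obtain ⟨k, y0, hy0, hyk⟩ : ∃ (k : ℤ) (y0 : ℝ), y0 ∈ Ico (0:ℝ) (2 * Real.pi) ∧
      y = y0 + k * (2 * Real.pi) := by
    refine ⟨⌊y / (2 * Real.pi)⌋, y - ⌊y / (2 * Real.pi)⌋ * (2 * Real.pi), ?_, by ring⟩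
    have h1 := Int.floor_le (y / (2 * Real.pi))
    have h2 := Int.lt_floor_add_one (y / (2 * Real.pi))
    rw [le_div_iff₀ (by positivity)] at h1
    rw [div_lt_iff₀ (by positivity)] at h2
    constructor <;> linarith
  -- events
  have ev : ∀ c : ℝ, w ≤ c → c ≤ 2 * Real.pi - w → Ev w (st (y0 - c)) y0 c :=
    fun c hc0 hc1 => ev_plain hS c y0 hc0 hc1 hy0.1 hy0.2.le
  have v0 := ev a9 (by linarith) (by linarith)
  have v1 := ev a14 (by linarith) (by linarith)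
  have v2 := ev a45 (by linarith) (by linarith)
  have v3 := ev (2 * Real.pi - a45) (by linarith) (by linarith)
  have v4 := ev (2 * Real.pi - a14) (by linarith) (by linarith)
  have v5 := ev (2 * Real.pi - a9) (by linarith) (by linarith)
  set s0 := st (y0 - a9) with hs0
  set s1 := st (y0 - a14) with hs1
  set s2 := st (y0 - a45) with hs2
  set s3 := st (y0 - (2 * Real.pi - a45)) with hs3
  set s4 := st (y0 - (2 * Real.pi - a14)) with hs4
  set s5 := st (y0 - (2 * Real.pi - a9)) with hs5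
  set s : ℕ → ℝ := fun i => if i = 0 then s0 else if i = 1 then s1 else if i = 2 then s2 else
    if i = 3 then s3 else if i = 4 then s4 else s5 with hs
  have h01 : ∀ i, i < 6 → 0 ≤ s i ∧ s i ≤ 1 := by
    intro i hi
    interval_cases i
    · exact ⟨v0.1, v0.2.1⟩
    · exact ⟨v1.1, v1.2.1⟩
    · exact ⟨v2.1, v2.2.1⟩
    · exact ⟨v3.1, v3.2.1⟩
    · exact ⟨v4.1, v4.2.1⟩
    · exact ⟨v5.1, v5.2.1⟩
  have hch : ∀ i, i + 1 < 6 → s (i + 1) = 0 ∨ s i = 1 := by
    intro i hi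
    have hi' : i < 5 := by omega
    interval_cases i
    · exact v0.chain v1 (by linarith)
    · exact v1.chain v2 (by linarith)
    · exact v2.chain v3 (by linarith)
    · exact v3.chain v4 (by linarith)
    · exact v4.chain v5 (by linarith)
  have hcl := fun j hj => cl_sum s 6 h01 hch j hj
  have hsum : ∑ i ∈ Finset.range 6, s i = s0 + s1 + s2 + s3 + s4 + s5 := by
    simp [Finset.sum_range_succ, hs]
  have c0 := hcl 0 (by norm_num)
  have c1 := hcl 1 (by norm_num)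
  have c2 := hcl 2 (by norm_num)
  have c3 := hcl 3 (by norm_num)
  have c4 := hcl 4 (by norm_num)
  have c5 := hcl 5 (by norm_num)
  set θ := ∑ i ∈ Finset.range 6, s i with hθ
  have d0 : cl θ = s0 := by simpa [hs] using c0
  have d1 : cl (θ - 1) = s1 := by simpa [hs] using c1
  have d2 : cl (θ - 2) = s2 := by simpa [hs] using c2
  have d3 : cl (θ - 3) = s3 := by simpa [hs] using c3
  have d4 : cl (θ - 4) = s4 := by simpa [hs] using c4
  have d5 : cl (θ - 5) = s5 := by simpa [hs] using c5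
  have hθI : θ ∈ Icc (0 : ℝ) 6 := by
    rw [hsum]
    constructor
    · linarith [v0.1, v1.1, v2.1, v3.1, v4.1, v5.1]
    · linarith [v0.2.1, v1.2.1, v2.2.1, v3.2.1, v4.2.1, v5.2.1]
  have n1 : ‖(-3 - I : ℂ)‖ ≤ 10 := Bd.norm_le_of_sq (by norm_num) (by simp; norm_num)
  have n2 : ‖(-1 - 8 * I : ℂ)‖ ≤ 10 := Bd.norm_le_of_sq (by norm_num) (by simp; norm_num)
  have n3 : ‖(4 + 9 * I : ℂ)‖ ≤ 10 := Bd.norm_le_of_sq (by norm_num) (by simp; norm_num)
  have n4 : ‖(-4 + 9 * I : ℂ)‖ ≤ 10 := Bd.norm_le_of_sq (by norm_num) (by simp; norm_num)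
  have n5 : ‖(1 - 8 * I : ℂ)‖ ≤ 10 := Bd.norm_le_of_sq (by norm_num) (by simp; norm_num)
  have n6 : ‖(3 - I : ℂ)‖ ≤ 10 := Bd.norm_le_of_sq (by norm_num) (by simp; norm_num)
  have hy1 : 0 ≤ y0 / (2 * Real.pi) := div_nonneg hy0.1 (by positivity)
  have hy2 : y0 / (2 * Real.pi) ≤ 1 := by
    rw [div_le_one (by positivity)]; exact hy0.2.le
  have hlift : ∀ S : ℝ, 0 ≤ S → S ≤ 1 →
      |ι * y0 / (2 * Real.pi) + (1 - ι) * S + k - S - k| ≤ 2 * ι := by
    intro S hS0 hS1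
    have e : ι * y0 / (2 * Real.pi) + (1 - ι) * S + k - S - k =
        ι * (y0 / (2 * Real.pi) - S) := by ring
    rw [e, abs_mul, abs_of_pos h0]
    have : |y0 / (2 * Real.pi) - S| ≤ 2 := by
      rw [abs_le]; constructor <;> linarith
    nlinarith
  refine ⟨θ, hθI, k, ?_, ?_, ?_, ?_⟩
  · unfold curveA VAo
    rw [hyk, VA_int_per hS, d1, d2, d5]
    exact three_err hS ht n1 n2 n3
  · unfold curveB VBo
    rw [hyk, VB_int_per hS, d0, d3, d4]
    exact three_err hS ht n4 n5 n6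
  · unfold TAo
    rw [hyk, liftA_int_per hS, d1, d2, d5]
    exact hlift ((s1 + s2 + s5) / 3) (by linarith [v1.1, v2.1, v5.1])
      (by linarith [v1.2.1, v2.2.1, v5.2.1])
  · unfold TBo
    rw [hyk, liftB_int_per hS, d0, d3, d4]
    exact hlift ((s0 + s3 + s4) / 3) (by linarith [v0.1, v3.1, v4.1])
      (by linarith [v0.2.1, v3.2.1, v4.2.1])

end

end Pool.Agent.Csz.CO
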