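import Mathlib
import Pool.Agent.Csz.Dat
import Pool.Agent.Csz.Sched
import Pool.Agent.Csz.Angles

set_option autoImplicit false

open Complex Set

namespace Pool.Agent.Csz.CondK
open Pool.Agent.Csz

theorem nn_re (x : ℝ) : (nn x).re = Real.cos x := by
  unfold nn; rw [Complex.exp_re]; simp
theorem nn_im (x : ℝ) : (nn x).im = Real.sin x := by
  unfold nn; rw [Complex.exp_im]; simp
theorem nn_norm (x : ℝ) : ‖nn x‖ = 1 := by
  unfold nn; exact Complex.norm_exp_ofReal_mul_I x
theorem nn_per (x : ℝ) : nn (x + 2 * Real.pi) = nn x := by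
  apply Complex.ext
  · rw [nn_re, nn_re, Real.cos_add_two_pi]
  · rw [nn_im, nn_im, Real.sin_add_two_pi]

theorem dot_eq (m w : ℂ) : dot m w = m.re * w.re + m.im * w.im := by
  simp [dot]
theorem dot_conj (m w : ℂ) : dot ((starRingEnd ℂ) m) ((starRingEnd ℂ) w) = dot m w := by
  simp [dot_eq]
theorem dot_add (m w v : ℂ) : dot m (w + v) = dot m w + dot m v := by
  simp only [dot_eq, Complex.add_re, Complex.add_im]; ring
theorem dot_sub (m w v : ℂ) : dot m (w - v) = dot m w - dot m v := by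
  simp only [dot_eq, Complex.sub_re, Complex.sub_im]; ring
theorem abs_dot_le (m w : ℂ) : |dot m w| ≤ ‖m‖ * ‖w‖ := by
  unfold dot
  calc |((starRingEnd ℂ) m * w).re| ≤ ‖(starRingEnd ℂ) m * w‖ := Complex.abs_re_le_norm _
    _ = ‖m‖ * ‖w‖ := by rw [norm_mul, Complex.norm_conj]
theorem dot_nn (x : ℝ) (w : ℂ) : dot (nn x) w = Real.cos x * w.re + Real.sin x * w.im := by
  rw [dot_eq, nn_re, nn_im]

theorem nrm (c : ℂ) (K : ℝ) (hK : 0 ≤ K) (h : c.re ^ 2 + c.im ^ 2 ≤ K ^ 2) : ‖c‖ ≤ K := by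
  rw [← Real.sqrt_sq hK, Complex.norm_def, Complex.normSq_apply]
  apply Real.sqrt_le_sqrt
  nlinarith

/-! angles -/
theorem cos_a14 : Real.cos a14 = -1 / √10 := by
  unfold a14
  rw [Complex.cos_arg (by intro h; have := congrArg Complex.re h; norm_num at this)]
  have : ‖(-1 + 3 * I : ℂ)‖ = √10 := by
    rw [Complex.norm_def, Complex.normSq_apply]; norm_num
  rw [this]; simp
theorem sin_a14 : Real.sin a14 = 3 / √10 := by
  unfold a14
  rw [Complex.sin_arg]
  have : ‖(-1 + 3 * I : ℂ)‖ = √10 := by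
    rw [Complex.norm_def, Complex.normSq_apply]; norm_num
  rw [this]; simp
theorem cos_a45 : Real.cos a45 = -8 / √65 := by
  unfold a45
  rw [Complex.cos_arg (by intro h; have := congrArg Complex.re h; norm_num at this)]
  have : ‖(-8 + I : ℂ)‖ = √65 := by
    rw [Complex.norm_def, Complex.normSq_apply]; norm_num
  rw [this]; simp
theorem sin_a45 : Real.sin a45 = 1 / √65 := by
  unfold a45
  rw [Complex.sin_arg]
  have : ‖(-8 + I : ℂ)‖ = √65 := by
    rw [Complex.norm_def, Complex.normSq_apply]; norm_num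
  rw [this]; simp
theorem sin_a9 : Real.sin a9 = 4 / √97 := by
  unfold a9
  rw [Complex.sin_arg]
  have : ‖(9 + 4 * I : ℂ)‖ = √97 := by
    rw [Complex.norm_def, Complex.normSq_apply]; norm_num
  rw [this]; simp

theorem a9_ge : 2 / 5 < a9 := by
  have h1 := sin_a9
  have h2 : Real.sin a9 ≤ a9 := Real.sin_le Ang.angles.1.le
  have h3 : (2 : ℝ) / 5 < 4 / √97 := by
    rw [lt_div_iff₀ (by positivity)]
    have : √97 < 10 := by rw [Real.sqrt_lt' (by norm_num)]; norm_num
    linarith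
  linarith

theorem a45_ge : 3 * Real.pi / 4 + 3 / 5 < a45 := by
  have hang := Ang.angles
  have h1 : Real.sin (a45 - 3 * Real.pi / 4) = 7 * √2 / (2 * √65) := by
    rw [Real.sin_sub, cos_a45, sin_a45]
    have e1 : Real.cos (3 * Real.pi / 4) = -(√2 / 2) := by
      rw [show 3 * Real.pi / 4 = Real.pi - Real.pi / 4 by ring, Real.cos_pi_sub, Real.cos_pi_div_four]
    have e2 : Real.sin (3 * Real.pi / 4) = √2 / 2 := by
      rw [show 3 * Real.pi / 4 = Real.pi - Real.pi / 4 by ring, Real.sin_pi_sub, Real.sin_pi_div_four]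
    rw [e1, e2]
    field_simp
    ring
  have h2 : Real.sin (a45 - 3 * Real.pi / 4) ≤ a45 - 3 * Real.pi / 4 :=
    Real.sin_le (by linarith [hang.2.2.2.2.1])
  have h3 : (3 : ℝ) / 5 < 7 * √2 / (2 * √65) := by
    rw [lt_div_iff₀ (by positivity)]
    have h4 : √65 < 8.07 := by rw [Real.sqrt_lt' (by norm_num)]; norm_num
    have h5 : 1.414 < √2 := by rw [Real.lt_sqrt (by norm_num)]; norm_num
    linarith
  linarith

theorem a14_le : a14 < 3 * Real.pi / 4 - 2 / 5 := by
  have hang := Ang.angles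
  have h1 : Real.sin (3 * Real.pi / 4 - a14) = √2 / √10 := by
    rw [Real.sin_sub, cos_a14, sin_a14]
    have e1 : Real.cos (3 * Real.pi / 4) = -(√2 / 2) := by
      rw [show 3 * Real.pi / 4 = Real.pi - Real.pi / 4 by ring, Real.cos_pi_sub, Real.cos_pi_div_four]
    have e2 : Real.sin (3 * Real.pi / 4) = √2 / 2 := by
      rw [show 3 * Real.pi / 4 = Real.pi - Real.pi / 4 by ring, Real.sin_pi_sub, Real.sin_pi_div_four]
    rw [e1, e2]
    field_simp
    ring
  have h2 : Real.sin (3 * Real.pi / 4 - a14) ≤ 3 * Real.pi / 4 - a14 :=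
    Real.sin_le (by linarith [hang.2.2.2.1])
  have h3 : (2 : ℝ) / 5 < √2 / √10 := by
    rw [lt_div_iff₀ (by positivity)]
    have h4 : √10 < 3.17 := by rw [Real.sqrt_lt' (by norm_num)]; norm_num
    have h5 : 1.414 < √2 := by rw [Real.lt_sqrt (by norm_num)]; norm_num
    linarith
  linarith

theorem sqrt10 : 3.16 < √10 ∧ √10 < 3.17 := by
  constructor
  · rw [Real.lt_sqrt (by norm_num)]; norm_num
  · rw [Real.sqrt_lt' (by norm_num)]; norm_num

/-- cos and sin in terms of x - a14 -/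
theorem cs14 (x : ℝ) : Real.cos x = (-Real.cos (x - a14) - 3 * Real.sin (x - a14)) / √10 ∧
    Real.sin x = (3 * Real.cos (x - a14) - Real.sin (x - a14)) / √10 := by
  have h1 : x = (x - a14) + a14 := by ring
  constructor
  · conv_lhs => rw [h1]
    rw [Real.cos_add, cos_a14, sin_a14]; ring
  · conv_lhs => rw [h1]
    rw [Real.sin_add, cos_a14, sin_a14]; ring

theorem one_sub_cos_le (z : ℝ) (h1 : -(Real.pi / 2) ≤ z) (h2 : z ≤ Real.pi / 2) :
    1 - |Real.sin z| ≤ Real.cos z := by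
  have hc : 0 ≤ Real.cos z := Real.cos_nonneg_of_mem_Icc ⟨h1, h2⟩
  have hc1 := Real.cos_le_one z
  have hs := Real.sin_sq_add_cos_sq z
  have hs1 := Real.abs_sin_le_one z
  have hs2 : |Real.sin z| ^ 2 = Real.sin z ^ 2 := sq_abs _
  have hs3 := abs_nonneg (Real.sin z)
  nlinarith

theorem prod_lower (s v c : ℝ) (h0 : 0 ≤ s) (h1 : s ≤ 1) (hc : 0 ≤ c) (hv : -c ≤ v) : -c ≤ s * v := by
  nlinarith

theorem prod_upper (s v c : ℝ) (h0 : 0 ≤ s) (h1 : s ≤ 1) (hc : 0 ≤ c) (hv : v ≤ c) : v * s ≤ c := by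
  nlinarith

/-! symmetry -/
section
variable {w r : ℝ} {φ st : ℝ → ℝ} {E : ℝ → ℂ} (hS : Step w r φ st E)
include hS

theorem E_neg_sub (x a : ℝ) : E (-x - a) = -(starRingEnd ℂ) (E (x - (2 * Real.pi - a))) := by
  have h1 := E_neg hS (x + a)
  have h2 := hS.Eper (x - (2 * Real.pi - a))
  rw [show x - (2 * Real.pi - a) + 2 * Real.pi = x + a by ring] at h2
  rw [show -x - a = -(x + a) by ring, h1, h2, map_add, map_one]
  ring

theorem VA_neg (x : ℝ) : VA E (-x) = (starRingEnd ℂ) (VB E x) := by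
  unfold VA VB
  rw [E_neg_sub hS x a14, E_neg_sub hS x a45, E_neg_sub hS x (2 * Real.pi - a9)]
  rw [show 2 * Real.pi - (2 * Real.pi - a9) = a9 by ring]
  simp only [map_add, map_mul, map_one, map_neg, map_sub, Complex.conj_I, map_ofNat]
  ring

theorem VB_neg (x : ℝ) : VB E (-x) = (starRingEnd ℂ) (VA E x) := by
  have := VA_neg hS (-x)
  rw [neg_neg] at this
  rw [this, Complex.conj_conj]

theorem VK_neg (x : ℝ) : VK E (-x) = (starRingEnd ℂ) (VK E x) := by
  unfold VK
  rw [E_neg_sub hS x (Real.pi / 4), E_neg_sub hS x a14, E_neg_sub hS x (2 * Real.pi - a14),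
    E_neg_sub hS x (7 * Real.pi / 4)]
  rw [show 2 * Real.pi - (2 * Real.pi - a14) = a14 by ring,
    show 2 * Real.pi - Real.pi / 4 = 7 * Real.pi / 4 by ring,
    show 2 * Real.pi - 7 * Real.pi / 4 = Real.pi / 4 by ring]
  simp only [map_add, map_mul, map_one, map_neg, map_sub, Complex.conj_I, map_ofNat, map_div₀]
  ring

theorem curveA_neg (t x : ℝ) : curveA E t (-x) = (starRingEnd ℂ) (curveB E t x) := by
  unfold curveA curveB
  rw [VA_neg hS, nn_neg, map_add, map_mul, Complex.conj_ofReal]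

theorem curveB_neg (t x : ℝ) : curveB E t (-x) = (starRingEnd ℂ) (curveA E t x) := by
  unfold curveA curveB
  rw [VB_neg hS, nn_neg, map_add, map_mul, Complex.conj_ofReal]

theorem curveK_neg (t d x : ℝ) : curveK E t d (-x) = (starRingEnd ℂ) (curveK E t d x) := by
  unfold curveK
  rw [VK_neg hS, nn_neg]
  simp only [map_add, map_mul, map_sub, map_one, Complex.conj_ofReal]

theorem VA_per (x : ℝ) : VA E (x + 2 * Real.pi) = VA E x := by
  unfold VA
  have h : ∀ a : ℝ, E (x + 2 * Real.pi - a) = E (x - a) + 1 := by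
    intro a
    rw [← hS.Eper]; congr 1; ring
  rw [h, h, h]; ring

theorem VB_per (x : ℝ) : VB E (x + 2 * Real.pi) = VB E x := by
  unfold VB
  have h : ∀ a : ℝ, E (x + 2 * Real.pi - a) = E (x - a) + 1 := by
    intro a
    rw [← hS.Eper]; congr 1; ring
  rw [h, h, h]; ring

theorem VK_per (x : ℝ) : VK E (x + 2 * Real.pi) = VK E x := by
  unfold VK
  have h : ∀ a : ℝ, E (x + 2 * Real.pi - a) = E (x - a) + 1 := by
    intro a
    rw [← hS.Eper]; congr 1; ring
  rw [h, h, h, h]; ring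

theorem sched_per (i2 ξ x : ℝ) : sched st i2 ξ (x + 2 * Real.pi) = sched st i2 ξ x + 2 * Real.pi := by
  unfold sched
  have h : ∀ a : ℝ, st (x + 2 * Real.pi - a) = st (x - a) + 1 := by
    intro a
    rw [← hS.stper]; congr 1; ring
  rw [h, h, h]; ring

theorem sched'_per (i2 ξ x : ℝ) : sched' st i2 ξ (x + 2 * Real.pi) = sched' st i2 ξ x + 2 * Real.pi := by
  unfold sched'
  have := sched_per hS i2 ξ (-(x + 2 * Real.pi))
  rw [show -(x + 2 * Real.pi) + 2 * Real.pi = -x by ring] at this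
  rw [this]; ring

/-- the quantity to be bounded -/
noncomputable def W (E : ℝ → ℂ) (st : ℝ → ℝ) (t d i2 ξ x : ℝ) : ℝ :=
  dot (nn x) (curveA E t (sched st i2 ξ x) + curveB E t (sched' st i2 ξ x) - 2 * curveK E t d x)

theorem W_per (t d i2 ξ x : ℝ) : W E st t d i2 ξ (x + 2 * Real.pi) = W E st t d i2 ξ x := by
  unfold W
  rw [nn_per, sched_per hS, sched'_per hS]
  unfold curveA curveB curveK
  rw [VA_per hS, VB_per hS, VK_per hS, nn_per, nn_per, nn_per]

theorem W_even (t d i2 ξ x : ℝ) : W E st t d i2 ξ (-x) = W E st t d i2 ξ x := by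
  unfold W
  have h1 : sched st i2 ξ (-x) = -(sched' st i2 ξ x) := by unfold sched'; ring
  have h2 : sched' st i2 ξ (-x) = -(sched st i2 ξ x) := by unfold sched'; rw [neg_neg]
  rw [h1, h2, curveA_neg hS, curveB_neg hS, curveK_neg hS, nn_neg, ← dot_conj (nn x)]
  congr 1
  simp only [map_add, map_sub, map_mul, map_ofNat]
  ring

end

theorem reduce (f : ℝ → ℝ) (c : ℝ) (hp : ∀ x, f (x + 2 * Real.pi) = f x) (he : ∀ x, f (-x) = f x)
    (h : ∀ x, 0 ≤ x → x ≤ Real.pi → c ≤ f x) (x : ℝ) : c ≤ f x := by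
  have hper : Function.Periodic f (2 * Real.pi) := hp
  obtain ⟨y, hy, hfy⟩ := hper.exists_mem_Ico₀ (by positivity) x
  rw [hfy]
  rcases le_or_gt y Real.pi with h1 | h1
  · exact h y hy.1 h1
  · have h2 := hp (-y)
    rw [he] at h2
    rw [← h2, ]
    exact h _ (by linarith [hy.2]) (by linarith)


section
variable {w r : ℝ} {φ st : ℝ → ℝ} {E : ℝ → ℂ} (hS : Step w r φ st E)
include hS

theorem alpha_eq (ξ i2 x : ℝ) (hwξ : 4 * w ≤ ξ) (hξ : ξ ≤ 1 / 100) (hx0 : 0 ≤ x) (hxp : x ≤ Real.pi) :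
    sched st i2 ξ x = i2 * x + (3 * Real.pi / 4 + a45) / 2 * st (x - (a14 + ξ)) := by
  have hw := hS.wpos
  have hp := Real.pi_gt_three
  unfold sched
  rw [hS.stzero (x - (7 * Real.pi / 4 + ξ)) (by linarith) (by linarith),
    hS.stzero (x - (2 * Real.pi - Real.pi / 8)) (by linarith) (by linarith)]
  ring

theorem beta_eq (ξ i2 x : ℝ) (hwξ : 4 * w ≤ ξ) (hξ : ξ ≤ 1 / 100) (hx0 : 0 ≤ x) (hxp : x ≤ Real.pi) :
    sched' st i2 ξ x = i2 * x + (3 * Real.pi / 2 - (3 * Real.pi / 4 + a45) / 2) *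
      st (x - (Real.pi / 4 - ξ)) + (Real.pi / 2 - 2 * Real.pi * i2) * st (x - Real.pi / 8) := by
  have hw := hS.wpos
  have hp := Real.pi_gt_three
  have hang := Ang.angles
  unfold sched' sched
  rw [hS.stzero (-x - (a14 + ξ)) (by linarith [hang.2.2.2.1]) (by linarith [hang.2.2.1])]
  have h1 : st (-x - (7 * Real.pi / 4 + ξ)) = - st (x - (Real.pi / 4 - ξ)) := by
    have e1 := hS.stper (-x - (7 * Real.pi / 4 + ξ))
    have e2 := st_neg hS (x - (Real.pi / 4 - ξ))
    rw [show -x - (7 * Real.pi / 4 + ξ) + 2 * Real.pi = -(x - (Real.pi / 4 - ξ)) by ring, e2] at e1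
    linarith
  have h2 : st (-x - (2 * Real.pi - Real.pi / 8)) = - st (x - Real.pi / 8) := by
    have e1 := hS.stper (-x - (2 * Real.pi - Real.pi / 8))
    have e2 := st_neg hS (x - Real.pi / 8)
    rw [show -x - (2 * Real.pi - Real.pi / 8) + 2 * Real.pi = -(x - Real.pi / 8) by ring, e2] at e1
    linarith
  rw [h1, h2]
  ring

/-- range of alpha on [0,π] -/
theorem alpha_range (ξ i2 x : ℝ) (hwξ : 4 * w ≤ ξ) (hξ : ξ ≤ 1 / 100) (h0 : 0 < i2)
    (h1 : i2 ≤ 1 / 1000) (hx0 : 0 ≤ x) (hxp : x ≤ Real.pi) :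
    0 ≤ sched st i2 ξ x ∧ sched st i2 ξ x ≤ 1 / 100 + (3 * Real.pi / 4 + a45) / 2 := by
  have hw := hS.wpos
  have hp := Real.pi_gt_three
  have hp2 := Real.pi_lt_d2
  have hang := Ang.angles
  rw [alpha_eq hS ξ i2 x hwξ hξ hx0 hxp]
  have s1 := st_nonneg hS (x := x - (a14 + ξ)) (by linarith [hang.2.2.2.1])
  have s2 := st_le_one hS (x := x - (a14 + ξ)) (by linarith [hang.2.2.1])
  have hc : 0 < (3 * Real.pi / 4 + a45) / 2 := by linarith [hang.2.2.2.2.1]
  constructor
  · positivity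
  · have e1 : i2 * x ≤ 1 / 1000 * 4 := by
      apply mul_le_mul h1 (by linarith) hx0 (by norm_num)
    nlinarith

theorem beta_range (ξ i2 x : ℝ) (hwξ : 4 * w ≤ ξ) (hξ : ξ ≤ 1 / 100) (h0 : 0 < i2)
    (h1 : i2 ≤ 1 / 1000) (hx0 : 0 ≤ x) (hxp : x ≤ Real.pi) :
    0 ≤ sched' st i2 ξ x ∧ sched' st i2 ξ x ≤ 2 * Real.pi - (3 * Real.pi / 4 + a45) / 2 := by
  have hw := hS.wpos
  have hp := Real.pi_gt_three
  have hp2 := Real.pi_lt_d2
  have hang := Ang.angles
  rw [beta_eq hS ξ i2 x hwξ hξ hx0 hxp]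
  have s1 := st_nonneg hS (x := x - (Real.pi / 4 - ξ)) (by linarith)
  have s2 := st_le_one hS (x := x - (Real.pi / 4 - ξ)) (by linarith)
  have s3 := st_nonneg hS (x := x - Real.pi / 8) (by linarith)
  have s4 := st_le_one hS (x := x - Real.pi / 8) (by linarith)
  have hc : 0 < 3 * Real.pi / 2 - (3 * Real.pi / 4 + a45) / 2 := by linarith [hang.2.2.2.2.2]
  have hc2 : 0 < Real.pi / 2 - 2 * Real.pi * i2 := by nlinarith
  constructor
  · positivity
  · have e1 : i2 * x ≤ i2 * Real.pi := by nlinarith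
    nlinarith

theorem VA_eq (ξ i2 x : ℝ) (hwξ : 4 * w ≤ ξ) (hξ : ξ ≤ 1 / 100) (h0 : 0 < i2)
    (h1 : i2 ≤ 1 / 1000) (hx0 : 0 ≤ x) (hxp : x ≤ Real.pi) :
    VA E (sched st i2 ξ x) = 1 + (-3 - I) * E (sched st i2 ξ x - a14) := by
  have hw := hS.wpos
  have hp := Real.pi_gt_three
  have hp2 := Real.pi_lt_d2
  have hang := Ang.angles
  have h45 := a45_ge
  have h9 := a9_ge
  obtain ⟨r1, r2⟩ := alpha_range hS ξ i2 x hwξ hξ h0 h1 hx0 hxp
  unfold VA
  rw [hS.Ezero (sched st i2 ξ x - a45) (by linarith [hang.2.2.2.2.2]) (by linarith),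
    hS.Ezero (sched st i2 ξ x - (2 * Real.pi - a9)) (by linarith) (by linarith)]
  ring

theorem VB_eq (ξ i2 x : ℝ) (hwξ : 4 * w ≤ ξ) (hξ : ξ ≤ 1 / 100) (h0 : 0 < i2)
    (h1 : i2 ≤ 1 / 1000) (hx0 : 0 ≤ x) (hxp : x ≤ Real.pi) :
    VB E (sched' st i2 ξ x) = 1 + (-4 + 9 * I) * E (sched' st i2 ξ x - a9)
      + (1 - 8 * I) * E (sched' st i2 ξ x - (2 * Real.pi - a45)) := by
  have hw := hS.wpos
  have hp := Real.pi_gt_three
  have hp2 := Real.pi_lt_d2
  have hang := Ang.angles
  have h45 := a45_ge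
  obtain ⟨r1, r2⟩ := beta_range hS ξ i2 x hwξ hξ h0 h1 hx0 hxp
  unfold VB
  rw [hS.Ezero (sched' st i2 ξ x - (2 * Real.pi - a14)) (by linarith [hang.2.2.1]) (by linarith)]
  ring

theorem VK_eq (ξ x : ℝ) (hwξ : 4 * w ≤ ξ) (hξ : ξ ≤ 1 / 100) (hx0 : 0 ≤ x) (hxp : x ≤ Real.pi) :
    VK E x = ((-1 + I) / 2) * E (x - Real.pi / 4) + ((-3 - I) / 2) * E (x - a14) := by
  have hw := hS.wpos
  have hp := Real.pi_gt_three
  have hang := Ang.angles
  unfold VK
  rw [hS.Ezero (x - (2 * Real.pi - a14)) (by linarith [hang.2.2.1]) (by linarith [hang.2.2.2.1]),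
    hS.Ezero (x - 7 * Real.pi / 4) (by linarith) (by linarith)]
  ring

theorem dotE (x y K : ℝ) (c : ℂ) (hK : 0 ≤ K) (hc : c.re ^ 2 + c.im ^ 2 ≤ K ^ 2) :
    (Real.cos x * c.re + Real.sin x * c.im) * st y - 2 * K * w ≤ dot (nn x) (c * E y) := by
  have hw := hS.wpos
  have h1 : c * E y = c * (st y : ℂ) + c * (E y - st y) := by ring
  rw [h1, dot_add]
  have h2 : dot (nn x) (c * (st y : ℂ)) = (Real.cos x * c.re + Real.sin x * c.im) * st y := by
    rw [dot_nn]; simp; ring
  have h3 : |dot (nn x) (c * (E y - st y))| ≤ 2 * K * w := by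
    calc |dot (nn x) (c * (E y - st y))| ≤ ‖nn x‖ * ‖c * (E y - st y)‖ := abs_dot_le _ _
      _ = ‖c‖ * ‖E y - st y‖ := by rw [nn_norm, norm_mul, one_mul]
      _ ≤ K * (2 * w) := mul_le_mul (nrm c K hK hc) (hS.Est y) (norm_nonneg _) hK
      _ = 2 * K * w := by ring
  rw [h2]
  have := (abs_le.1 h3).1
  linarith

/-- lower bound for K + 1 -/
theorem dotK (ξ x : ℝ) (hwξ : 4 * w ≤ ξ) (hξ : ξ ≤ 1 / 100) (hx0 : 0 ≤ x) (hxp : x ≤ Real.pi) :
    3 / 10 - 5 * w ≤ dot (nn x) (VK E x + 1) := by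
  have hw := hS.wpos
  have hp := Real.pi_gt_three
  have hp2 := Real.pi_lt_d2
  have hang := Ang.angles
  rw [VK_eq hS ξ x hwξ hξ hx0 hxp, dot_add, dot_add]
  have e1 := dotE hS x (x - Real.pi / 4) 0.75 ((-1 + I) / 2) (by norm_num) (by norm_num)
  have e2 := dotE hS x (x - a14) 1.6 ((-3 - I) / 2) (by norm_num) (by norm_num)
  have e3 : dot (nn x) 1 = Real.cos x := by rw [dot_nn]; simp
  rw [e3]
  norm_num at e1 e2
  set s2 := st (x - Real.pi / 4)
  set s3 := st (x - a14)
  have m := st_mono hS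
  have s2a : 0 ≤ s2 := st_nonneg hS (by linarith)
  have s2b : s2 ≤ 1 := st_le_one hS (by linarith)
  have s3a : 0 ≤ s3 := st_nonneg hS (by linarith [hang.2.2.2.1])
  have s3b : s3 ≤ 1 := st_le_one hS (by linarith [hang.2.2.1])
  have h14 := a14_le
  have s23 : s3 ≤ s2 := m (by linarith [hang.2.2.1])
  obtain ⟨q1, q2⟩ := sqrt10
  have t1 : 0 ≤ (1 - s2) * (Real.cos x - 3 / 10) := by
    rcases le_or_gt x (Real.pi / 3) with hx | hx
    · apply mul_nonneg (by linarith)
      have : Real.cos (Real.pi / 3) ≤ Real.cos x :=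
        Real.cos_le_cos_of_nonneg_of_le_pi hx0 (by linarith) hx
      rw [Real.cos_pi_div_three] at this
      linarith
    · have : s2 = 1 := st_one hS (by linarith) (by linarith)
      rw [this]; simp
  have t2 : 0 ≤ (s2 - s3) * ((Real.cos x + Real.sin x) / 2 - 3 / 10) := by
    rcases lt_or_ge x (Real.pi / 4 - w) with hx | hx
    · have e4 : s2 = 0 := hS.stzero _ (by linarith) (by linarith)
      have e5 : s3 = 0 := hS.stzero _ (by linarith) (by linarith [hang.2.2.1])
      rw [e4, e5]; simp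
    · rcases lt_or_ge (a14 + w) x with hx2 | hx2
      · have e4 : s2 = 1 := st_one hS (by linarith [hang.2.2.1]) (by linarith)
        have e5 : s3 = 1 := st_one hS (by linarith [hang.2.2.1]) (by linarith [hang.2.2.1])
        rw [e4, e5]; simp
      · apply mul_nonneg (by linarith)
        obtain ⟨c1, c2⟩ := cs14 x
        have hz1 : -(Real.pi / 2) ≤ x - a14 := by linarith
        have hz2 : x - a14 ≤ w := by linarith
        have hc := one_sub_cos_le (x - a14) hz1 (by linarith)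
        have hval : 1 - 3 * w ≤ Real.cos (x - a14) - 2 * Real.sin (x - a14) := by
          rcases le_or_gt (x - a14) 0 with hn | hn
          · have hsn : Real.sin (x - a14) ≤ 0 := Real.sin_nonpos_of_nonpos_of_neg_pi_le hn (by linarith)
            rw [abs_of_nonpos hsn] at hc
            linarith
          · have hsp : 0 ≤ Real.sin (x - a14) := Real.sin_nonneg_of_nonneg_of_le_pi hn.le (by linarith)
            have hsl : Real.sin (x - a14) ≤ x - a14 := Real.sin_le hn.le
            rw [abs_of_nonneg hsp] at hc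
            linarith
        have : (Real.cos x + Real.sin x) / 2 = (Real.cos (x - a14) - 2 * Real.sin (x - a14)) / √10 := by
          rw [c1, c2]; ring
        rw [this, sub_nonneg, le_div_iff₀ (by positivity)]
        linarith
  have t3 : 0 ≤ s3 * (-Real.cos x - 3 / 10) := by
    rcases lt_or_ge x (a14 - w) with hx | hx
    · have e5 : s3 = 0 := hS.stzero _ (by linarith) (by linarith)
      rw [e5]; simp
    · apply mul_nonneg (by linarith)
      obtain ⟨c1, c2⟩ := cs14 x
      have hz1 : -w ≤ x - a14 := by linarith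
      have hz2 : x - a14 ≤ Real.pi / 2 := by linarith [hang.2.2.1]
      have hc := one_sub_cos_le (x - a14) (by linarith) hz2
      have hval : 1 - 4 * w ≤ Real.cos (x - a14) + 3 * Real.sin (x - a14) := by
        rcases le_or_gt (x - a14) 0 with hn | hn
        · have hsn : Real.sin (x - a14) ≤ 0 := Real.sin_nonpos_of_nonpos_of_neg_pi_le hn (by linarith)
          have hsl : x - a14 ≤ Real.sin (x - a14) := Real.le_sin hn
          rw [abs_of_nonpos hsn] at hc
          linarith
        · have hsp : 0 ≤ Real.sin (x - a14) := Real.sin_nonneg_of_nonneg_of_le_pi hn.le (by linarith)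
          rw [abs_of_nonneg hsp] at hc
          linarith
      have : -Real.cos x = (Real.cos (x - a14) + 3 * Real.sin (x - a14)) / √10 := by
        rw [c1]; ring
      rw [this, sub_nonneg, le_div_iff₀ (by positivity)]
      linarith
  nlinarith


set_option maxHeartbeats 4000000 in
theorem main_low (ξ i2 x : ℝ) (hwξ : 4 * w ≤ ξ) (hξ : ξ ≤ 1 / 100) (h0 : 0 < i2)
    (h1 : i2 ≤ 1 / 1000) (hx0 : 0 ≤ x) (hxp : x ≤ Real.pi) :
    -5 * ξ - 57 * w ≤ dot (nn x) (VA E (sched st i2 ξ x) + VB E (sched' st i2 ξ x) - 2 * VK E x) := by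
  have hw := hS.wpos
  have hp := Real.pi_gt_three
  have hp2 := Real.pi_lt_d2
  have hang := Ang.angles
  have h14 := a14_le
  have h45 := a45_ge
  have h9 := a9_ge
  obtain ⟨q1, q2⟩ := sqrt10
  rw [VA_eq hS ξ i2 x hwξ hξ h0 h1 hx0 hxp, VB_eq hS ξ i2 x hwξ hξ h0 h1 hx0 hxp,
    VK_eq hS ξ x hwξ hξ hx0 hxp]
  obtain ⟨ra1, ra2⟩ := alpha_range hS ξ i2 x hwξ hξ h0 h1 hx0 hxp
  obtain ⟨rb1, rb2⟩ := beta_range hS ξ i2 x hwξ hξ h0 h1 hx0 hxp
  have hα := alpha_eq hS ξ i2 x hwξ hξ hx0 hxp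
  have hβ := beta_eq hS ξ i2 x hwξ hξ hx0 hxp
  set α := sched st i2 ξ x
  set β := sched' st i2 ξ x
  have hsplit : (1 + (-3 - I) * E (α - a14) + (1 + (-4 + 9 * I) * E (β - a9)
      + (1 - 8 * I) * E (β - (2 * Real.pi - a45))) -
      2 * (((-1 + I) / 2) * E (x - Real.pi / 4) + ((-3 - I) / 2) * E (x - a14)) : ℂ) =
      2 + (-4 + 9 * I) * E (β - a9) + (1 - 8 * I) * E (β - (2 * Real.pi - a45))
      + (1 - I) * E (x - Real.pi / 4) + (3 + I) * E (x - a14) + (-3 - I) * E (α - a14) := by ring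
  rw [hsplit]
  simp only [dot_add]
  have e0 := dotE hS x (β - a9) 9.9 (-4 + 9 * I) (by norm_num) (by norm_num)
  have e1 := dotE hS x (β - (2 * Real.pi - a45)) 8.1 (1 - 8 * I) (by norm_num) (by norm_num)
  have e2 := dotE hS x (x - Real.pi / 4) 1.42 (1 - I) (by norm_num) (by norm_num)
  have e3 := dotE hS x (x - a14) 3.17 (3 + I) (by norm_num) (by norm_num)
  have e4 := dotE hS x (α - a14) 3.17 (-3 - I) (by norm_num) (by norm_num)
  have e5 : dot (nn x) 2 = 2 * Real.cos x := by rw [dot_nn]; simp; ring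
  rw [e5]
  norm_num at e0 e1 e2 e3 e4
  have m := st_mono hS
  have i2x : i2 * x ≤ 1 / 1000 * 4 := by
    apply mul_le_mul h1 (by linarith) hx0 (by norm_num)
  have i2x0 : 0 ≤ i2 * x := by positivity
  have i2p : 2 * Real.pi * i2 ≤ 1 / 100 := by nlinarith
  have i2p0 : 0 ≤ 2 * Real.pi * i2 := by positivity
  have s0b : st (β - a9) ≤ 1 := st_le_one hS (by linarith)
  have s1a : 0 ≤ st (β - (2 * Real.pi - a45)) := st_nonneg hS (by linarith)
  have s1b : st (β - (2 * Real.pi - a45)) ≤ 1 := st_le_one hS (by linarith [hang.2.2.2.2.2])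
  have s2a : 0 ≤ st (x - Real.pi / 4) := st_nonneg hS (by linarith)
  have s2b : st (x - Real.pi / 4) ≤ 1 := st_le_one hS (by linarith)
  have s3a : 0 ≤ st (x - a14) := st_nonneg hS (by linarith)
  have s3b : st (x - a14) ≤ 1 := st_le_one hS (by linarith)
  have s4a : 0 ≤ st (α - a14) := st_nonneg hS (by linarith)
  have s4b : st (α - a14) ≤ 1 := st_le_one hS (by linarith [hang.2.2.2.2.2])
  have s01 : st (β - (2 * Real.pi - a45)) ≤ st (β - a9) := m (by linarith [hang.2.2.2.2.2])
  have hcos1 := Real.cos_le_one x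
  -- term 1
  have t1 : 0 ≤ (1 - st (β - a9)) * (2 * Real.cos x) := by
    rcases le_or_gt x (Real.pi / 2) with hx | hx
    · apply mul_nonneg (by linarith)
      have := Real.cos_nonneg_of_mem_Icc (x := x) ⟨by linarith, hx⟩
      linarith
    · have hq : st (x - Real.pi / 8) = 1 := st_one hS (by linarith) (by linarith)
      have hpn : 0 ≤ st (x - (Real.pi / 4 - ξ)) := st_nonneg hS (by linarith)
      have hc2 : 0 ≤ 3 * Real.pi / 2 - (3 * Real.pi / 4 + a45) / 2 := by linarith [hang.2.2.2.2.2]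
      have hb : st (β - a9) = 1 := by
        apply st_one hS
        · rw [hβ, hq]
          have := mul_nonneg hc2 hpn
          linarith [hang.2.1]
        · linarith
      rw [hb]; simp
  -- term 2
  have t2 : 0 ≤ (st (β - a9) - st (β - (2 * Real.pi - a45))) * (-2 * Real.cos x + 9 * Real.sin x) := by
    rcases lt_or_ge x (Real.pi / 8 - w) with hx | hx
    · have hq : st (x - Real.pi / 8) = 0 := hS.stzero _ (by linarith) (by linarith)
      have hpz : st (x - (Real.pi / 4 - ξ)) = 0 := hS.stzero _ (by linarith) (by linarith)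
      have hb : st (β - a9) = 0 := by
        apply hS.stzero
        · linarith [hang.2.1]
        · rw [hβ, hq, hpz]; linarith
      have hb2 : st (β - (2 * Real.pi - a45)) = 0 := le_antisymm (by linarith) s1a
      rw [hb, hb2]; simp
    · apply mul_nonneg (by linarith)
      rcases le_or_gt x (Real.pi / 2) with hx2 | hx2
      · have h3 := Real.mul_le_sin hx0 hx2
        have h4 : 1 / 4 - 1 / 400 ≤ 2 / Real.pi * x := by
          rw [div_mul_eq_mul_div, le_div_iff₀ (by linarith)]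
          nlinarith
        linarith
      · have h3 : Real.cos x ≤ 0 := Real.cos_nonpos_of_pi_div_two_le_of_le hx2.le (by linarith)
        have h4 : 0 ≤ Real.sin x := Real.sin_nonneg_of_nonneg_of_le_pi hx0 hxp
        linarith
  -- term 3
  have t3 : -(1.42 * (ξ + w)) ≤ (st (β - (2 * Real.pi - a45)) - st (x - Real.pi / 4)) *
      (-Real.cos x + Real.sin x) := by
    rcases lt_or_ge x (Real.pi / 4 - ξ - w) with hx | hx
    · have hq : st (x - Real.pi / 8) ≤ 1 := st_le_one hS (by linarith)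
      have hpz : st (x - (Real.pi / 4 - ξ)) = 0 := hS.stzero _ (by linarith) (by linarith)
      have hb : st (β - (2 * Real.pi - a45)) = 0 := by
        apply hS.stzero
        · linarith
        · rw [hβ, hpz]
          have : (Real.pi / 2 - 2 * Real.pi * i2) * st (x - Real.pi / 8) ≤ Real.pi / 2 := by
            have hqn : 0 ≤ st (x - Real.pi / 8) := st_nonneg hS (by linarith)
            exact prod_upper _ _ _ hqn hq (by linarith) (by linarith)
          linarith [hang.2.2.2.2.2]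
      have hk : st (x - Real.pi / 4) = 0 := hS.stzero _ (by linarith) (by linarith)
      rw [hb, hk]; simp; linarith
    · have hle : st (x - Real.pi / 4) ≤ st (β - (2 * Real.pi - a45)) := by
        rcases lt_or_ge x (Real.pi / 4 - w) with hx2 | hx2
        · have hk : st (x - Real.pi / 4) = 0 := hS.stzero _ (by linarith) (by linarith)
          rw [hk]; exact s1a
        · have hq : st (x - Real.pi / 8) = 1 := st_one hS (by linarith) (by linarith)
          have hpo : st (x - (Real.pi / 4 - ξ)) = 1 := st_one hS (by linarith) (by linarith)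
          have hb : st (β - (2 * Real.pi - a45)) = 1 := by
            apply st_one hS
            · rw [hβ, hq, hpo]; linarith
            · linarith [hang.2.2.2.2.2]
          rw [hb]; exact s2b
      have hsc : -(1.42 * (ξ + w)) ≤ -Real.cos x + Real.sin x := by
        have h3 : -Real.cos x + Real.sin x = √2 * Real.sin (x - Real.pi / 4) := by
          rw [Real.sin_sub, Real.cos_pi_div_four, Real.sin_pi_div_four]
          have h2 : √2 * √2 = 2 := Real.mul_self_sqrt (by norm_num)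
          linear_combination (-(Real.sin x) / 2 + Real.cos x / 2) * h2
        rw [h3]
        have hr2 : √2 < 1.42 := by rw [Real.sqrt_lt' (by norm_num)]; norm_num
        have hr0 : 0 ≤ √2 := Real.sqrt_nonneg 2
        rcases le_or_gt (x - Real.pi / 4) 0 with hn | hn
        · have h5 := Real.le_sin hn
          have h6 : -(ξ + w) ≤ Real.sin (x - Real.pi / 4) := by linarith
          have h7 : √2 * (-(ξ + w)) ≤ √2 * Real.sin (x - Real.pi / 4) :=
            mul_le_mul_of_nonneg_left h6 hr0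
          have h8 : √2 * (ξ + w) ≤ 1.42 * (ξ + w) := mul_le_mul_of_nonneg_right hr2.le (by linarith)
          linarith
        · have h5 : 0 ≤ Real.sin (x - Real.pi / 4) :=
            Real.sin_nonneg_of_nonneg_of_le_pi hn.le (by linarith)
          have : 0 ≤ √2 * Real.sin (x - Real.pi / 4) := mul_nonneg hr0 h5
          linarith
      have hd1 : 0 ≤ st (β - (2 * Real.pi - a45)) - st (x - Real.pi / 4) := by linarith
      have hd2 : st (β - (2 * Real.pi - a45)) - st (x - Real.pi / 4) ≤ 1 := by linarith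
      have hneg : 0 ≤ 1.42 * (ξ + w) := by linarith
      exact prod_lower _ _ _ hd1 hd2 hneg hsc
  -- term 4
  have t4 : -(3.17 * (ξ + w)) ≤ (st (x - a14) - st (α - a14)) * (3 * Real.cos x + Real.sin x) := by
    have hle : st (α - a14) ≤ st (x - a14) := by
      rcases lt_or_ge x (a14 + ξ - w) with hx | hx
      · have hz : st (x - (a14 + ξ)) = 0 := hS.stzero _ (by linarith) (by linarith)
        have h4 : st (α - a14) = 0 := by
          apply hS.stzero
          · linarith
          · rw [hα, hz]; linarith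
        rw [h4]; exact s3a
      · have h3 : st (x - a14) = 1 := st_one hS (by linarith) (by linarith)
        rw [h3]; exact s4b
    rcases lt_or_ge (a14 + ξ + w) x with hx | hx
    · have hz : st (x - (a14 + ξ)) = 1 := st_one hS (by linarith) (by linarith)
      have h4 : st (α - a14) = 1 := by
        apply st_one hS
        · rw [hα, hz]; linarith
        · linarith [hang.2.2.2.2.2]
      have h3 : st (x - a14) = 1 := le_antisymm s3b (by linarith)
      rw [h4, h3]; simp; linarith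
    · obtain ⟨c1, c2⟩ := cs14 x
      have h3 : 3 * Real.cos x + Real.sin x = -(√10 * Real.sin (x - a14)) := by
        have h10 : √10 * √10 = 10 := Real.mul_self_sqrt (by norm_num)
        have h10' : √10 ≠ 0 := by positivity
        rw [c1, c2]
        field_simp
        linear_combination (Real.sin (x - a14)) * h10
      have h5 : Real.sin (x - a14) ≤ ξ + w := by
        rcases le_or_gt (x - a14) 0 with hn | hn
        · have := Real.sin_nonpos_of_nonpos_of_neg_pi_le hn (by linarith)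
          linarith
        · have := Real.sin_le hn.le
          linarith
      have h6 : √10 * Real.sin (x - a14) ≤ 3.17 * (ξ + w) := by
        have h7 : √10 * Real.sin (x - a14) ≤ √10 * (ξ + w) := mul_le_mul_of_nonneg_left h5 (by positivity)
        have h8 : √10 * (ξ + w) ≤ 3.17 * (ξ + w) := mul_le_mul_of_nonneg_right q2.le (by linarith)
        linarith
      rw [h3]
      have hd1 : 0 ≤ st (x - a14) - st (α - a14) := by linarith
      have hd2 : st (x - a14) - st (α - a14) ≤ 1 := by linarith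
      have hneg : 0 ≤ 3.17 * (ξ + w) := by linarith
      exact prod_lower _ _ _ hd1 hd2 hneg (by linarith)
  have hsum : 2 * Real.cos x + (-(4 * Real.cos x) + 9 * Real.sin x) * st (β - a9)
      + (Real.cos x - 8 * Real.sin x) * st (β - (2 * Real.pi - a45))
      + (Real.cos x - Real.sin x) * st (x - Real.pi / 4) + (3 * Real.cos x + Real.sin x) * st (x - a14)
      + (-(3 * Real.cos x) - Real.sin x) * st (α - a14) =
      (1 - st (β - a9)) * (2 * Real.cos x)
      + (st (β - a9) - st (β - (2 * Real.pi - a45))) * (-2 * Real.cos x + 9 * Real.sin x)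
      + (st (β - (2 * Real.pi - a45)) - st (x - Real.pi / 4)) * (-Real.cos x + Real.sin x)
      + (st (x - a14) - st (α - a14)) * (3 * Real.cos x + Real.sin x) := by ring
  clear s01 s0b s1a s1b s2a s2b s3a s3b s4a s4b m hα hβ hsplit
  linarith

theorem condK_low (t d ξ i2 : ℝ) (ht : 0 < t) (hd : 0 < d) (_hd1 : d < 1) (hwξ : 4 * w ≤ ξ)
    (hξ : ξ ≤ 1 / 100) (h0 : 0 < i2) (h1 : i2 ≤ 1 / 1000) (x : ℝ) :
    d / 2 - 5 * ξ - 70 * w - 4 * t ≤ dot (nn x)
      (curveA E t (sched st i2 ξ x) + curveB E t (sched' st i2 ξ x) - 2 * curveK E t d x) := by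
  have hw := hS.wpos
  apply reduce (fun x => W E st t d i2 ξ x) _ (W_per hS t d i2 ξ) (W_even hS t d i2 ξ)
  intro x hx0 hxp
  have h2 := main_low hS ξ i2 x hwξ hξ h0 h1 hx0 hxp
  have h3 := dotK hS ξ x hwξ hξ hx0 hxp
  unfold W
  have hsplit : curveA E t (sched st i2 ξ x) + curveB E t (sched' st i2 ξ x) - 2 * curveK E t d x =
      (VA E (sched st i2 ξ x) + VB E (sched' st i2 ξ x) - 2 * VK E x)
      + ((2 * d : ℝ) : ℂ) * (VK E x + 1)
      + (t : ℂ) * (nn (sched st i2 ξ x) + nn (sched' st i2 ξ x) - 2 * nn x) := by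
    unfold curveA curveB curveK
    push_cast
    ring
  rw [hsplit, dot_add, dot_add]
  have h4 : dot (nn x) (((2 * d : ℝ) : ℂ) * (VK E x + 1)) = 2 * d * dot (nn x) (VK E x + 1) := by
    simp only [dot_eq, Complex.mul_re, Complex.mul_im, Complex.ofReal_re, Complex.ofReal_im]; ring
  have h5 : |dot (nn x) ((t : ℂ) * (nn (sched st i2 ξ x) + nn (sched' st i2 ξ x) - 2 * nn x))| ≤ 4 * t := by
    calc |dot (nn x) ((t : ℂ) * (nn (sched st i2 ξ x) + nn (sched' st i2 ξ x) - 2 * nn x))|
        ≤ ‖nn x‖ * ‖(t : ℂ) * (nn (sched st i2 ξ x) + nn (sched' st i2 ξ x) - 2 * nn x)‖ := abs_dot_le _ _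
      _ = t * ‖nn (sched st i2 ξ x) + nn (sched' st i2 ξ x) - 2 * nn x‖ := by
          rw [nn_norm, norm_mul, one_mul, Complex.norm_real, Real.norm_of_nonneg ht.le]
      _ ≤ t * 4 := by
          apply mul_le_mul_of_nonneg_left _ ht.le
          calc ‖nn (sched st i2 ξ x) + nn (sched' st i2 ξ x) - 2 * nn x‖
              ≤ ‖nn (sched st i2 ξ x) + nn (sched' st i2 ξ x)‖ + ‖2 * nn x‖ := norm_sub_le _ _
            _ ≤ (‖nn (sched st i2 ξ x)‖ + ‖nn (sched' st i2 ξ x)‖) + ‖2 * nn x‖ := by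
                gcongr; exact norm_add_le _ _
            _ = 4 := by rw [nn_norm, nn_norm, norm_mul, nn_norm]; norm_num
      _ = 4 * t := by ring
  rw [h4]
  have h6 := (abs_le.1 h5).1
  nlinarith

end

end Pool.Agent.Csz.CondK
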