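import Mathlib
import Pool.Agent.Csz.Dat
import Pool.Agent.Csz.Sched
import Pool.Agent.Csz.Sched2
import Pool.Agent.Csz.CloseIn
import Pool.Agent.Csz.CloseIn2
import Pool.Agent.Csz.Steps
import Pool.Agent.Csz.Bounds
import Pool.Agent.Csz.CloseOut
import Pool.Agent.Csz.CondK

set_option autoImplicit false

open Complex Set

namespace Pool.Agent.Csz

theorem dt_add (m a b : ℂ) : dot m (a + b) = dot m a + dot m b := by
  unfold dot; rw [mul_add, Complex.add_re]

theorem dt_smul (c : ℝ) (m a : ℂ) : dot m ((c : ℂ) * a) = c * dot m a := by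
  unfold dot
  have : (starRingEnd ℂ) m * ((c : ℂ) * a) = (c : ℂ) * ((starRingEnd ℂ) m * a) := by ring
  rw [this, Complex.re_ofReal_mul]

theorem dt_abs (x : ℝ) (a : ℂ) : |dot (nn x) a| ≤ ‖a‖ := by
  unfold dot
  refine (Complex.abs_re_le_norm _).trans ?_
  rw [norm_mul, Complex.norm_conj, nn_norm, one_mul]

/-- abstract form of condA1/condB1 -/
theorem cond_one (P K c : ℂ) (y κ δ : ℝ) (hr : 1 / 10 ≤ dot (nn y) (P - c)) (hP : ‖P‖ ≤ 15)
    (hK : ‖K‖ ≤ 15) (hc : ‖c‖ ≤ 5) (hδ : 0 < δ) (hδ2 : δ < 1 / 2) (hκ : 1000 ≤ κ)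
    (hκδ : κ * δ ≤ 1 / 100) :
    0 < dot (nn y) (κ * (P - c) + (K - (P - κ * δ * (P - c))) / (1 - δ)) := by
  have e : (κ * (P - c) + (K - (P - κ * δ * (P - c))) / (1 - δ) : ℂ) =
      (κ : ℂ) * (P - c) + ((1 / (1 - δ) : ℝ) : ℂ) * (K - P + ((κ * δ : ℝ) : ℂ) * (P - c)) := by
    push_cast; ring
  rw [e, dt_add, dt_smul, dt_smul]
  have h1 : ‖K - P + ((κ * δ : ℝ) : ℂ) * (P - c)‖ ≤ 31 := by
    have hκ0 : 0 ≤ κ * δ := by positivity
    have a1 : ‖K - P‖ ≤ 30 := (norm_sub_le _ _).trans (by linarith)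
    have a2 : ‖P - c‖ ≤ 20 := (norm_sub_le _ _).trans (by linarith)
    have a3 : ‖((κ * δ : ℝ) : ℂ) * (P - c)‖ ≤ 1 := by
      rw [norm_mul, Complex.norm_real, Real.norm_of_nonneg hκ0]
      nlinarith [norm_nonneg (P - c)]
    exact (norm_add_le _ _).trans (by linarith)
  have h2 := dt_abs y (K - P + ((κ * δ : ℝ) : ℂ) * (P - c))
  have h3 := (abs_le.mp h2).1
  have h4 : 0 < 1 / (1 - δ) := by
    apply one_div_pos.mpr; linarith
  have h5 : 1 / (1 - δ) ≤ 2 := by
    rw [div_le_iff₀ (by linarith)]; linarith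
  have h6 : -31 ≤ dot (nn y) (K - P + ((κ * δ : ℝ) : ℂ) * (P - c)) := by linarith
  nlinarith

/-- abstract form of condA0/condB0 -/
theorem cond_zero (P Q c : ℂ) (y κ : ℝ) (hr : 1 / 10 ≤ dot (nn y) (P - c)) (hP : ‖P‖ ≤ 15)
    (hQ : ‖Q‖ ≤ 15) (hκ : 1000 ≤ κ) :
    0 < dot (nn y) (Q - P + 2 * κ * (P - c)) := by
  have e : (Q - P + 2 * κ * (P - c) : ℂ) = (Q - P) + ((2 * κ : ℝ) : ℂ) * (P - c) := by
    push_cast; ring
  rw [e, dt_add, dt_smul]
  have h1 : ‖Q - P‖ ≤ 30 := (norm_sub_le _ _).trans (by linarith)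
  have h3 := (abs_le.mp (dt_abs y (Q - P))).1
  nlinarith

section
variable {w r : ℝ} {φ st : ℝ → ℝ} {E : ℝ → ℂ} (hS : Step w r φ st E)
include hS

theorem close_inner (t d ι i2 ξ : ℝ) (ht : 0 < t) (hd0 : 0 < d) (hd1 : d < 1) (hι0 : 0 < ι)
    (hι1 : ι < 1) (h0 : 0 < i2) (h1 : i2 ≤ 1 / 1000) (hξ : 4 * w ≤ ξ) (hξ1 : ξ ≤ 1 / 100)
    (x : ℝ) :
    ∃ θ ∈ Icc (0 : ℝ) 10, ∃ k : ℤ,
    ‖curveA E t (sched st i2 ξ x) - VA0 θ‖ ≤ t + 60 * w + 6 * d ∧
    ‖curveK E t d x - VK0 θ‖ ≤ t + 60 * w + 6 * d ∧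
    ‖curveB E t (sched' st i2 ξ x) - VB0 θ‖ ≤ t + 60 * w + 6 * d ∧
    |liftA st ι (sched st i2 ξ x) - TA0 θ - k| ≤ 2 * ι ∧ |liftK st ι x - TK0 θ - k| ≤ 2 * ι ∧
    |liftB st ι (sched' st i2 ξ x) - TB0 θ - k| ≤ 2 * ι := by
  have hp := Real.two_pi_pos
  set n := ⌊x / (2 * Real.pi)⌋ with hn
  have h1' : 0 ≤ x - n * (2 * Real.pi) := by
    have := Int.floor_le (x / (2 * Real.pi))
    rw [le_div_iff₀ hp] at this
    linarith
  have h2' : x - n * (2 * Real.pi) ≤ 2 * Real.pi := by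
    have := (Int.lt_floor_add_one (x / (2 * Real.pi))).le
    rw [div_le_iff₀ hp] at this
    linarith
  obtain ⟨θ, hθ, A1, A2, A3, A4, A5, A6⟩ := close_inner0 hS t d ι i2 ξ ht hd0 hd1 hι0 hι1 h0 h1
    hξ hξ1 _ h1' h2'
  set x0 := x - n * (2 * Real.pi) with hx0
  have hx : x = x0 + n * (2 * Real.pi) := by rw [hx0]; ring
  have eα : sched st i2 ξ x = sched st i2 ξ x0 + n * (2 * Real.pi) := by
    rw [hx]; exact per_int (sched_per hS i2 ξ) n x0
  have hper' : ∀ y, sched' st i2 ξ (y + 2 * Real.pi) = sched' st i2 ξ y + 2 * Real.pi := by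
    intro y
    unfold sched'
    have h := sched_per hS i2 ξ (-(y + 2 * Real.pi))
    have e : -(y + 2 * Real.pi) + 2 * Real.pi = -y := by ring
    rw [e] at h
    rw [h]; ring
  have eβ : sched' st i2 ξ x = sched' st i2 ξ x0 + n * (2 * Real.pi) := by
    rw [hx]; exact per_int hper' n x0
  refine ⟨θ, hθ, n, ?_, ?_, ?_, ?_, ?_, ?_⟩
  · rw [eα, per_intC (curveA_per hS t)]; exact A1
  · rw [hx, per_intC (curveK_per hS t d)]; exact A2
  · rw [eβ, per_intC (curveB_per hS t)]; exact A3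
  · rw [eα, per_int (liftA_per hS ι)]
    convert A4 using 2; ring
  · rw [hx, per_int (liftK_per hS ι)]
    convert A5 using 2; ring
  · rw [eβ, per_int (liftB_per hS ι)]
    convert A6 using 2; ring

end

theorem exists_data (e : ℝ) (he : 0 < e) : ∃ D : SData, Close D e := by
  obtain ⟨m, hm0, hm1, hme⟩ : ∃ m : ℝ, 0 < m ∧ m ≤ 1 ∧ m ≤ e :=
    ⟨min e 1, lt_min he one_pos, min_le_right _ _, min_le_left _ _⟩
  obtain ⟨d, hd⟩ : ∃ d : ℝ, d = m / 100 := ⟨_, rfl⟩
  have hd0 : 0 < d := by rw [hd]; positivity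
  have hd1 : d ≤ 1 / 100 := by rw [hd]; linarith
  have hw0 : 0 < d / 400 := by positivity
  obtain ⟨r, φ, st, E, hS⟩ := Steps.exists_step (d / 400) hw0 (by linarith)
  set cA : ℂ := -(4 / 3) - 10 / 3 * I with hcA
  set cB : ℂ := -(4 / 3) + 10 / 3 * I with hcB
  have hcA5 : ‖cA‖ ≤ 5 := by
    have := norm_le_of_sq (-(4 / 3)) (-(10 / 3)) 5 (by norm_num) (by norm_num)
    push_cast at this
    convert this using 2
    rw [hcA]; ring
  have hcB5 : ‖cB‖ ≤ 5 := by
    have := norm_le_of_sq (-(4 / 3)) (10 / 3) 5 (by norm_num) (by norm_num)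
    push_cast at this
    convert this using 2
  have ht : 0 < d / 100 := by positivity
  have ht1 : d / 100 < 1 := by linarith
  have hdlt : d < 1 := by linarith
  have hκ : (1000 : ℝ) ≤ 1000 := le_rfl
  have hδ : 0 < d / 1000000 := by positivity
  have hδ2 : d / 1000000 < 1 / 2 := by linarith
  have hκδ : 1000 * (d / 1000000) ≤ 1 / 100 := by linarith
  have hξ : 4 * (d / 400) ≤ d / 100 := by linarith
  have hξ1 : d / 100 ≤ 1 / 100 := by linarith
  have rA : ∀ x, 1 / 10 ≤ dot (nn x) (curveA E (d / 100) x - cA) :=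
    fun x => Bd.radialA hS (d / 100) ht x
  have rB : ∀ x, 1 / 10 ≤ dot (nn x) (curveB E (d / 100) x - cB) :=
    fun x => Bd.radialB hS (d / 100) ht x
  have bA : ∀ x, ‖curveA E (d / 100) x‖ ≤ 15 := fun x => Bd.boundA hS (d / 100) ht ht1 x
  have bB : ∀ x, ‖curveB E (d / 100) x‖ ≤ 15 := fun x => Bd.boundB hS (d / 100) ht ht1 x
  have bK : ∀ x, ‖curveK E (d / 100) d x‖ ≤ 15 :=
    fun x => Bd.boundK hS (d / 100) d ht ht1 hd0 hdlt x
  have dA : ∀ x, ‖curveA E (d / 100) x - cA‖ ≤ 20 := fun x =>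
    (norm_sub_le _ _).trans (by linarith [bA x])
  have dB : ∀ x, ‖curveB E (d / 100) x - cB‖ ≤ 20 := fun x =>
    (norm_sub_le _ _).trans (by linarith [bB x])
  let D : SData :=
    { δ := d / 1000000
      κ := 1000
      cA := cA
      cB := cB
      A := curveA E (d / 100)
      B := curveB E (d / 100)
      K := curveK E (d / 100) d
      ρA := rhoA φ r (d / 100)
      ρB := rhoB φ r (d / 100)
      ρK := rhoK φ r (d / 100) d
      TA := liftA st (m / 4)
      TB := liftB st (m / 4)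
      TK := liftK st (m / 4)
      α := sched st (1 / 1000) (d / 100)
      β := sched' st (1 / 1000) (d / 100)
      hδ := hδ
      hδ2 := hδ2
      hκ := by norm_num
      hκδ := by linarith
      hA := Steps.curveA_curve hS (d / 100) ht
      hB := Steps.curveB_curve hS (d / 100) ht
      hK := Steps.curveK_curve hS (d / 100) d ht hdlt
      hTA := Steps.liftA_lift hS (m / 4) (by positivity) (by linarith)
      hTB := Steps.liftB_lift hS (m / 4) (by positivity) (by linarith)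
      hTK := Steps.liftK_lift hS (m / 4) (by positivity) (by linarith)
      hα := schedLift hS (1 / 1000) (d / 100) (by norm_num) (by norm_num)
      hβ := schedLift' hS (1 / 1000) (d / 100) (by norm_num) (by norm_num)
      antiα := sched_anti hS (1 / 1000) (d / 100) (by norm_num) le_rfl hξ hξ1
      antiβ := sched'_anti hS (1 / 1000) (d / 100) (by norm_num) le_rfl hξ hξ1
      condK := by
        intro x
        have h := CondK.condK_low hS (d / 100) d (d / 100) (1 / 1000) ht hd0 hdlt hξ hξ1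
          (by norm_num) le_rfl x
        set P := curveA E (d / 100) (sched st (1 / 1000) (d / 100) x) with hP
        set Q := curveB E (d / 100) (sched' st (1 / 1000) (d / 100) x) with hQ
        set K := curveK E (d / 100) d x with hK
        have e : ((P - (1000 : ℝ) * (d / 1000000 : ℝ) * (P - cA)) +
            (Q - (1000 : ℝ) * (d / 1000000 : ℝ) * (Q - cB)) - 2 * K : ℂ) =
            (P + Q - 2 * K) + ((-(d / 1000) : ℝ) : ℂ) * ((P - cA) + (Q - cB)) := by
          push_cast; ring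
        rw [e, dt_add, dt_smul]
        have h3 : ‖P - cA‖ ≤ 20 := dA _
        have h4 : ‖Q - cB‖ ≤ 20 := dB _
        have h1 : ‖(P - cA) + (Q - cB)‖ ≤ 40 := (norm_add_le _ _).trans (by linarith)
        have h2 := (abs_le.mp (dt_abs x ((P - cA) + (Q - cB)))).2
        nlinarith
      condA1 := by
        intro x
        exact cond_one _ _ _ _ _ _ (rA _) (bA _) (bK _) hcA5 hδ hδ2 hκ hκδ
      condB1 := by
        intro x
        exact cond_one _ _ _ _ _ _ (rB _) (bB _) (bK _) hcB5 hδ hδ2 hκ hκδ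
      condA0 := by
        intro y
        exact cond_zero _ _ _ _ _ (rA _) (bA _) (bB _) hκ
      condB0 := by
        intro y
        exact cond_zero _ _ _ _ _ (rB _) (bB _) (bA _) hκ }
  have small : ∀ v : ℂ, ‖v‖ ≤ 20 → ‖(((1000 : ℝ) : ℂ) * ((d / 1000000 : ℝ) : ℂ) * v : ℂ)‖ ≤ e := by
    intro v hv
    rw [norm_mul, norm_mul, Complex.norm_real, Complex.norm_real, Real.norm_of_nonneg hδ.le]
    norm_num
    nlinarith [norm_nonneg v]
  refine ⟨D, ?_, ?_, ?_, ?_, ?_⟩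
  · show d / 1000000 ≤ e
    linarith
  · intro y; exact small _ (dA y)
  · intro y; exact small _ (dB y)
  · intro x
    obtain ⟨θ, hθ, k, A1, A2, A3, A4, A5, A6⟩ := close_inner hS (d / 100) d (m / 4) (1 / 1000)
      (d / 100) ht hd0 hdlt (by positivity) (by linarith) (by norm_num) le_rfl hξ hξ1 x
    refine ⟨θ, hθ, k, A1.trans ?_, A2.trans ?_, A3.trans ?_, A4.trans ?_, A5.trans ?_,
      A6.trans ?_⟩ <;> linarith
  · intro y
    obtain ⟨θ, hθ, k, A1, A2, A3, A4⟩ := CO.close_outer hS (d / 100) (m / 4) ht (by positivity)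
      (by linarith) y
    refine ⟨θ, hθ, k, A1.trans ?_, A2.trans ?_, A3.trans ?_, A4.trans ?_⟩ <;> linarith

end Pool.Agent.Csz
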