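import Mathlib
import Pool.Agent.Csz.Defs
import Pool.Agent.Csz.PL
set_option autoImplicit false
set_option linter.all false

open Pool.Agent.Csz

namespace Pool.Agent.Csz.M1

/-- integer coordinates of the seven vertices -/
def vz (k j : ℕ) : ℤ :=
  (([[0, 0, 0], [1, 0, -1], [-3, 9, 1], [-2, 1, 1], [-2, -1, -1], [-3, -9, -1], [1, 0, 1]] :
    List (List ℤ)).getD k []).getD j 0

/-- the seven vertices in space -/
noncomputable def vv (k : Fin 7) : EuclideanSpace ℝ (Fin 3) :=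
  WithLp.toLp 2 (fun j : Fin 3 => (vz (k : ℕ) (j : ℕ) : ℝ))

/-- the fourteen faces -/
def fc (i : Fin 14) : Finset (Fin 7) :=
  if i.val < 7 then {Fin.ofNat 7 i.val, Fin.ofNat 7 i.val + 1, Fin.ofNat 7 i.val + 3}
  else {Fin.ofNat 7 i.val, Fin.ofNat 7 i.val + 2, Fin.ofNat 7 i.val + 3}

/-- separating functionals `a x + b y + c z + d` -/
def cert : List (List (List ℤ)) :=
  [[[0, 0, 0, 0], [1, -2, 3, 2], [1, 0, 0, 2], [1, 4, -3, 1], [0, 2, -1, 0], [-2, 1, -1, 1], [-3, -1, -4, 0], [-2, -1, -3, 0], [1, -1, 2, 1], [2, 0, 1, 4], [0, 1, -2, 1], [0, 2, -1, 0], [-1, 1, -1, 0], [-2, -2, -1, 1]],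
   [[-1, 2, -3, -2], [0, 0, 0, 0], [3, 1, -4, 4], [0, 1, -2, -1], [0, 1, -2, -1], [-1, 1, -1, 0], [-2, 0, -5, -1], [-2, 0, -5, -1], [-1, 3, -4, -3], [2, 0, 1, 5], [0, 1, -2, 0], [0, 1, -2, -1], [-1, 1, -2, -1], [-1, 0, -2, -1]],
   [[-1, 0, 0, -2], [-3, -1, 4, -4], [0, 0, 0, 0], [-3, 0, 1, -7], [-1, 0, 1, -2], [-1, 0, 1, -2], [-3, -1, 1, -1], [-8, -1, -8, -7], [-3, 0, 1, -7], [-7, -1, 9, -21], [-2, 0, 1, -5], [-2, 0, 1, -4], [-1, 0, 1, -2], [-3, -1, -1, 1]],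
   [[-1, -4, 3, -1], [0, -1, 2, 1], [3, 0, -1, 7], [0, 0, 0, 0], [-4, 1, 6, -1], [-2, 1, 1, 1], [-1, -2, 2, -1], [-1, -4, 3, -1], [0, -1, 1, 0], [3, 0, 1, 7], [1, 3, -4, 3], [-1, -1, 2, -1], [-5, 1, 7, -1], [-1, -1, 1, 0]],
   [[0, -2, 1, 0], [0, -1, 2, 1], [1, 0, -1, 2], [4, -1, -6, 1], [0, 0, 0, 0], [-3, 1, 1, 1], [-1, -1, -1, 0], [0, -1, -1, 0], [1, -4, 3, 1], [8, -1, -8, 7], [-1, 1, -5, 1], [2, -1, -3, 0], [-3, 1, 0, 0], [-2, -2, 0, 1]],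
   [[2, -1, 1, -1], [1, -1, 1, 0], [1, 0, -1, 2], [2, -1, -1, -1], [3, -1, -1, -1], [0, 0, 0, 0], [2, -2, -1, -1], [2, -2, 0, -1], [1, -1, 1, 0], [3, -1, -1, -1], [1, 0, -2, 1], [2, -2, -1, -1], [9, -4, 1, -8], [-1, -1, 0, 1]],
   [[3, 1, 4, 0], [2, 0, 5, 1], [3, 1, -1, 1], [1, 2, -2, 1], [1, 1, 1, 0], [-2, 2, 1, 1], [0, 0, 0, 0], [3, 1, 0, 0], [5, 1, 7, 1], [1, 0, 1, 2], [1, 1, -2, 1], [0, 1, 0, 0], [0, 0, 1, 0], [-9, -4, 1, 8]],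
   [[2, 1, 3, 0], [2, 0, 5, 1], [8, 1, 8, 7], [1, 4, -3, 1], [0, 1, 1, 0], [-2, 2, 0, 1], [-3, -1, 0, 0], [0, 0, 0, 0], [4, 1, 6, 1], [1, 0, 1, 2], [0, 1, -2, 1], [0, 2, -1, 0], [-1, 1, 0, 0], [-3, -1, -1, 1]],
   [[-1, 1, -2, -1], [1, -3, 4, 3], [3, 0, -1, 7], [0, 1, -1, 0], [-1, 4, -3, -1], [-1, 1, -1, 0], [-5, -1, -7, -1], [-4, -1, -6, -1], [0, 0, 0, 0], [3, 0, 1, 7], [0, 1, -2, 1], [-1, 4, -3, -1], [-1, 2, -2, -1], [-2, -2, -1, 1]],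
   [[-2, 0, -1, -4], [-2, 0, -1, -5], [7, 1, -9, 21], [-3, 0, -1, -7], [-8, 1, 8, -7], [-3, 1, 1, 1], [-1, 0, -1, -2], [-1, 0, -1, -2], [-3, 0, -1, -7], [0, 0, 0, 0], [-4, 1, -4, -7], [-1, 0, 0, -2], [-3, 1, -3, -3], [-1, 0, -1, -2]],
   [[0, -1, 2, -1], [0, -1, 2, 0], [2, 0, -1, 5], [-1, -3, 4, -3], [1, -1, 5, -1], [-1, 0, 2, -1], [-1, -1, 2, -1], [0, -1, 2, -1], [0, -1, 2, -1], [4, -1, 4, 7], [0, 0, 0, 0], [-1, -2, 3, -2], [-2, 0, 5, -1], [-1, -1, 1, 0]],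
   [[0, -2, 1, 0], [0, -1, 2, 1], [2, 0, -1, 4], [1, 1, -2, 1], [-2, 1, 3, 0], [-2, 2, 1, 1], [0, -1, 0, 0], [0, -2, 1, 0], [1, -4, 3, 1], [1, 0, 0, 2], [1, 2, -3, 2], [0, 0, 0, 0], [-3, 1, 4, 0], [-2, -2, 1, 1]],
   [[1, -1, 1, 0], [1, -1, 2, 1], [1, 0, -1, 2], [5, -1, -7, 1], [3, -1, 0, 0], [-9, 4, -1, 8], [0, 0, -1, 0], [1, -1, 0, 0], [1, -2, 2, 1], [3, -1, 3, 3], [2, 0, -5, 1], [3, -1, -4, 0], [0, 0, 0, 0], [-2, -2, -1, 1]],
   [[2, 2, 1, -1], [1, 0, 2, 1], [3, 1, 1, -1], [1, 1, -1, 0], [2, 2, 0, -1], [1, 1, 0, -1], [9, 4, -1, -8], [3, 1, 1, -1], [2, 2, 1, -1], [1, 0, 1, 2], [1, 1, -1, 0], [2, 2, -1, -1], [2, 2, 1, -1], [0, 0, 0, 0]]]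

/-- functionals for affine independence -/
def certA : List (List (List ℤ)) :=
  [[[-1, 1, -2, -1], [0, -1, 1, 0], [0, 0, 0, 0], [-1, 0, -1, 0], [0, 0, 0, 0], [0, 0, 0, 0], [0, 0, 0, 0]],
   [[0, 0, 0, 0], [-2, 0, -1, -5], [0, 0, -1, -1], [0, 0, 0, 0], [-1, 0, -2, -1], [0, 0, 0, 0], [0, 0, 0, 0]],
   [[0, 0, 0, 0], [0, 0, 0, 0], [-2, 0, 1, -5], [-1, 0, 0, -3], [0, 0, 0, 0], [0, 0, -1, 1], [0, 0, 0, 0]],
   [[0, 0, 0, 0], [0, 0, 0, 0], [0, 0, 0, 0], [-1, 1, 1, 0], [0, 0, -1, 1], [0, 0, 0, 0], [-1, -1, 1, -2]],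
   [[0, 0, -1, -1], [0, 0, 0, 0], [0, 0, 0, 0], [0, 0, 0, 0], [-3, 1, 0, 0], [-1, 1, 1, 0], [0, 0, 0, 0]],
   [[0, 0, 0, 0], [-1, 0, 2, -1], [0, 0, 0, 0], [0, 0, 0, 0], [0, 0, 0, 0], [-1, -1, 0, 1], [0, 0, -1, -1]],
   [[0, 0, -1, 1], [0, 0, 0, 0], [-1, -1, 1, 0], [0, 0, 0, 0], [0, 0, 0, 0], [0, 0, 0, 0], [-3, -1, 0, 0]],
   [[0, 0, -1, 1], [0, 0, 0, 0], [-1, -1, -1, 0], [-3, -1, 0, 0], [0, 0, 0, 0], [0, 0, 0, 0], [0, 0, 0, 0]],
   [[0, 0, 0, 0], [-1, -1, 1, -2], [0, 0, 0, 0], [0, 0, -1, -1], [-1, -1, -1, 0], [0, 0, 0, 0], [0, 0, 0, 0]],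
   [[0, 0, 0, 0], [0, 0, 0, 0], [0, 0, -1, -1], [0, 0, 0, 0], [-1, 0, 0, -3], [-2, 0, -1, -5], [0, 0, 0, 0]],
   [[0, 0, 0, 0], [0, 0, 0, 0], [0, 0, 0, 0], [-1, 0, 2, -1], [0, 0, 0, 0], [0, 0, -1, 1], [-2, 0, 1, -5]],
   [[-1, -1, 2, -1], [0, 0, 0, 0], [0, 0, 0, 0], [0, 0, 0, 0], [-1, -1, 1, 0], [0, 0, 0, 0], [0, -1, 1, 0]],
   [[0, 0, -1, -1], [-3, 1, 0, 0], [0, 0, 0, 0], [0, 0, 0, 0], [0, 0, 0, 0], [-1, -1, -1, 0], [0, 0, 0, 0]],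
   [[0, 0, 0, 0], [0, 0, -1, 1], [-1, -1, 0, 1], [0, 0, 0, 0], [0, 0, 0, 0], [0, 0, 0, 0], [-1, 0, -2, -1]]]

/-- value of the functional with coefficient list `l` at the vertex `k` -/
def hz (l : List ℤ) (k : ℕ) : ℤ :=
  l.getD 0 0 * vz k 0 + l.getD 1 0 * vz k 1 + l.getD 2 0 * vz k 2 + l.getD 3 0

theorem cert_ok : ∀ i j : Fin 14, i ≠ j →
    (∀ k ∈ fc i, 0 ≤ hz ((cert.getD i []).getD j []) k ∧
      (hz ((cert.getD i []).getD j []) k = 0 → k ∈ fc j)) ∧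
    (∀ k ∈ fc j, hz ((cert.getD i []).getD j []) k ≤ 0) := by
  decide +kernel

theorem certA_ok : ∀ i : Fin 14, ∀ k ∈ fc i, hz ((certA.getD i []).getD k []) k ≠ 0 ∧
    ∀ j ∈ fc i, j ≠ k → hz ((certA.getD i []).getD k []) j = 0 := by
  decide +kernel

/-- the real functional -/
noncomputable def hR (l : List ℤ) (p : EuclideanSpace ℝ (Fin 3)) : ℝ :=
  (l.getD 0 0 : ℤ) * p 0 + (l.getD 1 0 : ℤ) * p 1 + (l.getD 2 0 : ℤ) * p 2 + (l.getD 3 0 : ℤ)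

theorem hR_vv (l : List ℤ) (k : Fin 7) : hR l (vv k) = (hz l k : ℝ) := by
  simp only [hR, hz, vv]
  push_cast
  rfl

theorem hR_sum {ι : Type*} (l : List ℤ) (s : Finset ι) (w : ι → ℝ)
    (p : ι → EuclideanSpace ℝ (Fin 3)) :
    hR l (∑ i ∈ s, w i • p i) =
      ∑ i ∈ s, w i * hR l (p i) + (l.getD 3 0 : ℤ) * (1 - ∑ i ∈ s, w i) := by
  have h0 : ∀ j : Fin 3, (∑ i ∈ s, w i • p i) j = ∑ i ∈ s, w i * p i j := by
    intro j
    induction s using Finset.cons_induction with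
    | empty => simp
    | cons a s ha ih => rw [Finset.sum_cons, Finset.sum_cons, PiLp.add_apply, ih]; simp
  simp only [hR, h0, Finset.mul_sum, mul_add, Finset.sum_add_distrib, mul_sub, mul_one]
  have e : ∀ j : Fin 3, ∀ c : ℝ, ∑ i ∈ s, c * (w i * p i j) = ∑ i ∈ s, w i * (c * p i j) :=
    fun j c => Finset.sum_congr rfl (fun i _ => by ring)
  rw [e 0, e 1, e 2]
  have e' : ∑ i ∈ s, w i * ((l.getD 3 0 : ℤ) : ℝ) = ∑ i ∈ s, ((l.getD 3 0 : ℤ) : ℝ) * w i :=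
    Finset.sum_congr rfl (fun i _ => by ring)
  rw [e']
  ring

theorem inter_of_sep (l : List ℤ) (σ τ : Finset (Fin 7))
    (h1 : ∀ k ∈ σ, 0 ≤ hz l k ∧ (hz l k = 0 → k ∈ τ)) (h2 : ∀ k ∈ τ, hz l k ≤ 0) :
    convexHull ℝ (vv '' (σ : Set (Fin 7))) ∩ convexHull ℝ (vv '' (τ : Set (Fin 7))) =
      convexHull ℝ (vv '' ((σ ∩ τ : Finset (Fin 7)) : Set (Fin 7))) := by
  apply Set.Subset.antisymm
  · rintro x ⟨hx1, hx2⟩
    have hx2' : hR l x ≤ 0 := by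
      have hc : vv '' (τ : Set (Fin 7)) = ((τ.image vv : Finset _) : Set _) := by
        rw [Finset.coe_image]
      rw [hc, Finset.mem_convexHull'] at hx2
      obtain ⟨w, hw0, hw1, hw2⟩ := hx2
      rw [← hw2, hR_sum, hw1]
      simp only [sub_self, mul_zero, add_zero]
      apply Finset.sum_nonpos
      intro y hy
      have hwy := hw0 y hy
      obtain ⟨k, hk, rfl⟩ := Finset.mem_image.1 hy
      rw [hR_vv]
      exact mul_nonpos_of_nonneg_of_nonpos hwy (by exact_mod_cast h2 k hk)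
    have hc : vv '' (σ : Set (Fin 7)) = ((σ.image vv : Finset _) : Set _) := by
      rw [Finset.coe_image]
    rw [hc, Finset.mem_convexHull'] at hx1
    obtain ⟨w, hw0, hw1, hw2⟩ := hx1
    have hnn : ∀ y ∈ σ.image vv, 0 ≤ w y * hR l y := by
      intro y hy
      have hwy := hw0 y hy
      obtain ⟨k, hk, rfl⟩ := Finset.mem_image.1 hy
      rw [hR_vv]
      exact mul_nonneg hwy (by exact_mod_cast (h1 k hk).1)
    have hsum : ∑ y ∈ σ.image vv, w y * hR l y = 0 := by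
      have h3 : hR l x = ∑ y ∈ σ.image vv, w y * hR l y := by
        rw [← hw2, hR_sum, hw1]; simp
      have h4 := Finset.sum_nonneg hnn
      linarith
    have hz0 := (Finset.sum_eq_zero_iff_of_nonneg hnn).1 hsum
    have hsub : ((σ.image vv).filter (fun y => w y ≠ 0)) ⊆ (σ ∩ τ).image vv := by
      intro y hy
      rw [Finset.mem_filter] at hy
      obtain ⟨k, hk, rfl⟩ := Finset.mem_image.1 hy.1
      have h5 := hz0 _ hy.1
      rw [hR_vv] at h5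
      have h6 : (hz l k : ℝ) = 0 := by
        rcases mul_eq_zero.1 h5 with h | h
        · exact absurd h hy.2
        · exact h
      have h7 : hz l k = 0 := by exact_mod_cast h6
      exact Finset.mem_image.2 ⟨k, Finset.mem_inter.2 ⟨hk, (h1 k hk).2 h7⟩, rfl⟩
    have hc2 : vv '' ((σ ∩ τ : Finset (Fin 7)) : Set (Fin 7)) =
        (((σ ∩ τ).image vv : Finset _) : Set _) := by
      rw [Finset.coe_image]
    rw [hc2]
    apply convexHull_mono (Finset.coe_subset.2 hsub)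
    rw [Finset.mem_convexHull']
    refine ⟨w, fun y hy => hw0 y (Finset.mem_filter.1 hy).1, ?_, ?_⟩
    · rw [Finset.sum_filter_ne_zero]; exact hw1
    · rw [← hw2]
      refine Finset.sum_subset (Finset.filter_subset _ _) (fun y hy hy' => ?_)
      have : w y = 0 := by
        by_contra hne
        exact hy' (Finset.mem_filter.2 ⟨hy, hne⟩)
      rw [this, zero_smul]
  · apply Set.subset_inter
    · exact convexHull_mono (Set.image_mono (by exact_mod_cast Finset.inter_subset_left))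
    · exact convexHull_mono (Set.image_mono (by exact_mod_cast Finset.inter_subset_right))

theorem fc_inter (i j : Fin 14) :
    convexHull ℝ (vv '' (fc i : Set (Fin 7))) ∩ convexHull ℝ (vv '' (fc j : Set (Fin 7))) =
      convexHull ℝ (vv '' ((fc i ∩ fc j : Finset (Fin 7)) : Set (Fin 7))) := by
  rcases eq_or_ne i j with rfl | h
  · simp
  · exact inter_of_sep _ _ _ (cert_ok i j h).1 (cert_ok i j h).2

theorem fc_affine (i : Fin 14) :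
    AffineIndependent ℝ (fun k : (fc i : Set (Fin 7)) => vv k) := by
  rw [affineIndependent_iff]
  intro s w hw0 hw1 e he
  have h1 := certA_ok i e e.2
  set l := (certA.getD i []).getD (e : Fin 7) [] with hl
  have h2 := hR_sum l s w (fun k : (fc i : Set (Fin 7)) => vv k)
  have h3 : hR l (∑ e ∈ s, w e • (fun k : (fc i : Set (Fin 7)) => vv k) e) =
      ((l.getD 3 0 : ℤ) : ℝ) := by
    rw [hw1]; simp [hR]
  rw [h3, hw0] at h2
  have h4 : ∑ k ∈ s, w k * hR l (vv k) = w e * hR l (vv e) := by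
    apply Finset.sum_eq_single e
    · intro k _ hke
      rw [hR_vv, h1.2 k k.2 (fun h => hke (Subtype.ext h))]
      simp
    · intro h; exact absurd he h
  simp only [sub_zero, mul_one] at h2
  rw [h4, hR_vv] at h2
  have h5 : w e * (hz l e : ℝ) = 0 := by linarith
  rcases mul_eq_zero.1 h5 with h | h
  · exact h
  · exact absurd (by exact_mod_cast h) h1.1

theorem mem_F (F : Set (Finset (Fin 7)))
    (hF : F = Set.range (fun i : Fin 7 => ({i, i + 1, i + 3} : Finset (Fin 7))) ∪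
          Set.range (fun i : Fin 7 => ({i, i + 2, i + 3} : Finset (Fin 7))))
    (σ : Finset (Fin 7)) : σ ∈ F ↔ ∃ i : Fin 14, fc i = σ := by
  subst hF
  constructor
  · rintro (⟨i, rfl⟩ | ⟨i, rfl⟩)
    · fin_cases i
      exacts [⟨0, by decide⟩, ⟨1, by decide⟩, ⟨2, by decide⟩, ⟨3, by decide⟩, ⟨4, by decide⟩,
        ⟨5, by decide⟩, ⟨6, by decide⟩]
    · fin_cases i
      exacts [⟨7, by decide⟩, ⟨8, by decide⟩, ⟨9, by decide⟩, ⟨10, by decide⟩, ⟨11, by decide⟩,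
        ⟨12, by decide⟩, ⟨13, by decide⟩]
  · rintro ⟨i, rfl⟩
    unfold fc
    split_ifs with h
    · exact Or.inl ⟨_, rfl⟩
    · exact Or.inr ⟨_, rfl⟩

/-- Module M1: affine independence of the faces and the 91 intersections. -/
theorem M1 (F : Set (Finset (Fin 7)))
    (hF : F = Set.range (fun i : Fin 7 => ({i, i + 1, i + 3} : Finset (Fin 7))) ∪
          Set.range (fun i : Fin 7 => ({i, i + 2, i + 3} : Finset (Fin 7)))) :
    (∀ σ ∈ F, AffineIndependent ℝ (fun k : (σ : Set (Fin 7)) => vv k)) ∧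
    (∀ σ ∈ F, ∀ τ ∈ F,
      convexHull ℝ (vv '' (σ : Set (Fin 7))) ∩ convexHull ℝ (vv '' (τ : Set (Fin 7))) =
        convexHull ℝ (vv '' ((σ ∩ τ : Finset (Fin 7)) : Set (Fin 7)))) := by
  constructor
  · intro σ hσ
    obtain ⟨i, rfl⟩ := (mem_F F hF σ).1 hσ
    exact fc_affine i
  · intro σ hσ τ hτ
    obtain ⟨i, rfl⟩ := (mem_F F hF σ).1 hσ
    obtain ⟨j, rfl⟩ := (mem_F F hF τ).1 hτ
    exact fc_inter i j



theorem vert_eq : vert = vv := by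
  funext k
  fin_cases k <;> ext j <;> fin_cases j <;> simp [vert, vv, pt, vz]

theorem faces_indep : ∀ σ ∈ faces, AffineIndependent ℝ (fun k : (σ : Set (Fin 7)) => vert k) := by
  rw [vert_eq]
  exact (M1 faces rfl).1

theorem faces_inter : ∀ σ ∈ faces, ∀ τ ∈ faces,
    convexHull ℝ (vert '' (σ : Set (Fin 7))) ∩ convexHull ℝ (vert '' (τ : Set (Fin 7))) =
      convexHull ℝ (vert '' ((σ ∩ τ : Finset (Fin 7)) : Set (Fin 7))) := by
  rw [vert_eq]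
  exact (M1 faces rfl).2

end Pool.Agent.Csz.M1
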