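import Mathlib
import Pool.Agent.Csz.Defs
set_option autoImplicit false
open Set Filter Topology

namespace Pool.Agent.Csz.M2

/-- smooth step on [-1,1] -/
noncomputable def st (v : ℝ) : ℝ := Real.smoothTransition ((v + 1) / 2)
/-- smooth positive part: `G v = ∫_{-1}^v st` -/
noncomputable def G (v : ℝ) : ℝ := ∫ s in (-1 : ℝ)..v, st s

theorem st_contDiff : ContDiff ℝ (⊤ : ℕ∞) st := by
  unfold st
  exact Real.smoothTransition.contDiff.comp (by fun_prop)
theorem st_continuous : Continuous st := st_contDiff.continuous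
theorem st_nonneg (v : ℝ) : 0 ≤ st v := Real.smoothTransition.nonneg _
theorem st_le_one (v : ℝ) : st v ≤ 1 := Real.smoothTransition.le_one _
theorem st_of_le (v : ℝ) (h : v ≤ -1) : st v = 0 :=
  Real.smoothTransition.zero_of_nonpos (by linarith)
theorem st_of_ge (v : ℝ) (h : 1 ≤ v) : st v = 1 :=
  Real.smoothTransition.one_of_one_le (by linarith)
theorem st_pos (v : ℝ) (h : -1 < v) : 0 < st v :=
  Real.smoothTransition.pos_of_pos (by linarith)
theorem st_lt_one (v : ℝ) (h : v < 1) : st v < 1 :=
  Real.smoothTransition.lt_one_of_lt_one (by linarith)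
theorem st_symm (v : ℝ) : st v + st (-v) = 1 := by
  unfold st Real.smoothTransition
  have h1 : (1 : ℝ) - (v + 1) / 2 = (-v + 1) / 2 := by ring
  have h2 : (1 : ℝ) - (-v + 1) / 2 = (v + 1) / 2 := by ring
  rw [h1, h2, add_comm (expNegInvGlue ((-v + 1) / 2)) (expNegInvGlue ((v + 1) / 2)), ← add_div]
  apply div_self
  have := Real.smoothTransition.pos_denom ((v + 1) / 2)
  rw [h1] at this
  exact this.ne'
theorem st_mono : Monotone st := by
  intro a b hab
  exact Real.smoothTransition.monotone (by linarith)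

theorem expNegInvGlue_strict {a b : ℝ} (ha : 0 ≤ a) (hab : a < b) :
    expNegInvGlue a < expNegInvGlue b := by
  rcases eq_or_lt_of_le ha with h | h
  · rw [← h, expNegInvGlue.zero]; exact expNegInvGlue.pos_of_pos (by linarith)
  · unfold expNegInvGlue
    rw [if_neg (by linarith), if_neg (by linarith)]
    apply Real.exp_lt_exp.2
    have := inv_strictAnti₀ h hab
    linarith

theorem st_strict (v w : ℝ) (h1 : -1 ≤ v) (h2 : v < w) (h3 : w ≤ 1) : st v < st w := by
  unfold st Real.smoothTransition
  have e1 := expNegInvGlue_strict (a := (v + 1) / 2) (b := (w + 1) / 2) (by linarith) (by linarith)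
  have e2 := expNegInvGlue_strict (a := 1 - (w + 1) / 2) (b := 1 - (v + 1) / 2)
    (by linarith) (by linarith)
  have p1 := Real.smoothTransition.pos_denom ((v + 1) / 2)
  have p2 := Real.smoothTransition.pos_denom ((w + 1) / 2)
  have n1 := expNegInvGlue.nonneg ((v + 1) / 2)
  have n2 := expNegInvGlue.nonneg (1 - (w + 1) / 2)
  rw [div_lt_div_iff₀ p1 p2]
  nlinarith

/-- a version of strictness without upper bound on `w` -/
theorem st_lt (v w : ℝ) (h1 : -1 ≤ v) (h2 : v < w) (h3 : v < 1) : st v < st w := by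
  rcases le_or_gt w 1 with h | h
  · exact st_strict v w h1 h2 h
  · rw [st_of_ge w h.le]; exact st_lt_one v h3

theorem G_hasDerivAt (v : ℝ) : HasDerivAt G (st v) v := by
  unfold G
  exact intervalIntegral.integral_hasDerivAt_right (st_continuous.intervalIntegrable _ _)
    (st_continuous.stronglyMeasurableAtFilter _ _) st_continuous.continuousAt

theorem G_deriv : deriv G = st := by
  funext s; exact (G_hasDerivAt s).deriv

theorem G_differentiable : Differentiable ℝ G := fun s => (G_hasDerivAt s).differentiableAt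

theorem G_contDiff : ContDiff ℝ (⊤ : ℕ∞) G := by
  rw [contDiff_infty_iff_deriv]
  exact ⟨G_differentiable, by rw [G_deriv]; exact st_contDiff⟩

theorem G_of_le (v : ℝ) (h : v ≤ -1) : G v = 0 := by
  unfold G
  rw [intervalIntegral.integral_congr (g := fun _ => (0:ℝ))]
  · simp
  · intro u hu
    rw [Set.uIcc_of_ge h] at hu
    exact st_of_le _ hu.2

theorem G_mono : Monotone G :=
  monotone_of_deriv_nonneg G_differentiable (fun s => by rw [G_deriv]; exact st_nonneg s)

theorem G_nonneg (v : ℝ) : 0 ≤ G v := by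
  rcases le_total v (-1) with h | h
  · rw [G_of_le v h]
  · rw [← G_of_le (-1) le_rfl]; exact G_mono h

theorem G_symm (v : ℝ) : G v - G (-v) = v := by
  have hd : ∀ x : ℝ, HasDerivAt (fun s => G s - G (-s) - s) 0 x := by
    intro x
    have h1 := G_hasDerivAt x
    have h2 : HasDerivAt (fun s : ℝ => G (-s)) (st (-x) * (-1)) x :=
      (G_hasDerivAt (-x)).comp x (hasDerivAt_neg x)
    have h3 := (h1.sub h2).sub (hasDerivAt_id x)
    have h4 : st x - st (-x) * (-1) - 1 = 0 := by
      have := st_symm x; linarith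
    rw [h4] at h3
    exact h3
  have hc := is_const_of_deriv_eq_zero (f := fun s => G s - G (-s) - s)
    (fun x => (hd x).differentiableAt) (fun x => (hd x).deriv) v 0
  simp at hc
  linarith

theorem G_of_ge (v : ℝ) (h : 1 ≤ v) : G v = v := by
  have h1 := G_symm v
  have h2 : G (-v) = 0 := G_of_le _ (by linarith)
  linarith

theorem G_ge (v : ℝ) : v ≤ G v := by
  have h1 := G_symm v
  have h2 := G_nonneg (-v)
  linarith

theorem G_lip {s t : ℝ} (h : s ≤ t) : G t - G s ≤ t - s := by
  have h1 := G_symm s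
  have h2 := G_symm t
  have h3 : G (-t) ≤ G (-s) := G_mono (by linarith)
  linarith

theorem G_le (v : ℝ) : G v ≤ max v 0 + 1 := by
  rcases le_total v (-1) with h | h
  · rw [G_of_le v h]; have := le_max_right v 0; linarith
  · have h1 := G_lip h
    rw [G_of_le (-1) le_rfl] at h1
    have := le_max_left v 0
    linarith

theorem G_convex : ConvexOn ℝ univ G := by
  apply MonotoneOn.convexOn_of_deriv convex_univ G_differentiable.continuous.continuousOn
    G_differentiable.differentiableOn
  rw [G_deriv]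
  exact st_mono.monotoneOn _

/-- `hh ε v = ε G (v/ε)` -/
noncomputable def hh (ε v : ℝ) : ℝ := ε * G (v / ε)

theorem hh_symm (ε v : ℝ) (hε : 0 < ε) : hh ε v - hh ε (-v) = v := by
  unfold hh
  have h := G_symm (v / ε)
  have h2 : -v / ε = -(v / ε) := by ring
  rw [h2, ← mul_sub, h]; field_simp

theorem hh_hasDerivAt (ε v : ℝ) (hε : 0 < ε) : HasDerivAt (hh ε) (st (v / ε)) v := by
  unfold hh
  have h1 : HasDerivAt (fun v : ℝ => v / ε) (1 / ε) v := by
    simpa using (hasDerivAt_id v).div_const ε
  have h2 := ((G_hasDerivAt (v / ε)).comp v h1).const_mul ε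
  refine h2.congr_deriv ?_
  field_simp

theorem hh_continuous (ε : ℝ) (hε : 0 < ε) : Continuous (hh ε) :=
  continuous_iff_continuousAt.2 fun v => (hh_hasDerivAt ε v hε).continuousAt


theorem hh_contDiff (ε : ℝ) : ContDiff ℝ (⊤ : ℕ∞) (hh ε) := by
  unfold hh
  exact contDiff_const.mul (G_contDiff.comp (contDiff_id.div_const ε))

theorem hh_deriv (ε : ℝ) (hε : 0 < ε) : deriv (hh ε) = fun v => st (v / ε) := by
  funext v; exact (hh_hasDerivAt ε v hε).deriv

theorem ramp_hh (ε : ℝ) (hε : 0 < ε) : Ramp (hh ε) ε where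
  pos := hε
  smooth := hh_contDiff ε
  zero := by
    intro s hs
    unfold hh
    rw [G_of_le _ (by rw [div_le_iff₀ hε]; linarith), mul_zero]
  id := by
    intro s hs
    unfold hh
    rw [G_of_ge _ (by rw [le_div_iff₀ hε]; linarith)]
    field_simp
  symm := fun s => hh_symm ε s hε
  dnonneg := by
    intro s; rw [hh_deriv ε hε]; exact st_nonneg _
  dle := by
    intro s; rw [hh_deriv ε hε]; exact st_le_one _
  dmono := by
    rw [hh_deriv ε hε]
    intro s t hst
    exact st_mono (div_le_div_of_nonneg_right hst hε.le)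
  dpos := by
    intro s hs
    rw [hh_deriv ε hε]
    apply st_pos
    rw [lt_div_iff₀ hε]; linarith

theorem exists_ramp (ε : ℝ) (hε : 0 < ε) : ∃ χ : ℝ → ℝ, Ramp χ ε := ⟨hh ε, ramp_hh ε hε⟩

end Pool.Agent.Csz.M2
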