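import Mathlib
import Pool.Agent.Csz.Defs
import Pool.Agent.Csz.PL

/-! Definitions for M8 (PL map g): lifted positions of the vertices in the 14 faces. -/

set_option autoImplicit false
set_option linter.all false

open Complex Set

namespace Pool.Agent.Csz

/-- the fourteen faces, indexed -/
def fcs : Fin 14 → Finset (Fin 7) :=
  ![{0, 1, 3}, {1, 3, 4}, {3, 4, 6}, {0, 4, 6}, {0, 4, 5}, {0, 1, 5}, {0, 2, 6}, {0, 2, 3},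
    {1, 2, 6}, {1, 2, 4}, {2, 4, 5}, {2, 3, 5}, {3, 5, 6}, {1, 5, 6}]

/-- first coordinate σ of the lifted vertex k in the face j -/
def ps : Fin 14 → Fin 7 → ℤ :=
  ![![1, 0, 0, 2, 0, 0, 0], ![0, 0, 0, 2, 0, 0, 0], ![0, 0, 0, 2, 0, 0, 2],
    ![1, 0, 0, 0, 0, 0, 2], ![1, 0, 0, 0, 0, 0, 0], ![1, 0, 0, 0, 0, 0, 0],
    ![1, 0, 2, 0, 0, 0, 2], ![1, 0, 2, 2, 0, 0, 0], ![0, 3, 2, 0, 0, 0, 2],
    ![0, 3, 2, 0, 3, 0, 0], ![0, 0, 2, 0, 3, 3, 0], ![0, 0, 2, 2, 0, 3, 0],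
    ![0, 0, 0, 2, 0, 3, 2], ![0, 3, 0, 0, 0, 3, 2]]

/-- three times the second coordinate of the lifted vertex k in the face j -/
def pt3 : Fin 14 → Fin 7 → ℤ :=
  ![![0, 0, 0, 2, 0, 0, 0], ![0, 0, 0, 2, 1, 0, 0], ![0, 0, 0, 2, 1, 0, 3],
    ![3, 0, 0, 0, 1, 0, 3], ![3, 0, 0, 0, 1, 2, 0], ![3, 3, 0, 0, 0, 2, 0],
    ![0, 0, 1, 0, 0, 0, 0], ![0, 0, 1, 2, 0, 0, 0], ![0, 0, 1, 0, 0, 0, 0],
    ![0, 0, 1, 0, 1, 0, 0], ![0, 0, 1, 0, 1, 2, 0], ![0, 0, 1, 2, 0, 2, 0],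
    ![0, 0, 0, 2, 0, 2, 3], ![0, 3, 0, 0, 0, 2, 3]]

/-- the point p of space and the position (s,t) in the strip have the same barycentric
coordinates in some (lifted) face -/
def Rep (p : E3) (s t : ℝ) : Prop :=
  ∃ (j : Fin 14) (l : Fin 7 → ℝ), (∀ k, 0 ≤ l k) ∧ (∀ k, k ∉ fcs j → l k = 0) ∧
    ∑ k, l k = 1 ∧ p = ∑ k, l k • vert k ∧ s = ∑ k, l k * (ps j k : ℝ) ∧
    3 * t = ∑ k, l k * (pt3 j k : ℝ)

end Pool.Agent.Csz
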