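import Mathlib
import Pool.Agent.Csz.Defs
import Pool.Agent.Csz.PL
import Pool.Agent.Csz.M8d

set_option autoImplicit false
set_option linter.all false

open Complex Set

namespace Pool.Agent.Csz.M8

theorem cl_zero {t : ℝ} (h : t ≤ 0) : cl t = 0 := by
  unfold cl
  rw [min_eq_right (by linarith), max_eq_left h]

theorem cl_one {t : ℝ} (h : 1 ≤ t) : cl t = 1 := by
  unfold cl
  rw [min_eq_left h, max_eq_right (by norm_num)]

theorem cl_id {t : ℝ} (h : 0 ≤ t) (h' : t ≤ 1) : cl t = t := by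
  unfold cl
  rw [min_eq_right h', max_eq_right h]

theorem cl_nonneg (t : ℝ) : 0 ≤ cl t := le_max_left _ _

theorem cl_le_one (t : ℝ) : cl t ≤ 1 := max_le (by norm_num) (min_le_left _ _)

theorem cl_mono {s t : ℝ} (h : s ≤ t) : cl s ≤ cl t :=
  max_le_max le_rfl (min_le_min le_rfl h)

theorem cl_cont : Continuous cl := by
  unfold cl
  fun_prop

theorem sum_vert (l : Fin 7 → ℝ) : ∑ k, l k • vert k =
    pt (l 1 + l 2 * (-3 + 9 * I) + l 3 * (-2 + I) + l 4 * (-2 - I) + l 5 * (-3 - 9 * I) + l 6)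
      (-l 1 + l 2 + l 3 - l 4 - l 5 + l 6) := by
  rw [Fin.sum_univ_seven]
  ext j
  fin_cases j <;> simp [vert, pt] <;> ring

theorem pt_congr {w w' : ℂ} {z z' : ℝ} (h : w = w') (h' : z = z') : pt w z = pt w' z' := by
  rw [h, h']

theorem r1_0 (σ θ : ℝ) (h1 : 0 ≤ σ) (h2 : σ ≤ 1) (h3 : 0 ≤ θ) (h4 : θ ≤ 1) :
    Rep (f0in σ θ) σ (k0in σ θ) := by
  obtain ⟨c, hc⟩ : ∃ c, c = θ := ⟨_, rfl⟩
  have hc0 : 0 ≤ c := by linarith
  have hc1 : c ≤ 1 := by linarith
  have e0 : cl θ = c := by rw [hc]; exact cl_id (by linarith) (by linarith)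
  have e1 : cl (θ - 1) = 0 := cl_zero (by linarith)
  have e2 : cl (θ - 2) = 0 := cl_zero (by linarith)
  have e3 : cl (θ - 3) = 0 := cl_zero (by linarith)
  have e4 : cl (θ - 4) = 0 := cl_zero (by linarith)
  have e5 : cl (θ - 5) = 0 := cl_zero (by linarith)
  have e6 : cl (θ - 6) = 0 := cl_zero (by linarith)
  have e7 : cl (θ - 7) = 0 := cl_zero (by linarith)
  have e8 : cl (θ - 8) = 0 := cl_zero (by linarith)
  have e9 : cl (θ - 9) = 0 := cl_zero (by linarith)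
  have a1 : hA σ = 1 - σ := by unfold hA; rw [max_eq_left (by linarith)]
  have a2 : hB σ = 0 := by unfold hB; rw [max_eq_right (by linarith)]
  have a3 : hK σ = σ := by unfold hK; rw [abs_of_nonpos (by linarith)]; ring
  have g0 : 0 ≤ 1 - σ := by linarith
  have g1 : 0 ≤ 1 - c := by linarith
  refine ⟨0, ![(σ), (1 - σ), 0, 0, 0, 0, 0], ?_, ?_, ?_, ?_, ?_, ?_⟩
  · intro k; fin_cases k <;> simp <;> first | positivity | linarith | nlinarith
  · intro k hk; fin_cases k <;> simp [fcs] at hk ⊢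
  · rw [Fin.sum_univ_seven]; simp; try ring
  · rw [sum_vert]
    unfold f0in VA0 VK0 VB0
    rw [a1, a2, a3]
    simp only [e0, e1, e2, e3, e4, e5, e6, e7, e8, e9]
    apply pt_congr
    · simp; try ring
    · simp; try ring
  · rw [Fin.sum_univ_seven]; simp [ps]; try ring
  · rw [Fin.sum_univ_seven]
    unfold k0in TA0 TK0 TB0
    rw [a1, a2, a3]
    simp only [e0, e1, e2, e3, e4, e5, e6, e7, e8, e9]
    simp [pt3]; try ring

theorem r2_0 (σ θ : ℝ) (h1 : 1 ≤ σ) (h2 : σ ≤ 2) (h3 : 0 ≤ θ) (h4 : θ ≤ 1) :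
    Rep (f0in σ θ) σ (k0in σ θ) := by
  obtain ⟨c, hc⟩ : ∃ c, c = θ := ⟨_, rfl⟩
  have hc0 : 0 ≤ c := by linarith
  have hc1 : c ≤ 1 := by linarith
  have e0 : cl θ = c := by rw [hc]; exact cl_id (by linarith) (by linarith)
  have e1 : cl (θ - 1) = 0 := cl_zero (by linarith)
  have e2 : cl (θ - 2) = 0 := cl_zero (by linarith)
  have e3 : cl (θ - 3) = 0 := cl_zero (by linarith)
  have e4 : cl (θ - 4) = 0 := cl_zero (by linarith)
  have e5 : cl (θ - 5) = 0 := cl_zero (by linarith)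
  have e6 : cl (θ - 6) = 0 := cl_zero (by linarith)
  have e7 : cl (θ - 7) = 0 := cl_zero (by linarith)
  have e8 : cl (θ - 8) = 0 := cl_zero (by linarith)
  have e9 : cl (θ - 9) = 0 := cl_zero (by linarith)
  have a1 : hA σ = 0 := by unfold hA; rw [max_eq_right (by linarith)]
  have a2 : hB σ = σ - 1 := by unfold hB; rw [max_eq_left (by linarith)]
  have a3 : hK σ = 2 - σ := by unfold hK; rw [abs_of_nonneg (by linarith)]; ring
  have g0 : 0 ≤ 2 - σ := by linarith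
  have g1 : 0 ≤ 1 - c := by linarith
  have g2 : 0 ≤ σ - 1 := by linarith
  refine ⟨6, ![(2 - σ), 0, ((σ - 1) * c), 0, 0, 0, ((σ - 1) * (1 - c))], ?_, ?_, ?_, ?_, ?_, ?_⟩
  · intro k; fin_cases k <;> simp <;> first | positivity | linarith | nlinarith
  · intro k hk; fin_cases k <;> simp [fcs] at hk ⊢
  · rw [Fin.sum_univ_seven]; simp; try ring
  · rw [sum_vert]
    unfold f0in VA0 VK0 VB0
    rw [a1, a2, a3]
    simp only [e0, e1, e2, e3, e4, e5, e6, e7, e8, e9]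
    apply pt_congr
    · simp; try ring
    · simp; try ring
  · rw [Fin.sum_univ_seven]; simp [ps]; try ring
  · rw [Fin.sum_univ_seven]
    unfold k0in TA0 TK0 TB0
    rw [a1, a2, a3]
    simp only [e0, e1, e2, e3, e4, e5, e6, e7, e8, e9]
    simp [pt3]; try ring

theorem r1_1 (σ θ : ℝ) (h1 : 0 ≤ σ) (h2 : σ ≤ 1) (h3 : 1 ≤ θ) (h4 : θ ≤ 2) :
    Rep (f0in σ θ) σ (k0in σ θ) := by
  obtain ⟨c, hc⟩ : ∃ c, c = θ - 1 := ⟨_, rfl⟩
  have hc0 : 0 ≤ c := by linarith
  have hc1 : c ≤ 1 := by linarith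
  have e0 : cl θ = 1 := cl_one (by linarith)
  have e1 : cl (θ - 1) = c := by rw [hc]; exact cl_id (by linarith) (by linarith)
  have e2 : cl (θ - 2) = 0 := cl_zero (by linarith)
  have e3 : cl (θ - 3) = 0 := cl_zero (by linarith)
  have e4 : cl (θ - 4) = 0 := cl_zero (by linarith)
  have e5 : cl (θ - 5) = 0 := cl_zero (by linarith)
  have e6 : cl (θ - 6) = 0 := cl_zero (by linarith)
  have e7 : cl (θ - 7) = 0 := cl_zero (by linarith)
  have e8 : cl (θ - 8) = 0 := cl_zero (by linarith)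
  have e9 : cl (θ - 9) = 0 := cl_zero (by linarith)
  have a1 : hA σ = 1 - σ := by unfold hA; rw [max_eq_left (by linarith)]
  have a2 : hB σ = 0 := by unfold hB; rw [max_eq_right (by linarith)]
  have a3 : hK σ = σ := by unfold hK; rw [abs_of_nonpos (by linarith)]; ring
  have g0 : 0 ≤ 1 - σ := by linarith
  have g1 : 0 ≤ 1 - c := by linarith
  refine ⟨0, ![(σ), (1 - σ), 0, 0, 0, 0, 0], ?_, ?_, ?_, ?_, ?_, ?_⟩
  · intro k; fin_cases k <;> simp <;> first | positivity | linarith | nlinarith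
  · intro k hk; fin_cases k <;> simp [fcs] at hk ⊢
  · rw [Fin.sum_univ_seven]; simp; try ring
  · rw [sum_vert]
    unfold f0in VA0 VK0 VB0
    rw [a1, a2, a3]
    simp only [e0, e1, e2, e3, e4, e5, e6, e7, e8, e9]
    apply pt_congr
    · simp; try ring
    · simp; try ring
  · rw [Fin.sum_univ_seven]; simp [ps]; try ring
  · rw [Fin.sum_univ_seven]
    unfold k0in TA0 TK0 TB0
    rw [a1, a2, a3]
    simp only [e0, e1, e2, e3, e4, e5, e6, e7, e8, e9]
    simp [pt3]; try ring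

theorem r2_1 (σ θ : ℝ) (h1 : 1 ≤ σ) (h2 : σ ≤ 2) (h3 : 1 ≤ θ) (h4 : θ ≤ 2) :
    Rep (f0in σ θ) σ (k0in σ θ) := by
  obtain ⟨c, hc⟩ : ∃ c, c = θ - 1 := ⟨_, rfl⟩
  have hc0 : 0 ≤ c := by linarith
  have hc1 : c ≤ 1 := by linarith
  have e0 : cl θ = 1 := cl_one (by linarith)
  have e1 : cl (θ - 1) = c := by rw [hc]; exact cl_id (by linarith) (by linarith)
  have e2 : cl (θ - 2) = 0 := cl_zero (by linarith)
  have e3 : cl (θ - 3) = 0 := cl_zero (by linarith)
  have e4 : cl (θ - 4) = 0 := cl_zero (by linarith)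
  have e5 : cl (θ - 5) = 0 := cl_zero (by linarith)
  have e6 : cl (θ - 6) = 0 := cl_zero (by linarith)
  have e7 : cl (θ - 7) = 0 := cl_zero (by linarith)
  have e8 : cl (θ - 8) = 0 := cl_zero (by linarith)
  have e9 : cl (θ - 9) = 0 := cl_zero (by linarith)
  have a1 : hA σ = 0 := by unfold hA; rw [max_eq_right (by linarith)]
  have a2 : hB σ = σ - 1 := by unfold hB; rw [max_eq_left (by linarith)]
  have a3 : hK σ = 2 - σ := by unfold hK; rw [abs_of_nonneg (by linarith)]; ring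
  have g0 : 0 ≤ 2 - σ := by linarith
  have g1 : 0 ≤ 1 - c := by linarith
  have g2 : 0 ≤ σ - 1 := by linarith
  refine ⟨7, ![(2 - σ), 0, ((σ - 1) * (1 - c)), ((σ - 1) * c), 0, 0, 0], ?_, ?_, ?_, ?_, ?_, ?_⟩
  · intro k; fin_cases k <;> simp <;> first | positivity | linarith | nlinarith
  · intro k hk; fin_cases k <;> simp [fcs] at hk ⊢
  · rw [Fin.sum_univ_seven]; simp; try ring
  · rw [sum_vert]
    unfold f0in VA0 VK0 VB0
    rw [a1, a2, a3]
    simp only [e0, e1, e2, e3, e4, e5, e6, e7, e8, e9]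
    apply pt_congr
    · simp; try ring
    · simp; try ring
  · rw [Fin.sum_univ_seven]; simp [ps]; try ring
  · rw [Fin.sum_univ_seven]
    unfold k0in TA0 TK0 TB0
    rw [a1, a2, a3]
    simp only [e0, e1, e2, e3, e4, e5, e6, e7, e8, e9]
    simp [pt3]; try ring

theorem r1_2 (σ θ : ℝ) (h1 : 0 ≤ σ) (h2 : σ ≤ 1) (h3 : 2 ≤ θ) (h4 : θ ≤ 3) :
    Rep (f0in σ θ) σ (k0in σ θ) := by
  obtain ⟨c, hc⟩ : ∃ c, c = θ - 2 := ⟨_, rfl⟩
  have hc0 : 0 ≤ c := by linarith
  have hc1 : c ≤ 1 := by linarith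
  have e0 : cl θ = 1 := cl_one (by linarith)
  have e1 : cl (θ - 1) = 1 := cl_one (by linarith)
  have e2 : cl (θ - 2) = c := by rw [hc]; exact cl_id (by linarith) (by linarith)
  have e3 : cl (θ - 3) = 0 := cl_zero (by linarith)
  have e4 : cl (θ - 4) = 0 := cl_zero (by linarith)
  have e5 : cl (θ - 5) = 0 := cl_zero (by linarith)
  have e6 : cl (θ - 6) = 0 := cl_zero (by linarith)
  have e7 : cl (θ - 7) = 0 := cl_zero (by linarith)
  have e8 : cl (θ - 8) = 0 := cl_zero (by linarith)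
  have e9 : cl (θ - 9) = 0 := cl_zero (by linarith)
  have a1 : hA σ = 1 - σ := by unfold hA; rw [max_eq_left (by linarith)]
  have a2 : hB σ = 0 := by unfold hB; rw [max_eq_right (by linarith)]
  have a3 : hK σ = σ := by unfold hK; rw [abs_of_nonpos (by linarith)]; ring
  have g0 : 0 ≤ 1 - σ := by linarith
  have g1 : 0 ≤ 1 - c := by linarith
  refine ⟨0, ![(σ * (1 - c)), ((1 - σ) + σ * c / 2), 0, (σ * c / 2), 0, 0, 0], ?_, ?_, ?_, ?_, ?_, ?_⟩
  · intro k; fin_cases k <;> simp <;> first | positivity | linarith | nlinarith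
  · intro k hk; fin_cases k <;> simp [fcs] at hk ⊢
  · rw [Fin.sum_univ_seven]; simp; try ring
  · rw [sum_vert]
    unfold f0in VA0 VK0 VB0
    rw [a1, a2, a3]
    simp only [e0, e1, e2, e3, e4, e5, e6, e7, e8, e9]
    apply pt_congr
    · simp; try ring
    · simp; try ring
  · rw [Fin.sum_univ_seven]; simp [ps]; try ring
  · rw [Fin.sum_univ_seven]
    unfold k0in TA0 TK0 TB0
    rw [a1, a2, a3]
    simp only [e0, e1, e2, e3, e4, e5, e6, e7, e8, e9]
    simp [pt3]; try ring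

theorem r2_2 (σ θ : ℝ) (h1 : 1 ≤ σ) (h2 : σ ≤ 2) (h3 : 2 ≤ θ) (h4 : θ ≤ 3) :
    Rep (f0in σ θ) σ (k0in σ θ) := by
  obtain ⟨c, hc⟩ : ∃ c, c = θ - 2 := ⟨_, rfl⟩
  have hc0 : 0 ≤ c := by linarith
  have hc1 : c ≤ 1 := by linarith
  have e0 : cl θ = 1 := cl_one (by linarith)
  have e1 : cl (θ - 1) = 1 := cl_one (by linarith)
  have e2 : cl (θ - 2) = c := by rw [hc]; exact cl_id (by linarith) (by linarith)
  have e3 : cl (θ - 3) = 0 := cl_zero (by linarith)
  have e4 : cl (θ - 4) = 0 := cl_zero (by linarith)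
  have e5 : cl (θ - 5) = 0 := cl_zero (by linarith)
  have e6 : cl (θ - 6) = 0 := cl_zero (by linarith)
  have e7 : cl (θ - 7) = 0 := cl_zero (by linarith)
  have e8 : cl (θ - 8) = 0 := cl_zero (by linarith)
  have e9 : cl (θ - 9) = 0 := cl_zero (by linarith)
  have a1 : hA σ = 0 := by unfold hA; rw [max_eq_right (by linarith)]
  have a2 : hB σ = σ - 1 := by unfold hB; rw [max_eq_left (by linarith)]
  have a3 : hK σ = 2 - σ := by unfold hK; rw [abs_of_nonneg (by linarith)]; ring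
  have g0 : 0 ≤ 2 - σ := by linarith
  have g1 : 0 ≤ 1 - c := by linarith
  have g2 : 0 ≤ σ - 1 := by linarith
  refine ⟨0, ![((2 - σ) * (1 - c)), ((2 - σ) * c / 2), 0, ((2 - σ) * c / 2 + (σ - 1)), 0, 0, 0], ?_, ?_, ?_, ?_, ?_, ?_⟩
  · intro k; fin_cases k <;> simp <;> first | positivity | linarith | nlinarith
  · intro k hk; fin_cases k <;> simp [fcs] at hk ⊢
  · rw [Fin.sum_univ_seven]; simp; try ring
  · rw [sum_vert]
    unfold f0in VA0 VK0 VB0
    rw [a1, a2, a3]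
    simp only [e0, e1, e2, e3, e4, e5, e6, e7, e8, e9]
    apply pt_congr
    · simp; try ring
    · simp; try ring
  · rw [Fin.sum_univ_seven]; simp [ps]; try ring
  · rw [Fin.sum_univ_seven]
    unfold k0in TA0 TK0 TB0
    rw [a1, a2, a3]
    simp only [e0, e1, e2, e3, e4, e5, e6, e7, e8, e9]
    simp [pt3]; try ring

theorem r1_3 (σ θ : ℝ) (h1 : 0 ≤ σ) (h2 : σ ≤ 1) (h3 : 3 ≤ θ) (h4 : θ ≤ 4) :
    Rep (f0in σ θ) σ (k0in σ θ) := by
  obtain ⟨c, hc⟩ : ∃ c, c = θ - 3 := ⟨_, rfl⟩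
  have hc0 : 0 ≤ c := by linarith
  have hc1 : c ≤ 1 := by linarith
  have e0 : cl θ = 1 := cl_one (by linarith)
  have e1 : cl (θ - 1) = 1 := cl_one (by linarith)
  have e2 : cl (θ - 2) = 1 := cl_one (by linarith)
  have e3 : cl (θ - 3) = c := by rw [hc]; exact cl_id (by linarith) (by linarith)
  have e4 : cl (θ - 4) = 0 := cl_zero (by linarith)
  have e5 : cl (θ - 5) = 0 := cl_zero (by linarith)
  have e6 : cl (θ - 6) = 0 := cl_zero (by linarith)
  have e7 : cl (θ - 7) = 0 := cl_zero (by linarith)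
  have e8 : cl (θ - 8) = 0 := cl_zero (by linarith)
  have e9 : cl (θ - 9) = 0 := cl_zero (by linarith)
  have a1 : hA σ = 1 - σ := by unfold hA; rw [max_eq_left (by linarith)]
  have a2 : hB σ = 0 := by unfold hB; rw [max_eq_right (by linarith)]
  have a3 : hK σ = σ := by unfold hK; rw [abs_of_nonpos (by linarith)]; ring
  have g0 : 0 ≤ 1 - σ := by linarith
  have g1 : 0 ≤ 1 - c := by linarith
  refine ⟨1, ![0, ((1 - σ) + σ * (1 - c) / 2), 0, (σ / 2), (σ * c / 2), 0, 0], ?_, ?_, ?_, ?_, ?_, ?_⟩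
  · intro k; fin_cases k <;> simp <;> first | positivity | linarith | nlinarith
  · intro k hk; fin_cases k <;> simp [fcs] at hk ⊢
  · rw [Fin.sum_univ_seven]; simp; try ring
  · rw [sum_vert]
    unfold f0in VA0 VK0 VB0
    rw [a1, a2, a3]
    simp only [e0, e1, e2, e3, e4, e5, e6, e7, e8, e9]
    apply pt_congr
    · simp; try ring
    · simp; try ring
  · rw [Fin.sum_univ_seven]; simp [ps]; try ring
  · rw [Fin.sum_univ_seven]
    unfold k0in TA0 TK0 TB0
    rw [a1, a2, a3]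
    simp only [e0, e1, e2, e3, e4, e5, e6, e7, e8, e9]
    simp [pt3]; try ring

theorem r2_3 (σ θ : ℝ) (h1 : 1 ≤ σ) (h2 : σ ≤ 2) (h3 : 3 ≤ θ) (h4 : θ ≤ 4) :
    Rep (f0in σ θ) σ (k0in σ θ) := by
  obtain ⟨c, hc⟩ : ∃ c, c = θ - 3 := ⟨_, rfl⟩
  have hc0 : 0 ≤ c := by linarith
  have hc1 : c ≤ 1 := by linarith
  have e0 : cl θ = 1 := cl_one (by linarith)
  have e1 : cl (θ - 1) = 1 := cl_one (by linarith)
  have e2 : cl (θ - 2) = 1 := cl_one (by linarith)
  have e3 : cl (θ - 3) = c := by rw [hc]; exact cl_id (by linarith) (by linarith)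
  have e4 : cl (θ - 4) = 0 := cl_zero (by linarith)
  have e5 : cl (θ - 5) = 0 := cl_zero (by linarith)
  have e6 : cl (θ - 6) = 0 := cl_zero (by linarith)
  have e7 : cl (θ - 7) = 0 := cl_zero (by linarith)
  have e8 : cl (θ - 8) = 0 := cl_zero (by linarith)
  have e9 : cl (θ - 9) = 0 := cl_zero (by linarith)
  have a1 : hA σ = 0 := by unfold hA; rw [max_eq_right (by linarith)]
  have a2 : hB σ = σ - 1 := by unfold hB; rw [max_eq_left (by linarith)]
  have a3 : hK σ = 2 - σ := by unfold hK; rw [abs_of_nonneg (by linarith)]; ring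
  have g0 : 0 ≤ 2 - σ := by linarith
  have g1 : 0 ≤ 1 - c := by linarith
  have g2 : 0 ≤ σ - 1 := by linarith
  refine ⟨1, ![0, ((2 - σ) * (1 - c) / 2), 0, ((2 - σ) / 2 + (σ - 1)), ((2 - σ) * c / 2), 0, 0], ?_, ?_, ?_, ?_, ?_, ?_⟩
  · intro k; fin_cases k <;> simp <;> first | positivity | linarith | nlinarith
  · intro k hk; fin_cases k <;> simp [fcs] at hk ⊢
  · rw [Fin.sum_univ_seven]; simp; try ring
  · rw [sum_vert]
    unfold f0in VA0 VK0 VB0
    rw [a1, a2, a3]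
    simp only [e0, e1, e2, e3, e4, e5, e6, e7, e8, e9]
    apply pt_congr
    · simp; try ring
    · simp; try ring
  · rw [Fin.sum_univ_seven]; simp [ps]; try ring
  · rw [Fin.sum_univ_seven]
    unfold k0in TA0 TK0 TB0
    rw [a1, a2, a3]
    simp only [e0, e1, e2, e3, e4, e5, e6, e7, e8, e9]
    simp [pt3]; try ring

theorem r1_4 (σ θ : ℝ) (h1 : 0 ≤ σ) (h2 : σ ≤ 1) (h3 : 4 ≤ θ) (h4 : θ ≤ 5) :
    Rep (f0in σ θ) σ (k0in σ θ) := by
  obtain ⟨c, hc⟩ : ∃ c, c = θ - 4 := ⟨_, rfl⟩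
  have hc0 : 0 ≤ c := by linarith
  have hc1 : c ≤ 1 := by linarith
  have e0 : cl θ = 1 := cl_one (by linarith)
  have e1 : cl (θ - 1) = 1 := cl_one (by linarith)
  have e2 : cl (θ - 2) = 1 := cl_one (by linarith)
  have e3 : cl (θ - 3) = 1 := cl_one (by linarith)
  have e4 : cl (θ - 4) = c := by rw [hc]; exact cl_id (by linarith) (by linarith)
  have e5 : cl (θ - 5) = 0 := cl_zero (by linarith)
  have e6 : cl (θ - 6) = 0 := cl_zero (by linarith)
  have e7 : cl (θ - 7) = 0 := cl_zero (by linarith)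
  have e8 : cl (θ - 8) = 0 := cl_zero (by linarith)
  have e9 : cl (θ - 9) = 0 := cl_zero (by linarith)
  have a1 : hA σ = 1 - σ := by unfold hA; rw [max_eq_left (by linarith)]
  have a2 : hB σ = 0 := by unfold hB; rw [max_eq_right (by linarith)]
  have a3 : hK σ = σ := by unfold hK; rw [abs_of_nonpos (by linarith)]; ring
  have g0 : 0 ≤ 1 - σ := by linarith
  have g1 : 0 ≤ 1 - c := by linarith
  refine ⟨1, ![0, ((1 - σ) * (1 - c)), 0, (σ / 2), ((1 - σ) * c + σ / 2), 0, 0], ?_, ?_, ?_, ?_, ?_, ?_⟩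
  · intro k; fin_cases k <;> simp <;> first | positivity | linarith | nlinarith
  · intro k hk; fin_cases k <;> simp [fcs] at hk ⊢
  · rw [Fin.sum_univ_seven]; simp; try ring
  · rw [sum_vert]
    unfold f0in VA0 VK0 VB0
    rw [a1, a2, a3]
    simp only [e0, e1, e2, e3, e4, e5, e6, e7, e8, e9]
    apply pt_congr
    · simp; try ring
    · simp; try ring
  · rw [Fin.sum_univ_seven]; simp [ps]; try ring
  · rw [Fin.sum_univ_seven]
    unfold k0in TA0 TK0 TB0
    rw [a1, a2, a3]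
    simp only [e0, e1, e2, e3, e4, e5, e6, e7, e8, e9]
    simp [pt3]; try ring

theorem r2_4 (σ θ : ℝ) (h1 : 1 ≤ σ) (h2 : σ ≤ 2) (h3 : 4 ≤ θ) (h4 : θ ≤ 5) :
    Rep (f0in σ θ) σ (k0in σ θ) := by
  obtain ⟨c, hc⟩ : ∃ c, c = θ - 4 := ⟨_, rfl⟩
  have hc0 : 0 ≤ c := by linarith
  have hc1 : c ≤ 1 := by linarith
  have e0 : cl θ = 1 := cl_one (by linarith)
  have e1 : cl (θ - 1) = 1 := cl_one (by linarith)
  have e2 : cl (θ - 2) = 1 := cl_one (by linarith)
  have e3 : cl (θ - 3) = 1 := cl_one (by linarith)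
  have e4 : cl (θ - 4) = c := by rw [hc]; exact cl_id (by linarith) (by linarith)
  have e5 : cl (θ - 5) = 0 := cl_zero (by linarith)
  have e6 : cl (θ - 6) = 0 := cl_zero (by linarith)
  have e7 : cl (θ - 7) = 0 := cl_zero (by linarith)
  have e8 : cl (θ - 8) = 0 := cl_zero (by linarith)
  have e9 : cl (θ - 9) = 0 := cl_zero (by linarith)
  have a1 : hA σ = 0 := by unfold hA; rw [max_eq_right (by linarith)]
  have a2 : hB σ = σ - 1 := by unfold hB; rw [max_eq_left (by linarith)]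
  have a3 : hK σ = 2 - σ := by unfold hK; rw [abs_of_nonneg (by linarith)]; ring
  have g0 : 0 ≤ 2 - σ := by linarith
  have g1 : 0 ≤ 1 - c := by linarith
  have g2 : 0 ≤ σ - 1 := by linarith
  refine ⟨1, ![0, 0, 0, ((2 - σ) / 2 + (σ - 1)), ((2 - σ) / 2), 0, 0], ?_, ?_, ?_, ?_, ?_, ?_⟩
  · intro k; fin_cases k <;> simp <;> first | positivity | linarith | nlinarith
  · intro k hk; fin_cases k <;> simp [fcs] at hk ⊢
  · rw [Fin.sum_univ_seven]; simp; try ring
  · rw [sum_vert]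
    unfold f0in VA0 VK0 VB0
    rw [a1, a2, a3]
    simp only [e0, e1, e2, e3, e4, e5, e6, e7, e8, e9]
    apply pt_congr
    · simp; try ring
    · simp; try ring
  · rw [Fin.sum_univ_seven]; simp [ps]; try ring
  · rw [Fin.sum_univ_seven]
    unfold k0in TA0 TK0 TB0
    rw [a1, a2, a3]
    simp only [e0, e1, e2, e3, e4, e5, e6, e7, e8, e9]
    simp [pt3]; try ring

theorem r1_5 (σ θ : ℝ) (h1 : 0 ≤ σ) (h2 : σ ≤ 1) (h3 : 5 ≤ θ) (h4 : θ ≤ 6) :
    Rep (f0in σ θ) σ (k0in σ θ) := by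
  obtain ⟨c, hc⟩ : ∃ c, c = θ - 5 := ⟨_, rfl⟩
  have hc0 : 0 ≤ c := by linarith
  have hc1 : c ≤ 1 := by linarith
  have e0 : cl θ = 1 := cl_one (by linarith)
  have e1 : cl (θ - 1) = 1 := cl_one (by linarith)
  have e2 : cl (θ - 2) = 1 := cl_one (by linarith)
  have e3 : cl (θ - 3) = 1 := cl_one (by linarith)
  have e4 : cl (θ - 4) = 1 := cl_one (by linarith)
  have e5 : cl (θ - 5) = c := by rw [hc]; exact cl_id (by linarith) (by linarith)
  have e6 : cl (θ - 6) = 0 := cl_zero (by linarith)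
  have e7 : cl (θ - 7) = 0 := cl_zero (by linarith)
  have e8 : cl (θ - 8) = 0 := cl_zero (by linarith)
  have e9 : cl (θ - 9) = 0 := cl_zero (by linarith)
  have a1 : hA σ = 1 - σ := by unfold hA; rw [max_eq_left (by linarith)]
  have a2 : hB σ = 0 := by unfold hB; rw [max_eq_right (by linarith)]
  have a3 : hK σ = σ := by unfold hK; rw [abs_of_nonpos (by linarith)]; ring
  have g0 : 0 ≤ 1 - σ := by linarith
  have g1 : 0 ≤ 1 - c := by linarith
  refine ⟨1, ![0, 0, 0, (σ / 2), ((1 - σ) + σ / 2), 0, 0], ?_, ?_, ?_, ?_, ?_, ?_⟩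
  · intro k; fin_cases k <;> simp <;> first | positivity | linarith | nlinarith
  · intro k hk; fin_cases k <;> simp [fcs] at hk ⊢
  · rw [Fin.sum_univ_seven]; simp; try ring
  · rw [sum_vert]
    unfold f0in VA0 VK0 VB0
    rw [a1, a2, a3]
    simp only [e0, e1, e2, e3, e4, e5, e6, e7, e8, e9]
    apply pt_congr
    · simp; try ring
    · simp; try ring
  · rw [Fin.sum_univ_seven]; simp [ps]; try ring
  · rw [Fin.sum_univ_seven]
    unfold k0in TA0 TK0 TB0
    rw [a1, a2, a3]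
    simp only [e0, e1, e2, e3, e4, e5, e6, e7, e8, e9]
    simp [pt3]; try ring

theorem r2_5 (σ θ : ℝ) (h1 : 1 ≤ σ) (h2 : σ ≤ 2) (h3 : 5 ≤ θ) (h4 : θ ≤ 6) :
    Rep (f0in σ θ) σ (k0in σ θ) := by
  obtain ⟨c, hc⟩ : ∃ c, c = θ - 5 := ⟨_, rfl⟩
  have hc0 : 0 ≤ c := by linarith
  have hc1 : c ≤ 1 := by linarith
  have e0 : cl θ = 1 := cl_one (by linarith)
  have e1 : cl (θ - 1) = 1 := cl_one (by linarith)
  have e2 : cl (θ - 2) = 1 := cl_one (by linarith)
  have e3 : cl (θ - 3) = 1 := cl_one (by linarith)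
  have e4 : cl (θ - 4) = 1 := cl_one (by linarith)
  have e5 : cl (θ - 5) = c := by rw [hc]; exact cl_id (by linarith) (by linarith)
  have e6 : cl (θ - 6) = 0 := cl_zero (by linarith)
  have e7 : cl (θ - 7) = 0 := cl_zero (by linarith)
  have e8 : cl (θ - 8) = 0 := cl_zero (by linarith)
  have e9 : cl (θ - 9) = 0 := cl_zero (by linarith)
  have a1 : hA σ = 0 := by unfold hA; rw [max_eq_right (by linarith)]
  have a2 : hB σ = σ - 1 := by unfold hB; rw [max_eq_left (by linarith)]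
  have a3 : hK σ = 2 - σ := by unfold hK; rw [abs_of_nonneg (by linarith)]; ring
  have g0 : 0 ≤ 2 - σ := by linarith
  have g1 : 0 ≤ 1 - c := by linarith
  have g2 : 0 ≤ σ - 1 := by linarith
  refine ⟨2, ![0, 0, 0, ((2 - σ) / 2 + (σ - 1) * (1 - c)), ((2 - σ) / 2), 0, ((σ - 1) * c)], ?_, ?_, ?_, ?_, ?_, ?_⟩
  · intro k; fin_cases k <;> simp <;> first | positivity | linarith | nlinarith
  · intro k hk; fin_cases k <;> simp [fcs] at hk ⊢
  · rw [Fin.sum_univ_seven]; simp; try ring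
  · rw [sum_vert]
    unfold f0in VA0 VK0 VB0
    rw [a1, a2, a3]
    simp only [e0, e1, e2, e3, e4, e5, e6, e7, e8, e9]
    apply pt_congr
    · simp; try ring
    · simp; try ring
  · rw [Fin.sum_univ_seven]; simp [ps]; try ring
  · rw [Fin.sum_univ_seven]
    unfold k0in TA0 TK0 TB0
    rw [a1, a2, a3]
    simp only [e0, e1, e2, e3, e4, e5, e6, e7, e8, e9]
    simp [pt3]; try ring

theorem r1_6 (σ θ : ℝ) (h1 : 0 ≤ σ) (h2 : σ ≤ 1) (h3 : 6 ≤ θ) (h4 : θ ≤ 7) :
    Rep (f0in σ θ) σ (k0in σ θ) := by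
  obtain ⟨c, hc⟩ : ∃ c, c = θ - 6 := ⟨_, rfl⟩
  have hc0 : 0 ≤ c := by linarith
  have hc1 : c ≤ 1 := by linarith
  have e0 : cl θ = 1 := cl_one (by linarith)
  have e1 : cl (θ - 1) = 1 := cl_one (by linarith)
  have e2 : cl (θ - 2) = 1 := cl_one (by linarith)
  have e3 : cl (θ - 3) = 1 := cl_one (by linarith)
  have e4 : cl (θ - 4) = 1 := cl_one (by linarith)
  have e5 : cl (θ - 5) = 1 := cl_one (by linarith)
  have e6 : cl (θ - 6) = c := by rw [hc]; exact cl_id (by linarith) (by linarith)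
  have e7 : cl (θ - 7) = 0 := cl_zero (by linarith)
  have e8 : cl (θ - 8) = 0 := cl_zero (by linarith)
  have e9 : cl (θ - 9) = 0 := cl_zero (by linarith)
  have a1 : hA σ = 1 - σ := by unfold hA; rw [max_eq_left (by linarith)]
  have a2 : hB σ = 0 := by unfold hB; rw [max_eq_right (by linarith)]
  have a3 : hK σ = σ := by unfold hK; rw [abs_of_nonpos (by linarith)]; ring
  have g0 : 0 ≤ 1 - σ := by linarith
  have g1 : 0 ≤ 1 - c := by linarith
  refine ⟨2, ![0, 0, 0, (σ * (1 - c) / 2), ((1 - σ) + σ / 2), 0, (σ * c / 2)], ?_, ?_, ?_, ?_, ?_, ?_⟩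
  · intro k; fin_cases k <;> simp <;> first | positivity | linarith | nlinarith
  · intro k hk; fin_cases k <;> simp [fcs] at hk ⊢
  · rw [Fin.sum_univ_seven]; simp; try ring
  · rw [sum_vert]
    unfold f0in VA0 VK0 VB0
    rw [a1, a2, a3]
    simp only [e0, e1, e2, e3, e4, e5, e6, e7, e8, e9]
    apply pt_congr
    · simp; try ring
    · simp; try ring
  · rw [Fin.sum_univ_seven]; simp [ps]; try ring
  · rw [Fin.sum_univ_seven]
    unfold k0in TA0 TK0 TB0
    rw [a1, a2, a3]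
    simp only [e0, e1, e2, e3, e4, e5, e6, e7, e8, e9]
    simp [pt3]; try ring

theorem r2_6 (σ θ : ℝ) (h1 : 1 ≤ σ) (h2 : σ ≤ 2) (h3 : 6 ≤ θ) (h4 : θ ≤ 7) :
    Rep (f0in σ θ) σ (k0in σ θ) := by
  obtain ⟨c, hc⟩ : ∃ c, c = θ - 6 := ⟨_, rfl⟩
  have hc0 : 0 ≤ c := by linarith
  have hc1 : c ≤ 1 := by linarith
  have e0 : cl θ = 1 := cl_one (by linarith)
  have e1 : cl (θ - 1) = 1 := cl_one (by linarith)
  have e2 : cl (θ - 2) = 1 := cl_one (by linarith)
  have e3 : cl (θ - 3) = 1 := cl_one (by linarith)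
  have e4 : cl (θ - 4) = 1 := cl_one (by linarith)
  have e5 : cl (θ - 5) = 1 := cl_one (by linarith)
  have e6 : cl (θ - 6) = c := by rw [hc]; exact cl_id (by linarith) (by linarith)
  have e7 : cl (θ - 7) = 0 := cl_zero (by linarith)
  have e8 : cl (θ - 8) = 0 := cl_zero (by linarith)
  have e9 : cl (θ - 9) = 0 := cl_zero (by linarith)
  have a1 : hA σ = 0 := by unfold hA; rw [max_eq_right (by linarith)]
  have a2 : hB σ = σ - 1 := by unfold hB; rw [max_eq_left (by linarith)]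
  have a3 : hK σ = 2 - σ := by unfold hK; rw [abs_of_nonneg (by linarith)]; ring
  have g0 : 0 ≤ 2 - σ := by linarith
  have g1 : 0 ≤ 1 - c := by linarith
  have g2 : 0 ≤ σ - 1 := by linarith
  refine ⟨2, ![0, 0, 0, ((2 - σ) * (1 - c) / 2), ((2 - σ) / 2), 0, ((2 - σ) * c / 2 + (σ - 1))], ?_, ?_, ?_, ?_, ?_, ?_⟩
  · intro k; fin_cases k <;> simp <;> first | positivity | linarith | nlinarith
  · intro k hk; fin_cases k <;> simp [fcs] at hk ⊢
  · rw [Fin.sum_univ_seven]; simp; try ring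
  · rw [sum_vert]
    unfold f0in VA0 VK0 VB0
    rw [a1, a2, a3]
    simp only [e0, e1, e2, e3, e4, e5, e6, e7, e8, e9]
    apply pt_congr
    · simp; try ring
    · simp; try ring
  · rw [Fin.sum_univ_seven]; simp [ps]; try ring
  · rw [Fin.sum_univ_seven]
    unfold k0in TA0 TK0 TB0
    rw [a1, a2, a3]
    simp only [e0, e1, e2, e3, e4, e5, e6, e7, e8, e9]
    simp [pt3]; try ring

theorem r1_7 (σ θ : ℝ) (h1 : 0 ≤ σ) (h2 : σ ≤ 1) (h3 : 7 ≤ θ) (h4 : θ ≤ 8) :
    Rep (f0in σ θ) σ (k0in σ θ) := by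
  obtain ⟨c, hc⟩ : ∃ c, c = θ - 7 := ⟨_, rfl⟩
  have hc0 : 0 ≤ c := by linarith
  have hc1 : c ≤ 1 := by linarith
  have e0 : cl θ = 1 := cl_one (by linarith)
  have e1 : cl (θ - 1) = 1 := cl_one (by linarith)
  have e2 : cl (θ - 2) = 1 := cl_one (by linarith)
  have e3 : cl (θ - 3) = 1 := cl_one (by linarith)
  have e4 : cl (θ - 4) = 1 := cl_one (by linarith)
  have e5 : cl (θ - 5) = 1 := cl_one (by linarith)
  have e6 : cl (θ - 6) = 1 := cl_one (by linarith)
  have e7 : cl (θ - 7) = c := by rw [hc]; exact cl_id (by linarith) (by linarith)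
  have e8 : cl (θ - 8) = 0 := cl_zero (by linarith)
  have e9 : cl (θ - 9) = 0 := cl_zero (by linarith)
  have a1 : hA σ = 1 - σ := by unfold hA; rw [max_eq_left (by linarith)]
  have a2 : hB σ = 0 := by unfold hB; rw [max_eq_right (by linarith)]
  have a3 : hK σ = σ := by unfold hK; rw [abs_of_nonpos (by linarith)]; ring
  have g0 : 0 ≤ 1 - σ := by linarith
  have g1 : 0 ≤ 1 - c := by linarith
  refine ⟨3, ![(σ * c), 0, 0, 0, ((1 - σ) + σ * (1 - c) / 2), 0, (σ * (1 - c) / 2)], ?_, ?_, ?_, ?_, ?_, ?_⟩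
  · intro k; fin_cases k <;> simp <;> first | positivity | linarith | nlinarith
  · intro k hk; fin_cases k <;> simp [fcs] at hk ⊢
  · rw [Fin.sum_univ_seven]; simp; try ring
  · rw [sum_vert]
    unfold f0in VA0 VK0 VB0
    rw [a1, a2, a3]
    simp only [e0, e1, e2, e3, e4, e5, e6, e7, e8, e9]
    apply pt_congr
    · simp; try ring
    · simp; try ring
  · rw [Fin.sum_univ_seven]; simp [ps]; try ring
  · rw [Fin.sum_univ_seven]
    unfold k0in TA0 TK0 TB0
    rw [a1, a2, a3]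
    simp only [e0, e1, e2, e3, e4, e5, e6, e7, e8, e9]
    simp [pt3]; try ring

theorem r2_7 (σ θ : ℝ) (h1 : 1 ≤ σ) (h2 : σ ≤ 2) (h3 : 7 ≤ θ) (h4 : θ ≤ 8) :
    Rep (f0in σ θ) σ (k0in σ θ) := by
  obtain ⟨c, hc⟩ : ∃ c, c = θ - 7 := ⟨_, rfl⟩
  have hc0 : 0 ≤ c := by linarith
  have hc1 : c ≤ 1 := by linarith
  have e0 : cl θ = 1 := cl_one (by linarith)
  have e1 : cl (θ - 1) = 1 := cl_one (by linarith)
  have e2 : cl (θ - 2) = 1 := cl_one (by linarith)
  have e3 : cl (θ - 3) = 1 := cl_one (by linarith)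
  have e4 : cl (θ - 4) = 1 := cl_one (by linarith)
  have e5 : cl (θ - 5) = 1 := cl_one (by linarith)
  have e6 : cl (θ - 6) = 1 := cl_one (by linarith)
  have e7 : cl (θ - 7) = c := by rw [hc]; exact cl_id (by linarith) (by linarith)
  have e8 : cl (θ - 8) = 0 := cl_zero (by linarith)
  have e9 : cl (θ - 9) = 0 := cl_zero (by linarith)
  have a1 : hA σ = 0 := by unfold hA; rw [max_eq_right (by linarith)]
  have a2 : hB σ = σ - 1 := by unfold hB; rw [max_eq_left (by linarith)]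
  have a3 : hK σ = 2 - σ := by unfold hK; rw [abs_of_nonneg (by linarith)]; ring
  have g0 : 0 ≤ 2 - σ := by linarith
  have g1 : 0 ≤ 1 - c := by linarith
  have g2 : 0 ≤ σ - 1 := by linarith
  refine ⟨3, ![((2 - σ) * c), 0, 0, 0, ((2 - σ) * (1 - c) / 2), 0, ((2 - σ) * (1 - c) / 2 + (σ - 1))], ?_, ?_, ?_, ?_, ?_, ?_⟩
  · intro k; fin_cases k <;> simp <;> first | positivity | linarith | nlinarith
  · intro k hk; fin_cases k <;> simp [fcs] at hk ⊢
  · rw [Fin.sum_univ_seven]; simp; try ring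
  · rw [sum_vert]
    unfold f0in VA0 VK0 VB0
    rw [a1, a2, a3]
    simp only [e0, e1, e2, e3, e4, e5, e6, e7, e8, e9]
    apply pt_congr
    · simp; try ring
    · simp; try ring
  · rw [Fin.sum_univ_seven]; simp [ps]; try ring
  · rw [Fin.sum_univ_seven]
    unfold k0in TA0 TK0 TB0
    rw [a1, a2, a3]
    simp only [e0, e1, e2, e3, e4, e5, e6, e7, e8, e9]
    simp [pt3]; try ring

theorem r1_8 (σ θ : ℝ) (h1 : 0 ≤ σ) (h2 : σ ≤ 1) (h3 : 8 ≤ θ) (h4 : θ ≤ 9) :
    Rep (f0in σ θ) σ (k0in σ θ) := by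
  obtain ⟨c, hc⟩ : ∃ c, c = θ - 8 := ⟨_, rfl⟩
  have hc0 : 0 ≤ c := by linarith
  have hc1 : c ≤ 1 := by linarith
  have e0 : cl θ = 1 := cl_one (by linarith)
  have e1 : cl (θ - 1) = 1 := cl_one (by linarith)
  have e2 : cl (θ - 2) = 1 := cl_one (by linarith)
  have e3 : cl (θ - 3) = 1 := cl_one (by linarith)
  have e4 : cl (θ - 4) = 1 := cl_one (by linarith)
  have e5 : cl (θ - 5) = 1 := cl_one (by linarith)
  have e6 : cl (θ - 6) = 1 := cl_one (by linarith)
  have e7 : cl (θ - 7) = 1 := cl_one (by linarith)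
  have e8 : cl (θ - 8) = c := by rw [hc]; exact cl_id (by linarith) (by linarith)
  have e9 : cl (θ - 9) = 0 := cl_zero (by linarith)
  have a1 : hA σ = 1 - σ := by unfold hA; rw [max_eq_left (by linarith)]
  have a2 : hB σ = 0 := by unfold hB; rw [max_eq_right (by linarith)]
  have a3 : hK σ = σ := by unfold hK; rw [abs_of_nonpos (by linarith)]; ring
  have g0 : 0 ≤ 1 - σ := by linarith
  have g1 : 0 ≤ 1 - c := by linarith
  refine ⟨4, ![(σ), 0, 0, 0, ((1 - σ) * (1 - c)), ((1 - σ) * c), 0], ?_, ?_, ?_, ?_, ?_, ?_⟩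
  · intro k; fin_cases k <;> simp <;> first | positivity | linarith | nlinarith
  · intro k hk; fin_cases k <;> simp [fcs] at hk ⊢
  · rw [Fin.sum_univ_seven]; simp; try ring
  · rw [sum_vert]
    unfold f0in VA0 VK0 VB0
    rw [a1, a2, a3]
    simp only [e0, e1, e2, e3, e4, e5, e6, e7, e8, e9]
    apply pt_congr
    · simp; try ring
    · simp; try ring
  · rw [Fin.sum_univ_seven]; simp [ps]; try ring
  · rw [Fin.sum_univ_seven]
    unfold k0in TA0 TK0 TB0
    rw [a1, a2, a3]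
    simp only [e0, e1, e2, e3, e4, e5, e6, e7, e8, e9]
    simp [pt3]; try ring

theorem r2_8 (σ θ : ℝ) (h1 : 1 ≤ σ) (h2 : σ ≤ 2) (h3 : 8 ≤ θ) (h4 : θ ≤ 9) :
    Rep (f0in σ θ) σ (k0in σ θ) := by
  obtain ⟨c, hc⟩ : ∃ c, c = θ - 8 := ⟨_, rfl⟩
  have hc0 : 0 ≤ c := by linarith
  have hc1 : c ≤ 1 := by linarith
  have e0 : cl θ = 1 := cl_one (by linarith)
  have e1 : cl (θ - 1) = 1 := cl_one (by linarith)
  have e2 : cl (θ - 2) = 1 := cl_one (by linarith)
  have e3 : cl (θ - 3) = 1 := cl_one (by linarith)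
  have e4 : cl (θ - 4) = 1 := cl_one (by linarith)
  have e5 : cl (θ - 5) = 1 := cl_one (by linarith)
  have e6 : cl (θ - 6) = 1 := cl_one (by linarith)
  have e7 : cl (θ - 7) = 1 := cl_one (by linarith)
  have e8 : cl (θ - 8) = c := by rw [hc]; exact cl_id (by linarith) (by linarith)
  have e9 : cl (θ - 9) = 0 := cl_zero (by linarith)
  have a1 : hA σ = 0 := by unfold hA; rw [max_eq_right (by linarith)]
  have a2 : hB σ = σ - 1 := by unfold hB; rw [max_eq_left (by linarith)]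
  have a3 : hK σ = 2 - σ := by unfold hK; rw [abs_of_nonneg (by linarith)]; ring
  have g0 : 0 ≤ 2 - σ := by linarith
  have g1 : 0 ≤ 1 - c := by linarith
  have g2 : 0 ≤ σ - 1 := by linarith
  refine ⟨3, ![(2 - σ), 0, 0, 0, 0, 0, (σ - 1)], ?_, ?_, ?_, ?_, ?_, ?_⟩
  · intro k; fin_cases k <;> simp <;> first | positivity | linarith | nlinarith
  · intro k hk; fin_cases k <;> simp [fcs] at hk ⊢
  · rw [Fin.sum_univ_seven]; simp; try ring
  · rw [sum_vert]
    unfold f0in VA0 VK0 VB0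
    rw [a1, a2, a3]
    simp only [e0, e1, e2, e3, e4, e5, e6, e7, e8, e9]
    apply pt_congr
    · simp; try ring
    · simp; try ring
  · rw [Fin.sum_univ_seven]; simp [ps]; try ring
  · rw [Fin.sum_univ_seven]
    unfold k0in TA0 TK0 TB0
    rw [a1, a2, a3]
    simp only [e0, e1, e2, e3, e4, e5, e6, e7, e8, e9]
    simp [pt3]; try ring

theorem r1_9 (σ θ : ℝ) (h1 : 0 ≤ σ) (h2 : σ ≤ 1) (h3 : 9 ≤ θ) (h4 : θ ≤ 10) :
    Rep (f0in σ θ) σ (k0in σ θ) := by
  obtain ⟨c, hc⟩ : ∃ c, c = θ - 9 := ⟨_, rfl⟩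
  have hc0 : 0 ≤ c := by linarith
  have hc1 : c ≤ 1 := by linarith
  have e0 : cl θ = 1 := cl_one (by linarith)
  have e1 : cl (θ - 1) = 1 := cl_one (by linarith)
  have e2 : cl (θ - 2) = 1 := cl_one (by linarith)
  have e3 : cl (θ - 3) = 1 := cl_one (by linarith)
  have e4 : cl (θ - 4) = 1 := cl_one (by linarith)
  have e5 : cl (θ - 5) = 1 := cl_one (by linarith)
  have e6 : cl (θ - 6) = 1 := cl_one (by linarith)
  have e7 : cl (θ - 7) = 1 := cl_one (by linarith)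
  have e8 : cl (θ - 8) = 1 := cl_one (by linarith)
  have e9 : cl (θ - 9) = c := by rw [hc]; exact cl_id (by linarith) (by linarith)
  have a1 : hA σ = 1 - σ := by unfold hA; rw [max_eq_left (by linarith)]
  have a2 : hB σ = 0 := by unfold hB; rw [max_eq_right (by linarith)]
  have a3 : hK σ = σ := by unfold hK; rw [abs_of_nonpos (by linarith)]; ring
  have g0 : 0 ≤ 1 - σ := by linarith
  have g1 : 0 ≤ 1 - c := by linarith
  refine ⟨5, ![(σ), ((1 - σ) * c), 0, 0, 0, ((1 - σ) * (1 - c)), 0], ?_, ?_, ?_, ?_, ?_, ?_⟩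
  · intro k; fin_cases k <;> simp <;> first | positivity | linarith | nlinarith
  · intro k hk; fin_cases k <;> simp [fcs] at hk ⊢
  · rw [Fin.sum_univ_seven]; simp; try ring
  · rw [sum_vert]
    unfold f0in VA0 VK0 VB0
    rw [a1, a2, a3]
    simp only [e0, e1, e2, e3, e4, e5, e6, e7, e8, e9]
    apply pt_congr
    · simp; try ring
    · simp; try ring
  · rw [Fin.sum_univ_seven]; simp [ps]; try ring
  · rw [Fin.sum_univ_seven]
    unfold k0in TA0 TK0 TB0
    rw [a1, a2, a3]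
    simp only [e0, e1, e2, e3, e4, e5, e6, e7, e8, e9]
    simp [pt3]; try ring

theorem r2_9 (σ θ : ℝ) (h1 : 1 ≤ σ) (h2 : σ ≤ 2) (h3 : 9 ≤ θ) (h4 : θ ≤ 10) :
    Rep (f0in σ θ) σ (k0in σ θ) := by
  obtain ⟨c, hc⟩ : ∃ c, c = θ - 9 := ⟨_, rfl⟩
  have hc0 : 0 ≤ c := by linarith
  have hc1 : c ≤ 1 := by linarith
  have e0 : cl θ = 1 := cl_one (by linarith)
  have e1 : cl (θ - 1) = 1 := cl_one (by linarith)
  have e2 : cl (θ - 2) = 1 := cl_one (by linarith)
  have e3 : cl (θ - 3) = 1 := cl_one (by linarith)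
  have e4 : cl (θ - 4) = 1 := cl_one (by linarith)
  have e5 : cl (θ - 5) = 1 := cl_one (by linarith)
  have e6 : cl (θ - 6) = 1 := cl_one (by linarith)
  have e7 : cl (θ - 7) = 1 := cl_one (by linarith)
  have e8 : cl (θ - 8) = 1 := cl_one (by linarith)
  have e9 : cl (θ - 9) = c := by rw [hc]; exact cl_id (by linarith) (by linarith)
  have a1 : hA σ = 0 := by unfold hA; rw [max_eq_right (by linarith)]
  have a2 : hB σ = σ - 1 := by unfold hB; rw [max_eq_left (by linarith)]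
  have a3 : hK σ = 2 - σ := by unfold hK; rw [abs_of_nonneg (by linarith)]; ring
  have g0 : 0 ≤ 2 - σ := by linarith
  have g1 : 0 ≤ 1 - c := by linarith
  have g2 : 0 ≤ σ - 1 := by linarith
  refine ⟨3, ![(2 - σ), 0, 0, 0, 0, 0, (σ - 1)], ?_, ?_, ?_, ?_, ?_, ?_⟩
  · intro k; fin_cases k <;> simp <;> first | positivity | linarith | nlinarith
  · intro k hk; fin_cases k <;> simp [fcs] at hk ⊢
  · rw [Fin.sum_univ_seven]; simp; try ring
  · rw [sum_vert]
    unfold f0in VA0 VK0 VB0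
    rw [a1, a2, a3]
    simp only [e0, e1, e2, e3, e4, e5, e6, e7, e8, e9]
    apply pt_congr
    · simp; try ring
    · simp; try ring
  · rw [Fin.sum_univ_seven]; simp [ps]; try ring
  · rw [Fin.sum_univ_seven]
    unfold k0in TA0 TK0 TB0
    rw [a1, a2, a3]
    simp only [e0, e1, e2, e3, e4, e5, e6, e7, e8, e9]
    simp [pt3]; try ring

theorem ro_0 (σ θ : ℝ) (h1 : 2 ≤ σ) (h2 : σ ≤ 3) (h3 : 0 ≤ θ) (h4 : θ ≤ 1) :
    Rep (f0out σ θ) σ (k0out σ θ) := by
  obtain ⟨c, hc⟩ : ∃ c, c = θ := ⟨_, rfl⟩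
  have hc0 : 0 ≤ c := by linarith
  have hc1 : c ≤ 1 := by linarith
  have e0 : cl θ = c := by rw [hc]; exact cl_id (by linarith) (by linarith)
  have e1 : cl (θ - 1) = 0 := cl_zero (by linarith)
  have e2 : cl (θ - 2) = 0 := cl_zero (by linarith)
  have e3 : cl (θ - 3) = 0 := cl_zero (by linarith)
  have e4 : cl (θ - 4) = 0 := cl_zero (by linarith)
  have e5 : cl (θ - 5) = 0 := cl_zero (by linarith)
  have g0 : 0 ≤ 3 - σ := by linarith
  have g1 : 0 ≤ 1 - c := by linarith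
  have g2 : 0 ≤ σ - 2 := by linarith
  refine ⟨8, ![0, (σ - 2), ((3 - σ) * c), 0, 0, 0, ((3 - σ) * (1 - c))], ?_, ?_, ?_, ?_, ?_, ?_⟩
  · intro k; fin_cases k <;> simp <;> first | positivity | linarith | nlinarith
  · intro k hk; fin_cases k <;> simp [fcs] at hk ⊢
  · rw [Fin.sum_univ_seven]; simp; try ring
  · rw [sum_vert]
    unfold f0out VAo VBo
    simp only [e0, e1, e2, e3, e4, e5]
    apply pt_congr
    · simp; try ring
    · simp; try ring
  · rw [Fin.sum_univ_seven]; simp [ps]; try ring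
  · rw [Fin.sum_univ_seven]
    unfold k0out TAo TBo
    simp only [e0, e1, e2, e3, e4, e5]
    simp [pt3]; try ring

theorem ro_1 (σ θ : ℝ) (h1 : 2 ≤ σ) (h2 : σ ≤ 3) (h3 : 1 ≤ θ) (h4 : θ ≤ 2) :
    Rep (f0out σ θ) σ (k0out σ θ) := by
  obtain ⟨c, hc⟩ : ∃ c, c = θ - 1 := ⟨_, rfl⟩
  have hc0 : 0 ≤ c := by linarith
  have hc1 : c ≤ 1 := by linarith
  have e0 : cl θ = 1 := cl_one (by linarith)
  have e1 : cl (θ - 1) = c := by rw [hc]; exact cl_id (by linarith) (by linarith)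
  have e2 : cl (θ - 2) = 0 := cl_zero (by linarith)
  have e3 : cl (θ - 3) = 0 := cl_zero (by linarith)
  have e4 : cl (θ - 4) = 0 := cl_zero (by linarith)
  have e5 : cl (θ - 5) = 0 := cl_zero (by linarith)
  have g0 : 0 ≤ 3 - σ := by linarith
  have g1 : 0 ≤ 1 - c := by linarith
  have g2 : 0 ≤ σ - 2 := by linarith
  refine ⟨9, ![0, ((σ - 2) * (1 - c)), (3 - σ), 0, ((σ - 2) * c), 0, 0], ?_, ?_, ?_, ?_, ?_, ?_⟩
  · intro k; fin_cases k <;> simp <;> first | positivity | linarith | nlinarith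
  · intro k hk; fin_cases k <;> simp [fcs] at hk ⊢
  · rw [Fin.sum_univ_seven]; simp; try ring
  · rw [sum_vert]
    unfold f0out VAo VBo
    simp only [e0, e1, e2, e3, e4, e5]
    apply pt_congr
    · simp; try ring
    · simp; try ring
  · rw [Fin.sum_univ_seven]; simp [ps]; try ring
  · rw [Fin.sum_univ_seven]
    unfold k0out TAo TBo
    simp only [e0, e1, e2, e3, e4, e5]
    simp [pt3]; try ring

theorem ro_2 (σ θ : ℝ) (h1 : 2 ≤ σ) (h2 : σ ≤ 3) (h3 : 2 ≤ θ) (h4 : θ ≤ 3) :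
    Rep (f0out σ θ) σ (k0out σ θ) := by
  obtain ⟨c, hc⟩ : ∃ c, c = θ - 2 := ⟨_, rfl⟩
  have hc0 : 0 ≤ c := by linarith
  have hc1 : c ≤ 1 := by linarith
  have e0 : cl θ = 1 := cl_one (by linarith)
  have e1 : cl (θ - 1) = 1 := cl_one (by linarith)
  have e2 : cl (θ - 2) = c := by rw [hc]; exact cl_id (by linarith) (by linarith)
  have e3 : cl (θ - 3) = 0 := cl_zero (by linarith)
  have e4 : cl (θ - 4) = 0 := cl_zero (by linarith)
  have e5 : cl (θ - 5) = 0 := cl_zero (by linarith)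
  have g0 : 0 ≤ 3 - σ := by linarith
  have g1 : 0 ≤ 1 - c := by linarith
  have g2 : 0 ≤ σ - 2 := by linarith
  refine ⟨10, ![0, 0, (3 - σ), 0, ((σ - 2) * (1 - c)), ((σ - 2) * c), 0], ?_, ?_, ?_, ?_, ?_, ?_⟩
  · intro k; fin_cases k <;> simp <;> first | positivity | linarith | nlinarith
  · intro k hk; fin_cases k <;> simp [fcs] at hk ⊢
  · rw [Fin.sum_univ_seven]; simp; try ring
  · rw [sum_vert]
    unfold f0out VAo VBo
    simp only [e0, e1, e2, e3, e4, e5]
    apply pt_congr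
    · simp; try ring
    · simp; try ring
  · rw [Fin.sum_univ_seven]; simp [ps]; try ring
  · rw [Fin.sum_univ_seven]
    unfold k0out TAo TBo
    simp only [e0, e1, e2, e3, e4, e5]
    simp [pt3]; try ring

theorem ro_3 (σ θ : ℝ) (h1 : 2 ≤ σ) (h2 : σ ≤ 3) (h3 : 3 ≤ θ) (h4 : θ ≤ 4) :
    Rep (f0out σ θ) σ (k0out σ θ) := by
  obtain ⟨c, hc⟩ : ∃ c, c = θ - 3 := ⟨_, rfl⟩
  have hc0 : 0 ≤ c := by linarith
  have hc1 : c ≤ 1 := by linarith
  have e0 : cl θ = 1 := cl_one (by linarith)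
  have e1 : cl (θ - 1) = 1 := cl_one (by linarith)
  have e2 : cl (θ - 2) = 1 := cl_one (by linarith)
  have e3 : cl (θ - 3) = c := by rw [hc]; exact cl_id (by linarith) (by linarith)
  have e4 : cl (θ - 4) = 0 := cl_zero (by linarith)
  have e5 : cl (θ - 5) = 0 := cl_zero (by linarith)
  have g0 : 0 ≤ 3 - σ := by linarith
  have g1 : 0 ≤ 1 - c := by linarith
  have g2 : 0 ≤ σ - 2 := by linarith
  refine ⟨11, ![0, 0, ((3 - σ) * (1 - c)), ((3 - σ) * c), 0, (σ - 2), 0], ?_, ?_, ?_, ?_, ?_, ?_⟩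
  · intro k; fin_cases k <;> simp <;> first | positivity | linarith | nlinarith
  · intro k hk; fin_cases k <;> simp [fcs] at hk ⊢
  · rw [Fin.sum_univ_seven]; simp; try ring
  · rw [sum_vert]
    unfold f0out VAo VBo
    simp only [e0, e1, e2, e3, e4, e5]
    apply pt_congr
    · simp; try ring
    · simp; try ring
  · rw [Fin.sum_univ_seven]; simp [ps]; try ring
  · rw [Fin.sum_univ_seven]
    unfold k0out TAo TBo
    simp only [e0, e1, e2, e3, e4, e5]
    simp [pt3]; try ring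

theorem ro_4 (σ θ : ℝ) (h1 : 2 ≤ σ) (h2 : σ ≤ 3) (h3 : 4 ≤ θ) (h4 : θ ≤ 5) :
    Rep (f0out σ θ) σ (k0out σ θ) := by
  obtain ⟨c, hc⟩ : ∃ c, c = θ - 4 := ⟨_, rfl⟩
  have hc0 : 0 ≤ c := by linarith
  have hc1 : c ≤ 1 := by linarith
  have e0 : cl θ = 1 := cl_one (by linarith)
  have e1 : cl (θ - 1) = 1 := cl_one (by linarith)
  have e2 : cl (θ - 2) = 1 := cl_one (by linarith)
  have e3 : cl (θ - 3) = 1 := cl_one (by linarith)
  have e4 : cl (θ - 4) = c := by rw [hc]; exact cl_id (by linarith) (by linarith)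
  have e5 : cl (θ - 5) = 0 := cl_zero (by linarith)
  have g0 : 0 ≤ 3 - σ := by linarith
  have g1 : 0 ≤ 1 - c := by linarith
  have g2 : 0 ≤ σ - 2 := by linarith
  refine ⟨12, ![0, 0, 0, ((3 - σ) * (1 - c)), 0, (σ - 2), ((3 - σ) * c)], ?_, ?_, ?_, ?_, ?_, ?_⟩
  · intro k; fin_cases k <;> simp <;> first | positivity | linarith | nlinarith
  · intro k hk; fin_cases k <;> simp [fcs] at hk ⊢
  · rw [Fin.sum_univ_seven]; simp; try ring
  · rw [sum_vert]
    unfold f0out VAo VBo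
    simp only [e0, e1, e2, e3, e4, e5]
    apply pt_congr
    · simp; try ring
    · simp; try ring
  · rw [Fin.sum_univ_seven]; simp [ps]; try ring
  · rw [Fin.sum_univ_seven]
    unfold k0out TAo TBo
    simp only [e0, e1, e2, e3, e4, e5]
    simp [pt3]; try ring

theorem ro_5 (σ θ : ℝ) (h1 : 2 ≤ σ) (h2 : σ ≤ 3) (h3 : 5 ≤ θ) (h4 : θ ≤ 6) :
    Rep (f0out σ θ) σ (k0out σ θ) := by
  obtain ⟨c, hc⟩ : ∃ c, c = θ - 5 := ⟨_, rfl⟩
  have hc0 : 0 ≤ c := by linarith
  have hc1 : c ≤ 1 := by linarith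
  have e0 : cl θ = 1 := cl_one (by linarith)
  have e1 : cl (θ - 1) = 1 := cl_one (by linarith)
  have e2 : cl (θ - 2) = 1 := cl_one (by linarith)
  have e3 : cl (θ - 3) = 1 := cl_one (by linarith)
  have e4 : cl (θ - 4) = 1 := cl_one (by linarith)
  have e5 : cl (θ - 5) = c := by rw [hc]; exact cl_id (by linarith) (by linarith)
  have g0 : 0 ≤ 3 - σ := by linarith
  have g1 : 0 ≤ 1 - c := by linarith
  have g2 : 0 ≤ σ - 2 := by linarith
  refine ⟨13, ![0, ((σ - 2) * c), 0, 0, 0, ((σ - 2) * (1 - c)), (3 - σ)], ?_, ?_, ?_, ?_, ?_, ?_⟩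
  · intro k; fin_cases k <;> simp <;> first | positivity | linarith | nlinarith
  · intro k hk; fin_cases k <;> simp [fcs] at hk ⊢
  · rw [Fin.sum_univ_seven]; simp; try ring
  · rw [sum_vert]
    unfold f0out VAo VBo
    simp only [e0, e1, e2, e3, e4, e5]
    apply pt_congr
    · simp; try ring
    · simp; try ring
  · rw [Fin.sum_univ_seven]; simp [ps]; try ring
  · rw [Fin.sum_univ_seven]
    unfold k0out TAo TBo
    simp only [e0, e1, e2, e3, e4, e5]
    simp [pt3]; try ring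

theorem rep_in (σ θ : ℝ) (h1 : 0 ≤ σ) (h2 : σ ≤ 2) (h3 : 0 ≤ θ) (h4 : θ ≤ 10) :
    Rep (f0in σ θ) σ (k0in σ θ) := by
  rcases le_total θ 1 with t0 | t0
  · rcases le_total σ 1 with s | s
    · exact r1_0 σ θ h1 s (by simpa using h3) t0
    · exact r2_0 σ θ s h2 (by simpa using h3) t0
  rcases le_total θ 2 with t1 | t1
  · rcases le_total σ 1 with s | s
    · exact r1_1 σ θ h1 s (by simpa using t0) t1
    · exact r2_1 σ θ s h2 (by simpa using t0) t1
  rcases le_total θ 3 with t2 | t2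
  · rcases le_total σ 1 with s | s
    · exact r1_2 σ θ h1 s (by simpa using t1) t2
    · exact r2_2 σ θ s h2 (by simpa using t1) t2
  rcases le_total θ 4 with t3 | t3
  · rcases le_total σ 1 with s | s
    · exact r1_3 σ θ h1 s (by simpa using t2) t3
    · exact r2_3 σ θ s h2 (by simpa using t2) t3
  rcases le_total θ 5 with t4 | t4
  · rcases le_total σ 1 with s | s
    · exact r1_4 σ θ h1 s (by simpa using t3) t4
    · exact r2_4 σ θ s h2 (by simpa using t3) t4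
  rcases le_total θ 6 with t5 | t5
  · rcases le_total σ 1 with s | s
    · exact r1_5 σ θ h1 s (by simpa using t4) t5
    · exact r2_5 σ θ s h2 (by simpa using t4) t5
  rcases le_total θ 7 with t6 | t6
  · rcases le_total σ 1 with s | s
    · exact r1_6 σ θ h1 s (by simpa using t5) t6
    · exact r2_6 σ θ s h2 (by simpa using t5) t6
  rcases le_total θ 8 with t7 | t7
  · rcases le_total σ 1 with s | s
    · exact r1_7 σ θ h1 s (by simpa using t6) t7
    · exact r2_7 σ θ s h2 (by simpa using t6) t7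
  rcases le_total θ 9 with t8 | t8
  · rcases le_total σ 1 with s | s
    · exact r1_8 σ θ h1 s (by simpa using t7) t8
    · exact r2_8 σ θ s h2 (by simpa using t7) t8
  rcases le_total σ 1 with s | s
  · exact r1_9 σ θ h1 s t8 h4
  · exact r2_9 σ θ s h2 t8 h4

theorem rep_out (σ θ : ℝ) (h1 : 2 ≤ σ) (h2 : σ ≤ 3) (h3 : 0 ≤ θ) (h4 : θ ≤ 6) :
    Rep (f0out σ θ) σ (k0out σ θ) := by
  rcases le_total θ 1 with t0 | t0
  · exact ro_0 σ θ h1 h2 (by simpa using h3) t0
  rcases le_total θ 2 with t1 | t1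
  · exact ro_1 σ θ h1 h2 (by simpa using t0) t1
  rcases le_total θ 3 with t2 | t2
  · exact ro_2 σ θ h1 h2 (by simpa using t1) t2
  rcases le_total θ 4 with t3 | t3
  · exact ro_3 σ θ h1 h2 (by simpa using t2) t3
  rcases le_total θ 5 with t4 | t4
  · exact ro_4 σ θ h1 h2 (by simpa using t3) t4
  exact ro_5 σ θ h1 h2 t4 h4

end Pool.Agent.Csz.M8
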