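import Mathlib
import Pool.Agent.Csz.Defs
import Pool.Agent.Csz.PL
import Pool.Agent.Csz.M8a

set_option autoImplicit false
set_option linter.all false

open Complex Set

namespace Pool.Agent.Csz.M8

theorem coe_iff (a b : ℝ) : ((a : AddCircle (1:ℝ)) = (b : AddCircle (1:ℝ))) ↔
    ∃ n : ℤ, a = b + n := by
  rw [QuotientAddGroup.eq_iff_sub_mem, AddSubgroup.mem_zmultiples_iff]
  constructor
  · rintro ⟨n, hn⟩
    refine ⟨n, ?_⟩
    simp at hn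
    linarith
  · rintro ⟨n, hn⟩
    refine ⟨n, ?_⟩
    simp
    linarith

theorem tor_iff (s t s' t' : ℝ) : tor s t = tor s' t' ↔
    ∃ a b : ℤ, s = s' + 3 * a ∧ t = t' + b := by
  unfold tor
  rw [Prod.mk.injEq, coe_iff, coe_iff]
  constructor
  · rintro ⟨⟨a, ha⟩, b, hb⟩
    exact ⟨a, b, by linarith, hb⟩
  · rintro ⟨a, b, ha, hb⟩
    exact ⟨⟨a, by rw [ha]; ring⟩, b, hb⟩

theorem hA_nonneg (σ : ℝ) : 0 ≤ hA σ := le_max_right _ _
theorem hB_nonneg (σ : ℝ) : 0 ≤ hB σ := le_max_right _ _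
theorem hK_nonneg (σ : ℝ) (h1 : 0 ≤ σ) (h2 : σ ≤ 2) : 0 ≤ hK σ := by
  unfold hK
  have : |σ - 1| ≤ 1 := by rw [abs_le]; constructor <;> linarith
  linarith

theorem fib_in_le (σ θ θ' : ℝ) (h1 : 0 ≤ σ) (h2 : σ ≤ 2) (hle : θ ≤ θ')
    (h : k0in σ θ = k0in σ θ') : f0in σ θ = f0in σ θ' := by
  have a := hA_nonneg σ
  have b := hB_nonneg σ
  have k := hK_nonneg σ h1 h2
  have d0 : 0 ≤ cl θ' - cl θ := sub_nonneg.2 (cl_mono hle)
  have d1 : 0 ≤ cl (θ' - 1) - cl (θ - 1) := sub_nonneg.2 (cl_mono (by linarith))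
  have d2 : 0 ≤ cl (θ' - 2) - cl (θ - 2) := sub_nonneg.2 (cl_mono (by linarith))
  have d3 : 0 ≤ cl (θ' - 3) - cl (θ - 3) := sub_nonneg.2 (cl_mono (by linarith))
  have d4 : 0 ≤ cl (θ' - 4) - cl (θ - 4) := sub_nonneg.2 (cl_mono (by linarith))
  have d5 : 0 ≤ cl (θ' - 5) - cl (θ - 5) := sub_nonneg.2 (cl_mono (by linarith))
  have d6 : 0 ≤ cl (θ' - 6) - cl (θ - 6) := sub_nonneg.2 (cl_mono (by linarith))
  have d7 : 0 ≤ cl (θ' - 7) - cl (θ - 7) := sub_nonneg.2 (cl_mono (by linarith))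
  have d8 : 0 ≤ cl (θ' - 8) - cl (θ - 8) := sub_nonneg.2 (cl_mono (by linarith))
  have d9 : 0 ≤ cl (θ' - 9) - cl (θ - 9) := sub_nonneg.2 (cl_mono (by linarith))
  have m0 := mul_nonneg b d0
  have m1 := mul_nonneg b d1
  have m5 := mul_nonneg b d5
  have m2 := mul_nonneg k d2
  have m3 := mul_nonneg k d3
  have m6 := mul_nonneg k d6
  have m7 := mul_nonneg k d7
  have m4 := mul_nonneg a d4
  have m8 := mul_nonneg a d8
  have m9 := mul_nonneg a d9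
  unfold k0in TA0 TK0 TB0 at h
  have z0 : hB σ * cl θ' = hB σ * cl θ := by linarith
  have z1 : hB σ * cl (θ' - 1) = hB σ * cl (θ - 1) := by linarith
  have z5 : hB σ * cl (θ' - 5) = hB σ * cl (θ - 5) := by linarith
  have z2 : hK σ * cl (θ' - 2) = hK σ * cl (θ - 2) := by linarith
  have z3 : hK σ * cl (θ' - 3) = hK σ * cl (θ - 3) := by linarith
  have z6 : hK σ * cl (θ' - 6) = hK σ * cl (θ - 6) := by linarith
  have z7 : hK σ * cl (θ' - 7) = hK σ * cl (θ - 7) := by linarith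
  have z4 : hA σ * cl (θ' - 4) = hA σ * cl (θ - 4) := by linarith
  have z8 : hA σ * cl (θ' - 8) = hA σ * cl (θ - 8) := by linarith
  have z9 : hA σ * cl (θ' - 9) = hA σ * cl (θ - 9) := by linarith
  have c0 : (hB σ : ℂ) * cl θ' = hB σ * cl θ := by exact_mod_cast z0
  have c1 : (hB σ : ℂ) * cl (θ' - 1) = hB σ * cl (θ - 1) := by exact_mod_cast z1
  have c5 : (hB σ : ℂ) * cl (θ' - 5) = hB σ * cl (θ - 5) := by exact_mod_cast z5
  have c2 : (hK σ : ℂ) * cl (θ' - 2) = hK σ * cl (θ - 2) := by exact_mod_cast z2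
  have c3 : (hK σ : ℂ) * cl (θ' - 3) = hK σ * cl (θ - 3) := by exact_mod_cast z3
  have c6 : (hK σ : ℂ) * cl (θ' - 6) = hK σ * cl (θ - 6) := by exact_mod_cast z6
  have c7 : (hK σ : ℂ) * cl (θ' - 7) = hK σ * cl (θ - 7) := by exact_mod_cast z7
  have c4 : (hA σ : ℂ) * cl (θ' - 4) = hA σ * cl (θ - 4) := by exact_mod_cast z4
  have c8 : (hA σ : ℂ) * cl (θ' - 8) = hA σ * cl (θ - 8) := by exact_mod_cast z8
  have c9 : (hA σ : ℂ) * cl (θ' - 9) = hA σ * cl (θ - 9) := by exact_mod_cast z9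
  unfold f0in
  apply pt_congr _ rfl
  unfold VA0 VK0 VB0
  linear_combination (-(-4 + 9 * I)) * c0 - (1 - 8 * I) * c1 - (3 - I) * c5
    - ((-1 + I) / 2) * c2 - ((-3 - I) / 2) * c3 - ((3 - I) / 2) * c6 - ((1 + I) / 2) * c7
    - (-3 - I) * c4 - (-1 - 8 * I) * c8 - (4 + 9 * I) * c9

theorem fib_in (σ θ θ' : ℝ) (h1 : 0 ≤ σ) (h2 : σ ≤ 2) (h : k0in σ θ = k0in σ θ') :
    f0in σ θ = f0in σ θ' := by
  rcases le_total θ θ' with h' | h'
  · exact fib_in_le σ θ θ' h1 h2 h' h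
  · exact (fib_in_le σ θ' θ h1 h2 h' h.symm).symm

theorem fib_out_le (σ θ θ' : ℝ) (h1 : 2 ≤ σ) (h2 : σ ≤ 3) (hle : θ ≤ θ')
    (h : k0out σ θ = k0out σ θ') : f0out σ θ = f0out σ θ' := by
  have a : 0 ≤ σ - 2 := by linarith
  have b : 0 ≤ 3 - σ := by linarith
  have d0 : 0 ≤ cl θ' - cl θ := sub_nonneg.2 (cl_mono hle)
  have d1 : 0 ≤ cl (θ' - 1) - cl (θ - 1) := sub_nonneg.2 (cl_mono (by linarith))
  have d2 : 0 ≤ cl (θ' - 2) - cl (θ - 2) := sub_nonneg.2 (cl_mono (by linarith))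
  have d3 : 0 ≤ cl (θ' - 3) - cl (θ - 3) := sub_nonneg.2 (cl_mono (by linarith))
  have d4 : 0 ≤ cl (θ' - 4) - cl (θ - 4) := sub_nonneg.2 (cl_mono (by linarith))
  have d5 : 0 ≤ cl (θ' - 5) - cl (θ - 5) := sub_nonneg.2 (cl_mono (by linarith))
  have m0 := mul_nonneg b d0
  have m3 := mul_nonneg b d3
  have m4 := mul_nonneg b d4
  have m1 := mul_nonneg a d1
  have m2 := mul_nonneg a d2
  have m5 := mul_nonneg a d5
  unfold k0out TAo TBo at h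
  have z0 : (3 - σ) * cl θ' = (3 - σ) * cl θ := by linarith
  have z3 : (3 - σ) * cl (θ' - 3) = (3 - σ) * cl (θ - 3) := by linarith
  have z4 : (3 - σ) * cl (θ' - 4) = (3 - σ) * cl (θ - 4) := by linarith
  have z1 : (σ - 2) * cl (θ' - 1) = (σ - 2) * cl (θ - 1) := by linarith
  have z2 : (σ - 2) * cl (θ' - 2) = (σ - 2) * cl (θ - 2) := by linarith
  have z5 : (σ - 2) * cl (θ' - 5) = (σ - 2) * cl (θ - 5) := by linarith
  have c0 : (3 - σ : ℂ) * cl θ' = (3 - σ) * cl θ := by exact_mod_cast z0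
  have c3 : (3 - σ : ℂ) * cl (θ' - 3) = (3 - σ) * cl (θ - 3) := by exact_mod_cast z3
  have c4 : (3 - σ : ℂ) * cl (θ' - 4) = (3 - σ) * cl (θ - 4) := by exact_mod_cast z4
  have c1 : (σ - 2 : ℂ) * cl (θ' - 1) = (σ - 2) * cl (θ - 1) := by exact_mod_cast z1
  have c2 : (σ - 2 : ℂ) * cl (θ' - 2) = (σ - 2) * cl (θ - 2) := by exact_mod_cast z2
  have c5 : (σ - 2 : ℂ) * cl (θ' - 5) = (σ - 2) * cl (θ - 5) := by exact_mod_cast z5
  unfold f0out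
  apply pt_congr _ rfl
  unfold VAo VBo
  linear_combination (-(-4 + 9 * I)) * c0 - (1 - 8 * I) * c3 - (3 - I) * c4
    - (-3 - I) * c1 - (-1 - 8 * I) * c2 - (4 + 9 * I) * c5

theorem fib_out (σ θ θ' : ℝ) (h1 : 2 ≤ σ) (h2 : σ ≤ 3) (h : k0out σ θ = k0out σ θ') :
    f0out σ θ = f0out σ θ' := by
  rcases le_total θ θ' with h' | h'
  · exact fib_out_le σ θ θ' h1 h2 h' h
  · exact (fib_out_le σ θ' θ h1 h2 h' h.symm).symm

/-- chain of three clamps -/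
theorem chain (θ : ℝ) (i j k : ℝ) (hij : i + 1 ≤ j) (hjk : j + 1 ≤ k) :
    (cl (θ - j) = 0 ∨ cl (θ - i) = 1) ∧ (cl (θ - k) = 0 ∨ cl (θ - j) = 1) := by
  constructor
  · rcases le_total θ j with h | h
    · exact Or.inl (cl_zero (by linarith))
    · exact Or.inr (cl_one (by linarith))
  · rcases le_total θ k with h | h
    · exact Or.inl (cl_zero (by linarith))
    · exact Or.inr (cl_one (by linarith))

theorem chain_unique {a b c a' b' c' : ℝ} (a0 : 0 ≤ a) (a1 : a ≤ 1) (b0 : 0 ≤ b) (b1 : b ≤ 1)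
    (c0 : 0 ≤ c) (c1 : c ≤ 1) (a0' : 0 ≤ a') (a1' : a' ≤ 1) (b0' : 0 ≤ b') (b1' : b' ≤ 1)
    (c0' : 0 ≤ c') (c1' : c' ≤ 1) (h1 : b = 0 ∨ a = 1) (h2 : c = 0 ∨ b = 1)
    (h1' : b' = 0 ∨ a' = 1) (h2' : c' = 0 ∨ b' = 1) (h : a + b + c = a' + b' + c') :
    a = a' ∧ b = b' ∧ c = c' := by
  rcases h1 with h1 | h1 <;> rcases h2 with h2 | h2 <;> rcases h1' with h1' | h1' <;>
    rcases h2' with h2' | h2' <;> refine ⟨?_, ?_, ?_⟩ <;> linarith

theorem loop_eq {a b c a' b' c' : ℝ} (a0 : 0 ≤ a) (a1 : a ≤ 1) (b0 : 0 ≤ b) (b1 : b ≤ 1)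
    (c0 : 0 ≤ c) (c1 : c ≤ 1) (a0' : 0 ≤ a') (a1' : a' ≤ 1) (b0' : 0 ≤ b') (b1' : b' ≤ 1)
    (c0' : 0 ≤ c') (c1' : c' ≤ 1) (h1 : b = 0 ∨ a = 1) (h2 : c = 0 ∨ b = 1)
    (h1' : b' = 0 ∨ a' = 1) (h2' : c' = 0 ∨ b' = 1) (n : ℤ)
    (h : (a + b + c) / 3 = (a' + b' + c') / 3 + n) (e1 e2 e3 : ℂ) (he : e1 + e2 + e3 = 0) :
    a * e1 + b * e2 + c * e3 = a' * e1 + b' * e2 + c' * e3 := by
  have hn1 : (n : ℝ) ≤ 1 := by linarith
  have hn2 : (-1 : ℝ) ≤ n := by linarith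
  have hn1' : n ≤ 1 := by exact_mod_cast hn1
  have hn2' : -1 ≤ n := by exact_mod_cast hn2
  obtain rfl | rfl | rfl : n = -1 ∨ n = 0 ∨ n = 1 := by omega
  · have ha : a = 0 := by push_cast at h; linarith
    have hb : b = 0 := by push_cast at h; linarith
    have hc : c = 0 := by push_cast at h; linarith
    have ha' : a' = 1 := by push_cast at h; linarith
    have hb' : b' = 1 := by push_cast at h; linarith
    have hc' : c' = 1 := by push_cast at h; linarith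
    rw [ha, hb, hc, ha', hb', hc']
    push_cast
    linear_combination -he
  · obtain ⟨r1, r2, r3⟩ := chain_unique a0 a1 b0 b1 c0 c1 a0' a1' b0' b1' c0' c1' h1 h2 h1' h2'
      (by push_cast at h; linarith)
    rw [r1, r2, r3]
  · have ha : a = 1 := by push_cast at h; linarith
    have hb : b = 1 := by push_cast at h; linarith
    have hc : c = 1 := by push_cast at h; linarith
    have ha' : a' = 0 := by push_cast at h; linarith
    have hb' : b' = 0 := by push_cast at h; linarith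
    have hc' : c' = 0 := by push_cast at h; linarith
    rw [ha, hb, hc, ha', hb', hc']
    push_cast
    linear_combination he

theorem glueB (θ θ' : ℝ) (b : ℤ) (h : k0in 2 θ = k0out 2 θ' + b) : f0in 2 θ = f0out 2 θ' := by
  have a1 : hA 2 = 0 := by unfold hA; norm_num
  have a2 : hB 2 = 1 := by unfold hB; norm_num
  have a3 : hK 2 = 0 := by unfold hK; norm_num
  unfold k0in k0out TB0 TBo at h
  rw [a1, a2, a3] at h
  unfold f0in f0out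
  rw [a1, a2, a3]
  apply pt_congr _ (by norm_num)
  unfold VB0 VBo
  have h1 := chain θ 0 1 5 (by norm_num) (by norm_num)
  have h2 := chain θ' 0 3 4 (by norm_num) (by norm_num)
  rw [sub_zero] at h1 h2
  have h3 := loop_eq (cl_nonneg θ) (cl_le_one _) (cl_nonneg (θ - 1)) (cl_le_one _)
    (cl_nonneg (θ - 5)) (cl_le_one _) (cl_nonneg θ') (cl_le_one _) (cl_nonneg (θ' - 3))
    (cl_le_one _) (cl_nonneg (θ' - 4)) (cl_le_one _) h1.1 h1.2 h2.1 h2.2 b (by linarith)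
    (-4 + 9 * I) (1 - 8 * I) (3 - I) (by ring)
  push_cast
  linear_combination h3

theorem glueA (θ θ' : ℝ) (b : ℤ) (h : k0in 0 θ = k0out 3 θ' + b) : f0in 0 θ = f0out 3 θ' := by
  have a1 : hA 0 = 1 := by unfold hA; norm_num
  have a2 : hB 0 = 0 := by unfold hB; norm_num
  have a3 : hK 0 = 0 := by unfold hK; norm_num
  unfold k0in k0out TA0 TAo at h
  rw [a1, a2, a3] at h
  unfold f0in f0out
  rw [a1, a2, a3]
  apply pt_congr _ (by norm_num)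
  unfold VA0 VAo
  have h1 := chain θ 4 8 9 (by norm_num) (by norm_num)
  have h2 := chain θ' 1 2 5 (by norm_num) (by norm_num)
  have h3 := loop_eq (cl_nonneg (θ - 4)) (cl_le_one _) (cl_nonneg (θ - 8)) (cl_le_one _)
    (cl_nonneg (θ - 9)) (cl_le_one _) (cl_nonneg (θ' - 1)) (cl_le_one _) (cl_nonneg (θ' - 2))
    (cl_le_one _) (cl_nonneg (θ' - 5)) (cl_le_one _) h1.1 h1.2 h2.1 h2.2 b (by linarith)
    (-3 - I) (-1 - 8 * I) (4 + 9 * I) (by ring)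
  push_cast
  linear_combination h3

theorem k0in_cont : Continuous (fun p : ℝ × ℝ => k0in p.1 p.2) := by
  have := cl_cont
  unfold k0in TA0 TK0 TB0 hA hB hK
  fun_prop

theorem k0out_cont : Continuous (fun p : ℝ × ℝ => k0out p.1 p.2) := by
  have := cl_cont
  unfold k0out TAo TBo
  fun_prop

theorem pt_cont : Continuous (fun p : ℂ × ℝ => pt p.1 p.2) := by
  unfold pt
  fun_prop

theorem f0in_cont : Continuous (fun p : ℝ × ℝ => f0in p.1 p.2) := by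
  have := cl_cont
  have h : Continuous (fun p : ℝ × ℝ => ((hA p.1 * VA0 p.2 + hK p.1 * VK0 p.2 + hB p.1 * VB0 p.2 : ℂ),
      (p.1 - 1 : ℝ))) := by
    unfold VA0 VK0 VB0 hA hB hK
    fun_prop
  exact pt_cont.comp h

theorem f0out_cont : Continuous (fun p : ℝ × ℝ => f0out p.1 p.2) := by
  have := cl_cont
  have h : Continuous (fun p : ℝ × ℝ => (((3 - p.1) * VBo p.2 + (p.1 - 2) * VAo p.2 : ℂ),
      (5 - 2 * p.1 : ℝ))) := by
    unfold VAo VBo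
    fun_prop
  exact pt_cont.comp h

theorem hsum (σ : ℝ) (h1 : 0 ≤ σ) (h2 : σ ≤ 2) : hA σ + hK σ + hB σ = 1 := by
  unfold hA hK hB
  rcases le_total σ 1 with h | h
  · rw [max_eq_left (by linarith), max_eq_right (by linarith), abs_of_nonpos (by linarith)]; ring
  · rw [max_eq_right (by linarith), max_eq_left (by linarith), abs_of_nonneg (by linarith)]; ring

theorem k0in_zero (σ : ℝ) : k0in σ 0 = 0 := by
  unfold k0in TA0 TK0 TB0
  simp only [cl_zero (show (0:ℝ) ≤ 0 by norm_num), cl_zero (show (0:ℝ) - 1 ≤ 0 by norm_num),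
    cl_zero (show (0:ℝ) - 2 ≤ 0 by norm_num), cl_zero (show (0:ℝ) - 3 ≤ 0 by norm_num),
    cl_zero (show (0:ℝ) - 4 ≤ 0 by norm_num), cl_zero (show (0:ℝ) - 5 ≤ 0 by norm_num),
    cl_zero (show (0:ℝ) - 6 ≤ 0 by norm_num), cl_zero (show (0:ℝ) - 7 ≤ 0 by norm_num),
    cl_zero (show (0:ℝ) - 8 ≤ 0 by norm_num), cl_zero (show (0:ℝ) - 9 ≤ 0 by norm_num)]
  ring

theorem k0in_ten (σ : ℝ) (h1 : 0 ≤ σ) (h2 : σ ≤ 2) : k0in σ 10 = 1 := by
  have h := hsum σ h1 h2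
  unfold k0in TA0 TK0 TB0
  simp only [cl_one (show (1:ℝ) ≤ 10 by norm_num), cl_one (show (1:ℝ) ≤ 10 - 1 by norm_num),
    cl_one (show (1:ℝ) ≤ 10 - 2 by norm_num), cl_one (show (1:ℝ) ≤ 10 - 3 by norm_num),
    cl_one (show (1:ℝ) ≤ 10 - 4 by norm_num), cl_one (show (1:ℝ) ≤ 10 - 5 by norm_num),
    cl_one (show (1:ℝ) ≤ 10 - 6 by norm_num), cl_one (show (1:ℝ) ≤ 10 - 7 by norm_num),
    cl_one (show (1:ℝ) ≤ 10 - 8 by norm_num), cl_one (show (1:ℝ) ≤ 10 - 9 by norm_num)]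
  linarith

theorem f0in_ends (σ : ℝ) : f0in σ 10 = f0in σ 0 := by
  unfold f0in
  apply pt_congr _ rfl
  unfold VA0 VK0 VB0
  simp only [cl_zero (show (0:ℝ) ≤ 0 by norm_num), cl_zero (show (0:ℝ) - 1 ≤ 0 by norm_num),
    cl_zero (show (0:ℝ) - 2 ≤ 0 by norm_num), cl_zero (show (0:ℝ) - 3 ≤ 0 by norm_num),
    cl_zero (show (0:ℝ) - 4 ≤ 0 by norm_num), cl_zero (show (0:ℝ) - 5 ≤ 0 by norm_num),
    cl_zero (show (0:ℝ) - 6 ≤ 0 by norm_num), cl_zero (show (0:ℝ) - 7 ≤ 0 by norm_num),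
    cl_zero (show (0:ℝ) - 8 ≤ 0 by norm_num), cl_zero (show (0:ℝ) - 9 ≤ 0 by norm_num),
    cl_one (show (1:ℝ) ≤ 10 by norm_num), cl_one (show (1:ℝ) ≤ 10 - 1 by norm_num),
    cl_one (show (1:ℝ) ≤ 10 - 2 by norm_num), cl_one (show (1:ℝ) ≤ 10 - 3 by norm_num),
    cl_one (show (1:ℝ) ≤ 10 - 4 by norm_num), cl_one (show (1:ℝ) ≤ 10 - 5 by norm_num),
    cl_one (show (1:ℝ) ≤ 10 - 6 by norm_num), cl_one (show (1:ℝ) ≤ 10 - 7 by norm_num),
    cl_one (show (1:ℝ) ≤ 10 - 8 by norm_num), cl_one (show (1:ℝ) ≤ 10 - 9 by norm_num)]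
  push_cast
  ring

theorem k0out_zero (σ : ℝ) : k0out σ 0 = 0 := by
  unfold k0out TAo TBo
  simp only [cl_zero (show (0:ℝ) ≤ 0 by norm_num), cl_zero (show (0:ℝ) - 1 ≤ 0 by norm_num),
    cl_zero (show (0:ℝ) - 2 ≤ 0 by norm_num), cl_zero (show (0:ℝ) - 3 ≤ 0 by norm_num),
    cl_zero (show (0:ℝ) - 4 ≤ 0 by norm_num), cl_zero (show (0:ℝ) - 5 ≤ 0 by norm_num)]
  ring

theorem k0out_six (σ : ℝ) : k0out σ 6 = 1 := by
  unfold k0out TAo TBo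
  simp only [cl_one (show (1:ℝ) ≤ 6 by norm_num), cl_one (show (1:ℝ) ≤ 6 - 1 by norm_num),
    cl_one (show (1:ℝ) ≤ 6 - 2 by norm_num), cl_one (show (1:ℝ) ≤ 6 - 3 by norm_num),
    cl_one (show (1:ℝ) ≤ 6 - 4 by norm_num), cl_one (show (1:ℝ) ≤ 6 - 5 by norm_num)]
  ring

theorem f0out_ends (σ : ℝ) : f0out σ 6 = f0out σ 0 := by
  unfold f0out
  apply pt_congr _ rfl
  unfold VAo VBo
  simp only [cl_zero (show (0:ℝ) ≤ 0 by norm_num), cl_zero (show (0:ℝ) - 1 ≤ 0 by norm_num),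
    cl_zero (show (0:ℝ) - 2 ≤ 0 by norm_num), cl_zero (show (0:ℝ) - 3 ≤ 0 by norm_num),
    cl_zero (show (0:ℝ) - 4 ≤ 0 by norm_num), cl_zero (show (0:ℝ) - 5 ≤ 0 by norm_num),
    cl_one (show (1:ℝ) ≤ 6 by norm_num), cl_one (show (1:ℝ) ≤ 6 - 1 by norm_num),
    cl_one (show (1:ℝ) ≤ 6 - 2 by norm_num), cl_one (show (1:ℝ) ≤ 6 - 3 by norm_num),
    cl_one (show (1:ℝ) ≤ 6 - 4 by norm_num), cl_one (show (1:ℝ) ≤ 6 - 5 by norm_num)]
  push_cast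
  ring

theorem surj_in (σ k : ℝ) (h1 : 0 ≤ σ) (h2 : σ ≤ 2) (h3 : 0 ≤ k) (h4 : k ≤ 1) :
    ∃ θ, 0 ≤ θ ∧ θ ≤ 10 ∧ k0in σ θ = k := by
  have hc : ContinuousOn (fun θ => k0in σ θ) (Icc 0 10) :=
    (k0in_cont.comp (by fun_prop : Continuous (fun θ : ℝ => (σ, θ)))).continuousOn
  have := intermediate_value_Icc (by norm_num : (0:ℝ) ≤ 10) hc
  have hk : k ∈ Icc (k0in σ 0) (k0in σ 10) := by
    rw [k0in_zero, k0in_ten σ h1 h2]; exact ⟨h3, h4⟩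
  obtain ⟨θ, hθ, e⟩ := this hk
  exact ⟨θ, hθ.1, hθ.2, e⟩

theorem surj_out (σ k : ℝ) (h3 : 0 ≤ k) (h4 : k ≤ 1) :
    ∃ θ, 0 ≤ θ ∧ θ ≤ 6 ∧ k0out σ θ = k := by
  have hc : ContinuousOn (fun θ => k0out σ θ) (Icc 0 6) :=
    (k0out_cont.comp (by fun_prop : Continuous (fun θ : ℝ => (σ, θ)))).continuousOn
  have := intermediate_value_Icc (by norm_num : (0:ℝ) ≤ 6) hc
  have hk : k ∈ Icc (k0out σ 0) (k0out σ 6) := by
    rw [k0out_zero, k0out_six σ]; exact ⟨h3, h4⟩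
  obtain ⟨θ, hθ, e⟩ := this hk
  exact ⟨θ, hθ.1, hθ.2, e⟩

end Pool.Agent.Csz.M8
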