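import Mathlib
import Pool.Agent.Csz.Defs
import Pool.Agent.Csz.PL
import Pool.Agent.Csz.M8d
import Pool.Agent.Csz.M8a

/-! every point of a face is in the image of a chart -/

set_option autoImplicit false
set_option linter.all false

open Complex Set

namespace Pool.Agent.Csz.M8

theorem exc (X Y : ℝ) (hX : 0 ≤ X) (hY : 0 ≤ Y) : ∃ c : ℝ, 0 ≤ c ∧ c ≤ 1 ∧ (X + Y) * c = X := by
  rcases (add_nonneg hX hY).eq_or_lt with h | h
  · exact ⟨0, le_rfl, zero_le_one, by rw [← h]; linarith⟩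
  · exact ⟨X / (X + Y), div_nonneg hX h.le, (div_le_one h).2 (by linarith), by field_simp⟩

theorem faces_iff (σ : Finset (Fin 7)) : σ ∈ faces ↔ ∃ j, fcs j = σ := by
  unfold faces
  constructor
  · rintro (⟨i, rfl⟩ | ⟨i, rfl⟩)
    · revert i; decide
    · revert i; decide
  · rintro ⟨j, rfl⟩
    have : (∃ i : Fin 7, ({i, i + 1, i + 3} : Finset (Fin 7)) = fcs j) ∨
        (∃ i : Fin 7, ({i, i + 2, i + 3} : Finset (Fin 7)) = fcs j) := by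
      revert j; decide
    exact this

theorem rx_0a (l : Fin 7 → ℝ) (h0 : ∀ k, 0 ≤ l k)
    (z2 : l 2 = 0)    (z4 : l 4 = 0)    (z5 : l 5 = 0)    (z6 : l 6 = 0)
    (hs : l 0 + l 1 + l 3 = 1) (c1 : l 3 ≤ l 1) :
    ∃ σ θ : ℝ, 0 ≤ σ ∧ σ ≤ 2 ∧ 0 ≤ θ ∧ θ ≤ 10 ∧ f0in σ θ = ∑ k, l k • vert k := by
  have p0 := h0 0
  have p1 := h0 1
  have p3 := h0 3
  obtain ⟨c, hc0, hc1, hc⟩ := exc (2 * l 3) (l 0) (by linarith) (by linarith)
  have hcc : ((2 * (l 3 : ℂ)) + ((l 0 : ℂ))) * (c : ℂ) = 2 * (l 3 : ℂ) := by exact_mod_cast hc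
  obtain ⟨σ, hσ⟩ : ∃ σ, σ = l 0 + 2 * l 3 := ⟨_, rfl⟩
  obtain ⟨θ, hθ⟩ : ∃ θ, θ = 2 + c := ⟨_, rfl⟩
  have e0 : cl θ = 1 := cl_one (by linarith)
  have e1 : cl (θ - 1) = 1 := cl_one (by linarith)
  have e2 : cl (θ - 2) = c := by
    rw [show θ - 2 = c by linarith]; exact cl_id hc0 hc1
  have e3 : cl (θ - 3) = 0 := cl_zero (by linarith)
  have e4 : cl (θ - 4) = 0 := cl_zero (by linarith)
  have e5 : cl (θ - 5) = 0 := cl_zero (by linarith)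
  have e6 : cl (θ - 6) = 0 := cl_zero (by linarith)
  have e7 : cl (θ - 7) = 0 := cl_zero (by linarith)
  have e8 : cl (θ - 8) = 0 := cl_zero (by linarith)
  have e9 : cl (θ - 9) = 0 := cl_zero (by linarith)
  have s1 : σ ≤ 1 := by linarith
  have a1 : hA σ = l 1 - l 3 := by unfold hA; rw [max_eq_left (by linarith)]; linarith
  have a2 : hB σ = 0 := by unfold hB; rw [max_eq_right (by linarith)]
  have a3 : hK σ = l 0 + 2 * l 3 := by unfold hK; rw [abs_of_nonpos (by linarith)]; linarith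
  refine ⟨σ, θ, by linarith, by linarith, by linarith, by linarith, ?_⟩
  rw [sum_vert, z2, z4, z5, z6]
  unfold f0in VA0 VK0 VB0
  rw [a1, a2, a3]
  simp only [e0, e1, e2, e3, e4, e5, e6, e7, e8, e9]
  apply pt_congr
  · push_cast
    linear_combination ((-1 + I) / 2) * hcc
  · linarith

theorem rx_0b (l : Fin 7 → ℝ) (h0 : ∀ k, 0 ≤ l k)
    (z2 : l 2 = 0)    (z4 : l 4 = 0)    (z5 : l 5 = 0)    (z6 : l 6 = 0)
    (hs : l 0 + l 1 + l 3 = 1) (c1 : l 1 ≤ l 3) :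
    ∃ σ θ : ℝ, 0 ≤ σ ∧ σ ≤ 2 ∧ 0 ≤ θ ∧ θ ≤ 10 ∧ f0in σ θ = ∑ k, l k • vert k := by
  have p0 := h0 0
  have p1 := h0 1
  have p3 := h0 3
  obtain ⟨c, hc0, hc1, hc⟩ := exc (2 * l 1) (l 0) (by linarith) (by linarith)
  have hcc : ((2 * (l 1 : ℂ)) + ((l 0 : ℂ))) * (c : ℂ) = 2 * (l 1 : ℂ) := by exact_mod_cast hc
  obtain ⟨σ, hσ⟩ : ∃ σ, σ = l 0 + 2 * l 3 := ⟨_, rfl⟩
  obtain ⟨θ, hθ⟩ : ∃ θ, θ = 2 + c := ⟨_, rfl⟩
  have e0 : cl θ = 1 := cl_one (by linarith)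
  have e1 : cl (θ - 1) = 1 := cl_one (by linarith)
  have e2 : cl (θ - 2) = c := by
    rw [show θ - 2 = c by linarith]; exact cl_id hc0 hc1
  have e3 : cl (θ - 3) = 0 := cl_zero (by linarith)
  have e4 : cl (θ - 4) = 0 := cl_zero (by linarith)
  have e5 : cl (θ - 5) = 0 := cl_zero (by linarith)
  have e6 : cl (θ - 6) = 0 := cl_zero (by linarith)
  have e7 : cl (θ - 7) = 0 := cl_zero (by linarith)
  have e8 : cl (θ - 8) = 0 := cl_zero (by linarith)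
  have e9 : cl (θ - 9) = 0 := cl_zero (by linarith)
  have s1 : 1 ≤ σ := by linarith
  have a1 : hA σ = 0 := by unfold hA; rw [max_eq_right (by linarith)]
  have a2 : hB σ = -l 1 + l 3 := by unfold hB; rw [max_eq_left (by linarith)]; linarith
  have a3 : hK σ = l 0 + 2 * l 1 := by unfold hK; rw [abs_of_nonneg (by linarith)]; linarith
  refine ⟨σ, θ, by linarith, by linarith, by linarith, by linarith, ?_⟩
  rw [sum_vert, z2, z4, z5, z6]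
  unfold f0in VA0 VK0 VB0
  rw [a1, a2, a3]
  simp only [e0, e1, e2, e3, e4, e5, e6, e7, e8, e9]
  apply pt_congr
  · push_cast
    linear_combination ((-1 + I) / 2) * hcc
  · linarith

theorem rx_1a (l : Fin 7 → ℝ) (h0 : ∀ k, 0 ≤ l k)
    (z0 : l 0 = 0)    (z2 : l 2 = 0)    (z5 : l 5 = 0)    (z6 : l 6 = 0)
    (hs : l 1 + l 3 + l 4 = 1) (c1 : l 3 ≤ l 1 + l 4) (c2 : l 4 ≤ l 3) :
    ∃ σ θ : ℝ, 0 ≤ σ ∧ σ ≤ 2 ∧ 0 ≤ θ ∧ θ ≤ 10 ∧ f0in σ θ = ∑ k, l k • vert k := by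
  have p1 := h0 1
  have p3 := h0 3
  have p4 := h0 4
  obtain ⟨c, hc0, hc1, hc⟩ := exc (2 * l 4) (2 * l 3 - 2 * l 4) (by linarith) (by linarith)
  have hcc : ((2 * (l 4 : ℂ)) + (2 * (l 3 : ℂ) - 2 * (l 4 : ℂ))) * (c : ℂ) = 2 * (l 4 : ℂ) := by exact_mod_cast hc
  obtain ⟨σ, hσ⟩ : ∃ σ, σ = 2 * l 3 := ⟨_, rfl⟩
  obtain ⟨θ, hθ⟩ : ∃ θ, θ = 3 + c := ⟨_, rfl⟩
  have e0 : cl θ = 1 := cl_one (by linarith)
  have e1 : cl (θ - 1) = 1 := cl_one (by linarith)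
  have e2 : cl (θ - 2) = 1 := cl_one (by linarith)
  have e3 : cl (θ - 3) = c := by
    rw [show θ - 3 = c by linarith]; exact cl_id hc0 hc1
  have e4 : cl (θ - 4) = 0 := cl_zero (by linarith)
  have e5 : cl (θ - 5) = 0 := cl_zero (by linarith)
  have e6 : cl (θ - 6) = 0 := cl_zero (by linarith)
  have e7 : cl (θ - 7) = 0 := cl_zero (by linarith)
  have e8 : cl (θ - 8) = 0 := cl_zero (by linarith)
  have e9 : cl (θ - 9) = 0 := cl_zero (by linarith)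
  have s1 : σ ≤ 1 := by linarith
  have a1 : hA σ = l 1 - l 3 + l 4 := by unfold hA; rw [max_eq_left (by linarith)]; linarith
  have a2 : hB σ = 0 := by unfold hB; rw [max_eq_right (by linarith)]
  have a3 : hK σ = 2 * l 3 := by unfold hK; rw [abs_of_nonpos (by linarith)]; linarith
  refine ⟨σ, θ, by linarith, by linarith, by linarith, by linarith, ?_⟩
  rw [sum_vert, z2, z5, z6]
  unfold f0in VA0 VK0 VB0
  rw [a1, a2, a3]
  simp only [e0, e1, e2, e3, e4, e5, e6, e7, e8, e9]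
  apply pt_congr
  · push_cast
    linear_combination ((-3 - I) / 2) * hcc
  · linarith

theorem rx_1b (l : Fin 7 → ℝ) (h0 : ∀ k, 0 ≤ l k)
    (z0 : l 0 = 0)    (z2 : l 2 = 0)    (z5 : l 5 = 0)    (z6 : l 6 = 0)
    (hs : l 1 + l 3 + l 4 = 1) (c1 : l 3 ≤ l 1 + l 4) (c2 : l 3 ≤ l 4) :
    ∃ σ θ : ℝ, 0 ≤ σ ∧ σ ≤ 2 ∧ 0 ≤ θ ∧ θ ≤ 10 ∧ f0in σ θ = ∑ k, l k • vert k := by
  have p1 := h0 1
  have p3 := h0 3
  have p4 := h0 4
  obtain ⟨c, hc0, hc1, hc⟩ := exc (-l 3 + l 4) (l 1) (by linarith) (by linarith)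
  have hcc : ((-(l 3 : ℂ) + (l 4 : ℂ)) + ((l 1 : ℂ))) * (c : ℂ) = -(l 3 : ℂ) + (l 4 : ℂ) := by exact_mod_cast hc
  obtain ⟨σ, hσ⟩ : ∃ σ, σ = 2 * l 3 := ⟨_, rfl⟩
  obtain ⟨θ, hθ⟩ : ∃ θ, θ = 4 + c := ⟨_, rfl⟩
  have e0 : cl θ = 1 := cl_one (by linarith)
  have e1 : cl (θ - 1) = 1 := cl_one (by linarith)
  have e2 : cl (θ - 2) = 1 := cl_one (by linarith)
  have e3 : cl (θ - 3) = 1 := cl_one (by linarith)
  have e4 : cl (θ - 4) = c := by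
    rw [show θ - 4 = c by linarith]; exact cl_id hc0 hc1
  have e5 : cl (θ - 5) = 0 := cl_zero (by linarith)
  have e6 : cl (θ - 6) = 0 := cl_zero (by linarith)
  have e7 : cl (θ - 7) = 0 := cl_zero (by linarith)
  have e8 : cl (θ - 8) = 0 := cl_zero (by linarith)
  have e9 : cl (θ - 9) = 0 := cl_zero (by linarith)
  have s1 : σ ≤ 1 := by linarith
  have a1 : hA σ = l 1 - l 3 + l 4 := by unfold hA; rw [max_eq_left (by linarith)]; linarith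
  have a2 : hB σ = 0 := by unfold hB; rw [max_eq_right (by linarith)]
  have a3 : hK σ = 2 * l 3 := by unfold hK; rw [abs_of_nonpos (by linarith)]; linarith
  refine ⟨σ, θ, by linarith, by linarith, by linarith, by linarith, ?_⟩
  rw [sum_vert, z2, z5, z6]
  unfold f0in VA0 VK0 VB0
  rw [a1, a2, a3]
  simp only [e0, e1, e2, e3, e4, e5, e6, e7, e8, e9]
  apply pt_congr
  · push_cast
    linear_combination (-3 - I) * hcc
  · linarith

theorem rx_1c (l : Fin 7 → ℝ) (h0 : ∀ k, 0 ≤ l k)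
    (z0 : l 0 = 0)    (z2 : l 2 = 0)    (z5 : l 5 = 0)    (z6 : l 6 = 0)
    (hs : l 1 + l 3 + l 4 = 1) (c1 : l 1 + l 4 ≤ l 3) :
    ∃ σ θ : ℝ, 0 ≤ σ ∧ σ ≤ 2 ∧ 0 ≤ θ ∧ θ ≤ 10 ∧ f0in σ θ = ∑ k, l k • vert k := by
  have p1 := h0 1
  have p3 := h0 3
  have p4 := h0 4
  obtain ⟨c, hc0, hc1, hc⟩ := exc (2 * l 4) (2 * l 1) (by linarith) (by linarith)
  have hcc : ((2 * (l 4 : ℂ)) + (2 * (l 1 : ℂ))) * (c : ℂ) = 2 * (l 4 : ℂ) := by exact_mod_cast hc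
  obtain ⟨σ, hσ⟩ : ∃ σ, σ = 2 * l 3 := ⟨_, rfl⟩
  obtain ⟨θ, hθ⟩ : ∃ θ, θ = 3 + c := ⟨_, rfl⟩
  have e0 : cl θ = 1 := cl_one (by linarith)
  have e1 : cl (θ - 1) = 1 := cl_one (by linarith)
  have e2 : cl (θ - 2) = 1 := cl_one (by linarith)
  have e3 : cl (θ - 3) = c := by
    rw [show θ - 3 = c by linarith]; exact cl_id hc0 hc1
  have e4 : cl (θ - 4) = 0 := cl_zero (by linarith)
  have e5 : cl (θ - 5) = 0 := cl_zero (by linarith)
  have e6 : cl (θ - 6) = 0 := cl_zero (by linarith)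
  have e7 : cl (θ - 7) = 0 := cl_zero (by linarith)
  have e8 : cl (θ - 8) = 0 := cl_zero (by linarith)
  have e9 : cl (θ - 9) = 0 := cl_zero (by linarith)
  have s1 : 1 ≤ σ := by linarith
  have a1 : hA σ = 0 := by unfold hA; rw [max_eq_right (by linarith)]
  have a2 : hB σ = -l 1 + l 3 - l 4 := by unfold hB; rw [max_eq_left (by linarith)]; linarith
  have a3 : hK σ = 2 * l 1 + 2 * l 4 := by unfold hK; rw [abs_of_nonneg (by linarith)]; linarith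
  refine ⟨σ, θ, by linarith, by linarith, by linarith, by linarith, ?_⟩
  rw [sum_vert, z2, z5, z6]
  unfold f0in VA0 VK0 VB0
  rw [a1, a2, a3]
  simp only [e0, e1, e2, e3, e4, e5, e6, e7, e8, e9]
  apply pt_congr
  · push_cast
    linear_combination ((-3 - I) / 2) * hcc
  · linarith

theorem rx_2a (l : Fin 7 → ℝ) (h0 : ∀ k, 0 ≤ l k)
    (z0 : l 0 = 0)    (z1 : l 1 = 0)    (z2 : l 2 = 0)    (z5 : l 5 = 0)
    (hs : l 3 + l 4 + l 6 = 1) (c1 : l 3 + l 6 ≤ l 4) :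
    ∃ σ θ : ℝ, 0 ≤ σ ∧ σ ≤ 2 ∧ 0 ≤ θ ∧ θ ≤ 10 ∧ f0in σ θ = ∑ k, l k • vert k := by
  have p3 := h0 3
  have p4 := h0 4
  have p6 := h0 6
  obtain ⟨c, hc0, hc1, hc⟩ := exc (2 * l 6) (2 * l 3) (by linarith) (by linarith)
  have hcc : ((2 * (l 6 : ℂ)) + (2 * (l 3 : ℂ))) * (c : ℂ) = 2 * (l 6 : ℂ) := by exact_mod_cast hc
  obtain ⟨σ, hσ⟩ : ∃ σ, σ = 2 * l 3 + 2 * l 6 := ⟨_, rfl⟩
  obtain ⟨θ, hθ⟩ : ∃ θ, θ = 6 + c := ⟨_, rfl⟩
  have e0 : cl θ = 1 := cl_one (by linarith)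
  have e1 : cl (θ - 1) = 1 := cl_one (by linarith)
  have e2 : cl (θ - 2) = 1 := cl_one (by linarith)
  have e3 : cl (θ - 3) = 1 := cl_one (by linarith)
  have e4 : cl (θ - 4) = 1 := cl_one (by linarith)
  have e5 : cl (θ - 5) = 1 := cl_one (by linarith)
  have e6 : cl (θ - 6) = c := by
    rw [show θ - 6 = c by linarith]; exact cl_id hc0 hc1
  have e7 : cl (θ - 7) = 0 := cl_zero (by linarith)
  have e8 : cl (θ - 8) = 0 := cl_zero (by linarith)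
  have e9 : cl (θ - 9) = 0 := cl_zero (by linarith)
  have s1 : σ ≤ 1 := by linarith
  have a1 : hA σ = -l 3 + l 4 - l 6 := by unfold hA; rw [max_eq_left (by linarith)]; linarith
  have a2 : hB σ = 0 := by unfold hB; rw [max_eq_right (by linarith)]
  have a3 : hK σ = 2 * l 3 + 2 * l 6 := by unfold hK; rw [abs_of_nonpos (by linarith)]; linarith
  refine ⟨σ, θ, by linarith, by linarith, by linarith, by linarith, ?_⟩
  rw [sum_vert, z1, z2, z5]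
  unfold f0in VA0 VK0 VB0
  rw [a1, a2, a3]
  simp only [e0, e1, e2, e3, e4, e5, e6, e7, e8, e9]
  apply pt_congr
  · push_cast
    linear_combination ((3 - I) / 2) * hcc
  · linarith

theorem rx_2b (l : Fin 7 → ℝ) (h0 : ∀ k, 0 ≤ l k)
    (z0 : l 0 = 0)    (z1 : l 1 = 0)    (z2 : l 2 = 0)    (z5 : l 5 = 0)
    (hs : l 3 + l 4 + l 6 = 1) (c1 : l 4 ≤ l 3 + l 6) (c2 : l 4 ≤ l 3) :
    ∃ σ θ : ℝ, 0 ≤ σ ∧ σ ≤ 2 ∧ 0 ≤ θ ∧ θ ≤ 10 ∧ f0in σ θ = ∑ k, l k • vert k := by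
  have p3 := h0 3
  have p4 := h0 4
  have p6 := h0 6
  obtain ⟨c, hc0, hc1, hc⟩ := exc (l 6) (l 3 - l 4) (by linarith) (by linarith)
  have hcc : (((l 6 : ℂ)) + ((l 3 : ℂ) - (l 4 : ℂ))) * (c : ℂ) = (l 6 : ℂ) := by exact_mod_cast hc
  obtain ⟨σ, hσ⟩ : ∃ σ, σ = 2 * l 3 + 2 * l 6 := ⟨_, rfl⟩
  obtain ⟨θ, hθ⟩ : ∃ θ, θ = 5 + c := ⟨_, rfl⟩
  have e0 : cl θ = 1 := cl_one (by linarith)
  have e1 : cl (θ - 1) = 1 := cl_one (by linarith)
  have e2 : cl (θ - 2) = 1 := cl_one (by linarith)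
  have e3 : cl (θ - 3) = 1 := cl_one (by linarith)
  have e4 : cl (θ - 4) = 1 := cl_one (by linarith)
  have e5 : cl (θ - 5) = c := by
    rw [show θ - 5 = c by linarith]; exact cl_id hc0 hc1
  have e6 : cl (θ - 6) = 0 := cl_zero (by linarith)
  have e7 : cl (θ - 7) = 0 := cl_zero (by linarith)
  have e8 : cl (θ - 8) = 0 := cl_zero (by linarith)
  have e9 : cl (θ - 9) = 0 := cl_zero (by linarith)
  have s1 : 1 ≤ σ := by linarith
  have a1 : hA σ = 0 := by unfold hA; rw [max_eq_right (by linarith)]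
  have a2 : hB σ = l 3 - l 4 + l 6 := by unfold hB; rw [max_eq_left (by linarith)]; linarith
  have a3 : hK σ = 2 * l 4 := by unfold hK; rw [abs_of_nonneg (by linarith)]; linarith
  refine ⟨σ, θ, by linarith, by linarith, by linarith, by linarith, ?_⟩
  rw [sum_vert, z1, z2, z5]
  unfold f0in VA0 VK0 VB0
  rw [a1, a2, a3]
  simp only [e0, e1, e2, e3, e4, e5, e6, e7, e8, e9]
  apply pt_congr
  · push_cast
    linear_combination (3 - I) * hcc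
  · linarith

theorem rx_2c (l : Fin 7 → ℝ) (h0 : ∀ k, 0 ≤ l k)
    (z0 : l 0 = 0)    (z1 : l 1 = 0)    (z2 : l 2 = 0)    (z5 : l 5 = 0)
    (hs : l 3 + l 4 + l 6 = 1) (c1 : l 4 ≤ l 3 + l 6) (c2 : l 3 ≤ l 4) :
    ∃ σ θ : ℝ, 0 ≤ σ ∧ σ ≤ 2 ∧ 0 ≤ θ ∧ θ ≤ 10 ∧ f0in σ θ = ∑ k, l k • vert k := by
  have p3 := h0 3
  have p4 := h0 4
  have p6 := h0 6
  obtain ⟨c, hc0, hc1, hc⟩ := exc (-2 * l 3 + 2 * l 4) (2 * l 3) (by linarith) (by linarith)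
  have hcc : ((-2 * (l 3 : ℂ) + 2 * (l 4 : ℂ)) + (2 * (l 3 : ℂ))) * (c : ℂ) = -2 * (l 3 : ℂ) + 2 * (l 4 : ℂ) := by exact_mod_cast hc
  obtain ⟨σ, hσ⟩ : ∃ σ, σ = 2 * l 3 + 2 * l 6 := ⟨_, rfl⟩
  obtain ⟨θ, hθ⟩ : ∃ θ, θ = 6 + c := ⟨_, rfl⟩
  have e0 : cl θ = 1 := cl_one (by linarith)
  have e1 : cl (θ - 1) = 1 := cl_one (by linarith)
  have e2 : cl (θ - 2) = 1 := cl_one (by linarith)
  have e3 : cl (θ - 3) = 1 := cl_one (by linarith)
  have e4 : cl (θ - 4) = 1 := cl_one (by linarith)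
  have e5 : cl (θ - 5) = 1 := cl_one (by linarith)
  have e6 : cl (θ - 6) = c := by
    rw [show θ - 6 = c by linarith]; exact cl_id hc0 hc1
  have e7 : cl (θ - 7) = 0 := cl_zero (by linarith)
  have e8 : cl (θ - 8) = 0 := cl_zero (by linarith)
  have e9 : cl (θ - 9) = 0 := cl_zero (by linarith)
  have s1 : 1 ≤ σ := by linarith
  have a1 : hA σ = 0 := by unfold hA; rw [max_eq_right (by linarith)]
  have a2 : hB σ = l 3 - l 4 + l 6 := by unfold hB; rw [max_eq_left (by linarith)]; linarith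
  have a3 : hK σ = 2 * l 4 := by unfold hK; rw [abs_of_nonneg (by linarith)]; linarith
  refine ⟨σ, θ, by linarith, by linarith, by linarith, by linarith, ?_⟩
  rw [sum_vert, z1, z2, z5]
  unfold f0in VA0 VK0 VB0
  rw [a1, a2, a3]
  simp only [e0, e1, e2, e3, e4, e5, e6, e7, e8, e9]
  apply pt_congr
  · push_cast
    linear_combination ((3 - I) / 2) * hcc
  · linarith

theorem rx_3a (l : Fin 7 → ℝ) (h0 : ∀ k, 0 ≤ l k)
    (z1 : l 1 = 0)    (z2 : l 2 = 0)    (z3 : l 3 = 0)    (z5 : l 5 = 0)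
    (hs : l 0 + l 4 + l 6 = 1) (c1 : l 6 ≤ l 4) :
    ∃ σ θ : ℝ, 0 ≤ σ ∧ σ ≤ 2 ∧ 0 ≤ θ ∧ θ ≤ 10 ∧ f0in σ θ = ∑ k, l k • vert k := by
  have p0 := h0 0
  have p4 := h0 4
  have p6 := h0 6
  obtain ⟨c, hc0, hc1, hc⟩ := exc (l 0) (2 * l 6) (by linarith) (by linarith)
  have hcc : (((l 0 : ℂ)) + (2 * (l 6 : ℂ))) * (c : ℂ) = (l 0 : ℂ) := by exact_mod_cast hc
  obtain ⟨σ, hσ⟩ : ∃ σ, σ = l 0 + 2 * l 6 := ⟨_, rfl⟩
  obtain ⟨θ, hθ⟩ : ∃ θ, θ = 7 + c := ⟨_, rfl⟩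
  have e0 : cl θ = 1 := cl_one (by linarith)
  have e1 : cl (θ - 1) = 1 := cl_one (by linarith)
  have e2 : cl (θ - 2) = 1 := cl_one (by linarith)
  have e3 : cl (θ - 3) = 1 := cl_one (by linarith)
  have e4 : cl (θ - 4) = 1 := cl_one (by linarith)
  have e5 : cl (θ - 5) = 1 := cl_one (by linarith)
  have e6 : cl (θ - 6) = 1 := cl_one (by linarith)
  have e7 : cl (θ - 7) = c := by
    rw [show θ - 7 = c by linarith]; exact cl_id hc0 hc1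
  have e8 : cl (θ - 8) = 0 := cl_zero (by linarith)
  have e9 : cl (θ - 9) = 0 := cl_zero (by linarith)
  have s1 : σ ≤ 1 := by linarith
  have a1 : hA σ = l 4 - l 6 := by unfold hA; rw [max_eq_left (by linarith)]; linarith
  have a2 : hB σ = 0 := by unfold hB; rw [max_eq_right (by linarith)]
  have a3 : hK σ = l 0 + 2 * l 6 := by unfold hK; rw [abs_of_nonpos (by linarith)]; linarith
  refine ⟨σ, θ, by linarith, by linarith, by linarith, by linarith, ?_⟩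
  rw [sum_vert, z1, z2, z3, z5]
  unfold f0in VA0 VK0 VB0
  rw [a1, a2, a3]
  simp only [e0, e1, e2, e3, e4, e5, e6, e7, e8, e9]
  apply pt_congr
  · push_cast
    linear_combination ((1 + I) / 2) * hcc
  · linarith

theorem rx_3b (l : Fin 7 → ℝ) (h0 : ∀ k, 0 ≤ l k)
    (z1 : l 1 = 0)    (z2 : l 2 = 0)    (z3 : l 3 = 0)    (z5 : l 5 = 0)
    (hs : l 0 + l 4 + l 6 = 1) (c1 : l 4 ≤ l 6) :
    ∃ σ θ : ℝ, 0 ≤ σ ∧ σ ≤ 2 ∧ 0 ≤ θ ∧ θ ≤ 10 ∧ f0in σ θ = ∑ k, l k • vert k := by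
  have p0 := h0 0
  have p4 := h0 4
  have p6 := h0 6
  obtain ⟨c, hc0, hc1, hc⟩ := exc (l 0) (2 * l 4) (by linarith) (by linarith)
  have hcc : (((l 0 : ℂ)) + (2 * (l 4 : ℂ))) * (c : ℂ) = (l 0 : ℂ) := by exact_mod_cast hc
  obtain ⟨σ, hσ⟩ : ∃ σ, σ = l 0 + 2 * l 6 := ⟨_, rfl⟩
  obtain ⟨θ, hθ⟩ : ∃ θ, θ = 7 + c := ⟨_, rfl⟩
  have e0 : cl θ = 1 := cl_one (by linarith)
  have e1 : cl (θ - 1) = 1 := cl_one (by linarith)
  have e2 : cl (θ - 2) = 1 := cl_one (by linarith)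
  have e3 : cl (θ - 3) = 1 := cl_one (by linarith)
  have e4 : cl (θ - 4) = 1 := cl_one (by linarith)
  have e5 : cl (θ - 5) = 1 := cl_one (by linarith)
  have e6 : cl (θ - 6) = 1 := cl_one (by linarith)
  have e7 : cl (θ - 7) = c := by
    rw [show θ - 7 = c by linarith]; exact cl_id hc0 hc1
  have e8 : cl (θ - 8) = 0 := cl_zero (by linarith)
  have e9 : cl (θ - 9) = 0 := cl_zero (by linarith)
  have s1 : 1 ≤ σ := by linarith
  have a1 : hA σ = 0 := by unfold hA; rw [max_eq_right (by linarith)]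
  have a2 : hB σ = -l 4 + l 6 := by unfold hB; rw [max_eq_left (by linarith)]; linarith
  have a3 : hK σ = l 0 + 2 * l 4 := by unfold hK; rw [abs_of_nonneg (by linarith)]; linarith
  refine ⟨σ, θ, by linarith, by linarith, by linarith, by linarith, ?_⟩
  rw [sum_vert, z1, z2, z3, z5]
  unfold f0in VA0 VK0 VB0
  rw [a1, a2, a3]
  simp only [e0, e1, e2, e3, e4, e5, e6, e7, e8, e9]
  apply pt_congr
  · push_cast
    linear_combination ((1 + I) / 2) * hcc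
  · linarith

theorem rx_4 (l : Fin 7 → ℝ) (h0 : ∀ k, 0 ≤ l k)
    (z1 : l 1 = 0)    (z2 : l 2 = 0)    (z3 : l 3 = 0)    (z6 : l 6 = 0)
    (hs : l 0 + l 4 + l 5 = 1) :
    ∃ σ θ : ℝ, 0 ≤ σ ∧ σ ≤ 2 ∧ 0 ≤ θ ∧ θ ≤ 10 ∧ f0in σ θ = ∑ k, l k • vert k := by
  have p0 := h0 0
  have p4 := h0 4
  have p5 := h0 5
  obtain ⟨c, hc0, hc1, hc⟩ := exc (l 5) (l 4) (by linarith) (by linarith)
  have hcc : (((l 5 : ℂ)) + ((l 4 : ℂ))) * (c : ℂ) = (l 5 : ℂ) := by exact_mod_cast hc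
  obtain ⟨σ, hσ⟩ : ∃ σ, σ = l 0 := ⟨_, rfl⟩
  obtain ⟨θ, hθ⟩ : ∃ θ, θ = 8 + c := ⟨_, rfl⟩
  have e0 : cl θ = 1 := cl_one (by linarith)
  have e1 : cl (θ - 1) = 1 := cl_one (by linarith)
  have e2 : cl (θ - 2) = 1 := cl_one (by linarith)
  have e3 : cl (θ - 3) = 1 := cl_one (by linarith)
  have e4 : cl (θ - 4) = 1 := cl_one (by linarith)
  have e5 : cl (θ - 5) = 1 := cl_one (by linarith)
  have e6 : cl (θ - 6) = 1 := cl_one (by linarith)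
  have e7 : cl (θ - 7) = 1 := cl_one (by linarith)
  have e8 : cl (θ - 8) = c := by
    rw [show θ - 8 = c by linarith]; exact cl_id hc0 hc1
  have e9 : cl (θ - 9) = 0 := cl_zero (by linarith)
  have s1 : σ ≤ 1 := by linarith
  have a1 : hA σ = l 4 + l 5 := by unfold hA; rw [max_eq_left (by linarith)]; linarith
  have a2 : hB σ = 0 := by unfold hB; rw [max_eq_right (by linarith)]
  have a3 : hK σ = l 0 := by unfold hK; rw [abs_of_nonpos (by linarith)]; linarith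
  refine ⟨σ, θ, by linarith, by linarith, by linarith, by linarith, ?_⟩
  rw [sum_vert, z1, z2, z3, z6]
  unfold f0in VA0 VK0 VB0
  rw [a1, a2, a3]
  simp only [e0, e1, e2, e3, e4, e5, e6, e7, e8, e9]
  apply pt_congr
  · push_cast
    linear_combination (-1 - 8 * I) * hcc
  · linarith

theorem rx_5 (l : Fin 7 → ℝ) (h0 : ∀ k, 0 ≤ l k)
    (z2 : l 2 = 0)    (z3 : l 3 = 0)    (z4 : l 4 = 0)    (z6 : l 6 = 0)
    (hs : l 0 + l 1 + l 5 = 1) :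
    ∃ σ θ : ℝ, 0 ≤ σ ∧ σ ≤ 2 ∧ 0 ≤ θ ∧ θ ≤ 10 ∧ f0in σ θ = ∑ k, l k • vert k := by
  have p0 := h0 0
  have p1 := h0 1
  have p5 := h0 5
  obtain ⟨c, hc0, hc1, hc⟩ := exc (l 1) (l 5) (by linarith) (by linarith)
  have hcc : (((l 1 : ℂ)) + ((l 5 : ℂ))) * (c : ℂ) = (l 1 : ℂ) := by exact_mod_cast hc
  obtain ⟨σ, hσ⟩ : ∃ σ, σ = l 0 := ⟨_, rfl⟩
  obtain ⟨θ, hθ⟩ : ∃ θ, θ = 9 + c := ⟨_, rfl⟩
  have e0 : cl θ = 1 := cl_one (by linarith)
  have e1 : cl (θ - 1) = 1 := cl_one (by linarith)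
  have e2 : cl (θ - 2) = 1 := cl_one (by linarith)
  have e3 : cl (θ - 3) = 1 := cl_one (by linarith)
  have e4 : cl (θ - 4) = 1 := cl_one (by linarith)
  have e5 : cl (θ - 5) = 1 := cl_one (by linarith)
  have e6 : cl (θ - 6) = 1 := cl_one (by linarith)
  have e7 : cl (θ - 7) = 1 := cl_one (by linarith)
  have e8 : cl (θ - 8) = 1 := cl_one (by linarith)
  have e9 : cl (θ - 9) = c := by
    rw [show θ - 9 = c by linarith]; exact cl_id hc0 hc1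
  have s1 : σ ≤ 1 := by linarith
  have a1 : hA σ = l 1 + l 5 := by unfold hA; rw [max_eq_left (by linarith)]; linarith
  have a2 : hB σ = 0 := by unfold hB; rw [max_eq_right (by linarith)]
  have a3 : hK σ = l 0 := by unfold hK; rw [abs_of_nonpos (by linarith)]; linarith
  refine ⟨σ, θ, by linarith, by linarith, by linarith, by linarith, ?_⟩
  rw [sum_vert, z2, z3, z4, z6]
  unfold f0in VA0 VK0 VB0
  rw [a1, a2, a3]
  simp only [e0, e1, e2, e3, e4, e5, e6, e7, e8, e9]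
  apply pt_congr
  · push_cast
    linear_combination (4 + 9 * I) * hcc
  · linarith

theorem rx_6 (l : Fin 7 → ℝ) (h0 : ∀ k, 0 ≤ l k)
    (z1 : l 1 = 0)    (z3 : l 3 = 0)    (z4 : l 4 = 0)    (z5 : l 5 = 0)
    (hs : l 0 + l 2 + l 6 = 1) :
    ∃ σ θ : ℝ, 0 ≤ σ ∧ σ ≤ 2 ∧ 0 ≤ θ ∧ θ ≤ 10 ∧ f0in σ θ = ∑ k, l k • vert k := by
  have p0 := h0 0
  have p2 := h0 2
  have p6 := h0 6
  obtain ⟨c, hc0, hc1, hc⟩ := exc (l 2) (l 6) (by linarith) (by linarith)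
  have hcc : (((l 2 : ℂ)) + ((l 6 : ℂ))) * (c : ℂ) = (l 2 : ℂ) := by exact_mod_cast hc
  obtain ⟨σ, hσ⟩ : ∃ σ, σ = l 0 + 2 * l 2 + 2 * l 6 := ⟨_, rfl⟩
  obtain ⟨θ, hθ⟩ : ∃ θ, θ = c := ⟨_, rfl⟩
  have e0 : cl θ = c := by
    rw [show θ = c by linarith]; exact cl_id hc0 hc1
  have e1 : cl (θ - 1) = 0 := cl_zero (by linarith)
  have e2 : cl (θ - 2) = 0 := cl_zero (by linarith)
  have e3 : cl (θ - 3) = 0 := cl_zero (by linarith)
  have e4 : cl (θ - 4) = 0 := cl_zero (by linarith)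
  have e5 : cl (θ - 5) = 0 := cl_zero (by linarith)
  have e6 : cl (θ - 6) = 0 := cl_zero (by linarith)
  have e7 : cl (θ - 7) = 0 := cl_zero (by linarith)
  have e8 : cl (θ - 8) = 0 := cl_zero (by linarith)
  have e9 : cl (θ - 9) = 0 := cl_zero (by linarith)
  have s1 : 1 ≤ σ := by linarith
  have a1 : hA σ = 0 := by unfold hA; rw [max_eq_right (by linarith)]
  have a2 : hB σ = l 2 + l 6 := by unfold hB; rw [max_eq_left (by linarith)]; linarith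
  have a3 : hK σ = l 0 := by unfold hK; rw [abs_of_nonneg (by linarith)]; linarith
  refine ⟨σ, θ, by linarith, by linarith, by linarith, by linarith, ?_⟩
  rw [sum_vert, z1, z3, z4, z5]
  unfold f0in VA0 VK0 VB0
  rw [a1, a2, a3]
  simp only [e0, e1, e2, e3, e4, e5, e6, e7, e8, e9]
  apply pt_congr
  · push_cast
    linear_combination (-4 + 9 * I) * hcc
  · linarith

theorem rx_7 (l : Fin 7 → ℝ) (h0 : ∀ k, 0 ≤ l k)
    (z1 : l 1 = 0)    (z4 : l 4 = 0)    (z5 : l 5 = 0)    (z6 : l 6 = 0)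
    (hs : l 0 + l 2 + l 3 = 1) :
    ∃ σ θ : ℝ, 0 ≤ σ ∧ σ ≤ 2 ∧ 0 ≤ θ ∧ θ ≤ 10 ∧ f0in σ θ = ∑ k, l k • vert k := by
  have p0 := h0 0
  have p2 := h0 2
  have p3 := h0 3
  obtain ⟨c, hc0, hc1, hc⟩ := exc (l 3) (l 2) (by linarith) (by linarith)
  have hcc : (((l 3 : ℂ)) + ((l 2 : ℂ))) * (c : ℂ) = (l 3 : ℂ) := by exact_mod_cast hc
  obtain ⟨σ, hσ⟩ : ∃ σ, σ = l 0 + 2 * l 2 + 2 * l 3 := ⟨_, rfl⟩
  obtain ⟨θ, hθ⟩ : ∃ θ, θ = 1 + c := ⟨_, rfl⟩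
  have e0 : cl θ = 1 := cl_one (by linarith)
  have e1 : cl (θ - 1) = c := by
    rw [show θ - 1 = c by linarith]; exact cl_id hc0 hc1
  have e2 : cl (θ - 2) = 0 := cl_zero (by linarith)
  have e3 : cl (θ - 3) = 0 := cl_zero (by linarith)
  have e4 : cl (θ - 4) = 0 := cl_zero (by linarith)
  have e5 : cl (θ - 5) = 0 := cl_zero (by linarith)
  have e6 : cl (θ - 6) = 0 := cl_zero (by linarith)
  have e7 : cl (θ - 7) = 0 := cl_zero (by linarith)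
  have e8 : cl (θ - 8) = 0 := cl_zero (by linarith)
  have e9 : cl (θ - 9) = 0 := cl_zero (by linarith)
  have s1 : 1 ≤ σ := by linarith
  have a1 : hA σ = 0 := by unfold hA; rw [max_eq_right (by linarith)]
  have a2 : hB σ = l 2 + l 3 := by unfold hB; rw [max_eq_left (by linarith)]; linarith
  have a3 : hK σ = l 0 := by unfold hK; rw [abs_of_nonneg (by linarith)]; linarith
  refine ⟨σ, θ, by linarith, by linarith, by linarith, by linarith, ?_⟩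
  rw [sum_vert, z1, z4, z5, z6]
  unfold f0in VA0 VK0 VB0
  rw [a1, a2, a3]
  simp only [e0, e1, e2, e3, e4, e5, e6, e7, e8, e9]
  apply pt_congr
  · push_cast
    linear_combination (1 - 8 * I) * hcc
  · linarith

theorem rx_8 (l : Fin 7 → ℝ) (h0 : ∀ k, 0 ≤ l k)
    (z0 : l 0 = 0)    (z3 : l 3 = 0)    (z4 : l 4 = 0)    (z5 : l 5 = 0)
    (hs : l 1 + l 2 + l 6 = 1) :
    ∃ σ θ : ℝ, 2 ≤ σ ∧ σ ≤ 3 ∧ 0 ≤ θ ∧ θ ≤ 6 ∧ f0out σ θ = ∑ k, l k • vert k := by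
  have p1 := h0 1
  have p2 := h0 2
  have p6 := h0 6
  obtain ⟨c, hc0, hc1, hc⟩ := exc (l 2) (l 6) (by linarith) (by linarith)
  have hcc : (((l 2 : ℂ)) + ((l 6 : ℂ))) * (c : ℂ) = (l 2 : ℂ) := by exact_mod_cast hc
  obtain ⟨σ, hσ⟩ : ∃ σ, σ = 3 * l 1 + 2 * l 2 + 2 * l 6 := ⟨_, rfl⟩
  obtain ⟨θ, hθ⟩ : ∃ θ, θ = c := ⟨_, rfl⟩
  have e0 : cl θ = c := by
    rw [show θ = c by linarith]; exact cl_id hc0 hc1
  have e1 : cl (θ - 1) = 0 := cl_zero (by linarith)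
  have e2 : cl (θ - 2) = 0 := cl_zero (by linarith)
  have e3 : cl (θ - 3) = 0 := cl_zero (by linarith)
  have e4 : cl (θ - 4) = 0 := cl_zero (by linarith)
  have e5 : cl (θ - 5) = 0 := cl_zero (by linarith)
  have a1 : (σ - 2 : ℂ) = (l 1 : ℂ) := by
    have : σ - 2 = l 1 := by linarith
    exact_mod_cast this
  have a2 : (3 - σ : ℂ) = (l 2 : ℂ) + (l 6 : ℂ) := by
    have : 3 - σ = l 2 + l 6 := by linarith
    exact_mod_cast this
  refine ⟨σ, θ, by linarith, by linarith, by linarith, by linarith, ?_⟩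
  rw [sum_vert, z3, z4, z5]
  unfold f0out VAo VBo
  rw [a1, a2]
  simp only [e0, e1, e2, e3, e4, e5]
  apply pt_congr
  · push_cast
    linear_combination (-4 + 9 * I) * hcc
  · linarith

theorem rx_9 (l : Fin 7 → ℝ) (h0 : ∀ k, 0 ≤ l k)
    (z0 : l 0 = 0)    (z3 : l 3 = 0)    (z5 : l 5 = 0)    (z6 : l 6 = 0)
    (hs : l 1 + l 2 + l 4 = 1) :
    ∃ σ θ : ℝ, 2 ≤ σ ∧ σ ≤ 3 ∧ 0 ≤ θ ∧ θ ≤ 6 ∧ f0out σ θ = ∑ k, l k • vert k := by
  have p1 := h0 1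
  have p2 := h0 2
  have p4 := h0 4
  obtain ⟨c, hc0, hc1, hc⟩ := exc (l 4) (l 1) (by linarith) (by linarith)
  have hcc : (((l 4 : ℂ)) + ((l 1 : ℂ))) * (c : ℂ) = (l 4 : ℂ) := by exact_mod_cast hc
  obtain ⟨σ, hσ⟩ : ∃ σ, σ = 3 * l 1 + 2 * l 2 + 3 * l 4 := ⟨_, rfl⟩
  obtain ⟨θ, hθ⟩ : ∃ θ, θ = 1 + c := ⟨_, rfl⟩
  have e0 : cl θ = 1 := cl_one (by linarith)
  have e1 : cl (θ - 1) = c := by
    rw [show θ - 1 = c by linarith]; exact cl_id hc0 hc1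
  have e2 : cl (θ - 2) = 0 := cl_zero (by linarith)
  have e3 : cl (θ - 3) = 0 := cl_zero (by linarith)
  have e4 : cl (θ - 4) = 0 := cl_zero (by linarith)
  have e5 : cl (θ - 5) = 0 := cl_zero (by linarith)
  have a1 : (σ - 2 : ℂ) = (l 1 : ℂ) + (l 4 : ℂ) := by
    have : σ - 2 = l 1 + l 4 := by linarith
    exact_mod_cast this
  have a2 : (3 - σ : ℂ) = (l 2 : ℂ) := by
    have : 3 - σ = l 2 := by linarith
    exact_mod_cast this
  refine ⟨σ, θ, by linarith, by linarith, by linarith, by linarith, ?_⟩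
  rw [sum_vert, z3, z5, z6]
  unfold f0out VAo VBo
  rw [a1, a2]
  simp only [e0, e1, e2, e3, e4, e5]
  apply pt_congr
  · push_cast
    linear_combination (-3 - I) * hcc
  · linarith

theorem rx_10 (l : Fin 7 → ℝ) (h0 : ∀ k, 0 ≤ l k)
    (z0 : l 0 = 0)    (z1 : l 1 = 0)    (z3 : l 3 = 0)    (z6 : l 6 = 0)
    (hs : l 2 + l 4 + l 5 = 1) :
    ∃ σ θ : ℝ, 2 ≤ σ ∧ σ ≤ 3 ∧ 0 ≤ θ ∧ θ ≤ 6 ∧ f0out σ θ = ∑ k, l k • vert k := by
  have p2 := h0 2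
  have p4 := h0 4
  have p5 := h0 5
  obtain ⟨c, hc0, hc1, hc⟩ := exc (l 5) (l 4) (by linarith) (by linarith)
  have hcc : (((l 5 : ℂ)) + ((l 4 : ℂ))) * (c : ℂ) = (l 5 : ℂ) := by exact_mod_cast hc
  obtain ⟨σ, hσ⟩ : ∃ σ, σ = 2 * l 2 + 3 * l 4 + 3 * l 5 := ⟨_, rfl⟩
  obtain ⟨θ, hθ⟩ : ∃ θ, θ = 2 + c := ⟨_, rfl⟩
  have e0 : cl θ = 1 := cl_one (by linarith)
  have e1 : cl (θ - 1) = 1 := cl_one (by linarith)
  have e2 : cl (θ - 2) = c := by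
    rw [show θ - 2 = c by linarith]; exact cl_id hc0 hc1
  have e3 : cl (θ - 3) = 0 := cl_zero (by linarith)
  have e4 : cl (θ - 4) = 0 := cl_zero (by linarith)
  have e5 : cl (θ - 5) = 0 := cl_zero (by linarith)
  have a1 : (σ - 2 : ℂ) = (l 4 : ℂ) + (l 5 : ℂ) := by
    have : σ - 2 = l 4 + l 5 := by linarith
    exact_mod_cast this
  have a2 : (3 - σ : ℂ) = (l 2 : ℂ) := by
    have : 3 - σ = l 2 := by linarith
    exact_mod_cast this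
  refine ⟨σ, θ, by linarith, by linarith, by linarith, by linarith, ?_⟩
  rw [sum_vert, z1, z3, z6]
  unfold f0out VAo VBo
  rw [a1, a2]
  simp only [e0, e1, e2, e3, e4, e5]
  apply pt_congr
  · push_cast
    linear_combination (-1 - 8 * I) * hcc
  · linarith

theorem rx_11 (l : Fin 7 → ℝ) (h0 : ∀ k, 0 ≤ l k)
    (z0 : l 0 = 0)    (z1 : l 1 = 0)    (z4 : l 4 = 0)    (z6 : l 6 = 0)
    (hs : l 2 + l 3 + l 5 = 1) :
    ∃ σ θ : ℝ, 2 ≤ σ ∧ σ ≤ 3 ∧ 0 ≤ θ ∧ θ ≤ 6 ∧ f0out σ θ = ∑ k, l k • vert k := by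
  have p2 := h0 2
  have p3 := h0 3
  have p5 := h0 5
  obtain ⟨c, hc0, hc1, hc⟩ := exc (l 3) (l 2) (by linarith) (by linarith)
  have hcc : (((l 3 : ℂ)) + ((l 2 : ℂ))) * (c : ℂ) = (l 3 : ℂ) := by exact_mod_cast hc
  obtain ⟨σ, hσ⟩ : ∃ σ, σ = 2 * l 2 + 2 * l 3 + 3 * l 5 := ⟨_, rfl⟩
  obtain ⟨θ, hθ⟩ : ∃ θ, θ = 3 + c := ⟨_, rfl⟩
  have e0 : cl θ = 1 := cl_one (by linarith)
  have e1 : cl (θ - 1) = 1 := cl_one (by linarith)
  have e2 : cl (θ - 2) = 1 := cl_one (by linarith)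
  have e3 : cl (θ - 3) = c := by
    rw [show θ - 3 = c by linarith]; exact cl_id hc0 hc1
  have e4 : cl (θ - 4) = 0 := cl_zero (by linarith)
  have e5 : cl (θ - 5) = 0 := cl_zero (by linarith)
  have a1 : (σ - 2 : ℂ) = (l 5 : ℂ) := by
    have : σ - 2 = l 5 := by linarith
    exact_mod_cast this
  have a2 : (3 - σ : ℂ) = (l 2 : ℂ) + (l 3 : ℂ) := by
    have : 3 - σ = l 2 + l 3 := by linarith
    exact_mod_cast this
  refine ⟨σ, θ, by linarith, by linarith, by linarith, by linarith, ?_⟩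
  rw [sum_vert, z1, z4, z6]
  unfold f0out VAo VBo
  rw [a1, a2]
  simp only [e0, e1, e2, e3, e4, e5]
  apply pt_congr
  · push_cast
    linear_combination (1 - 8 * I) * hcc
  · linarith

theorem rx_12 (l : Fin 7 → ℝ) (h0 : ∀ k, 0 ≤ l k)
    (z0 : l 0 = 0)    (z1 : l 1 = 0)    (z2 : l 2 = 0)    (z4 : l 4 = 0)
    (hs : l 3 + l 5 + l 6 = 1) :
    ∃ σ θ : ℝ, 2 ≤ σ ∧ σ ≤ 3 ∧ 0 ≤ θ ∧ θ ≤ 6 ∧ f0out σ θ = ∑ k, l k • vert k := by
  have p3 := h0 3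
  have p5 := h0 5
  have p6 := h0 6
  obtain ⟨c, hc0, hc1, hc⟩ := exc (l 6) (l 3) (by linarith) (by linarith)
  have hcc : (((l 6 : ℂ)) + ((l 3 : ℂ))) * (c : ℂ) = (l 6 : ℂ) := by exact_mod_cast hc
  obtain ⟨σ, hσ⟩ : ∃ σ, σ = 2 * l 3 + 3 * l 5 + 2 * l 6 := ⟨_, rfl⟩
  obtain ⟨θ, hθ⟩ : ∃ θ, θ = 4 + c := ⟨_, rfl⟩
  have e0 : cl θ = 1 := cl_one (by linarith)
  have e1 : cl (θ - 1) = 1 := cl_one (by linarith)
  have e2 : cl (θ - 2) = 1 := cl_one (by linarith)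
  have e3 : cl (θ - 3) = 1 := cl_one (by linarith)
  have e4 : cl (θ - 4) = c := by
    rw [show θ - 4 = c by linarith]; exact cl_id hc0 hc1
  have e5 : cl (θ - 5) = 0 := cl_zero (by linarith)
  have a1 : (σ - 2 : ℂ) = (l 5 : ℂ) := by
    have : σ - 2 = l 5 := by linarith
    exact_mod_cast this
  have a2 : (3 - σ : ℂ) = (l 3 : ℂ) + (l 6 : ℂ) := by
    have : 3 - σ = l 3 + l 6 := by linarith
    exact_mod_cast this
  refine ⟨σ, θ, by linarith, by linarith, by linarith, by linarith, ?_⟩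
  rw [sum_vert, z1, z2, z4]
  unfold f0out VAo VBo
  rw [a1, a2]
  simp only [e0, e1, e2, e3, e4, e5]
  apply pt_congr
  · push_cast
    linear_combination (3 - I) * hcc
  · linarith

theorem rx_13 (l : Fin 7 → ℝ) (h0 : ∀ k, 0 ≤ l k)
    (z0 : l 0 = 0)    (z2 : l 2 = 0)    (z3 : l 3 = 0)    (z4 : l 4 = 0)
    (hs : l 1 + l 5 + l 6 = 1) :
    ∃ σ θ : ℝ, 2 ≤ σ ∧ σ ≤ 3 ∧ 0 ≤ θ ∧ θ ≤ 6 ∧ f0out σ θ = ∑ k, l k • vert k := by
  have p1 := h0 1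
  have p5 := h0 5
  have p6 := h0 6
  obtain ⟨c, hc0, hc1, hc⟩ := exc (l 1) (l 5) (by linarith) (by linarith)
  have hcc : (((l 1 : ℂ)) + ((l 5 : ℂ))) * (c : ℂ) = (l 1 : ℂ) := by exact_mod_cast hc
  obtain ⟨σ, hσ⟩ : ∃ σ, σ = 3 * l 1 + 3 * l 5 + 2 * l 6 := ⟨_, rfl⟩
  obtain ⟨θ, hθ⟩ : ∃ θ, θ = 5 + c := ⟨_, rfl⟩
  have e0 : cl θ = 1 := cl_one (by linarith)
  have e1 : cl (θ - 1) = 1 := cl_one (by linarith)
  have e2 : cl (θ - 2) = 1 := cl_one (by linarith)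
  have e3 : cl (θ - 3) = 1 := cl_one (by linarith)
  have e4 : cl (θ - 4) = 1 := cl_one (by linarith)
  have e5 : cl (θ - 5) = c := by
    rw [show θ - 5 = c by linarith]; exact cl_id hc0 hc1
  have a1 : (σ - 2 : ℂ) = (l 1 : ℂ) + (l 5 : ℂ) := by
    have : σ - 2 = l 1 + l 5 := by linarith
    exact_mod_cast this
  have a2 : (3 - σ : ℂ) = (l 6 : ℂ) := by
    have : 3 - σ = l 6 := by linarith
    exact_mod_cast this
  refine ⟨σ, θ, by linarith, by linarith, by linarith, by linarith, ?_⟩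
  rw [sum_vert, z2, z3, z4]
  unfold f0out VAo VBo
  rw [a1, a2]
  simp only [e0, e1, e2, e3, e4, e5]
  apply pt_congr
  · push_cast
    linear_combination (4 + 9 * I) * hcc
  · linarith

theorem range_ex (j : Fin 14) (l : Fin 7 → ℝ) (h0 : ∀ k, 0 ≤ l k)
    (h1 : ∀ k, k ∉ fcs j → l k = 0) (h2 : ∑ k, l k = 1) :
    (∃ σ θ : ℝ, 0 ≤ σ ∧ σ ≤ 2 ∧ 0 ≤ θ ∧ θ ≤ 10 ∧ f0in σ θ = ∑ k, l k • vert k) ∨
    (∃ σ θ : ℝ, 2 ≤ σ ∧ σ ≤ 3 ∧ 0 ≤ θ ∧ θ ≤ 6 ∧ f0out σ θ = ∑ k, l k • vert k) := by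
  rw [Fin.sum_univ_seven] at h2
  fin_cases j
  · have z2 : l 2 = 0 := h1 2 (by decide)
    have z4 : l 4 = 0 := h1 4 (by decide)
    have z5 : l 5 = 0 := h1 5 (by decide)
    have z6 : l 6 = 0 := h1 6 (by decide)
    have hs : l 0 + l 1 + l 3 = 1 := by linarith
    rcases le_total (l 3) (l 1) with u | u
    · exact Or.inl (rx_0a l h0 z2 z4 z5 z6 hs u)
    · exact Or.inl (rx_0b l h0 z2 z4 z5 z6 hs u)
  · have z0 : l 0 = 0 := h1 0 (by decide)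
    have z2 : l 2 = 0 := h1 2 (by decide)
    have z5 : l 5 = 0 := h1 5 (by decide)
    have z6 : l 6 = 0 := h1 6 (by decide)
    have hs : l 1 + l 3 + l 4 = 1 := by linarith
    rcases le_total (l 3) (l 1 + l 4) with u | u
    · rcases le_total (l 4) (l 3) with v | v
      · exact Or.inl (rx_1a l h0 z0 z2 z5 z6 hs u v)
      · exact Or.inl (rx_1b l h0 z0 z2 z5 z6 hs u v)
    · exact Or.inl (rx_1c l h0 z0 z2 z5 z6 hs u)
  · have z0 : l 0 = 0 := h1 0 (by decide)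
    have z1 : l 1 = 0 := h1 1 (by decide)
    have z2 : l 2 = 0 := h1 2 (by decide)
    have z5 : l 5 = 0 := h1 5 (by decide)
    have hs : l 3 + l 4 + l 6 = 1 := by linarith
    rcases le_total (l 3 + l 6) (l 4) with u | u
    · exact Or.inl (rx_2a l h0 z0 z1 z2 z5 hs u)
    · rcases le_total (l 4) (l 3) with v | v
      · exact Or.inl (rx_2b l h0 z0 z1 z2 z5 hs u v)
      · exact Or.inl (rx_2c l h0 z0 z1 z2 z5 hs u v)
  · have z1 : l 1 = 0 := h1 1 (by decide)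
    have z2 : l 2 = 0 := h1 2 (by decide)
    have z3 : l 3 = 0 := h1 3 (by decide)
    have z5 : l 5 = 0 := h1 5 (by decide)
    have hs : l 0 + l 4 + l 6 = 1 := by linarith
    rcases le_total (l 6) (l 4) with u | u
    · exact Or.inl (rx_3a l h0 z1 z2 z3 z5 hs u)
    · exact Or.inl (rx_3b l h0 z1 z2 z3 z5 hs u)
  · have z1 : l 1 = 0 := h1 1 (by decide)
    have z2 : l 2 = 0 := h1 2 (by decide)
    have z3 : l 3 = 0 := h1 3 (by decide)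
    have z6 : l 6 = 0 := h1 6 (by decide)
    have hs : l 0 + l 4 + l 5 = 1 := by linarith
    exact Or.inl (rx_4 l h0 z1 z2 z3 z6 hs )
  · have z2 : l 2 = 0 := h1 2 (by decide)
    have z3 : l 3 = 0 := h1 3 (by decide)
    have z4 : l 4 = 0 := h1 4 (by decide)
    have z6 : l 6 = 0 := h1 6 (by decide)
    have hs : l 0 + l 1 + l 5 = 1 := by linarith
    exact Or.inl (rx_5 l h0 z2 z3 z4 z6 hs )
  · have z1 : l 1 = 0 := h1 1 (by decide)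
    have z3 : l 3 = 0 := h1 3 (by decide)
    have z4 : l 4 = 0 := h1 4 (by decide)
    have z5 : l 5 = 0 := h1 5 (by decide)
    have hs : l 0 + l 2 + l 6 = 1 := by linarith
    exact Or.inl (rx_6 l h0 z1 z3 z4 z5 hs )
  · have z1 : l 1 = 0 := h1 1 (by decide)
    have z4 : l 4 = 0 := h1 4 (by decide)
    have z5 : l 5 = 0 := h1 5 (by decide)
    have z6 : l 6 = 0 := h1 6 (by decide)
    have hs : l 0 + l 2 + l 3 = 1 := by linarith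
    exact Or.inl (rx_7 l h0 z1 z4 z5 z6 hs )
  · have z0 : l 0 = 0 := h1 0 (by decide)
    have z3 : l 3 = 0 := h1 3 (by decide)
    have z4 : l 4 = 0 := h1 4 (by decide)
    have z5 : l 5 = 0 := h1 5 (by decide)
    have hs : l 1 + l 2 + l 6 = 1 := by linarith
    exact Or.inr (rx_8 l h0 z0 z3 z4 z5 hs )
  · have z0 : l 0 = 0 := h1 0 (by decide)
    have z3 : l 3 = 0 := h1 3 (by decide)
    have z5 : l 5 = 0 := h1 5 (by decide)
    have z6 : l 6 = 0 := h1 6 (by decide)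
    have hs : l 1 + l 2 + l 4 = 1 := by linarith
    exact Or.inr (rx_9 l h0 z0 z3 z5 z6 hs )
  · have z0 : l 0 = 0 := h1 0 (by decide)
    have z1 : l 1 = 0 := h1 1 (by decide)
    have z3 : l 3 = 0 := h1 3 (by decide)
    have z6 : l 6 = 0 := h1 6 (by decide)
    have hs : l 2 + l 4 + l 5 = 1 := by linarith
    exact Or.inr (rx_10 l h0 z0 z1 z3 z6 hs )
  · have z0 : l 0 = 0 := h1 0 (by decide)
    have z1 : l 1 = 0 := h1 1 (by decide)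
    have z4 : l 4 = 0 := h1 4 (by decide)
    have z6 : l 6 = 0 := h1 6 (by decide)
    have hs : l 2 + l 3 + l 5 = 1 := by linarith
    exact Or.inr (rx_11 l h0 z0 z1 z4 z6 hs )
  · have z0 : l 0 = 0 := h1 0 (by decide)
    have z1 : l 1 = 0 := h1 1 (by decide)
    have z2 : l 2 = 0 := h1 2 (by decide)
    have z4 : l 4 = 0 := h1 4 (by decide)
    have hs : l 3 + l 5 + l 6 = 1 := by linarith
    exact Or.inr (rx_12 l h0 z0 z1 z2 z4 hs )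
  · have z0 : l 0 = 0 := h1 0 (by decide)
    have z2 : l 2 = 0 := h1 2 (by decide)
    have z3 : l 3 = 0 := h1 3 (by decide)
    have z4 : l 4 = 0 := h1 4 (by decide)
    have hs : l 1 + l 5 + l 6 = 1 := by linarith
    exact Or.inr (rx_13 l h0 z0 z2 z3 z4 hs )

end Pool.Agent.Csz.M8
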