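import Mathlib
import Pool.Agent.Csz.Defs
import Pool.Agent.Csz.PL
import Pool.Agent.Csz.M1
import Pool.Agent.Csz.M8d
import Pool.Agent.Csz.M8b

set_option autoImplicit false
set_option linter.all false

open Complex Set

namespace Pool.Agent.Csz.M8

theorem fcs_mem (j : Fin 14) : fcs j ∈ faces := by
  rw [M1.mem_F faces rfl]
  have : ∀ j : Fin 14, ∃ i : Fin 14, M1.fc i = fcs j := by decide
  exact this j


/-- weights on a face are determined by the point -/
theorem weights_unique (j : Fin 14) (l m : Fin 7 → ℝ) (hl : ∀ k, k ∉ fcs j → l k = 0)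
    (hm : ∀ k, k ∉ fcs j → m k = 0) (h1 : ∑ k, l k = 1) (h2 : ∑ k, m k = 1)
    (h : ∑ k, l k • vert k = ∑ k, m k • vert k) : l = m := by
  have hind := M1.faces_indep (fcs j) (fcs_mem j)
  rw [affineIndependent_iff] at hind
  have hs : ∀ (f : Fin 7 → ℝ), (∀ k, k ∉ fcs j → f k = 0) →
      ∑ k : ((fcs j : Finset (Fin 7)) : Set (Fin 7)), f k = ∑ k, f k := by
    intro f hf
    rw [← Finset.sum_subtype (fcs j) (p := fun x => x ∈ ((fcs j : Finset (Fin 7)) : Set (Fin 7)))
      (fun x => Finset.mem_coe.symm) f]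
    exact Finset.sum_subset (Finset.subset_univ _) (fun k _ hk => hf k hk)
  have hv : ∑ k : ((fcs j : Finset (Fin 7)) : Set (Fin 7)), (l k - m k) • vert k = 0 := by
    have e : ∑ k : ((fcs j : Finset (Fin 7)) : Set (Fin 7)), (l k - m k) • vert k
        = ∑ k, (l k - m k) • vert k := by
      rw [← Finset.sum_subtype (fcs j)
        (p := fun x => x ∈ ((fcs j : Finset (Fin 7)) : Set (Fin 7)))
        (fun x => Finset.mem_coe.symm) (fun k => (l k - m k) • vert k)]
      exact Finset.sum_subset (Finset.subset_univ _)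
        (fun k _ hk => by rw [hl k hk, hm k hk]; simp)
    rw [e]
    simp only [sub_smul, Finset.sum_sub_distrib]
    rw [h, sub_self]
  have h0 : ∑ k : ((fcs j : Finset (Fin 7)) : Set (Fin 7)), (l k - m k) = 0 := by
    rw [hs (fun k => l k - m k) (fun k hk => by rw [hl k hk, hm k hk]; simp)]
    rw [Finset.sum_sub_distrib, h1, h2, sub_self]
  have key := hind Finset.univ (fun k => l k - m k) h0 hv
  funext k
  by_cases hk : k ∈ fcs j
  · have := key ⟨k, by exact_mod_cast hk⟩ (Finset.mem_univ _)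
    linarith
  · rw [hl k hk, hm k hk]

theorem mem_hull (T : Finset (Fin 7)) (l : Fin 7 → ℝ) (h0 : ∀ k, 0 ≤ l k)
    (hl : ∀ k, k ∉ T → l k = 0) (h1 : ∑ k, l k = 1) :
    ∑ k, l k • vert k ∈ convexHull ℝ (vert '' (T : Set (Fin 7))) := by
  have e1 : ∑ k, l k • vert k = ∑ k ∈ T, l k • vert k :=
    (Finset.sum_subset (Finset.subset_univ _) (fun k _ hk => by rw [hl k hk, zero_smul])).symm
  have e2 : ∑ k ∈ T, l k = 1 := by
    rw [← h1]
    exact Finset.sum_subset (Finset.subset_univ _) (fun k _ hk => hl k hk)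
  rw [e1]
  exact (convex_convexHull ℝ _).sum_mem (fun k _ => h0 k) e2
    (fun k hk => subset_convexHull ℝ _ ⟨k, hk, rfl⟩)

theorem exists_weights (T : Finset (Fin 7)) (p : E3)
    (hp : p ∈ convexHull ℝ (vert '' (T : Set (Fin 7)))) :
    ∃ m : Fin 7 → ℝ, (∀ k, 0 ≤ m k) ∧ (∀ k, k ∉ T → m k = 0) ∧ ∑ k, m k = 1 ∧
      p = ∑ k, m k • vert k := by
  -- the set of such p is convex and contains the vertices
  have hconv : Convex ℝ {p : E3 | ∃ m : Fin 7 → ℝ, (∀ k, 0 ≤ m k) ∧ (∀ k, k ∉ T → m k = 0) ∧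
      ∑ k, m k = 1 ∧ p = ∑ k, m k • vert k} := by
    rintro _ ⟨m, m0, m1, m2, rfl⟩ _ ⟨n, n0, n1, n2, rfl⟩ a b ha hb hab
    refine ⟨fun k => a * m k + b * n k, fun k => ?_, fun k hk => ?_, ?_, ?_⟩
    · have := m0 k
      have := n0 k
      positivity
    · beta_reduce; rw [m1 k hk, n1 k hk]; ring
    · rw [Finset.sum_add_distrib, ← Finset.mul_sum, ← Finset.mul_sum, m2, n2]; linarith
    · rw [Finset.smul_sum, Finset.smul_sum, ← Finset.sum_add_distrib]
      apply Finset.sum_congr rfl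
      intro k _
      rw [add_smul, mul_smul, mul_smul]
  have hsub : vert '' (T : Set (Fin 7)) ⊆ {p : E3 | ∃ m : Fin 7 → ℝ, (∀ k, 0 ≤ m k) ∧
      (∀ k, k ∉ T → m k = 0) ∧ ∑ k, m k = 1 ∧ p = ∑ k, m k • vert k} := by
    rintro _ ⟨k0, hk0, rfl⟩
    refine ⟨fun k => if k = k0 then 1 else 0, fun k => ?_, fun k hk => ?_, ?_, ?_⟩
    · beta_reduce; split_ifs <;> norm_num
    · beta_reduce
      rw [if_neg]
      rintro rfl
      exact hk (by exact_mod_cast hk0)
    · simp
    · simp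
  exact convexHull_min hsub hconv hp

theorem compat : ∀ j j' : Fin 14, ∃ a ∈ ([-1, 0, 1] : List ℤ), ∃ b ∈ ([-1, 0, 1] : List ℤ),
    ∀ k : Fin 7, k ∈ fcs j → k ∈ fcs j' → ps j k = ps j' k + 3 * a ∧
      pt3 j k = pt3 j' k + 3 * b := by
  decide +kernel

theorem rep_unique (p : E3) (s t s' t' : ℝ) (h : Rep p s t) (h' : Rep p s' t') :
    tor s t = tor s' t' := by
  obtain ⟨j, l, l0, l1, l2, hp, hs, ht⟩ := h
  obtain ⟨j', l', l0', l1', l2', hp', hs', ht'⟩ := h'
  have m1 : p ∈ convexHull ℝ (vert '' ((fcs j : Finset (Fin 7)) : Set (Fin 7))) := by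
    rw [hp]; exact mem_hull _ l l0 l1 l2
  have m2 : p ∈ convexHull ℝ (vert '' ((fcs j' : Finset (Fin 7)) : Set (Fin 7))) := by
    rw [hp']; exact mem_hull _ l' l0' l1' l2'
  have m3 : p ∈ convexHull ℝ (vert '' ((fcs j ∩ fcs j' : Finset (Fin 7)) : Set (Fin 7))) := by
    rw [← M1.faces_inter _ (fcs_mem j) _ (fcs_mem j')]
    exact ⟨m1, m2⟩
  obtain ⟨m, n0, n1, n2, n3⟩ := exists_weights _ p m3
  have e1 : l = m := weights_unique j l m l1
    (fun k hk => n1 k (fun h => hk (Finset.mem_inter.1 h).1)) l2 n2 (by rw [← hp, n3])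
  have e2 : l' = m := weights_unique j' l' m l1'
    (fun k hk => n1 k (fun h => hk (Finset.mem_inter.1 h).2)) l2' n2 (by rw [← hp', n3])
  subst e1
  subst e2
  obtain ⟨a, _, b, _, hab⟩ := compat j j'
  rw [tor_iff]
  refine ⟨a, b, ?_, ?_⟩
  · have e : ∑ k, l' k * (ps j k : ℝ) = ∑ k, (l' k * (ps j' k : ℝ) + l' k * (3 * a)) := by
      apply Finset.sum_congr rfl
      intro k _
      by_cases hk : k ∈ fcs j ∩ fcs j'
      · have := (hab k (Finset.mem_inter.1 hk).1 (Finset.mem_inter.1 hk).2).1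
        rw [this]; push_cast; ring
      · rw [n1 k hk]; ring
    rw [hs, e, Finset.sum_add_distrib, ← Finset.sum_mul, l2, ← hs']; ring
  · have e : ∑ k, l' k * (pt3 j k : ℝ) = ∑ k, (l' k * (pt3 j' k : ℝ) + l' k * (3 * b)) := by
      apply Finset.sum_congr rfl
      intro k _
      by_cases hk : k ∈ fcs j ∩ fcs j'
      · have := (hab k (Finset.mem_inter.1 hk).1 (Finset.mem_inter.1 hk).2).2
        rw [this]; push_cast; ring
      · rw [n1 k hk]; ring
    rw [e, Finset.sum_add_distrib, ← Finset.sum_mul, l2, ← ht'] at ht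
    linarith

end Pool.Agent.Csz.M8
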