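import Mathlib
import Pool.Agent.Csz.Defs
import Pool.Agent.Csz.PL
import Pool.Agent.Csz.M1
import Pool.Agent.Csz.M8d
import Pool.Agent.Csz.M8a
import Pool.Agent.Csz.M8b
import Pool.Agent.Csz.M8c
import Pool.Agent.Csz.M8r

set_option autoImplicit false
set_option linter.all false

open Complex Set

namespace Pool.Agent.Csz.M8

/-- the domain of the charts -/
abbrev Y1 := ↥(Icc (0:ℝ) 2 ×ˢ Icc (0:ℝ) 10)
abbrev Y2 := ↥(Icc (2:ℝ) 3 ×ˢ Icc (0:ℝ) 6)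

noncomputable def qm : Y1 ⊕ Y2 → AddCircle (1 : ℝ) × AddCircle (1 : ℝ) :=
  Sum.elim (fun y => tor y.1.1 (k0in y.1.1 y.1.2)) (fun y => tor y.1.1 (k0out y.1.1 y.1.2))

noncomputable def hm : Y1 ⊕ Y2 → E3 :=
  Sum.elim (fun y => f0in y.1.1 y.1.2) (fun y => f0out y.1.1 y.1.2)

theorem tor_cont : Continuous (fun p : ℝ × ℝ => tor p.1 p.2) := by
  unfold tor
  have h1 : Continuous (fun x : ℝ => (x : AddCircle (1:ℝ))) := AddCircle.continuous_mk' 1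
  exact (h1.comp (by fun_prop : Continuous (fun p : ℝ × ℝ => p.1 / 3))).prodMk
    (h1.comp (by fun_prop : Continuous (fun p : ℝ × ℝ => p.2)))

theorem qm_cont : Continuous qm := by
  unfold qm
  apply Continuous.sumElim
  · have : Continuous (fun y : Y1 => (y.1.1, k0in y.1.1 y.1.2)) := by
      refine Continuous.prodMk (by fun_prop) ?_
      exact k0in_cont.comp continuous_subtype_val
    exact tor_cont.comp this
  · have : Continuous (fun y : Y2 => (y.1.1, k0out y.1.1 y.1.2)) := by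
      refine Continuous.prodMk (by fun_prop) ?_
      exact k0out_cont.comp continuous_subtype_val
    exact tor_cont.comp this

theorem hm_cont : Continuous hm := by
  unfold hm
  apply Continuous.sumElim
  · exact f0in_cont.comp continuous_subtype_val
  · exact f0out_cont.comp continuous_subtype_val

theorem qm_surj : Function.Surjective qm := by
  rintro ⟨a, b⟩
  obtain ⟨u, hu, rfl⟩ : ∃ u ∈ Ico (0:ℝ) (0 + 1), (u : AddCircle (1:ℝ)) = a := by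
    have := AddCircle.coe_image_Ico_eq (1:ℝ) 0
    have ha : a ∈ (Set.univ : Set (AddCircle (1:ℝ))) := mem_univ _
    rw [← this] at ha
    exact ha
  obtain ⟨t, ht, rfl⟩ : ∃ u ∈ Ico (0:ℝ) (0 + 1), (u : AddCircle (1:ℝ)) = b := by
    have := AddCircle.coe_image_Ico_eq (1:ℝ) 0
    have ha : b ∈ (Set.univ : Set (AddCircle (1:ℝ))) := mem_univ _
    rw [← this] at ha
    exact ha
  have hu0 := hu.1
  have hu1 := hu.2
  have ht0 := ht.1
  have ht1 := ht.2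
  rcases le_total (3 * u) 2 with h | h
  · obtain ⟨θ, h3, h4, h5⟩ := surj_in (3 * u) t (by linarith) h ht0 (by linarith)
    refine ⟨Sum.inl ⟨(3 * u, θ), ⟨by linarith, h⟩, ⟨h3, h4⟩⟩, ?_⟩
    show tor (3 * u) (k0in (3 * u) θ) = _
    rw [h5]
    unfold tor
    rw [mul_div_cancel_left₀ _ (by norm_num : (3:ℝ) ≠ 0)]
  · obtain ⟨θ, h3, h4, h5⟩ := surj_out (3 * u) t ht0 (by linarith)
    refine ⟨Sum.inr ⟨(3 * u, θ), ⟨h, by linarith⟩, ⟨h3, h4⟩⟩, ?_⟩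
    show tor (3 * u) (k0out (3 * u) θ) = _
    rw [h5]
    unfold tor
    rw [mul_div_cancel_left₀ _ (by norm_num : (3:ℝ) ≠ 0)]

theorem k0in_mono (σ : ℝ) (h1 : 0 ≤ σ) (h2 : σ ≤ 2) {θ θ' : ℝ} (h : θ ≤ θ') :
    k0in σ θ ≤ k0in σ θ' := by
  have a := hA_nonneg σ
  have b := hB_nonneg σ
  have k := hK_nonneg σ h1 h2
  unfold k0in
  apply add_le_add (add_le_add _ _) _
  · apply mul_le_mul_of_nonneg_left _ a
    unfold TA0
    have e1 := cl_mono (show θ - 4 ≤ θ' - 4 by linarith)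
    have e2 := cl_mono (show θ - 8 ≤ θ' - 8 by linarith)
    have e3 := cl_mono (show θ - 9 ≤ θ' - 9 by linarith)
    linarith
  · apply mul_le_mul_of_nonneg_left _ k
    unfold TK0
    have e1 := cl_mono (show θ - 2 ≤ θ' - 2 by linarith)
    have e2 := cl_mono (show θ - 3 ≤ θ' - 3 by linarith)
    have e3 := cl_mono (show θ - 6 ≤ θ' - 6 by linarith)
    have e4 := cl_mono (show θ - 7 ≤ θ' - 7 by linarith)
    linarith
  · apply mul_le_mul_of_nonneg_left _ b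
    unfold TB0
    have e1 := cl_mono (show θ ≤ θ' by linarith)
    have e2 := cl_mono (show θ - 1 ≤ θ' - 1 by linarith)
    have e3 := cl_mono (show θ - 5 ≤ θ' - 5 by linarith)
    linarith

theorem k0out_mono (σ : ℝ) (h1 : 2 ≤ σ) (h2 : σ ≤ 3) {θ θ' : ℝ} (h : θ ≤ θ') :
    k0out σ θ ≤ k0out σ θ' := by
  unfold k0out
  apply add_le_add
  · apply mul_le_mul_of_nonneg_left _ (by linarith)
    unfold TBo
    have e1 := cl_mono (show θ ≤ θ' by linarith)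
    have e2 := cl_mono (show θ - 3 ≤ θ' - 3 by linarith)
    have e3 := cl_mono (show θ - 4 ≤ θ' - 4 by linarith)
    linarith
  · apply mul_le_mul_of_nonneg_left _ (by linarith)
    unfold TAo
    have e1 := cl_mono (show θ - 1 ≤ θ' - 1 by linarith)
    have e2 := cl_mono (show θ - 2 ≤ θ' - 2 by linarith)
    have e3 := cl_mono (show θ - 5 ≤ θ' - 5 by linarith)
    linarith

theorem k0in_mem (σ θ : ℝ) (h1 : 0 ≤ σ) (h2 : σ ≤ 2) (h3 : 0 ≤ θ) (h4 : θ ≤ 10) :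
    0 ≤ k0in σ θ ∧ k0in σ θ ≤ 1 := by
  have e1 := k0in_mono σ h1 h2 h3
  have e2 := k0in_mono σ h1 h2 h4
  rw [k0in_zero] at e1
  rw [k0in_ten σ h1 h2] at e2
  exact ⟨e1, e2⟩

theorem k0out_mem (σ θ : ℝ) (h1 : 2 ≤ σ) (h2 : σ ≤ 3) (h3 : 0 ≤ θ) (h4 : θ ≤ 6) :
    0 ≤ k0out σ θ ∧ k0out σ θ ≤ 1 := by
  have e1 := k0out_mono σ h1 h2 h3
  have e2 := k0out_mono σ h1 h2 h4
  rw [k0out_zero] at e1
  rw [k0out_six σ] at e2
  exact ⟨e1, e2⟩

theorem fibZ_in (σ θ θ' : ℝ) (h1 : 0 ≤ σ) (h2 : σ ≤ 2) (h3 : 0 ≤ θ) (h4 : θ ≤ 10)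
    (h5 : 0 ≤ θ') (h6 : θ' ≤ 10) (b : ℤ) (h : k0in σ θ = k0in σ θ' + b) :
    f0in σ θ = f0in σ θ' := by
  obtain ⟨m1, m2⟩ := k0in_mem σ θ h1 h2 h3 h4
  obtain ⟨m3, m4⟩ := k0in_mem σ θ' h1 h2 h5 h6
  have hb1 : (b : ℝ) ≤ 1 := by linarith
  have hb2 : (-1 : ℝ) ≤ b := by linarith
  have hb1' : b ≤ 1 := by exact_mod_cast hb1
  have hb2' : -1 ≤ b := by exact_mod_cast hb2
  obtain rfl | rfl | rfl : b = -1 ∨ b = 0 ∨ b = 1 := by omega
  · push_cast at h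
    have e1 : k0in σ θ = 0 := by linarith
    have e2 : k0in σ θ' = 1 := by linarith
    rw [fib_in σ θ 0 h1 h2 (by rw [e1, k0in_zero]),
      fib_in σ θ' 10 h1 h2 (by rw [e2, k0in_ten σ h1 h2]), f0in_ends]
  · push_cast at h
    exact fib_in σ θ θ' h1 h2 (by linarith)
  · push_cast at h
    have e1 : k0in σ θ = 1 := by linarith
    have e2 : k0in σ θ' = 0 := by linarith
    rw [fib_in σ θ' 0 h1 h2 (by rw [e2, k0in_zero]),
      fib_in σ θ 10 h1 h2 (by rw [e1, k0in_ten σ h1 h2]), f0in_ends]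

theorem fibZ_out (σ θ θ' : ℝ) (h1 : 2 ≤ σ) (h2 : σ ≤ 3) (h3 : 0 ≤ θ) (h4 : θ ≤ 6)
    (h5 : 0 ≤ θ') (h6 : θ' ≤ 6) (b : ℤ) (h : k0out σ θ = k0out σ θ' + b) :
    f0out σ θ = f0out σ θ' := by
  obtain ⟨m1, m2⟩ := k0out_mem σ θ h1 h2 h3 h4
  obtain ⟨m3, m4⟩ := k0out_mem σ θ' h1 h2 h5 h6
  have hb1 : (b : ℝ) ≤ 1 := by linarith
  have hb2 : (-1 : ℝ) ≤ b := by linarith
  have hb1' : b ≤ 1 := by exact_mod_cast hb1
  have hb2' : -1 ≤ b := by exact_mod_cast hb2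
  obtain rfl | rfl | rfl : b = -1 ∨ b = 0 ∨ b = 1 := by omega
  · push_cast at h
    have e1 : k0out σ θ = 0 := by linarith
    have e2 : k0out σ θ' = 1 := by linarith
    rw [fib_out σ θ 0 h1 h2 (by rw [e1, k0out_zero]),
      fib_out σ θ' 6 h1 h2 (by rw [e2, k0out_six σ]), f0out_ends]
  · push_cast at h
    exact fib_out σ θ θ' h1 h2 (by linarith)
  · push_cast at h
    have e1 : k0out σ θ = 1 := by linarith
    have e2 : k0out σ θ' = 0 := by linarith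
    rw [fib_out σ θ' 0 h1 h2 (by rw [e2, k0out_zero]),
      fib_out σ θ 6 h1 h2 (by rw [e1, k0out_six σ]), f0out_ends]

theorem fib_in_out (σ θ σ' θ' : ℝ) (h1 : 0 ≤ σ) (h2 : σ ≤ 2) (h3 : 2 ≤ σ') (h4 : σ' ≤ 3)
    (h : tor σ (k0in σ θ) = tor σ' (k0out σ' θ')) : f0in σ θ = f0out σ' θ' := by
  rw [tor_iff] at h
  obtain ⟨a, b, ha, hb⟩ := h
  have ha1 : (a : ℝ) ≤ 0 := by linarith
  have ha2 : (-1 : ℝ) ≤ a := by linarith
  have ha1' : a ≤ 0 := by exact_mod_cast ha1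
  have ha2' : -1 ≤ a := by exact_mod_cast ha2
  obtain rfl | rfl : a = -1 ∨ a = 0 := by omega
  · push_cast at ha
    obtain rfl : σ = 0 := by linarith
    obtain rfl : σ' = 3 := by linarith
    exact glueA θ θ' b hb
  · push_cast at ha
    obtain rfl : σ = 2 := by linarith
    obtain rfl : σ' = 2 := by linarith
    exact glueB θ θ' b hb

theorem fib (y y' : Y1 ⊕ Y2) (h : qm y = qm y') : hm y = hm y' := by
  rcases y with ⟨⟨σ, θ⟩, ⟨h1, h2⟩, ⟨h3, h4⟩⟩ | ⟨⟨σ, θ⟩, ⟨h1, h2⟩, ⟨h3, h4⟩⟩ <;>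
    rcases y' with ⟨⟨σ', θ'⟩, ⟨h5, h6⟩, ⟨h7, h8⟩⟩ | ⟨⟨σ', θ'⟩, ⟨h5, h6⟩, ⟨h7, h8⟩⟩
  · change tor σ (k0in σ θ) = tor σ' (k0in σ' θ') at h
    show f0in σ θ = f0in σ' θ'
    simp only at h1 h2 h3 h4 h5 h6 h7 h8
    rw [tor_iff] at h
    obtain ⟨a, b, ha, hb⟩ := h
    have ha1 : (a : ℝ) < 1 := by linarith
    have ha2 : (-1 : ℝ) < a := by linarith
    have ha1' : a < 1 := by exact_mod_cast ha1
    have ha2' : -1 < a := by exact_mod_cast ha2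
    obtain rfl : a = 0 := by omega
    obtain rfl : σ = σ' := by push_cast at ha; linarith
    exact fibZ_in σ θ θ' h1 h2 h3 h4 h7 h8 b hb
  · change tor σ (k0in σ θ) = tor σ' (k0out σ' θ') at h
    show f0in σ θ = f0out σ' θ'
    exact fib_in_out σ θ σ' θ' h1 h2 h5 h6 h
  · change tor σ (k0out σ θ) = tor σ' (k0in σ' θ') at h
    show f0out σ θ = f0in σ' θ'
    exact (fib_in_out σ' θ' σ θ h5 h6 h1 h2 h.symm).symm
  · change tor σ (k0out σ θ) = tor σ' (k0out σ' θ') at h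
    show f0out σ θ = f0out σ' θ'
    simp only at h1 h2 h3 h4 h5 h6 h7 h8
    rw [tor_iff] at h
    obtain ⟨a, b, ha, hb⟩ := h
    have ha1 : (a : ℝ) < 1 := by linarith
    have ha2 : (-1 : ℝ) < a := by linarith
    have ha1' : a < 1 := by exact_mod_cast ha1
    have ha2' : -1 < a := by exact_mod_cast ha2
    obtain rfl : a = 0 := by omega
    obtain rfl : σ = σ' := by push_cast at ha; linarith
    exact fibZ_out σ θ θ' h1 h2 h3 h4 h7 h8 b hb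

instance : CompactSpace Y1 := isCompact_iff_compactSpace.1 (isCompact_Icc.prod isCompact_Icc)
instance : CompactSpace Y2 := isCompact_iff_compactSpace.1 (isCompact_Icc.prod isCompact_Icc)

theorem rep_of (y : Y1 ⊕ Y2) : ∃ s t, qm y = tor s t ∧ Rep (hm y) s t := by
  rcases y with ⟨⟨σ, θ⟩, ⟨h1, h2⟩, ⟨h3, h4⟩⟩ | ⟨⟨σ, θ⟩, ⟨h1, h2⟩, ⟨h3, h4⟩⟩
  · exact ⟨σ, k0in σ θ, rfl, rep_in σ θ h1 h2 h3 h4⟩
  · exact ⟨σ, k0out σ θ, rfl, rep_out σ θ h1 h2 h3 h4⟩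

theorem exists_g : ∃ g : AddCircle (1 : ℝ) × AddCircle (1 : ℝ) → E3,
    Continuous g ∧ Function.Injective g ∧
      Set.range g = ⋃ σ ∈ faces, convexHull ℝ (vert '' (σ : Set (Fin 7))) ∧
      (∀ σ θ : ℝ, 0 ≤ σ → σ ≤ 2 → 0 ≤ θ → θ ≤ 10 → g (tor σ (k0in σ θ)) = f0in σ θ) ∧
      (∀ σ θ : ℝ, 2 ≤ σ → σ ≤ 3 → 0 ≤ θ → θ ≤ 6 → g (tor σ (k0out σ θ)) = f0out σ θ) := by
  have hcl : IsClosedMap qm := qm_cont.isClosedMap
  have hq : Topology.IsQuotientMap qm := hcl.isQuotientMap qm_cont qm_surj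
  set g : AddCircle (1 : ℝ) × AddCircle (1 : ℝ) → E3 :=
    fun x => hm (Function.surjInv qm_surj x) with hg
  have key : ∀ y, g (qm y) = hm y := fun y => fib _ _ (Function.surjInv_eq qm_surj (qm y))
  have hgc : Continuous g := by
    rw [hq.continuous_iff]
    have : g ∘ qm = hm := funext key
    rw [this]
    exact hm_cont
  refine ⟨g, hgc, ?_, ?_, ?_, ?_⟩
  · intro x x' hx
    obtain ⟨y, rfl⟩ := qm_surj x
    obtain ⟨y', rfl⟩ := qm_surj x'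
    rw [key, key] at hx
    obtain ⟨s, t, e, hr⟩ := rep_of y
    obtain ⟨s', t', e', hr'⟩ := rep_of y'
    rw [e, e']
    rw [← hx] at hr'
    exact rep_unique _ _ _ _ _ hr hr'
  · ext p
    constructor
    · rintro ⟨x, rfl⟩
      obtain ⟨y, rfl⟩ := qm_surj x
      rw [key]
      obtain ⟨s, t, e, j, l, l0, l1, l2, l3, -⟩ := rep_of y
      rw [mem_iUnion₂]
      refine ⟨fcs j, (faces_iff _).2 ⟨j, rfl⟩, ?_⟩
      rw [l3]
      exact mem_hull _ l l0 l1 l2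
    · intro hp
      rw [mem_iUnion₂] at hp
      obtain ⟨τ, hτ, hp⟩ := hp
      obtain ⟨j, rfl⟩ := (faces_iff _).1 hτ
      obtain ⟨l, l0, l1, l2, l3x⟩ := exists_weights _ _ hp
      have l3 := l3x.symm
      rcases range_ex j l l0 l1 l2 with ⟨σ, θ, h1, h2, h3, h4, h5⟩ | ⟨σ, θ, h1, h2, h3, h4, h5⟩
      · refine ⟨qm (Sum.inl ⟨(σ, θ), ⟨h1, h2⟩, ⟨h3, h4⟩⟩), ?_⟩
        rw [key, ← l3]
        exact h5
      · refine ⟨qm (Sum.inr ⟨(σ, θ), ⟨h1, h2⟩, ⟨h3, h4⟩⟩), ?_⟩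
        rw [key, ← l3]
        exact h5
  · intro σ θ h1 h2 h3 h4
    exact key (Sum.inl ⟨(σ, θ), ⟨h1, h2⟩, ⟨h3, h4⟩⟩)
  · intro σ θ h1 h2 h3 h4
    exact key (Sum.inr ⟨(σ, θ), ⟨h1, h2⟩, ⟨h3, h4⟩⟩)

end Pool.Agent.Csz.M8
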