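import Mathlib
import Pool.Agent.Csz.Defs
import Pool.Agent.Csz.PL
import Pool.Agent.Csz.Inner1
import Pool.Agent.Csz.Outer
import Pool.Agent.Csz.M7a

set_option autoImplicit false

open Complex Set Filter Topology

namespace Pool.Agent.Csz.M9

open Pool.Agent.Csz

/-! ### elementary bounds -/

theorem dist_pt (w w' : ℂ) (z z' : ℝ) : dist (pt w z) (pt w' z') ≤ ‖w - w'‖ + |z - z'| := by
  rw [EuclideanSpace.dist_eq]
  simp only [pt, Fin.sum_univ_three, Real.dist_eq, sq_abs]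
  simp only [PiLp.toLp_apply, Matrix.cons_val_zero, Matrix.cons_val_one, Matrix.cons_val]
  have h1 : ‖w - w'‖ ^ 2 = (w.re - w'.re) ^ 2 + (w.im - w'.im) ^ 2 := by
    rw [← Complex.normSq_eq_norm_sq, Complex.normSq_apply]
    simp
    ring
  rw [← h1]
  apply Real.sqrt_le_iff.2
  constructor
  · positivity
  · have := norm_nonneg (w - w')
    have h2 := abs_nonneg (z - z')
    nlinarith [sq_abs (z - z')]

theorem cl_nonneg (t : ℝ) : 0 ≤ cl t := le_max_left _ _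

theorem cl_le (t : ℝ) : cl t ≤ 1 := by
  unfold cl
  exact max_le (by norm_num) (min_le_left _ _)

theorem ramp_nonneg {χ : ℝ → ℝ} {ε : ℝ} (h : Ramp χ ε) (s : ℝ) : 0 ≤ χ s := by
  have hm : Monotone χ := monotone_of_deriv_nonneg (h.smooth.differentiable (by simp)) h.dnonneg
  by_cases hs : s ≤ -ε
  · rw [h.zero s hs]
  · have := hm (le_of_lt (not_le.1 hs))
    rwa [h.zero (-ε) le_rfl] at this

theorem ramp_mono {χ : ℝ → ℝ} {ε : ℝ} (h : Ramp χ ε) : Monotone χ :=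
  monotone_of_deriv_nonneg (h.smooth.differentiable (by simp)) h.dnonneg

theorem ramp_le {χ : ℝ → ℝ} {ε : ℝ} (h : Ramp χ ε) (s : ℝ) : χ s ≤ max s 0 + ε := by
  have hm := ramp_mono h
  have hε := h.pos
  by_cases hs : ε ≤ s
  · rw [h.id s hs]
    have := le_max_left s 0
    linarith
  · have h1 := hm (le_of_lt (not_le.1 hs))
    rw [h.id ε le_rfl] at h1
    have := le_max_right s 0
    linarith

theorem ramp_ge {χ : ℝ → ℝ} {ε : ℝ} (h : Ramp χ ε) (s : ℝ) : max s 0 ≤ χ s := by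
  apply max_le
  · have := h.symm s
    have := ramp_nonneg h (-s)
    linarith
  · exact ramp_nonneg h s

/-- bound of a combination -/
theorem combo {V : Type*} [NormedAddCommGroup V] [NormedSpace ℝ V] (c₁ c₂ c₃ h₁ h₂ h₃ e M : ℝ)
    (P₁ P₂ P₃ V₁ V₂ V₃ : V) (he : 0 ≤ e)
    (a1 : |c₁| ≤ 2) (a2 : |c₂| ≤ 2) (a3 : |c₃| ≤ 2)
    (b1 : |c₁ - h₁| ≤ 10 * e) (b2 : |c₂ - h₂| ≤ 10 * e) (b3 : |c₃ - h₃| ≤ 10 * e)
    (d1 : ‖P₁ - V₁‖ ≤ 2 * e) (d2 : ‖P₂ - V₂‖ ≤ 2 * e) (d3 : ‖P₃ - V₃‖ ≤ 2 * e)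
    (m1 : ‖V₁‖ ≤ M) (m2 : ‖V₂‖ ≤ M) (m3 : ‖V₃‖ ≤ M) :
    ‖c₁ • P₁ + c₂ • P₂ + c₃ • P₃ - (h₁ • V₁ + h₂ • V₂ + h₃ • V₃)‖ ≤ (12 + 30 * M) * e := by
  have e1 : c₁ • P₁ + c₂ • P₂ + c₃ • P₃ - (h₁ • V₁ + h₂ • V₂ + h₃ • V₃) =
      (c₁ • (P₁ - V₁) + c₂ • (P₂ - V₂) + c₃ • (P₃ - V₃)) +
        ((c₁ - h₁) • V₁ + (c₂ - h₂) • V₂ + (c₃ - h₃) • V₃) := by
    simp only [smul_sub, sub_smul]
    abel
  have M0 : 0 ≤ M := (norm_nonneg _).trans m1
  have s1 : ∀ (c : ℝ) (P : V), |c| ≤ 2 → ‖P‖ ≤ 2 * e → ‖c • P‖ ≤ 4 * e := by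
    intro c P hc hP
    rw [norm_smul, Real.norm_eq_abs]
    calc |c| * ‖P‖ ≤ 2 * (2 * e) := mul_le_mul hc hP (norm_nonneg _) (by norm_num)
      _ = 4 * e := by ring
  have s2 : ∀ (c : ℝ) (P : V), |c| ≤ 10 * e → ‖P‖ ≤ M → ‖c • P‖ ≤ 10 * M * e := by
    intro c P hc hP
    rw [norm_smul, Real.norm_eq_abs]
    calc |c| * ‖P‖ ≤ (10 * e) * M := mul_le_mul hc hP (norm_nonneg _) (by positivity)
      _ = 10 * M * e := by ring
  rw [e1]
  calc _ ≤ ‖c₁ • (P₁ - V₁) + c₂ • (P₂ - V₂) + c₃ • (P₃ - V₃)‖ +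
        ‖(c₁ - h₁) • V₁ + (c₂ - h₂) • V₂ + (c₃ - h₃) • V₃‖ := norm_add_le _ _
    _ ≤ (‖c₁ • (P₁ - V₁)‖ + ‖c₂ • (P₂ - V₂)‖ + ‖c₃ • (P₃ - V₃)‖) +
        (‖(c₁ - h₁) • V₁‖ + ‖(c₂ - h₂) • V₂‖ + ‖(c₃ - h₃) • V₃‖) :=
      add_le_add (norm_add₃_le) (norm_add₃_le)
    _ ≤ (4 * e + 4 * e + 4 * e) + (10 * M * e + 10 * M * e + 10 * M * e) := by
      have := s1 _ _ a1 d1
      have := s1 _ _ a2 d2
      have := s1 _ _ a3 d3
      have := s2 _ _ b1 m1
      have := s2 _ _ b2 m2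
      have := s2 _ _ b3 m3
      linarith
    _ = (12 + 30 * M) * e := by ring

/-- the coefficients of the inner chart -/
theorem coeffs {χ : ℝ → ℝ} {ε : ℝ} (h : Ramp χ ε) (δ e σ : ℝ) (hδ : 0 < δ) (hδ2 : δ < 1 / 2)
    (hδe : δ ≤ e) (hεe : ε ≤ e) (h0 : 0 ≤ σ) (h2 : σ ≤ 2) :
    |(1 - (χ (σ - δ) - χ (σ - 1)) / (1 - δ)) - hA σ| ≤ 5 * e ∧
    |((χ (σ - 1) - χ (σ - (2 - δ))) / (1 - δ)) - hB σ| ≤ 5 * e := by
  have hε := h.pos
  have l1 := ramp_le h (σ - δ)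
  have l2 := ramp_le h (σ - 1)
  have l3 := ramp_le h (σ - (2 - δ))
  have g1 := ramp_ge h (σ - δ)
  have g2 := ramp_ge h (σ - 1)
  have g3 := ramp_ge h (σ - (2 - δ))
  have hd : 0 < 1 - δ := by linarith
  unfold hA hB
  constructor
  · have key : |(1 - δ) - (χ (σ - δ) - χ (σ - 1)) - (1 - δ) * max (1 - σ) 0| ≤ 5 * e * (1 - δ) := by
      rw [abs_le]
      rcases le_total σ δ with hs | hs
      · have m1 : max (σ - δ) 0 = 0 := max_eq_right (by linarith)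
        have m2 : max (σ - 1) 0 = 0 := max_eq_right (by linarith)
        have m3 : max (1 - σ) 0 = 1 - σ := max_eq_left (by linarith)
        rw [m1] at l1 g1; rw [m2] at l2 g2; rw [m3]
        constructor <;> nlinarith
      · rcases le_total σ 1 with hs1 | hs1
        · have m1 : max (σ - δ) 0 = σ - δ := max_eq_left (by linarith)
          have m2 : max (σ - 1) 0 = 0 := max_eq_right (by linarith)
          have m3 : max (1 - σ) 0 = 1 - σ := max_eq_left (by linarith)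
          rw [m1] at l1 g1; rw [m2] at l2 g2; rw [m3]
          constructor <;> nlinarith
        · have m1 : max (σ - δ) 0 = σ - δ := max_eq_left (by linarith)
          have m2 : max (σ - 1) 0 = σ - 1 := max_eq_left (by linarith)
          have m3 : max (1 - σ) 0 = 0 := max_eq_right (by linarith)
          rw [m1] at l1 g1; rw [m2] at l2 g2; rw [m3]
          constructor <;> nlinarith
    have : (1 - (χ (σ - δ) - χ (σ - 1)) / (1 - δ)) - max (1 - σ) 0 =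
        ((1 - δ) - (χ (σ - δ) - χ (σ - 1)) - (1 - δ) * max (1 - σ) 0) / (1 - δ) := by
      field_simp
    rw [this, abs_div, abs_of_pos hd, div_le_iff₀ hd]
    exact key
  · have key : |(χ (σ - 1) - χ (σ - (2 - δ))) - (1 - δ) * max (σ - 1) 0| ≤ 5 * e * (1 - δ) := by
      rw [abs_le]
      rcases le_total σ 1 with hs | hs
      · have m1 : max (σ - 1) 0 = 0 := max_eq_right (by linarith)
        have m2 : max (σ - (2 - δ)) 0 = 0 := max_eq_right (by linarith)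
        rw [m1] at l2 g2; rw [m2] at l3 g3; rw [m1]
        constructor <;> nlinarith
      · rcases le_total σ (2 - δ) with hs1 | hs1
        · have m1 : max (σ - 1) 0 = σ - 1 := max_eq_left (by linarith)
          have m2 : max (σ - (2 - δ)) 0 = 0 := max_eq_right (by linarith)
          rw [m1] at l2 g2; rw [m2] at l3 g3; rw [m1]
          constructor <;> nlinarith
        · have m1 : max (σ - 1) 0 = σ - 1 := max_eq_left (by linarith)
          have m2 : max (σ - (2 - δ)) 0 = σ - (2 - δ) := max_eq_left (by linarith)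
          rw [m1] at l2 g2; rw [m2] at l3 g3; rw [m1]
          constructor <;> nlinarith
    have : ((χ (σ - 1) - χ (σ - (2 - δ))) / (1 - δ)) - max (σ - 1) 0 =
        ((χ (σ - 1) - χ (σ - (2 - δ))) - (1 - δ) * max (σ - 1) 0) / (1 - δ) := by
      field_simp
    rw [this, abs_div, abs_of_pos hd, div_le_iff₀ hd]
    exact key

theorem hsum (σ : ℝ) : hA σ + hK σ + hB σ = 1 := by
  unfold hA hK hB
  rcases le_total σ 1 with h | h
  · rw [max_eq_left (by linarith), max_eq_right (by linarith), abs_of_nonpos (by linarith)]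
    ring
  · rw [max_eq_right (by linarith), max_eq_left (by linarith), abs_of_nonneg (by linarith)]
    ring

theorem hA_mem {σ : ℝ} (h0 : 0 ≤ σ) (h2 : σ ≤ 2) : 0 ≤ hA σ ∧ hA σ ≤ 1 ∧ 0 ≤ hB σ ∧ hB σ ≤ 1 ∧
    0 ≤ hK σ ∧ hK σ ≤ 1 := by
  unfold hA hK hB
  refine ⟨le_max_right _ _, max_le (by linarith) (by norm_num), le_max_right _ _,
    max_le (by linarith) (by norm_num), ?_, ?_⟩
  · have : |σ - 1| ≤ 1 := abs_le.2 ⟨by linarith, by linarith⟩
    linarith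
  · have := abs_nonneg (σ - 1)
    linarith

theorem norm_le_parts (z : ℂ) (a b : ℝ) (h1 : |z.re| ≤ a) (h2 : |z.im| ≤ b) : ‖z‖ ≤ a + b :=
  (Complex.norm_le_abs_re_add_abs_im z).trans (add_le_add h1 h2)

theorem clmul (t : ℝ) (w : ℂ) (a : ℝ) (h : ‖w‖ ≤ a) : ‖(cl t : ℂ) * w‖ ≤ a := by
  rw [norm_mul, Complex.norm_real, Real.norm_eq_abs, abs_of_nonneg (cl_nonneg t)]
  calc cl t * ‖w‖ ≤ 1 * ‖w‖ := mul_le_mul_of_nonneg_right (cl_le t) (norm_nonneg _)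
    _ ≤ a := by rw [one_mul]; exact h

theorem bA (t₁ t₂ t₃ : ℝ) : ‖(1 + cl t₁ * (-3 - I) + cl t₂ * (-1 - 8 * I)
  + cl t₃ * (4 + 9 * I) : ℂ)‖ ≤ 30 := by
  have h1 := clmul t₁ (-3 - I) 4 (by
    have := norm_le_parts (-3 - I) 3 1 (by norm_num) (by norm_num)
    linarith)
  have h2 := clmul t₂ (-1 - 8 * I) 9 (by
    have := norm_le_parts (-1 - 8 * I) 1 8 (by norm_num) (by norm_num)
    linarith)
  have h3 := clmul t₃ (4 + 9 * I) 13 (by
    have := norm_le_parts (4 + 9 * I) 4 9 (by norm_num) (by norm_num)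
    linarith)
  have h4 : ‖(1 : ℂ)‖ = 1 := norm_one
  calc _ ≤ ‖(1 + cl t₁ * (-3 - I) : ℂ)‖ + ‖(cl t₂ * (-1 - 8 * I) : ℂ)‖
        + ‖(cl t₃ * (4 + 9 * I) : ℂ)‖ := norm_add₃_le
    _ ≤ (‖(1 : ℂ)‖ + ‖(cl t₁ * (-3 - I) : ℂ)‖) + ‖(cl t₂ * (-1 - 8 * I) : ℂ)‖
        + ‖(cl t₃ * (4 + 9 * I) : ℂ)‖ := by gcongr; exact norm_add_le _ _
    _ ≤ 30 := by linarith

theorem bB (t₁ t₂ t₃ : ℝ) : ‖(1 + cl t₁ * (-4 + 9 * I) + cl t₂ * (1 - 8 * I)
  + cl t₃ * (3 - I) : ℂ)‖ ≤ 30 := by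
  have h1 := clmul t₁ (-4 + 9 * I) 13 (by
    have := norm_le_parts (-4 + 9 * I) 4 9 (by norm_num) (by norm_num)
    linarith)
  have h2 := clmul t₂ (1 - 8 * I) 9 (by
    have := norm_le_parts (1 - 8 * I) 1 8 (by norm_num) (by norm_num)
    linarith)
  have h3 := clmul t₃ (3 - I) 4 (by
    have := norm_le_parts (3 - I) 3 1 (by norm_num) (by norm_num)
    linarith)
  have h4 : ‖(1 : ℂ)‖ = 1 := norm_one
  calc _ ≤ ‖(1 + cl t₁ * (-4 + 9 * I) : ℂ)‖ + ‖(cl t₂ * (1 - 8 * I) : ℂ)‖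
        + ‖(cl t₃ * (3 - I) : ℂ)‖ := norm_add₃_le
    _ ≤ (‖(1 : ℂ)‖ + ‖(cl t₁ * (-4 + 9 * I) : ℂ)‖) + ‖(cl t₂ * (1 - 8 * I) : ℂ)‖
        + ‖(cl t₃ * (3 - I) : ℂ)‖ := by gcongr; exact norm_add_le _ _
    _ ≤ 30 := by linarith

theorem bK (θ : ℝ) : ‖VK0 θ‖ ≤ 30 := by
  unfold VK0
  have h1 := clmul (θ - 2) ((-1 + I) / 2) 2 (by
    have := norm_le_parts ((-1 + I) / 2) 1 1 (by norm_num [abs_le]) (by norm_num [abs_le])
    linarith)
  have h2 := clmul (θ - 3) ((-3 - I) / 2) 4 (by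
    have := norm_le_parts ((-3 - I) / 2) 3 1 (by norm_num [abs_le]) (by norm_num [abs_le])
    linarith)
  have h3 := clmul (θ - 6) ((3 - I) / 2) 4 (by
    have := norm_le_parts ((3 - I) / 2) 3 1 (by norm_num [abs_le]) (by norm_num [abs_le])
    linarith)
  have h4 := clmul (θ - 7) ((1 + I) / 2) 2 (by
    have := norm_le_parts ((1 + I) / 2) 1 1 (by norm_num [abs_le]) (by norm_num [abs_le])
    linarith)
  calc _ ≤ ‖(cl (θ - 2) * ((-1 + I) / 2) + cl (θ - 3) * ((-3 - I) / 2) : ℂ)‖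
        + ‖(cl (θ - 6) * ((3 - I) / 2) : ℂ)‖ + ‖(cl (θ - 7) * ((1 + I) / 2) : ℂ)‖ := norm_add₃_le
    _ ≤ (‖(cl (θ - 2) * ((-1 + I) / 2) : ℂ)‖ + ‖(cl (θ - 3) * ((-3 - I) / 2) : ℂ)‖)
        + ‖(cl (θ - 6) * ((3 - I) / 2) : ℂ)‖ + ‖(cl (θ - 7) * ((1 + I) / 2) : ℂ)‖ := by
          gcongr; exact norm_add_le _ _
    _ ≤ 30 := by linarith

theorem inner_bound (D : SData) (e : ℝ) (he : e ≤ 1 / 10) (hD : Close D e) (χ : ℝ → ℝ) (ε : ℝ)
    (h : Ramp χ ε) (hεδ : ε ≤ D.δ) (hεe : ε ≤ e) (σ x : ℝ) (h1 : ε < σ) (h2 : σ < 2 - ε) :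
    ∃ θ ∈ Icc (0 : ℝ) 10, ∃ k : ℤ,
      ‖D.Gin χ σ x - (hA σ * VA0 θ + hK σ * VK0 θ + hB σ * VB0 θ)‖ ≤ 1000 * e ∧
      |D.Kin χ σ x - k0in σ θ - k| ≤ 1000 * e := by
  obtain ⟨θ, hθ, k, a1, a2, a3, a4, a5, a6⟩ := hD.inner x
  have hε := h.pos
  have hδ := D.hδ
  have hδ2 := D.hδ2
  have e0 : 0 < e := by linarith
  obtain ⟨q1, q2⟩ := coeffs h D.δ e σ hδ hδ2 hD.δle hεe (by linarith) (by linarith)
  obtain ⟨r1, r2, r3, r4, r5, r6⟩ := hA_mem (σ := σ) (by linarith) (by linarith)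
  have hs := hsum σ
  set X1 := χ (σ - D.δ) with hX1
  set X2 := χ (σ - 1) with hX2
  set X3 := χ (σ - (2 - D.δ)) with hX3
  set c1 : ℝ := 1 - (X1 - X2) / (1 - D.δ) with hc1
  set c3 : ℝ := (X2 - X3) / (1 - D.δ) with hc3
  set c2 : ℝ := 1 - c1 - c3 with hc2
  have q1' := abs_le.1 q1
  have q2' := abs_le.1 q2
  have q3 : |c2 - hK σ| ≤ 10 * e := by
    rw [abs_le]
    constructor <;> linarith [q1'.1, q1'.2, q2'.1, q2'.2]
  have q3' := abs_le.1 q3
  have n1 : |c1| ≤ 2 := abs_le.2 ⟨by linarith [q1'.1], by linarith [q1'.2]⟩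
  have n2 : |c2| ≤ 2 := abs_le.2 ⟨by linarith [q3'.1], by linarith [q3'.2]⟩
  have n3 : |c3| ≤ 2 := abs_le.2 ⟨by linarith [q2'.1], by linarith [q2'.2]⟩
  have hd : (1 : ℝ) - D.δ ≠ 0 := by linarith
  have hdc : (1 : ℂ) - D.δ ≠ 0 := by exact_mod_cast hd
  refine ⟨θ, hθ, k, ?_, ?_⟩
  · set a : ℂ := D.κ * (D.A (D.α x) - D.cA) with ha
    set b : ℂ := D.κ * (D.B (D.β x) - D.cB) with hb
    have na : ‖(D.δ : ℂ) * a‖ ≤ e := by
      have := hD.coneA (D.α x)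
      have e1 : (D.δ : ℂ) * a = D.κ * D.δ * (D.A (D.α x) - D.cA) := by rw [ha]; ring
      rw [e1]; exact this
    have nb : ‖(D.δ : ℂ) * b‖ ≤ e := by
      have := hD.coneB (D.β x)
      have e1 : (D.δ : ℂ) * b = D.κ * D.δ * (D.B (D.β x) - D.cB) := by rw [hb]; ring
      rw [e1]; exact this
    have hAp : D.Ap (D.α x) = D.A (D.α x) - D.δ * a := by
      unfold SData.Ap; rw [ha]; ring
    have hBp : D.Bp (D.β x) = D.B (D.β x) - D.δ * b := by
      unfold SData.Bp; rw [hb]; ring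
    have y1 : 0 ≤ X1 - (σ - D.δ) ∧ X1 - (σ - D.δ) ≤ D.δ := by
      have s1 := h.symm (σ - D.δ)
      have s2 := ramp_nonneg h (-(σ - D.δ))
      have s3 := ramp_le h (-(σ - D.δ))
      have s4 : max (-(σ - D.δ)) 0 ≤ D.δ - ε := max_le (by linarith) (by linarith)
      constructor <;> linarith
    have y3 : 0 ≤ X3 ∧ X3 ≤ D.δ := by
      have s2 := ramp_nonneg h (σ - (2 - D.δ))
      have s3 := ramp_le h (σ - (2 - D.δ))
      have s4 : max (σ - (2 - D.δ)) 0 ≤ D.δ - ε := max_le (by linarith) (by linarith)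
      constructor <;> linarith
    have t1 : ‖((X1 - (σ - D.δ) : ℝ) : ℂ) * a‖ ≤ e := by
      rw [norm_mul, Complex.norm_real, Real.norm_eq_abs, abs_of_nonneg y1.1]
      rw [norm_mul, Complex.norm_real, Real.norm_eq_abs, abs_of_pos hδ] at na
      exact (mul_le_mul_of_nonneg_right y1.2 (norm_nonneg _)).trans na
    have t3 : ‖((X3 : ℝ) : ℂ) * b‖ ≤ e := by
      rw [norm_mul, Complex.norm_real, Real.norm_eq_abs, abs_of_nonneg y3.1]
      rw [norm_mul, Complex.norm_real, Real.norm_eq_abs, abs_of_pos hδ] at nb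
      exact (mul_le_mul_of_nonneg_right y3.2 (norm_nonneg _)).trans nb
    have d1 : ‖D.Ap (D.α x) - VA0 θ‖ ≤ 2 * e := by
      rw [hAp]
      calc ‖D.A (D.α x) - D.δ * a - VA0 θ‖ = ‖(D.A (D.α x) - VA0 θ) - D.δ * a‖ := by
            congr 1; ring
        _ ≤ ‖D.A (D.α x) - VA0 θ‖ + ‖(D.δ : ℂ) * a‖ := norm_sub_le _ _
        _ ≤ 2 * e := by linarith
    have d3 : ‖D.Bp (D.β x) - VB0 θ‖ ≤ 2 * e := by
      rw [hBp]
      calc ‖D.B (D.β x) - D.δ * b - VB0 θ‖ = ‖(D.B (D.β x) - VB0 θ) - D.δ * b‖ := by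
            congr 1; ring
        _ ≤ ‖D.B (D.β x) - VB0 θ‖ + ‖(D.δ : ℂ) * b‖ := norm_sub_le _ _
        _ ≤ 2 * e := by linarith
    have main := combo c1 c2 c3 (hA σ) (hK σ) (hB σ) e 30 (D.Ap (D.α x)) (D.K x) (D.Bp (D.β x))
      (VA0 θ) (VK0 θ) (VB0 θ) e0.le n1 n2 n3 (by linarith) q3 (by linarith) d1 (by linarith) d3
      (bA _ _ _) (bK θ) (bB _ _ _)
    have eG : D.Gin χ σ x = (c1 • D.Ap (D.α x) + c2 • D.K x + c3 • D.Bp (D.β x)) +
        (((X1 - (σ - D.δ) : ℝ) : ℂ) * a + ((X3 : ℝ) : ℂ) * b) := by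
      unfold SData.Gin SData.wA SData.wK SData.wB
      rw [← hX1, ← hX2, ← hX3, ← ha, ← hb]
      simp only [Complex.real_smul, hc2, hc1, hc3]
      push_cast
      field_simp
      ring
    rw [eG]
    simp only [Complex.real_smul] at main ⊢
    calc _ = ‖((c1 : ℂ) * D.Ap (D.α x) + c2 * D.K x + c3 * D.Bp (D.β x) -
          (hA σ * VA0 θ + hK σ * VK0 θ + hB σ * VB0 θ)) +
          (((X1 - (σ - D.δ) : ℝ) : ℂ) * a) + ((X3 : ℝ) : ℂ) * b‖ := by congr 1; ring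
      _ ≤ _ := norm_add₃_le
      _ ≤ 1000 * e := by linarith
  · have m1 : ‖(TA0 θ : ℝ)‖ ≤ 30 := by
      unfold TA0
      have := cl_nonneg (θ - 4); have := cl_nonneg (θ - 8); have := cl_nonneg (θ - 9)
      have := cl_le (θ - 4); have := cl_le (θ - 8); have := cl_le (θ - 9)
      rw [Real.norm_eq_abs, abs_le]; constructor <;> linarith
    have m2 : ‖(TK0 θ : ℝ)‖ ≤ 30 := by
      unfold TK0
      have := cl_nonneg (θ - 2); have := cl_nonneg (θ - 3); have := cl_nonneg (θ - 6)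
      have := cl_le (θ - 2); have := cl_le (θ - 3); have := cl_le (θ - 6)
      have := cl_nonneg (θ - 7); have := cl_le (θ - 7)
      rw [Real.norm_eq_abs, abs_le]; constructor <;> linarith
    have m3 : ‖(TB0 θ : ℝ)‖ ≤ 30 := by
      unfold TB0
      have := cl_nonneg θ; have := cl_nonneg (θ - 1); have := cl_nonneg (θ - 5)
      have := cl_le θ; have := cl_le (θ - 1); have := cl_le (θ - 5)
      rw [Real.norm_eq_abs, abs_le]; constructor <;> linarith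
    have main := combo c1 c2 c3 (hA σ) (hK σ) (hB σ) e 30 (D.TA (D.α x) - k) (D.TK x - k)
      (D.TB (D.β x) - k) (TA0 θ) (TK0 θ) (TB0 θ) e0.le n1 n2 n3 (by linarith) q3 (by linarith)
      (by rw [Real.norm_eq_abs, show D.TA (D.α x) - k - TA0 θ = D.TA (D.α x) - TA0 θ - k by ring]
          linarith)
      (by rw [Real.norm_eq_abs, show D.TK x - k - TK0 θ = D.TK x - TK0 θ - k by ring]
          linarith)
      (by rw [Real.norm_eq_abs, show D.TB (D.β x) - k - TB0 θ = D.TB (D.β x) - TB0 θ - k by ring]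
          linarith) m1 m2 m3
    have eK : D.Kin χ σ x - k0in σ θ - k = c1 • (D.TA (D.α x) - k) + c2 • (D.TK x - k) +
        c3 • (D.TB (D.β x) - k) - (hA σ • TA0 θ + hK σ • TK0 θ + hB σ • TB0 θ) := by
      unfold SData.Kin k0in
      rw [← hX1, ← hX2, ← hX3]
      simp only [smul_eq_mul, hc2, hc1, hc3]
      field_simp
      ring
    rw [eK, ← Real.norm_eq_abs]
    linarith

theorem outer_bound (D : SData) (e : ℝ) (he : e ≤ 1 / 10) (hD : Close D e) (χ : ℝ → ℝ) (ε : ℝ)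
    (h : Ramp χ ε) (hεδ : 2 * ε ≤ D.δ) (hεe : ε ≤ e) (σ y : ℝ) (h1 : 2 - ε ≤ σ) (h2 : σ ≤ 3 + ε) :
    ∃ σ' : ℝ, 2 ≤ σ' ∧ σ' ≤ 3 ∧ |σ - σ'| ≤ e ∧ ∃ θ ∈ Icc (0 : ℝ) 6, ∃ k : ℤ,
      ‖D.Gout χ σ y - ((3 - σ') * VBo θ + (σ' - 2) * VAo θ)‖ ≤ 1000 * e ∧
      |SData.zout χ σ - (5 - 2 * σ')| ≤ 1000 * e ∧
      |D.Kout χ σ y - k0out σ' θ - k| ≤ 1000 * e := by
  obtain ⟨θ, hθ, k, a1, a3, a4, a6⟩ := hD.outer y
  have hε := h.pos
  have hδ := D.hδ
  have hδ2 := D.hδ2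
  have e0 : 0 < e := by linarith
  have l2 := ramp_le h (σ - 2)
  have l3 := ramp_le h (σ - 3)
  have g2 := ramp_ge h (σ - 2)
  have g3 := ramp_ge h (σ - 3)
  obtain ⟨σ', hσ1, hσ2, hσ3, hσ4⟩ : ∃ σ' : ℝ, 2 ≤ σ' ∧ σ' ≤ 3 ∧ |σ - σ'| ≤ ε ∧
      max (σ - 2) 0 - max (σ - 3) 0 = σ' - 2 := by
    rcases le_total σ 2 with h5 | h5
    · refine ⟨2, le_rfl, by norm_num, abs_le.2 ⟨by linarith, by linarith⟩, ?_⟩
      rw [max_eq_right (by linarith), max_eq_right (by linarith)]; ring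
    · rcases le_total σ 3 with h6 | h6
      · refine ⟨σ, h5, h6, by simp [hε.le], ?_⟩
        rw [max_eq_left (by linarith), max_eq_right (by linarith)]; ring
      · refine ⟨3, by norm_num, le_rfl, abs_le.2 ⟨by linarith, by linarith⟩, ?_⟩
        rw [max_eq_left (by linarith), max_eq_left (by linarith)]; ring
  refine ⟨σ', hσ1, hσ2, hσ3.trans hεe, θ, hθ, k, ?_⟩
  set X := χ (σ - 2) with hX
  set Y := χ (σ - 3) with hY
  set c : ℝ := X - Y with hc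
  have q : |c - (σ' - 2)| ≤ ε := by
    rw [abs_le, ← hσ4, hc]; constructor <;> linarith
  have q' := abs_le.1 q
  have q'' := abs_le.1 hσ3
  have n1 : |1 - c| ≤ 2 := abs_le.2 ⟨by linarith [q'.1], by linarith [q'.2]⟩
  have n2 : |c| ≤ 2 := abs_le.2 ⟨by linarith [q'.1], by linarith [q'.2]⟩
  refine ⟨?_, ?_, ?_⟩
  · set a : ℂ := D.κ * (D.A y - D.cA) with ha
    set b : ℂ := D.κ * (D.B y - D.cB) with hb
    have na : ‖(D.δ : ℂ) * a‖ ≤ e := by
      have := hD.coneA y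
      have e1 : (D.δ : ℂ) * a = D.κ * D.δ * (D.A y - D.cA) := by rw [ha]; ring
      rw [e1]; exact this
    have nb : ‖(D.δ : ℂ) * b‖ ≤ e := by
      have := hD.coneB y
      have e1 : (D.δ : ℂ) * b = D.κ * D.δ * (D.B y - D.cB) := by rw [hb]; ring
      rw [e1]; exact this
    have y1 : 0 ≤ X - (σ - 2) ∧ X - (σ - 2) ≤ D.δ := by
      have s1 := h.symm (σ - 2)
      have s2 := ramp_nonneg h (-(σ - 2))
      have s3 := ramp_le h (-(σ - 2))
      have s4 : max (-(σ - 2)) 0 ≤ ε := max_le (by linarith) (by linarith)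
      constructor <;> linarith
    have y3 : 0 ≤ Y ∧ Y ≤ D.δ := by
      have s2 := ramp_nonneg h (σ - 3)
      have s3 := ramp_le h (σ - 3)
      have s4 : max (σ - 3) 0 ≤ ε := max_le (by linarith) (by linarith)
      constructor <;> linarith
    have t1 : ‖((X - (σ - 2) : ℝ) : ℂ) * b‖ ≤ e := by
      rw [norm_mul, Complex.norm_real, Real.norm_eq_abs, abs_of_nonneg y1.1]
      rw [norm_mul, Complex.norm_real, Real.norm_eq_abs, abs_of_pos hδ] at nb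
      exact (mul_le_mul_of_nonneg_right y1.2 (norm_nonneg _)).trans nb
    have t3 : ‖((Y : ℝ) : ℂ) * a‖ ≤ e := by
      rw [norm_mul, Complex.norm_real, Real.norm_eq_abs, abs_of_nonneg y3.1]
      rw [norm_mul, Complex.norm_real, Real.norm_eq_abs, abs_of_pos hδ] at na
      exact (mul_le_mul_of_nonneg_right y3.2 (norm_nonneg _)).trans na
    have main := combo (1 - c) c 0 (3 - σ') (σ' - 2) 0 e 30 (D.B y) (D.A y) 0
      (VBo θ) (VAo θ) 0 e0.le n1 n2 (by norm_num)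
      (by rw [abs_le]; constructor <;> linarith) (by rw [abs_le]; constructor <;> linarith)
      (by simpa using e0.le) (by linarith) (by linarith) (by simpa using e0.le)
      (bB _ _ _) (bA _ _ _) (by simp)
    have eG : D.Gout χ σ y = ((1 - c) • D.B y + c • D.A y) -
        (((X - (σ - 2) : ℝ) : ℂ) * b) - ((Y : ℝ) : ℂ) * a := by
      unfold SData.Gout
      rw [← hX, ← hY, ← ha, ← hb]
      simp only [Complex.real_smul, hc]
      push_cast
      ring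
    rw [eG]
    simp only [Complex.real_smul, smul_zero, zero_smul, add_zero] at main ⊢
    push_cast at main ⊢
    calc _ = ‖((1 - (c : ℂ)) * D.B y + c * D.A y -
          ((3 - σ') * VBo θ + (σ' - 2) * VAo θ)) -
          (((X - (σ - 2) : ℝ) : ℂ) * b) - ((Y : ℝ) : ℂ) * a‖ := by
            congr 1; push_cast; ring
      _ ≤ ‖((1 - (c : ℂ)) * D.B y + c * D.A y -
          ((3 - σ') * VBo θ + (σ' - 2) * VAo θ)) -
          (((X - (σ - 2) : ℝ) : ℂ) * b)‖ + ‖((Y : ℝ) : ℂ) * a‖ := norm_sub_le _ _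
      _ ≤ (‖((1 - (c : ℂ)) * D.B y + c * D.A y -
          ((3 - σ') * VBo θ + (σ' - 2) * VAo θ))‖ +
          ‖(((X - (σ - 2) : ℝ) : ℂ) * b)‖) + ‖((Y : ℝ) : ℂ) * a‖ := by
            gcongr; exact norm_sub_le _ _
      _ ≤ 1000 * e := by linarith
  · unfold SData.zout
    rw [← hX, ← hY, abs_le]
    constructor <;> linarith
  · have m1 : ‖(TAo θ : ℝ)‖ ≤ 30 := by
      unfold TAo
      have := cl_nonneg (θ - 1); have := cl_nonneg (θ - 2); have := cl_nonneg (θ - 5)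
      have := cl_le (θ - 1); have := cl_le (θ - 2); have := cl_le (θ - 5)
      rw [Real.norm_eq_abs, abs_le]; constructor <;> linarith
    have m3 : ‖(TBo θ : ℝ)‖ ≤ 30 := by
      unfold TBo
      have := cl_nonneg θ; have := cl_nonneg (θ - 3); have := cl_nonneg (θ - 4)
      have := cl_le θ; have := cl_le (θ - 3); have := cl_le (θ - 4)
      rw [Real.norm_eq_abs, abs_le]; constructor <;> linarith
    have main := combo (1 - c) c 0 (3 - σ') (σ' - 2) 0 e 30 (D.TB y - k) (D.TA y - k) 0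
      (TBo θ) (TAo θ) 0 e0.le n1 n2 (by norm_num)
      (by rw [abs_le]; constructor <;> linarith) (by rw [abs_le]; constructor <;> linarith)
      (by simpa using e0.le)
      (by rw [Real.norm_eq_abs, show D.TB y - k - TBo θ = D.TB y - TBo θ - k by ring]
          linarith)
      (by rw [Real.norm_eq_abs, show D.TA y - k - TAo θ = D.TA y - TAo θ - k by ring]
          linarith)
      (by simpa using e0.le) m3 m1 (by simp)
    have eK : D.Kout χ σ y - k0out σ' θ - k = (1 - c) • (D.TB y - k) + c • (D.TA y - k) +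
        (0 : ℝ) • (0 : ℝ) - ((3 - σ') • TBo θ + (σ' - 2) • TAo θ + (0 : ℝ) • (0 : ℝ)) := by
      unfold SData.Kout k0out
      rw [← hX, ← hY]
      simp only [smul_eq_mul, hc]
      ring
    rw [eK, ← Real.norm_eq_abs]
    linarith

/-! ### the torus -/

theorem tor_add_three (σ θ : ℝ) : tor (σ + 3) θ = tor σ θ := by
  unfold tor
  rw [show (σ + 3) / 3 = σ / 3 + 1 by ring]
  simp

theorem tor_add_int (σ θ : ℝ) (k : ℤ) : tor σ (θ + k) = tor σ θ := by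
  unfold tor
  congr 1
  rw [AddCircle.coe_add]
  have : ((k : ℝ) : AddCircle (1 : ℝ)) = 0 := by
    rw [AddCircle.coe_eq_zero_iff]
    exact ⟨k, by simp⟩
  rw [this, add_zero]

theorem dist_circle (a b : ℝ) :
    dist (a : AddCircle (1 : ℝ)) (b : AddCircle (1 : ℝ)) ≤ |a - b| := by
  rw [dist_eq_norm, ← AddCircle.coe_sub]
  have := QuotientAddGroup.norm_mk_le_norm (S := AddSubgroup.zmultiples (1 : ℝ)) (m := a - b)
  simpa using this

theorem dist_tor (σ θ σ' θ' : ℝ) : dist (tor σ θ) (tor σ' θ') ≤ max |σ - σ'| |θ - θ'| := by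
  unfold tor
  rw [Prod.dist_eq]
  apply max_le_max
  · refine (dist_circle _ _).trans ?_
    rw [← sub_div, abs_div]
    have := abs_nonneg (σ - σ')
    rw [abs_of_pos (by norm_num : (0 : ℝ) < 3)]
    linarith
  · exact dist_circle _ _

theorem exists_tor (x : AddCircle (1 : ℝ) × AddCircle (1 : ℝ)) :
    ∃ σ θ : ℝ, 0 ≤ σ ∧ σ < 3 ∧ x = tor σ θ := by
  obtain ⟨u, v⟩ := x
  have hu : u ∈ (fun x : ℝ => (x : AddCircle (1 : ℝ))) '' Ico 0 (0 + 1) := by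
    rw [AddCircle.coe_image_Ico_eq]
    trivial
  obtain ⟨a, ha, rfl⟩ := hu
  obtain ⟨b, rfl⟩ := QuotientAddGroup.mk_surjective v
  refine ⟨3 * a, b, by linarith [ha.1], by linarith [ha.2], ?_⟩
  unfold tor
  rw [mul_div_cancel_left₀ _ (by norm_num : (3 : ℝ) ≠ 0)]

theorem closeness (g : AddCircle (1 : ℝ) × AddCircle (1 : ℝ) → E3) (hg : Continuous g)
    (hgi : ∀ σ θ : ℝ, 0 ≤ σ → σ ≤ 2 → 0 ≤ θ → θ ≤ 10 → g (tor σ (k0in σ θ)) = f0in σ θ)
    (hgo : ∀ σ θ : ℝ, 2 ≤ σ → σ ≤ 3 → 0 ≤ θ → θ ≤ 6 → g (tor σ (k0out σ θ)) = f0out σ θ)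
    (e : ℝ) (he : 0 < e) :
    ∃ e' > 0, ∀ D : SData, Close D e' → ∃ ε0 > 0, ∀ (χ : ℝ → ℝ) (ε : ℝ), ε < ε0 → Ramp χ ε →
      ∀ f : AddCircle (1 : ℝ) × AddCircle (1 : ℝ) → E3,
      (∀ σ x : ℝ, ε < σ → σ < 2 - ε → f (tor σ (D.Kin χ σ x)) = D.Fin' χ (σ, x)) →
      (∀ σ y : ℝ, 2 - D.δ + ε < σ → σ < 3 + D.δ - ε →
        f (tor σ (D.Kout χ σ y)) = D.Fout χ (σ, y)) →
      ∀ x, dist (f x) (g x) < e := by
  have huc : UniformContinuous g := CompactSpace.uniformContinuous_of_continuous hg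
  obtain ⟨η, hη, hηg⟩ := Metric.uniformContinuous_iff.1 huc (e / 2) (by linarith)
  set e' : ℝ := min (1 / 10) (min (η / 2000) (e / 8000)) with he'
  have e'pos : 0 < e' := by positivity
  have e1 : e' ≤ 1 / 10 := min_le_left _ _
  have e2 : e' ≤ η / 2000 := (min_le_right _ _).trans (min_le_left _ _)
  have e3 : e' ≤ e / 8000 := (min_le_right _ _).trans (min_le_right _ _)
  refine ⟨e', e'pos, ?_⟩
  intro D hD
  have hδ := D.hδ
  have hδ2 := D.hδ2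
  refine ⟨min e' (D.δ / 2), lt_min e'pos (by linarith), ?_⟩
  intro χ ε hε hχ f hfi hfo x
  have hε0 := hχ.pos
  have hε1 : ε < e' := hε.trans_le (min_le_left _ _)
  have hε2 : ε < D.δ / 2 := hε.trans_le (min_le_right _ _)
  -- common part for the outer chart
  have outer : ∀ σ ϑ : ℝ, 2 - ε ≤ σ → σ ≤ 3 + ε → dist (f (tor σ ϑ)) (g (tor σ ϑ)) < e := by
    intro σ ϑ h1 h2
    obtain ⟨k1, k2, k3⟩ := Outer.Kout_smooth D χ ε (by linarith) hχ
    obtain ⟨Θ, -, hΘ, -⟩ := exists_inverse (D.Kout χ) k1 k2 k3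
    obtain ⟨y, hy⟩ : ∃ y, D.Kout χ σ y = ϑ := ⟨Θ σ ϑ, hΘ σ ϑ⟩
    have hf : f (tor σ ϑ) = D.Fout χ (σ, y) := by
      rw [← hy]; exact hfo σ y (by linarith) (by linarith)
    obtain ⟨σ', s1, s2, s3, θ, hθ, k, b1, b2, b3⟩ := outer_bound D e' e1 hD χ ε hχ (by linarith)
      hε1.le σ y h1 h2
    have hgg := hgo σ' θ s1 s2 hθ.1 hθ.2
    have d1 : dist (f (tor σ ϑ)) (g (tor σ' (k0out σ' θ))) ≤ 2000 * e' := by
      rw [hf, hgg]
      unfold SData.Fout f0out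
      refine (dist_pt _ _ _ _).trans ?_
      linarith
    have d2 : dist (tor σ' (k0out σ' θ)) (tor σ ϑ) < η := by
      rw [← tor_add_int σ' (k0out σ' θ) k]
      refine (dist_tor _ _ _ _).trans_lt ?_
      apply max_lt
      · rw [abs_sub_comm]; linarith
      · rw [abs_sub_comm, ← hy, show D.Kout χ σ y - (k0out σ' θ + k) =
          D.Kout χ σ y - k0out σ' θ - k by ring]
        linarith
    have d3 := hηg d2
    calc dist (f (tor σ ϑ)) (g (tor σ ϑ)) ≤ dist (f (tor σ ϑ)) (g (tor σ' (k0out σ' θ))) +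
          dist (g (tor σ' (k0out σ' θ))) (g (tor σ ϑ)) := dist_triangle _ _ _
      _ < e := by linarith
  obtain ⟨σ, ϑ, h0, h3, rfl⟩ := exists_tor x
  by_cases hs1 : ε < σ
  · by_cases hs2 : σ < 2 - ε
    · obtain ⟨k1, k2, k3⟩ := Kin_smooth D χ ε hχ
      obtain ⟨Θ, -, hΘ, -⟩ := exists_inverse (D.Kin χ) k1 k2 k3
      obtain ⟨y, hy⟩ : ∃ y, D.Kin χ σ y = ϑ := ⟨Θ σ ϑ, hΘ σ ϑ⟩
      have hf : f (tor σ ϑ) = D.Fin' χ (σ, y) := by
        rw [← hy]; exact hfi σ y (by linarith) (by linarith)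
      obtain ⟨θ, hθ, k, b1, b3⟩ := inner_bound D e' e1 hD χ ε hχ (by linarith)
        hε1.le σ y hs1 hs2
      have hgg := hgi σ θ h0 (by linarith) hθ.1 hθ.2
      have d1 : dist (f (tor σ ϑ)) (g (tor σ (k0in σ θ))) ≤ 2000 * e' := by
        rw [hf, hgg]
        unfold SData.Fin' f0in
        refine (dist_pt _ _ _ _).trans ?_
        simp only [sub_self, abs_zero]
        linarith
      have d2 : dist (tor σ (k0in σ θ)) (tor σ ϑ) < η := by
        rw [← tor_add_int σ (k0in σ θ) k]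
        refine (dist_tor _ _ _ _).trans_lt ?_
        apply max_lt
        · simpa using hη
        · rw [abs_sub_comm, ← hy, show D.Kin χ σ y - (k0in σ θ + k) =
            D.Kin χ σ y - k0in σ θ - k by ring]
          linarith
      have d3 := hηg d2
      calc dist (f (tor σ ϑ)) (g (tor σ ϑ)) ≤ dist (f (tor σ ϑ)) (g (tor σ (k0in σ θ))) +
            dist (g (tor σ (k0in σ θ))) (g (tor σ ϑ)) := dist_triangle _ _ _
        _ < e := by linarith
    · exact outer σ ϑ (by linarith) (by linarith)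
  · rw [← tor_add_three σ ϑ]
    exact outer (σ + 3) ϑ (by linarith) (by linarith)

end Pool.Agent.Csz.M9
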