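import Mathlib
import Pool.Agent.Csz.Defs
import Pool.Agent.Csz.PL
import Pool.Agent.Csz.M1
import Pool.Agent.Csz.M2
import Pool.Agent.Csz.M8
import Pool.Agent.Csz.M9
import Pool.Agent.Csz.Assemble
import Pool.Agent.Csz.Data

set_option autoImplicit false

open Complex Set Filter Topology

namespace Pool.Agent.Csz.Final

open Pool.Agent.Csz

theorem main :
    ∀ F : Set (Finset (Fin 7)),
      F = Set.range (fun i : Fin 7 => ({i, i + 1, i + 3} : Finset (Fin 7))) ∪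
          Set.range (fun i : Fin 7 => ({i, i + 2, i + 3} : Finset (Fin 7))) →
      ∃ v : Fin 7 → EuclideanSpace ℝ (Fin 3),
        (∀ σ ∈ F, AffineIndependent ℝ (fun k : (σ : Set (Fin 7)) => v k)) ∧
        (∀ σ ∈ F, ∀ τ ∈ F,
          convexHull ℝ (v '' (σ : Set (Fin 7))) ∩ convexHull ℝ (v '' (τ : Set (Fin 7))) =
            convexHull ℝ (v '' ((σ ∩ τ : Finset (Fin 7)) : Set (Fin 7)))) ∧
        ∃ g : AddCircle (1 : ℝ) × AddCircle (1 : ℝ) → EuclideanSpace ℝ (Fin 3),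
          Continuous g ∧ Function.Injective g ∧
          Set.range g = ⋃ σ ∈ F, convexHull ℝ (v '' (σ : Set (Fin 7))) ∧
          ∀ ε : ℝ, 0 < ε →
            ∃ f : AddCircle (1 : ℝ) × AddCircle (1 : ℝ) → EuclideanSpace ℝ (Fin 3),
              ContDiff ℝ (⊤ : ℕ∞)
                (fun p : ℝ × ℝ => f ((p.1 : AddCircle (1 : ℝ)), (p.2 : AddCircle (1 : ℝ)))) ∧
              (∀ p : ℝ × ℝ, Function.Injective
                (fderiv ℝ
                  (fun q : ℝ × ℝ => f ((q.1 : AddCircle (1 : ℝ)), (q.2 : AddCircle (1 : ℝ)))) p)) ∧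
              (∀ ℓ : EuclideanSpace ℝ (Fin 3) →L[ℝ] ℝ, ℓ ≠ 0 → ∀ c : ℝ,
                IsPreconnected {x | c < ℓ (f x)}) ∧
              ∀ x, dist (f x) (g x) < ε := by
  intro F hF
  have hF' : F = faces := hF
  subst hF'
  refine ⟨vert, M1.faces_indep, M1.faces_inter, ?_⟩
  obtain ⟨g, hg, hginj, hgr, hgi, hgo⟩ := M8.exists_g
  refine ⟨g, hg, hginj, hgr, ?_⟩
  intro e he
  obtain ⟨e', he', hclose⟩ := M9.closeness g hg hgi hgo e he
  obtain ⟨D, hD⟩ := exists_data e' he'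
  obtain ⟨ε1, hε1, h1⟩ := hclose D hD
  obtain ⟨ε2, hε2, h2⟩ := Assemble.smooth_torus D
  obtain ⟨χ, hχ⟩ := M2.exists_ramp (min ε1 ε2 / 2) (by positivity)
  have l1 : min ε1 ε2 / 2 < ε1 := by
    have := min_le_left ε1 ε2
    have : 0 < min ε1 ε2 := lt_min hε1 hε2
    linarith
  have l2 : min ε1 ε2 / 2 < ε2 := by
    have := min_le_right ε1 ε2
    have : 0 < min ε1 ε2 := lt_min hε1 hε2
    linarith
  obtain ⟨f, hf, himm, htpp, hfi, hfo⟩ := h2 χ _ l2 hχ
  exact ⟨f, hf, himm, htpp, h1 χ _ l1 hχ f hfi hfo⟩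

end Pool.Agent.Csz.Final
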